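import Pool.Agent.V8H82.PF.PosN

/-!
# Positivity of the twist about a separating curve
-/

set_option autoImplicit false
set_option linter.unusedSectionVars false
set_option linter.unusedVariables false

namespace Pool.Agent.V8H82.PF

open Pool.Agent.N513.PF

variable {α : Type} [DecidableEq α] {n : ℕ} {p : α × Bool → ℕ}

/-- the inverse word -/
def ri (U : List (α × Bool)) : List (α × Bool) := (U.map iv).reverse

lemma ri_cons (l : α × Bool) (U : List (α × Bool)) : ri (l :: U) = ri U ++ [iv l] := by
  unfold ri
  simp

lemma mk_ri (U : List (α × Bool)) : FreeGroup.mk (ri U) = (FreeGroup.mk U)⁻¹ := by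
  induction U with
  | nil =>
    show FreeGroup.mk [] = (FreeGroup.mk [])⁻¹
    have e : (FreeGroup.mk ([] : List (α × Bool))) = 1 := rfl
    rw [e, inv_one]
  | cons l U ih =>
    rw [ri_cons, mk_app, ih, mk_cons l U, mul_inv_rev, ← G_inv]
    rfl

/-- a path that always takes the next direction; from `q` to `r` -/
def PU (p : α × Bool → ℕ) : ℕ → List (α × Bool) → ℕ → Prop
  | q, [], r => q = r
  | q, l :: w, r => p l = q + 1 ∧ PU p (p (iv l)) w r

/-- a path that always takes the previous direction -/
def PT (p : α × Bool → ℕ) : ℕ → List (α × Bool) → ℕ → Prop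
  | q, [], r => q = r
  | q, l :: w, r => p l + 1 = q ∧ PT p (p (iv l)) w r

lemma PT.append {q r s : ℕ} {w v : List (α × Bool)} (h : PT p q w r) (h' : PT p r v s) :
    PT p q (w ++ v) s := by
  induction w generalizing q with
  | nil =>
    have : q = r := h
    rw [this]
    exact h'
  | cons l w ih => exact ⟨h.1, ih h.2⟩

lemma PU.ri {q r : ℕ} {U : List (α × Bool)} (h : PU p q U r) : PT p (r + 1) (ri U) (q + 1) := by
  induction U generalizing q with
  | nil =>
    have : q = r := h
    rw [this]
    rfl
  | cons l U ih =>
    rw [ri_cons]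
    refine (ih h.2).append ⟨rfl, ?_⟩
    show p (iv (iv l)) = q + 1
    rw [iv_iv]
    exact h.1

lemma PU.red {q r : ℕ} {s : List (α × Bool)} (hs : PU p q s r) : FreeGroup.IsReduced s := by
  induction s generalizing q with
  | nil => exact FreeGroup.IsReduced.nil
  | cons l s ih =>
    refine red_cons (ih hs.2) fun t ht => ?_
    have h1 := hs.2
    rw [ht] at h1
    have := h1.1
    omega

lemma PT.red {q r : ℕ} {s : List (α × Bool)} (hs : PT p q s r) : FreeGroup.IsReduced s := by
  induction s generalizing q with
  | nil => exact FreeGroup.IsReduced.nil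
  | cons l s ih =>
    refine red_cons (ih hs.2) fun t ht => ?_
    have h1 := hs.2
    rw [ht] at h1
    have := h1.1
    omega

/-- the tail of a reduced word does not turn back -/
lemma hd_tail (h : Arr n p) {l : α × Bool} {w : List (α × Bool)}
    (hw : FreeGroup.IsReduced (l :: w)) : hd p w ≠ p (iv l) := by
  cases w with
  | nil => exact (h.lo _).ne
  | cons m w =>
    intro h1
    have h2 : m = iv l := h.inj h1
    have e1 : (FreeGroup.mk (l :: m :: w)).toWord = l :: m :: w := mk_word hw
    exact red_ne e1 h2

lemma red_tail {l : α × Bool} {w : List (α × Bool)} (hw : FreeGroup.IsReduced (l :: w)) :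
    FreeGroup.IsReduced w := red_sub hw ⟨[l], [], by simp⟩

/-- minimality -/
lemma PU.min (h : Arr n p) {q r : ℕ} {U : List (α × Bool)} (hU : PU p q U r) (hq : q < n)
    (s : List (α × Bool)) (hs : FreeGroup.IsReduced s) (hs1 : hd p s ≠ q) :
    (∃ z, s = U ++ z) ∨ ∀ z, ltp n p q (U ++ z) s := by
  induction U generalizing q s with
  | nil => exact Or.inl ⟨s, rfl⟩
  | cons l U ih =>
    obtain ⟨h1, h2⟩ := hU
    have h3 := h.hi l
    cases s with
    | nil =>
      right
      intro z
      rw [List.cons_append, ltp_iff h hq]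
      left
      simp only [hd] at hs1 ⊢
      rw [key_val hq h.n0, key_val hq h3]
      split_ifs <;> omega
    | cons m s =>
      have h4 := h.hi m
      by_cases hlm : m = l
      · subst hlm
        rcases ih h2 (h.hi _) s (red_tail hs) (hd_tail h hs) with ⟨z, hz⟩ | h5
        · left
          exact ⟨z, by rw [hz]; rfl⟩
        · right
          intro z
          rw [List.cons_append, ltp_iff h hq]
          right
          exact ⟨rfl, h5 z⟩
      · right
        intro z
        rw [List.cons_append, ltp_iff h hq]
        left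
        have h5 : p m ≠ p l := fun h6 => hlm (h.inj h6)
        simp only [hd] at hs1 ⊢
        rw [key_val hq h3, key_val hq h4]
        split_ifs <;> omega

/-- maximality -/
lemma PT.max (h : Arr n p) {q r : ℕ} {T : List (α × Bool)} (hT : PT p q T r) (hq : q < n)
    (s : List (α × Bool)) (hs : FreeGroup.IsReduced s) (hs1 : hd p s ≠ q) :
    (∃ z, s = T ++ z) ∨ ∀ z, ltp n p q s (T ++ z) := by
  induction T generalizing q s with
  | nil => exact Or.inl ⟨s, rfl⟩
  | cons l T ih =>
    obtain ⟨h1, h2⟩ := hT
    have h3 := h.hi l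
    have h3' := h.lo l
    cases s with
    | nil =>
      right
      intro z
      rw [List.cons_append, ltp_iff h hq]
      left
      simp only [hd] at hs1 ⊢
      rw [key_val hq h.n0, key_val hq h3]
      split_ifs <;> omega
    | cons m s =>
      have h4 := h.hi m
      by_cases hlm : m = l
      · subst hlm
        rcases ih h2 (h.hi _) s (red_tail hs) (hd_tail h hs) with ⟨z, hz⟩ | h5
        · left
          exact ⟨z, by rw [hz]; rfl⟩
        · right
          intro z
          rw [List.cons_append, ltp_iff h hq]
          right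
          exact ⟨rfl, h5 z⟩
      · right
        intro z
        rw [List.cons_append, ltp_iff h hq]
        left
        have h5 : p m ≠ p l := fun h6 => hlm (h.inj h6)
        simp only [hd] at hs1 ⊢
        rw [key_val hq h3, key_val hq h4]
        split_ifs <;> omega

/-- the data of a block -/
structure Blk (n : ℕ) (p : α × Bool → ℕ) (a r : ℕ) (U : List (α × Bool)) : Prop where
  arr : Arr n p
  iv : ∀ l, a < p l → p l ≤ r → a < p (iv l) ∧ p (iv l) ≤ r
  ne : U ≠ []
  pu : PU p a U r
  ui : ∀ l ∈ U, a < p l ∧ p l ≤ r
  al : ∀ l, a < p l → p l ≤ r → l ∈ U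
  nd : U.Nodup

namespace Blk

variable {a r : ℕ} {U : List (α × Bool)}

/-- the element starts in the block -/
def Ist (p : α × Bool → ℕ) (a r : ℕ) (x : FreeGroup α) : Prop :=
  a < hd p x.toWord ∧ hd p x.toWord ≤ r

/-- the elements of the block -/
def KK (p : α × Bool → ℕ) (a r : ℕ) (x : FreeGroup α) : Prop :=
  ∃ w : List (α × Bool), (∀ l ∈ w, a < p l ∧ p l ≤ r) ∧ FreeGroup.mk w = x

lemma KK.let {x : FreeGroup α} (h : KK p a r x) : ∀ l ∈ x.toWord, a < p l ∧ p l ≤ r := by
  obtain ⟨w, h1, rfl⟩ := h
  intro l hl
  rw [FreeGroup.toWord_mk] at hl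
  exact h1 l (FreeGroup.Red.sublist (FreeGroup.reduce.red (L := w)) |>.subset hl)

lemma KK.one : KK p a r (1 : FreeGroup α) := ⟨[], fun l hl => by simp at hl, rfl⟩

lemma KK.mul {x y : FreeGroup α} (hx : KK p a r x) (hy : KK p a r y) : KK p a r (x * y) := by
  obtain ⟨w, h1, rfl⟩ := hx
  obtain ⟨v, h2, rfl⟩ := hy
  refine ⟨w ++ v, fun l hl => ?_, mk_app w v⟩
  rcases List.mem_append.1 hl with h3 | h3
  · exact h1 l h3
  · exact h2 l h3

lemma ist_of (h : Blk n p a r U) {x : FreeGroup α} (hx : KK p a r x) (h1 : x ≠ 1) :
    Ist p a r x := by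
  cases hw : x.toWord with
  | nil => exact absurd (FreeGroup.toWord_eq_nil_iff.1 hw) h1
  | cons l s =>
    unfold Ist
    rw [hw]
    exact hx.let l (by rw [hw]; simp)

lemma KK.inv (h : Blk n p a r U) {x : FreeGroup α} (hx : KK p a r x) : KK p a r x⁻¹ := by
  obtain ⟨w, h1, rfl⟩ := hx
  refine ⟨ri w, fun l hl => ?_, mk_ri w⟩
  unfold ri at hl
  rw [List.mem_reverse, List.mem_map] at hl
  obtain ⟨m, h2, rfl⟩ := hl
  exact h.iv m (h1 m h2).1 (h1 m h2).2

lemma ku (h : Blk n p a r U) : KK p a r (FreeGroup.mk U) := ⟨U, h.ui, rfl⟩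

lemma kui (h : Blk n p a r U) : KK p a r (FreeGroup.mk U)⁻¹ := KK.inv h h.ku

lemma ured (h : Blk n p a r U) : FreeGroup.IsReduced U := h.pu.red

lemma tred (h : Blk n p a r U) : FreeGroup.IsReduced (ri U) := h.pu.ri.red

lemma uword (h : Blk n p a r U) : (FreeGroup.mk U).toWord = U := mk_word h.ured

lemma tword (h : Blk n p a r U) : ((FreeGroup.mk U)⁻¹).toWord = ri U := by
  rw [← mk_ri]
  exact mk_word h.tred

lemma une (h : Blk n p a r U) : FreeGroup.mk U ≠ 1 := mk_ne_one h.ured h.ne

/-- a block word followed by a word that starts outside is reduced -/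
lemma red_app (h : Blk n p a r U) {s t : List (α × Bool)} (hs : FreeGroup.IsReduced s)
    (hsI : ∀ l ∈ s, a < p l ∧ p l ≤ r) (ht : FreeGroup.IsReduced t)
    (htO : ¬ (a < hd p t ∧ hd p t ≤ r)) : FreeGroup.IsReduced (s ++ t) := by
  induction s with
  | nil => exact ht
  | cons c s ih =>
    rw [List.cons_append]
    refine red_cons (ih (red_tail hs) fun l hl => hsI l (List.mem_cons_of_mem _ hl)) fun w hw => ?_
    have hc := hsI c (by simp)
    have hc' := h.iv c hc.1 hc.2
    cases s with
    | nil =>
      rw [List.nil_append] at hw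
      rw [hw] at htO
      exact htO hc'
    | cons d s =>
      rw [List.cons_append] at hw
      have h1 := (List.cons.inj hw).1
      have e1 : (FreeGroup.mk (c :: d :: s)).toWord = c :: d :: s := mk_word hs
      exact red_ne e1 h1

lemma word_mul (h : Blk n p a r U) {k y : FreeGroup α} (hk : KK p a r k) (hy : ¬ Ist p a r y) :
    (k * y).toWord = k.toWord ++ y.toWord := by
  have h1 : k * y = FreeGroup.mk (k.toWord ++ y.toWord) := by
    rw [mk_app, FreeGroup.mk_toWord, FreeGroup.mk_toWord]
  rw [h1]
  exact mk_word (h.red_app FreeGroup.isReduced_toWord hk.let FreeGroup.isReduced_toWord hy)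

lemma ist_mul (h : Blk n p a r U) {k y : FreeGroup α} (hk : KK p a r k) (h1 : k ≠ 1)
    (hy : ¬ Ist p a r y) : Ist p a r (k * y) := by
  have h2 := h.ist_of hk h1
  unfold Ist at *
  rw [h.word_mul hk hy]
  cases hw : k.toWord with
  | nil => exact absurd (FreeGroup.toWord_eq_nil_iff.1 hw) h1
  | cons l s =>
    rw [hw] at h2
    exact h2

/-- the first letter -/
lemma first (h : Blk n p a r U) : ∃ f U', U = f :: U' ∧ p f = a + 1 := by
  obtain ⟨f, U', hU⟩ := List.exists_cons_of_ne_nil h.ne
  have := h.pu
  rw [hU] at this
  exact ⟨f, U', hU, this.1⟩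

/-- the first letter of the inverse word -/
lemma firstT (h : Blk n p a r U) : ∃ f T', ri U = f :: T' ∧ p f = r := by
  have h1 : ri U ≠ [] := by
    obtain ⟨f, U', hU, -⟩ := h.first
    rw [hU, ri_cons]
    simp
  obtain ⟨f, U', hU⟩ := List.exists_cons_of_ne_nil h1
  have := h.pu.ri
  rw [hU] at this
  have h2 := this.1
  exact ⟨f, U', hU, by omega⟩

lemma wide (h : Blk n p a r U) : a + 1 < r := by
  obtain ⟨f, U', hU, hf⟩ := h.first
  have h1 := h.ui f (by rw [hU]; simp)
  have h2 := h.iv f h1.1 h1.2
  have h3 : p (Pool.Agent.N513.PF.iv f) ≠ p f := fun h4 => iv_ne f (h.arr.inj h4)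
  omega

lemma rlt (h : Blk n p a r U) : r < n := by
  obtain ⟨f, T', hT, hf⟩ := h.firstT
  have := h.arr.hi f
  omega

/-- `U` is minimal in the block -/
lemma minw (h : Blk n p a r U) {s : List (α × Bool)} (hs : FreeGroup.IsReduced s)
    (h1 : a < hd p s) (h2 : hd p s ≤ r) :
    (∃ z, s = U ++ z) ∨ ∀ z, ltp n p 0 (U ++ z) s := by
  obtain ⟨f, U', hU, hf⟩ := h.first
  have hpu := h.pu
  rw [hU] at hpu
  cases s with
  | nil =>
    simp only [hd] at h1
    omega
  | cons m s =>
    simp only [hd] at h1 h2
    by_cases hm : m = f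
    · subst hm
      rcases hpu.2.min h.arr (h.arr.hi _) s (red_tail hs) (hd_tail h.arr hs) with ⟨z, hz⟩ | h5
      · left
        exact ⟨z, by rw [hz, hU]; rfl⟩
      · right
        intro z
        rw [hU, List.cons_append, ltp_iff h.arr h.arr.n0]
        right
        exact ⟨rfl, h5 z⟩
    · right
      intro z
      rw [hU, List.cons_append, ltp_iff h.arr h.arr.n0]
      left
      have h5 : p m ≠ p f := fun h6 => hm (h.arr.inj h6)
      simp only [hd]
      rw [key_zero (h.arr.hi f), key_zero (h.arr.hi m)]
      omega

/-- the inverse of `U` is maximal in the block -/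
lemma maxw (h : Blk n p a r U) {s : List (α × Bool)} (hs : FreeGroup.IsReduced s)
    (h1 : a < hd p s) (h2 : hd p s ≤ r) :
    (∃ z, s = ri U ++ z) ∨ ∀ z, ltp n p 0 s (ri U ++ z) := by
  obtain ⟨f, U', hU, hf⟩ := h.firstT
  have hpu := h.pu.ri
  rw [hU] at hpu
  cases s with
  | nil =>
    simp only [hd] at h1
    omega
  | cons m s =>
    simp only [hd] at h1 h2
    by_cases hm : m = f
    · subst hm
      rcases hpu.2.max h.arr (h.arr.hi _) s (red_tail hs) (hd_tail h.arr hs) with ⟨z, hz⟩ | h5
      · left
        exact ⟨z, by rw [hz, hU]; rfl⟩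
      · right
        intro z
        rw [hU, List.cons_append, ltp_iff h.arr h.arr.n0]
        right
        exact ⟨rfl, h5 z⟩
    · right
      intro z
      rw [hU, List.cons_append, ltp_iff h.arr h.arr.n0]
      left
      have h5 : p m ≠ p f := fun h6 => hm (h.arr.inj h6)
      simp only [hd]
      rw [key_zero (h.arr.hi f), key_zero (h.arr.hi m)]
      omega

/-- a block word that is a prefix of `k y` is a prefix of `k` -/
lemma pre (h : Blk n p a r U) {V s t z : List (α × Bool)} (hV : ∀ l ∈ V, a < p l ∧ p l ≤ r)
    (htO : ¬ (a < hd p t ∧ hd p t ≤ r)) (he : s ++ t = V ++ z) :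
    ∃ z', s = V ++ z' ∧ z = z' ++ t := by
  rcases List.append_eq_append_iff.1 he with ⟨c, h1, h2⟩ | ⟨c, h1, h2⟩
  · -- V = s ++ c, t = c ++ z
    cases c with
    | nil =>
      rw [List.append_nil] at h1
      rw [List.nil_append] at h2
      exact ⟨[], by rw [List.append_nil, h1], by rw [h2]; rfl⟩
    | cons m c =>
      exfalso
      apply htO
      rw [h2]
      exact hV m (by rw [h1]; simp)
  · exact ⟨c, h1, h2⟩

lemma ltmin (h : Blk n p a r U) {k y z : FreeGroup α} (hk : KK p a r k) (h1 : k ≠ 1)
    (h2 : k ≠ FreeGroup.mk U) (hy : ¬ Ist p a r y) (hz : ¬ Ist p a r z) :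
    lt n p (FreeGroup.mk U * z) (k * y) := by
  have hI := h.ist_mul hk h1 hy
  unfold lt
  rw [h.word_mul h.ku hz, h.uword]
  rcases h.minw (s := (k * y).toWord) FreeGroup.isReduced_toWord hI.1 hI.2 with ⟨v, hv⟩ | h3
  · rw [h.word_mul hk hy] at hv
    obtain ⟨z', h4, h5⟩ := h.pre h.ui hy hv
    rw [h.word_mul hk hy, hv]
    have hz' : z' ≠ [] := by
      rintro rfl
      apply h2
      rw [List.append_nil] at h4
      rw [← h4, FreeGroup.mk_toWord]
    obtain ⟨m, z'', rfl⟩ := List.exists_cons_of_ne_nil hz'
    have hm := hk.let m (by rw [h4]; simp)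
    -- the last letter of `U`
    obtain ⟨f, T', hT, hf⟩ := h.firstT
    have hU : U = ri T' ++ [Pool.Agent.N513.PF.iv f] := by
      have e1 : ri (ri U) = U := by
        unfold ri
        rw [List.map_reverse, List.reverse_reverse, List.map_map]
        have : (Pool.Agent.N513.PF.iv ∘ Pool.Agent.N513.PF.iv : α × Bool → α × Bool) = id := by
          funext l
          simp
        rw [this, List.map_id]
      rw [← e1, hT, ri_cons]
    have hmf : m ≠ f := by
      rintro rfl
      have h6 : FreeGroup.IsReduced k.toWord := FreeGroup.isReduced_toWord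
      rw [h4, hU] at h6
      have h7 : FreeGroup.IsReduced (Pool.Agent.N513.PF.iv m :: m :: z'') :=
        red_sub h6 ⟨ri T', [], by simp⟩
      have e1 : (FreeGroup.mk (Pool.Agent.N513.PF.iv m :: m :: z'')).toWord = _ := mk_word h7
      exact red_ne e1 (iv_iv m).symm
    have hmf' : p m ≠ r := fun h6 => hmf (h.arr.inj (by rw [h6, hf]))
    rw [hU, List.append_assoc, List.append_assoc]
    show ltp n p 0 (ri T' ++ Pool.Agent.N513.PF.iv f :: z.toWord)
      (ri T' ++ Pool.Agent.N513.PF.iv f :: v)
    rw [ltp_append, iv_iv, hf, ltp_iff h.arr h.rlt]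
    left
    rw [h5]
    show key n r (hd p z.toWord) < key n r (p m)
    have b1 := hd_lt h.arr z.toWord
    have b2 := h.arr.hi m
    unfold Ist at hz
    have b4 := h.rlt
    rw [key_val h.rlt b1, key_val h.rlt b2]
    split_ifs <;> omega
  · exact h3 _

lemma ltmax (h : Blk n p a r U) {k y z : FreeGroup α} (hk : KK p a r k) (h1 : k ≠ 1)
    (h2 : k ≠ (FreeGroup.mk U)⁻¹) (hy : ¬ Ist p a r y) (hz : ¬ Ist p a r z) :
    lt n p (k * y) ((FreeGroup.mk U)⁻¹ * z) := by
  have hI := h.ist_mul hk h1 hy
  unfold lt
  rw [h.word_mul h.kui hz, h.tword]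
  rcases h.maxw (s := (k * y).toWord) FreeGroup.isReduced_toWord hI.1 hI.2 with ⟨v, hv⟩ | h3
  · rw [h.word_mul hk hy] at hv
    obtain ⟨z', h4, h5⟩ := h.pre (by
      have := h.kui.let
      rw [h.tword] at this
      exact this) hy hv
    rw [h.word_mul hk hy, hv]
    have hz' : z' ≠ [] := by
      rintro rfl
      apply h2
      rw [List.append_nil] at h4
      rw [← mk_ri, ← h4, FreeGroup.mk_toWord]
    obtain ⟨m, z'', rfl⟩ := List.exists_cons_of_ne_nil hz'
    have hm := hk.let m (by rw [h4]; simp)
    -- the last letter of the inverse word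
    obtain ⟨f, U', hU, hf⟩ := h.first
    have hT : ri U = ri U' ++ [Pool.Agent.N513.PF.iv f] := by rw [hU, ri_cons]
    have hmf : m ≠ f := by
      rintro rfl
      have h6 : FreeGroup.IsReduced k.toWord := FreeGroup.isReduced_toWord
      rw [h4, hT] at h6
      have h7 : FreeGroup.IsReduced (Pool.Agent.N513.PF.iv m :: m :: z'') :=
        red_sub h6 ⟨ri U', [], by simp⟩
      have e1 : (FreeGroup.mk (Pool.Agent.N513.PF.iv m :: m :: z'')).toWord = _ := mk_word h7
      exact red_ne e1 (iv_iv m).symm
    have hmf' : p m ≠ a + 1 := fun h6 => hmf (h.arr.inj (by rw [h6, hf]))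
    rw [hT, List.append_assoc, List.append_assoc]
    show ltp n p 0 (ri U' ++ Pool.Agent.N513.PF.iv f :: v)
      (ri U' ++ Pool.Agent.N513.PF.iv f :: z.toWord)
    have b0 := h.arr.hi f
    rw [ltp_append, iv_iv, ltp_iff h.arr b0]
    left
    rw [h5]
    show key n (p f) (p m) < key n (p f) (hd p z.toWord)
    have b1 := hd_lt h.arr z.toWord
    have b2 := h.arr.hi m
    unfold Ist at hz
    have b3 := h.wide
    have b4 := h.rlt
    rw [key_val b0 b1, key_val b0 b2]
    split_ifs <;> omega
  · exact h3 _

lemma not_lt_one (h : Blk n p a r U) (x : FreeGroup α) : ¬ lt n p x 1 := by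
  intro h1
  by_cases h2 : x = 1
  · rw [h2] at h1
    exact Pool.Agent.N513.PF.lt_irrefl _ h1
  · exact Pool.Agent.N513.PF.lt_asymm h1 (one_lt h.arr h2)

lemma cyc_one (h : Blk n p a r U) {x y : FreeGroup α} (hc : Cyc (lt n p) x y 1) : lt n p x y := by
  rcases hc with ⟨h1, h2⟩ | ⟨h1, h2⟩ | ⟨h1, h2⟩
  · exact h1
  · exact absurd h1 (h.not_lt_one _)
  · exact h2

lemma out_one (h : Blk n p a r U) : ¬ Ist p a r (1 : FreeGroup α) := by
  unfold Ist
  rw [FreeGroup.toWord_one]
  simp only [hd]
  omega

/-- right multiplication by `u` -/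
lemma stepb (h : Blk n p a r U) {t y : FreeGroup α} (ht : KK p a r t) (h1 : t ≠ 1)
    (h2 : t ≠ (FreeGroup.mk U)⁻¹) (hy : ¬ Ist p a r y) :
    lt n p (t * y) (t * (FreeGroup.mk U * y)) := by
  have k1 : t⁻¹ ≠ 1 := fun h3 => h1 (inv_eq_one.1 h3)
  have k2 : t⁻¹ ≠ FreeGroup.mk U := fun h3 => h2 (by rw [← h3, inv_inv])
  have h3 := h.ltmin (KK.inv h ht) k1 k2 h.out_one hy
  rw [mul_one] at h3
  have h4 := h.ist_of (KK.inv h ht) k1
  have h5 := h.ist_mul h.ku h.une hy
  have hc : Cyc (lt n p) y (FreeGroup.mk U * y) t⁻¹ := by
    unfold Ist at *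
    by_cases h6 : hd p y.toWord ≤ a
    · exact Or.inl ⟨lt_of_hd h.arr (by omega), h3⟩
    · exact Or.inr (Or.inl ⟨h3, lt_of_hd h.arr (by omega)⟩)
  have := cyc_mul h.arr t hc
  rw [mul_inv_cancel] at this
  exact h.cyc_one this

/-- cancellation against the inverse word -/
lemma canc {V : List (α × Bool)} (hV : FreeGroup.IsReduced (ri V)) (hne : V ≠ [])
    {s : List (α × Bool)} (hs : FreeGroup.IsReduced s) (hp : ∀ z, s ≠ V ++ z) :
    ∃ c, (ri V).head? = some c ∧ ∃ w,
      (FreeGroup.mk (ri V) * FreeGroup.mk s).toWord = c :: w := by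
  induction V generalizing s with
  | nil => exact absurd rfl hne
  | cons f V ih =>
    rw [ri_cons] at hV ⊢
    by_cases h1 : ∃ s', s = f :: s'
    · obtain ⟨s', rfl⟩ := h1
      have hVne : V ≠ [] := by
        rintro rfl
        exact hp s' rfl
      have hV' : FreeGroup.IsReduced (ri V) := red_sub hV ⟨[], [Pool.Agent.N513.PF.iv f], by simp⟩
      obtain ⟨c, hc, w, hw⟩ := ih hV' hVne (red_tail hs) (fun z hz => hp z (by rw [hz]; rfl))
      refine ⟨c, ?_, w, ?_⟩
      · rw [List.head?_append, hc]
        rfl
      · rw [mk_app, mk_cons f s', mul_assoc]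
        have e1 : FreeGroup.mk [Pool.Agent.N513.PF.iv f] * (G f * FreeGroup.mk s') =
            FreeGroup.mk s' := G_iv_mul f _
        rw [e1]
        exact hw
    · have h2 : FreeGroup.IsReduced (ri V ++ [Pool.Agent.N513.PF.iv f] ++ s) := by
        have h3 : ∀ (A : List (α × Bool)) (c : α × Bool), FreeGroup.IsReduced (A ++ [c]) →
            (∀ z, s ≠ Pool.Agent.N513.PF.iv c :: z) → FreeGroup.IsReduced (A ++ [c] ++ s) := by
          intro A c hA hc
          induction A with
          | nil => exact red_cons hs hc
          | cons d A ihA =>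
            rw [List.cons_append, List.cons_append]
            refine red_cons (ihA (red_tail hA)) fun z hz => ?_
            cases A with
            | nil =>
              have h4 : c = Pool.Agent.N513.PF.iv d := (List.cons.inj hz).1
              have e1 : (FreeGroup.mk (d :: [c])).toWord = d :: [c] := mk_word hA
              exact red_ne e1 h4
            | cons b A =>
              have h4 : b = Pool.Agent.N513.PF.iv d := (List.cons.inj hz).1
              have e1 : (FreeGroup.mk (d :: b :: (A ++ [c]))).toWord = d :: b :: (A ++ [c]) :=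
                mk_word hA
              exact red_ne e1 h4
        refine h3 _ _ hV fun z hz => h1 ⟨z, ?_⟩
        rw [hz, iv_iv]
      rw [← mk_app, mk_word h2]
      cases h3 : ri V with
      | nil => exact ⟨_, rfl, _, rfl⟩
      | cons c w => exact ⟨_, rfl, _, rfl⟩

/-- left multiplication by the inverse of `u` -/
lemma stepa (h : Blk n p a r U) : ∀ (m : ℕ) (k y : FreeGroup α), k.toWord.length ≤ m →
    KK p a r k → (∀ j : ℤ, k ≠ FreeGroup.mk U ^ j) → ¬ Ist p a r y →
    lt n p (k * y) ((FreeGroup.mk U)⁻¹ * (k * y)) := by
  intro m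
  induction m with
  | zero =>
    intro k y hm hk hj hy
    exfalso
    apply hj 0
    rw [zpow_zero]
    exact FreeGroup.toWord_eq_nil_iff.1 (List.length_eq_zero_iff.1 (by omega))
  | succ m ih =>
    intro k y hm hk hj hy
    have k1 : k ≠ 1 := by
      have := hj 0
      rwa [zpow_zero] at this
    obtain ⟨f, U', hU, hf⟩ := h.first
    obtain ⟨t, T', hT, ht⟩ := h.firstT
    have hwide := h.wide
    by_cases c1 : ∃ z, k.toWord = ri U ++ z
    · obtain ⟨z, hz⟩ := c1
      obtain ⟨k', hk'⟩ : ∃ k', k' = FreeGroup.mk U * k := ⟨_, rfl⟩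
      have e1 : k' = FreeGroup.mk z := by
        rw [hk']
        conv_lhs => rw [← FreeGroup.mk_toWord (x := k), hz, mk_app, mk_ri]
        group
      have hzr : FreeGroup.IsReduced z := by
        have : FreeGroup.IsReduced k.toWord := FreeGroup.isReduced_toWord
        rw [hz] at this
        exact red_sub this ⟨ri U, [], by simp⟩
      have e2 : k'.toWord = z := by rw [e1, mk_word hzr]
      have hlen : k'.toWord.length ≤ m := by
        rw [e2]
        have := congrArg List.length hz
        rw [List.length_append, hT, List.length_cons] at this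
        omega
      have hkk : KK p a r k' := by rw [hk']; exact h.ku.mul hk
      have hjj : ∀ j : ℤ, k' ≠ FreeGroup.mk U ^ j := by
        intro j h1
        apply hj (j - 1)
        rw [zpow_sub_one, ← h1, hk']
        -- `k` commutes
        have h2 : k = (FreeGroup.mk U)⁻¹ * FreeGroup.mk U ^ j := by rw [← h1, hk']; group
        rw [h2]
        group
      have h3 := ih k' y hlen hkk hjj hy
      have h4 : lt n p (FreeGroup.mk U * 1) (k' * y) := by
        refine h.ltmin hkk ?_ ?_ hy h.out_one
        · have := hjj 0
          rwa [zpow_zero] at this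
        · have := hjj 1
          rwa [zpow_one] at this
      have hc : Cyc (lt n p) (FreeGroup.mk U * 1) (k' * y) ((FreeGroup.mk U)⁻¹ * (k' * y)) :=
        Or.inl ⟨h4, h3⟩
      have h5 := (cyc_mul h.arr (FreeGroup.mk U)⁻¹ hc).rot
      have e3 : (FreeGroup.mk U)⁻¹ * (FreeGroup.mk U * 1) = 1 := by group
      have e4 : (FreeGroup.mk U)⁻¹ * (k' * y) = k * y := by rw [hk']; group
      rw [e3, e4] at h5
      exact h.cyc_one h5
    · by_cases c2 : ∃ z, k.toWord = U ++ z
      · obtain ⟨z, hz⟩ := c2
        obtain ⟨k', hk'⟩ : ∃ k', k' = (FreeGroup.mk U)⁻¹ * k := ⟨_, rfl⟩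
        have e1 : k' = FreeGroup.mk z := by
          rw [hk']
          conv_lhs => rw [← FreeGroup.mk_toWord (x := k), hz, mk_app]
          group
        have hzr : FreeGroup.IsReduced z := by
          have : FreeGroup.IsReduced k.toWord := FreeGroup.isReduced_toWord
          rw [hz] at this
          exact red_sub this ⟨U, [], by simp⟩
        have e2 : k'.toWord = z := by rw [e1, mk_word hzr]
        have hlen : k'.toWord.length ≤ m := by
          rw [e2]
          have := congrArg List.length hz
          rw [List.length_append, hU, List.length_cons] at this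
          omega
        have hkk : KK p a r k' := by rw [hk']; exact h.kui.mul hk
        have hjj : ∀ j : ℤ, k' ≠ FreeGroup.mk U ^ j := by
          intro j h1
          apply hj (j + 1)
          have h2 : k = FreeGroup.mk U * FreeGroup.mk U ^ j := by rw [← h1, hk']; group
          rw [h2]
          group
        have h3 := ih k' y hlen hkk hjj hy
        have h4 : lt n p ((FreeGroup.mk U)⁻¹ * k' * y) ((FreeGroup.mk U)⁻¹ * 1) := by
          refine h.ltmax (h.kui.mul hkk) ?_ ?_ hy h.out_one
          · intro h5
            apply hjj 1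
            rw [zpow_one]
            have : k' = FreeGroup.mk U * ((FreeGroup.mk U)⁻¹ * k') := by group
            rw [this, h5, mul_one]
          · intro h5
            apply hjj 0
            rw [zpow_zero]
            exact mul_eq_left.1 h5
        rw [mul_assoc] at h4
        have hc : Cyc (lt n p) (k' * y) ((FreeGroup.mk U)⁻¹ * (k' * y))
            ((FreeGroup.mk U)⁻¹ * 1) := Or.inl ⟨h3, h4⟩
        have h5 := cyc_mul h.arr (FreeGroup.mk U) hc
        have e3 : (FreeGroup.mk U) * ((FreeGroup.mk U)⁻¹ * 1) = 1 := by group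
        have e4 : (FreeGroup.mk U) * ((FreeGroup.mk U)⁻¹ * (k' * y)) = k' * y := by group
        have e5 : (FreeGroup.mk U) * (k' * y) = k * y := by rw [hk']; group
        have e6 : (FreeGroup.mk U)⁻¹ * (k * y) = k' * y := by rw [hk']; group
        rw [e3, e4, e5] at h5
        rw [e6]
        exact h.cyc_one h5
      · -- no prefix
        have hI := h.ist_mul hk k1 hy
        obtain ⟨s, hs⟩ : ∃ s, s = (k * y).toWord := ⟨_, rfl⟩
        have hsr : FreeGroup.IsReduced s := by rw [hs]; exact FreeGroup.isReduced_toWord
        have hky : k * y = FreeGroup.mk s := by rw [hs, FreeGroup.mk_toWord]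
        have hw := h.word_mul hk hy
        rw [← hs] at hw
        unfold Ist at hI
        rw [← hs] at hI
        have np1 : ∀ z, s ≠ U ++ z := by
          intro z hz
          rw [hw] at hz
          obtain ⟨z', h4, h5⟩ := h.pre h.ui hy hz
          exact c2 ⟨z', h4⟩
        have np2 : ∀ z, s ≠ ri U ++ z := by
          intro z hz
          rw [hw] at hz
          obtain ⟨z', h4, h5⟩ := h.pre (by
            have := h.kui.let
            rw [h.tword] at this
            exact this) hy hz
          exact c1 ⟨z', h4⟩
        obtain ⟨c, hc, w, hw2⟩ := canc h.tred h.ne hsr np1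
        rw [mk_ri, ← hky] at hw2
        have hct : c = t := by
          rw [hT] at hc
          simpa using hc.symm
        subst hct
        by_cases h6 : hd p s = r
        · -- the word starts with the first letter of the inverse word
          cases hs0 : s with
          | nil =>
            rw [hs0] at hI
            simp only [hd] at hI
            omega
          | cons b s' =>
            have hb : b ≠ f := by
              rintro rfl
              rw [hs0] at h6
              simp only [hd] at h6
              omega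
            have h7 : FreeGroup.IsReduced (ri U ++ s) := by
              rw [hU, ri_cons]
              have h3 : ∀ (A : List (α × Bool)) (c : α × Bool), FreeGroup.IsReduced (A ++ [c]) →
                  (∀ z, s ≠ Pool.Agent.N513.PF.iv c :: z) →
                  FreeGroup.IsReduced (A ++ [c] ++ s) := by
                intro A c hA hc
                induction A with
                | nil => exact red_cons hsr hc
                | cons d A ihA =>
                  rw [List.cons_append, List.cons_append]
                  refine red_cons (ihA (red_tail hA)) fun z hz => ?_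
                  cases A with
                  | nil =>
                    have h4 : c = Pool.Agent.N513.PF.iv d := (List.cons.inj hz).1
                    have e1 : (FreeGroup.mk (d :: [c])).toWord = d :: [c] := mk_word hA
                    exact red_ne e1 h4
                  | cons b A =>
                    have h4 : b = Pool.Agent.N513.PF.iv d := (List.cons.inj hz).1
                    have e1 : (FreeGroup.mk (d :: b :: (A ++ [c]))).toWord =
                      d :: b :: (A ++ [c]) := mk_word hA
                    exact red_ne e1 h4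
              have h8 := h.tred
              rw [hU, ri_cons] at h8
              refine h3 _ _ h8 fun z hz => hb ?_
              rw [hs0, iv_iv] at hz
              exact (List.cons.inj hz).1
            have h8 : ((FreeGroup.mk U)⁻¹ * (k * y)).toWord = ri U ++ s := by
              rw [← mk_ri, hky, ← mk_app, mk_word h7]
            unfold lt
            rw [h8, ← hs]
            rcases h.maxw hsr hI.1 hI.2 with ⟨z, hz⟩ | h9
            · exact absurd hz (np2 z)
            · exact h9 _
        · refine lt_of_hd h.arr ?_
          rw [hw2, ← hs]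
          show hd p s < p c
          omega

/-- the comparison in the block -/
lemma stepc (h : Blk n p a r U) {k y : FreeGroup α} (hk : KK p a r k) (hy : ¬ Ist p a r y) :
    k * y = (FreeGroup.mk U)⁻¹ * k * FreeGroup.mk U * y ∨
      lt n p (k * y) ((FreeGroup.mk U)⁻¹ * k * FreeGroup.mk U * y) := by
  by_cases hj : ∃ j : ℤ, k = FreeGroup.mk U ^ j
  · obtain ⟨j, rfl⟩ := hj
    left
    group
  · push Not at hj
    right
    have h1 := h.stepa _ k y le_rfl hk hj hy
    have h2 := h.stepb (t := (FreeGroup.mk U)⁻¹ * k) (h.kui.mul hk) (fun h5 => by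
      apply hj 1
      rw [zpow_one]
      have : k = FreeGroup.mk U * ((FreeGroup.mk U)⁻¹ * k) := by group
      rw [this, h5, mul_one]) (fun h5 => by
      apply hj 0
      rw [zpow_zero]
      exact mul_eq_left.1 h5) hy
    refine Pool.Agent.N513.PF.lt_trans h1 ?_
    simp only [mul_assoc] at h2 ⊢
    exact h2

/-- two elements on the same side of a third one -/
lemma side (h : Blk n p a r U) {t x y : FreeGroup α} (hxy : lt n p x y)
    (ht : (hd p t.toWord < hd p x.toWord ∧ hd p t.toWord < hd p y.toWord) ∨
      (hd p x.toWord < hd p t.toWord ∧ hd p y.toWord < hd p t.toWord)) :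
    lt n p (t⁻¹ * x) (t⁻¹ * y) := by
  have hc : Cyc (lt n p) x y t := by
    rcases ht with h1 | h1
    · exact Or.inr (Or.inr ⟨lt_of_hd h.arr h1.1, hxy⟩)
    · exact Or.inl ⟨hxy, lt_of_hd h.arr h1.2⟩
  have := cyc_mul h.arr t⁻¹ hc
  rw [inv_mul_cancel] at this
  exact h.cyc_one this

open Classical in
/-- **positivity** of the twist about a separating curve -/
theorem twS_up (h : Blk n p a r U) {θ : FreeGroup α →* FreeGroup α}
    (hθ : ∀ l, θ (G l) = if a < p l ∧ p l ≤ r then (FreeGroup.mk U)⁻¹ * G l * FreeGroup.mk U
      else G l) : ∀ (m : ℕ) (x : FreeGroup α), x.toWord.length ≤ m →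
    (x = θ x ∨ lt n p x (θ x)) ∧ (¬ Ist p a r x → hd p (θ x).toWord = hd p x.toWord) ∧
      (Ist p a r x → Ist p a r (θ x)) := by
  have hK : ∀ k, KK p a r k → θ k = (FreeGroup.mk U)⁻¹ * k * FreeGroup.mk U := by
    rintro k ⟨w, hw, rfl⟩
    induction w with
    | nil =>
      have e : FreeGroup.mk ([] : List (α × Bool)) = 1 := rfl
      rw [e, map_one]
      group
    | cons l w ih =>
      rw [mk_cons, map_mul, ih (fun l hl => hw l (List.mem_cons_of_mem _ hl)), hθ,
        if_pos (hw l (by simp))]
      group
  intro m
  induction m with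
  | zero =>
    intro x hx
    have h1 : x = 1 := FreeGroup.toWord_eq_nil_iff.1 (List.length_eq_zero_iff.1 (by omega))
    rw [h1, map_one]
    exact ⟨Or.inl rfl, fun _ => rfl, fun h2 => h2⟩
  | succ m ih =>
    intro x hx
    cases hw : x.toWord with
    | nil =>
      have h1 : x = 1 := FreeGroup.toWord_eq_nil_iff.1 hw
      rw [h1, map_one]
      rw [FreeGroup.toWord_one]
      exact ⟨Or.inl rfl, fun _ => rfl, fun h2 => h2⟩
    | cons l w =>
      have hxr : FreeGroup.IsReduced (l :: w) := by
        rw [← hw]
        exact FreeGroup.isReduced_toWord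
      by_cases hl : a < p l ∧ p l ≤ r
      · -- starts in the block
        obtain ⟨s, t, hst, hs, ht⟩ : ∃ s t : List (α × Bool), l :: w = s ++ t ∧
            (∀ c ∈ s, a < p c ∧ p c ≤ r) ∧ ¬ (a < hd p t ∧ hd p t ≤ r) := by
          clear hw hxr
          have key : ∀ v : List (α × Bool), ∃ s t : List (α × Bool), v = s ++ t ∧
              (∀ c ∈ s, a < p c ∧ p c ≤ r) ∧ ¬ (a < hd p t ∧ hd p t ≤ r) := by
            intro v
            induction v with
            | nil => exact ⟨[], [], rfl, fun c hc => by simp at hc, by simp only [hd]; omega⟩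
            | cons c v ihv =>
              by_cases hc : a < p c ∧ p c ≤ r
              · obtain ⟨s, t, h1, h2, h3⟩ := ihv
                refine ⟨c :: s, t, by rw [h1]; rfl, fun d hd' => ?_, h3⟩
                rcases List.mem_cons.1 hd' with h4 | h4
                · rw [h4]; exact hc
                · exact h2 d h4
              · exact ⟨[], c :: v, rfl, fun c hc => by simp at hc, hc⟩
          exact key _
        have hsne : s ≠ [] := by
          rintro rfl
          rw [List.nil_append] at hst
          rw [← hst] at ht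
          exact ht hl
        obtain ⟨k, hk⟩ : ∃ k, k = FreeGroup.mk s := ⟨_, rfl⟩
        obtain ⟨y, hy⟩ : ∃ y, y = FreeGroup.mk t := ⟨_, rfl⟩
        have hsr : FreeGroup.IsReduced s := red_sub hxr ⟨[], t, by rw [hst]; simp⟩
        have htr : FreeGroup.IsReduced t := red_sub hxr ⟨s, [], by rw [hst]; simp⟩
        have hkw : k.toWord = s := by rw [hk, mk_word hsr]
        have hyw : y.toWord = t := by rw [hy, mk_word htr]
        have hkk : KK p a r k := ⟨s, hs, hk.symm⟩
        have hk1 : k ≠ 1 := by rw [hk]; exact mk_ne_one hsr hsne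
        have hyO : ¬ Ist p a r y := by
          unfold Ist
          rw [hyw]
          exact ht
        have hxk : x = k * y := by
          rw [hk, hy, ← mk_app, ← hst, ← hw, FreeGroup.mk_toWord]
        have hylen : y.toWord.length ≤ m := by
          rw [hyw]
          have := congrArg List.length hst
          rw [List.length_append, List.length_cons] at this
          rw [hw, List.length_cons] at hx
          have h3 : 0 < s.length := List.length_pos_iff.2 hsne
          omega
        obtain ⟨i1, i2, i3⟩ := ih y hylen
        have i2' := i2 hyO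
        have hθyO : ¬ Ist p a r (θ y) := by
          unfold Ist at hyO ⊢
          rw [i2']
          exact hyO
        have hθx : θ x = (FreeGroup.mk U)⁻¹ * k * FreeGroup.mk U * θ y := by
          rw [hxk, map_mul, hK k hkk]
        have hIx : Ist p a r x := by
          unfold Ist
          rw [hw]
          exact hl
        refine ⟨?_, fun h4 => absurd hIx (by rw [← hw] at *; exact h4), fun _ => ?_⟩
        · -- first step
          have s1 : k * y = k * θ y ∨ lt n p (k * y) (k * θ y) := by
            rcases i1 with h5 | h5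
            · left
              rw [← h5]
            · right
              have h6 := h.side (t := k⁻¹) h5 (by
                have h7 := h.ist_of (KK.inv h hkk) (fun h8 => hk1 (inv_eq_one.1 h8))
                unfold Ist at h7 hyO
                rw [i2']
                omega)
              rwa [inv_inv] at h6
          have s2 := h.stepc hkk hθyO
          rw [hθx, hxk]
          rcases s1 with h5 | h5 <;> rcases s2 with h6 | h6
          · left; rw [← h6]; exact h5
          · right; rw [h5]; exact h6
          · right; rw [← h6]; exact h5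
          · right; exact Pool.Agent.N513.PF.lt_trans h5 h6
        · rw [hθx]
          refine h.ist_mul ((h.kui.mul hkk).mul h.ku) (fun h5 => hk1 ?_) hθyO
          have : k = FreeGroup.mk U * ((FreeGroup.mk U)⁻¹ * k * FreeGroup.mk U) *
            (FreeGroup.mk U)⁻¹ := by group
          rw [this, h5]
          group
      · -- starts outside the block
        obtain ⟨y, hy⟩ : ∃ y, y = FreeGroup.mk w := ⟨_, rfl⟩
        have hwr := red_tail hxr
        have hyw : y.toWord = w := by rw [hy, mk_word hwr]
        have hxk : x = G l * y := by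
          rw [hy, ← mk_cons, ← hw, FreeGroup.mk_toWord]
        have hylen : y.toWord.length ≤ m := by
          rw [hyw]
          rw [hw, List.length_cons] at hx
          omega
        obtain ⟨i1, i2, i3⟩ := ih y hylen
        have hli : ¬ (a < p (Pool.Agent.N513.PF.iv l) ∧ p (Pool.Agent.N513.PF.iv l) ≤ r) := by
          intro h5
          have := h.iv _ h5.1 h5.2
          rw [iv_iv] at this
          exact hl this
        have hθx : θ x = G l * θ y := by
          rw [hxk, map_mul, hθ, if_neg hl]
        have hyt : hd p y.toWord ≠ p (Pool.Agent.N513.PF.iv l) := by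
          rw [hyw]
          exact hd_tail h.arr hxr
        have hθt : hd p (θ y).toWord ≠ p (Pool.Agent.N513.PF.iv l) := by
          by_cases h5 : Ist p a r y
          · intro h6
            have := i3 h5
            unfold Ist at this
            rw [h6] at this
            exact hli this
          · rw [i2 h5]
            exact hyt
        have hθw : (θ x).toWord = l :: (θ y).toWord := by
          rw [hθx]
          exact tw_G h.arr hθt
        refine ⟨?_, fun _ => ?_, fun h4 => ?_⟩
        · rw [hθx, hxk]
          rcases i1 with h5 | h5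
          · left
            rw [← h5]
          · right
            have h6 := h.side (t := G (Pool.Agent.N513.PF.iv l)) h5 (by
              rw [G_word]
              show (p (Pool.Agent.N513.PF.iv l) < _ ∧ p (Pool.Agent.N513.PF.iv l) < _) ∨ _
              by_cases h7 : Ist p a r y
              · have h8 := i3 h7
                unfold Ist at h7 h8
                simp only [hd] at *
                omega
              · have h8 := i2 h7
                simp only [hd] at *
                omega)
            rwa [G_inv, inv_inv] at h6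
        · rw [hθw]
          rfl
        · exfalso
          unfold Ist at h4
          rw [hw] at h4
          exact hl h4

/-- the twist is not trivial -/
theorem twS_ne (h : Blk n p a r U) {θ : FreeGroup α →* FreeGroup α}
    (hθ : ∀ l, θ (G l) = if a < p l ∧ p l ≤ r then (FreeGroup.mk U)⁻¹ * G l * FreeGroup.mk U
      else G l) : ∃ x, θ x ≠ x := by
  obtain ⟨f, U', hU, hf⟩ := h.first
  have hf' := h.ui f (by rw [hU]; simp)
  refine ⟨G f, fun h1 => ?_⟩
  rw [hθ, if_pos hf'] at h1
  have h2 : G f * FreeGroup.mk U = FreeGroup.mk U * G f := by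
    have : FreeGroup.mk U * ((FreeGroup.mk U)⁻¹ * G f * FreeGroup.mk U) =
      FreeGroup.mk U * G f := by rw [h1]
    rw [← this]
    group
  have h3 : (G f * FreeGroup.mk U).toWord = f :: U := by
    rw [← mk_cons]
    refine mk_word (red_cons h.ured fun s hs => ?_)
    rw [hU] at hs
    exact iv_ne f (List.cons.inj hs).1.symm
  -- the length of the right side
  have h4 : FreeGroup.mk U * G f = FreeGroup.mk (U ++ [f]) := by
    rw [mk_app]
    rfl
  have h5 : (FreeGroup.mk (U ++ [f])).toWord = f :: U := by rw [← h4, ← h2, h3]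
  have h6 : (FreeGroup.reduce (U ++ [f])).Sublist (U ++ [f]) :=
    FreeGroup.Red.sublist FreeGroup.reduce.red
  rw [← FreeGroup.toWord_mk, h5] at h6
  have h7 : f :: U = U ++ [f] := h6.eq_of_length (by simp)
  rw [hU] at h7
  have h8 : f :: U' = U' ++ [f] := (List.cons.inj h7).2
  have hnd := h.nd
  rw [hU, List.nodup_cons] at hnd
  cases U' with
  | nil =>
    have h9 := h.iv f hf'.1 hf'.2
    have h10 := h.al _ h9.1 h9.2
    rw [hU] at h10
    have : Pool.Agent.N513.PF.iv f = f := by simpa using h10
    exact iv_ne f this
  | cons b U'' =>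
    have h9 := (List.cons.inj h8).1
    apply hnd.1
    rw [← h9]
    simp

end Blk

end Pool.Agent.V8H82.PF
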