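import Pool.Agent.V8H82.PF.Free
import Pool.Agent.V8H82.PF.PosS

/-!
# Maps adapted to a curve
-/

set_option autoImplicit false
set_option linter.unusedVariables false
set_option linter.unusedSectionVars false

namespace Pool.Agent.V8H82.PF

open Finset List Pool.Agent.N513.PF

variable {D : Type}

/-- a presentation of the fundamental group with its planar order -/
structure Frm (M : Sf D) where
  β : Type
  dec : DecidableEq β
  fin : Fintype β
  n : ℕ
  p : β × Bool → ℕ
  zl : List (β × Bool)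
  arr : Arr n p
  bd : Bd n p 0 zl
  all : ∀ a, a ∈ zl
  u : D → FreeGroup β
  univ : Univ M (FreeGroup β) u
  zz : M.zz u = FreeGroup.mk zl

attribute [instance] Frm.dec Frm.fin

/-! ### The reversed loop -/

/-- the reversed loop -/
def rvK (M : Sf D) (K : Cv D) (x : D) : Cv D :=
  ⟨[M.rev x], fun d => Same M.A M.cw x d ∧ ¬ K.L d⟩

lemma rot_single {x : D} {w : List D} (h : [x] ~r w) : w = [x] := by
  obtain ⟨n, hn⟩ := h
  rw [← hn]
  simp

lemma hol_single {M : Sf D} {K : Cv D} {x d : D} (hc : K.c = [x]) (hs : Same M.A M.cw x d)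
    {G : Type} [Group G] (s : D → G) : hol M K s d = M.hh s x := by
  have hex : ∃ w, Rt M K d w := ⟨[x], by rw [hc], x, [], rfl, hs⟩
  unfold hol
  rw [dif_pos hex]
  have h1 := hex.choose_spec.1
  rw [hc] at h1
  rw [rot_single h1]
  simp

section rv

variable {M : Sf D} {K : Cv D} {x : D}

lemma LR.rv (hM : M.Ok) (h : LR M K) (hc : K.c = [x]) : LR M (rvK M K x) := by
  have hx : x ∈ K.c := by rw [hc]; simp
  have hxA := h.mem x hx
  have hch := h.chain
  rw [hc, Cycle.chain_singleton] at hch
  have b := h.base x hx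
  refine ⟨by simp [rvK], by simp [rvK], ?_, ?_, ?_, ?_, ?_, ?_, ?_, ?_, ?_, ?_⟩
  · intro y hy
    have : y = M.rev x := by simpa [rvK] using hy
    rw [this]
    exact hM.mrev x hxA
  · show Cycle.Chain _ (([M.rev x] : List D) : Cycle D)
    rw [Cycle.chain_singleton, hM.rr x hxA]
    exact hch.symm
  · intro y hy y' hy' _
    have e1 : y = M.rev x := by simpa [rvK] using hy
    have e2 : y' = M.rev x := by simpa [rvK] using hy'
    rw [e1, e2]
  · intro y hy h1
    have e1 : y = M.rev x := by simpa [rvK] using hy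
    rw [e1] at h1
    exact b (h1.trans hch)
  · intro y hy
    have e1 : y = M.rev x := by simpa [rvK] using hy
    rw [e1, hM.rr x hxA]
    exact ⟨Same.step hxA, h.l4 x hx⟩
  · intro y hy h1
    have e1 : y = M.rev x := by simpa [rvK] using hy
    rw [e1, hM.rr x hxA] at h1
    exact h1.2 (h.l3 x hx)
  · intro y hy
    have e1 : y = M.rev x := by simpa [rvK] using hy
    rw [e1]
    exact ⟨hch.symm, h.l2 x hx⟩
  · intro y hy h1
    have e1 : y = M.rev x := by simpa [rvK] using hy
    rw [e1] at h1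
    exact h1.2 (h.l1 x hx)
  · intro d hd h1 h2
    have h1' : d ≠ M.rev x := by simpa [rvK] using h1
    have h2' : M.rev d ≠ M.rev x := by simpa [rvK] using h2
    have h3 := h.l5 d hd (fun h4 => h2' (by
      rw [hc] at h4
      have : d = x := by simpa using h4
      rw [this])) (fun h4 => h1' (by
      rw [hc] at h4
      have : M.rev d = x := by simpa using h4
      rw [← this, hM.rr d hd]))
    show (Same M.A M.cw x (M.cw d) ∧ ¬ K.L (M.cw d)) ↔ (Same M.A M.cw x d ∧ ¬ K.L d)
    have e1 : Same M.A M.cw x (M.cw d) ↔ Same M.A M.cw x d :=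
      ⟨fun h1 => h1.trans (Same.step hd).symm, fun h1 => h1.trans (Same.step hd)⟩
    rw [h3, e1]
  · intro d hd h1
    refine ⟨M.rev x, by simp [rvK], hch.trans h1.1⟩

/-- reversing a loop is a link -/
def lkRv (hM : M.Ok) (h : LR M K) (hc : K.c = [x]) :
    Lk M (fun _ : Unit => K) M (fun _ : Unit => rvK M K x) where
  E G _ s s' := M.Fl s ∧ M.Fl s' ∧ M.Eqv 1 s s'
  fl G _ s s' h := ⟨h.1, h.2.1⟩
  up G _ s' h := ⟨s', h, h, Sf.Eqv.refl _⟩
  dn G _ s' h := ⟨s', h, h, Sf.Eqv.refl _⟩
  tw G _ s s' z i := by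
    rintro ⟨h1, h2, h3⟩
    have h' := h.rv hM hc
    refine ⟨h.fl hM z h1, h'.fl hM z h2, Sf.Eqv.trans1 ?_ (h'.eqv hM z h3)⟩
    classical
    have hx : x ∈ K.c := by rw [hc]; simp
    have hxA := h.mem x hx
    have hxo : x ≠ M.o := by
      rintro rfl
      exact h.base _ hx (Same.refl _)
    have hch := h.chain
    rw [hc, Cycle.chain_singleton] at hch
    refine ⟨fun _ => 1, fun d => if Same M.A M.cw x d then (M.hh s x) ^ (-z) else 1,
      fun _ _ => rfl, fun d hd => ?_, ?_, fun d hd => ?_⟩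
    · have e1 : Same M.A M.cw x (M.cw d) ↔ Same M.A M.cw x d :=
        ⟨fun h1 => h1.trans (Same.step hd).symm, fun h1 => h1.trans (Same.step hd)⟩
      simp only [e1]
    · exact if_neg fun h4 => h.base x hx h4.symm
    · by_cases h4 : Same M.A M.cw x d
      · simp only [if_pos h4]
        by_cases h5 : K.L d
        · rw [tw_pos h5, tw_neg (K := rvK M K x) (fun h6 => h6.2 h5), hol_single hc h4]
          group
        · rw [tw_neg h5, tw_pos (K := rvK M K x) ⟨h4, h5⟩,
            hol_single (K := rvK M K x) rfl (hch.trans h4), h1 x hxA hxo]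
          group
      · simp only [if_neg h4]
        have h5 : ¬ K.L d := by
          intro h6
          obtain ⟨y, hy, h7⟩ := h.l6 d hd h6
          rw [hc] at hy
          have : y = x := by simpa using hy
          rw [this] at h7
          exact h4 h7
        rw [tw_neg h5, tw_neg (K := rvK M K x) (fun h6 => h4 h6.1)]
        group
  eq G _ y s1 s1' s2 s2' := by
    rintro ⟨h1, h2, h3⟩ ⟨h1', h2', h3'⟩
    constructor
    · intro h4
      exact (h3.symm1.trans2 h4).trans1 h3'
    · intro h4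
      exact (h3.trans2 h4).trans1 h3'.symm1
  zz G _ s s' := by
    rintro ⟨h1, h2, h3⟩
    rw [h3.zz hM]
    group
  map G H _ _ θ s s' := by
    rintro ⟨h1, h2, h3⟩
    have h4 := h3.map θ
    rw [map_one] at h4
    exact ⟨h1.map θ, h2.map θ, h4⟩
  lp G _ s s' i := by
    rintro ⟨h1, h2, h3⟩
    have hx : x ∈ K.c := by rw [hc]; simp
    have hxA := h.mem x hx
    have hxo : x ≠ M.o := by
      rintro rfl
      exact h.base _ hx (Same.refl _)
    rw [← h.lp_one hM h3]
    unfold lp
    show (List.map (M.hh s') [M.rev x]).prod = 1 ↔ _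
    rw [hc, List.map_singleton, List.map_singleton, List.prod_singleton, List.prod_singleton,
      h2 x hxA hxo, inv_eq_one]

end rv

/-! ### One-vertex maps with a loop -/

/-- the left corners form an interval -/
lemma interval {M : Sf D} (hM : M.Ok) (hv : ∀ d ∈ M.A, Same M.A M.cw M.o d) {Lp : D → Prop}
    {w y : D} (hw : w ∈ M.A) (hy : y ∈ M.A) (h0 : ¬ Lp M.o)
    (h1 : ∀ d ∈ M.A, d ≠ w → d ≠ y → (Lp (M.cw d) ↔ Lp d)) (h2 : ¬ Lp w) (h3 : Lp y)
    (h4 : Lp (M.cw w)) (h5 : ¬ Lp (M.cw y)) :
    ps M.cw M.o w < ps M.cw M.o y ∧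
      ∀ d ∈ M.A, (Lp d ↔ ps M.cw M.o w < ps M.cw M.o d ∧ ps M.cw M.o d ≤ ps M.cw M.o y) := by
  have rc : ∀ d ∈ M.A, ∃ k, M.cw^[k] M.o = d := fun d hd => reach hM.hm hM.hi hM.ho (hv d hd)
  have psi : ∀ d ∈ M.A, ∀ d' ∈ M.A, ps M.cw M.o d = ps M.cw M.o d' → d = d' :=
    fun d hd d' hd' he => ps_inj (rc d hd) (rc d' hd') he
  have pred : ∀ d ∈ M.A, d ≠ M.o → ∃ d' ∈ M.A, M.cw d' = d ∧
      ps M.cw M.o d = ps M.cw M.o d' + 1 := by
    intro d hd hdo
    obtain ⟨d', hd', he⟩ := surj hM.hm hM.hi hd
    refine ⟨d', hd', he, ?_⟩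
    rw [← he]
    exact ps_step hM.hm hM.hi hM.ho hd' (rc d' hd') (by rw [he]; exact hdo)
  have hwy : w ≠ y := by
    rintro rfl
    exact h2 h3
  have a1 : ∀ (k : ℕ) (d : D), d ∈ M.A → ps M.cw M.o d = k → k ≤ ps M.cw M.o w → ¬ Lp d := by
    intro k
    induction k with
    | zero =>
      intro d hd hk _
      have : d = M.o := psi d hd _ hM.ho (by rw [hk, ps_self])
      rw [this]
      exact h0
    | succ k ih =>
      intro d hd hk hkw
      have hdo : d ≠ M.o := by
        rintro rfl
        rw [ps_self] at hk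
        omega
      obtain ⟨d', hd', he, hp⟩ := pred d hd hdo
      have i1 := ih d' hd' (by omega) (by omega)
      have hdw : d' ≠ w := by
        rintro rfl
        omega
      by_cases hdy : d' = y
      · rw [← he, hdy]
        exact h5
      · rw [← he, h1 d' hd' hdw hdy]
        exact i1
  have hlt : ps M.cw M.o w < ps M.cw M.o y := by
    by_contra h6
    exact a1 _ y hy rfl (by omega) h3
  have a2 : ∀ (k : ℕ) (d : D), d ∈ M.A → ps M.cw M.o d = k → ps M.cw M.o w < k →
      k ≤ ps M.cw M.o y → Lp d := by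
    intro k
    induction k with
    | zero => intro d hd hk h6; omega
    | succ k ih =>
      intro d hd hk hkw hky
      have hdo : d ≠ M.o := by
        rintro rfl
        rw [ps_self] at hk
        omega
      obtain ⟨d', hd', he, hp⟩ := pred d hd hdo
      by_cases hdw : d' = w
      · rw [← he, hdw]
        exact h4
      · have hdy : d' ≠ y := by
          rintro rfl
          omega
        have h7 : ps M.cw M.o d' ≠ ps M.cw M.o w := fun h8 => hdw (psi _ hd' _ hw h8)
        rw [← he, h1 d' hd' hdw hdy]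
        exact ih d' hd' (by omega) (by omega) (by omega)
  have a3 : ∀ (k : ℕ) (d : D), d ∈ M.A → ps M.cw M.o d = k → ps M.cw M.o y < k → ¬ Lp d := by
    intro k
    induction k with
    | zero => intro d hd hk h6; omega
    | succ k ih =>
      intro d hd hk hky
      have hdo : d ≠ M.o := by
        rintro rfl
        rw [ps_self] at hk
        omega
      obtain ⟨d', hd', he, hp⟩ := pred d hd hdo
      by_cases hdy : d' = y
      · rw [← he, hdy]
        exact h5
      · have hdw : d' ≠ w := by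
          rintro rfl
          omega
        have h7 : ps M.cw M.o d' ≠ ps M.cw M.o y := fun h8 => hdy (psi _ hd' _ hy h8)
        rw [← he, h1 d' hd' hdw hdy]
        exact ih d' hd' (by omega) (by omega)
  refine ⟨hlt, fun d hd => ?_⟩
  rcases Nat.lt_or_ge (ps M.cw M.o w) (ps M.cw M.o d) with h6 | h6
  · rcases Nat.lt_or_ge (ps M.cw M.o y) (ps M.cw M.o d) with h7 | h7
    · exact iff_of_false (a3 _ d hd rfl h7) (by omega)
    · exact iff_of_true (a2 _ d hd rfl h6 h7) ⟨h6, h7⟩
  · exact iff_of_false (a1 _ d hd rfl h6) (by omega)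

/-- a one-vertex map with a loop `x` whose left corners are `Lp`; the other edges have the same
face on both sides -/
structure Adp (M : Sf D) (x : D) (Lp : D → Prop) : Prop where
  ok : M.Ok
  v : ∀ d ∈ M.A, Same M.A M.cw M.o d
  xA : x ∈ M.A
  xo : x ≠ M.o
  r1 : ∀ d ∈ M.A, d ≠ M.o → d ≠ x → M.rev d ≠ x → Same M.A M.fc d (M.rev d)
  l0 : ¬ Lp M.o
  l1 : Lp (M.cw (M.rev x))
  l2 : ¬ Lp (M.rev x)
  l3 : Lp x
  l4 : ¬ Lp (M.cw x)
  l5 : ∀ d ∈ M.A, d ≠ x → M.rev d ≠ x → (Lp (M.cw d) ↔ Lp d)

open Classical in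
/-- the twist about the loop `x` -/
noncomputable def tx {G : Type} [Group G] (M : Sf D) (x : D) (Lp : D → Prop) (s : D → G) (d : D) :
    G := if Lp d then s d * (M.hh s x)⁻¹ else s d

namespace Adp

variable {M : Sf D} {x : D} {Lp : D → Prop}

lemma rne (h : Adp M x Lp) {d : D} (hd : d ∈ M.A) (h1 : d ≠ M.rev x) : M.rev d ≠ x := by
  intro h2
  apply h1
  rw [← h2, h.ok.rr d hd]

lemma itv (h : Adp M x Lp) : ps M.cw M.o (M.rev x) < ps M.cw M.o x ∧
    ∀ d ∈ M.A, (Lp d ↔ ps M.cw M.o (M.rev x) < ps M.cw M.o d ∧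
      ps M.cw M.o d ≤ ps M.cw M.o x) :=
  interval h.ok h.v (h.ok.mrev x h.xA) h.xA h.l0
    (fun d hd h1 h2 => h.l5 d hd h2 (h.rne hd h1)) h.l2 h.l3 h.l1 h.l4

lemma uni (h : Adp M x Lp) (hs : Same M.A M.fc x (M.rev x)) : Uni M where
  ok := h.ok
  v := h.v
  f d hd := by
    refine h.ok.conn' (fun z => Same M.A M.fc M.o z) (fun z hz => ?_) (fun z hz => ?_)
      (Same.refl _) d hd
    · exact ⟨fun h1 => h1.trans (Same.step hz).symm, fun h1 => h1.trans (Same.step hz)⟩
    · have key : Same M.A M.fc z (M.rev z) := by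
        by_cases h1 : z = M.o
        · rw [h1, h.ok.ro]
          exact Same.refl _
        · by_cases h2 : z = x
          · rw [h2]
            exact hs
          · by_cases h3 : M.rev z = x
            · rw [← h3, h.ok.rr z hz] at hs
              rw [h3] at hs ⊢
              exact hs.symm
            · exact h.r1 z hz h1 h2 h3
      exact ⟨fun h3 => h3.trans key.symm, fun h3 => h3.trans key⟩

/-- the case of a loop with the same face on both sides -/
theorem ns (h : Adp M x Lp) (hs : Same M.A M.fc x (M.rev x)) :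
    ∃ θ : FreeGroup (Gn M) →* FreeGroup (Gn M),
      M.Eqv 1 (fun d => θ (Uni.uu M d)) (tx M x Lp (Uni.uu M)) ∧
      (∀ z, z = θ z ∨ lt (nm M) (ppos M) z (θ z)) ∧ ∃ z, θ z ≠ z := by
  classical
  have hU := h.uni hs
  obtain ⟨i1, i2⟩ := h.itv
  obtain ⟨e, he⟩ := hU.ex_l h.xA h.xo
  have hie : dr M (iv e) = M.rev x := by rw [hU.dr_iv, he]
  have pe : ppos M e = ps M.cw M.o x := by unfold ppos; rw [he]
  have pie : ppos M (iv e) = ps M.cw M.o (M.rev x) := by unfold ppos; rw [hie]
  obtain ⟨f, hf⟩ : ∃ f : Gn M × Bool → FreeGroup (Gn M), f = fun l =>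
    G e ^ ep (ppos M) e (ppos M l) * G l * (G e ^ ep (ppos M) e (ppos M (iv l)))⁻¹ := ⟨_, rfl⟩
  obtain ⟨θ, hθ0⟩ : ∃ θ : FreeGroup (Gn M) →* FreeGroup (Gn M),
    θ = FreeGroup.lift fun a => f (a, true) := ⟨_, rfl⟩
  have hθ : ∀ l, θ (G l) = G e ^ ep (ppos M) e (ppos M l) * G l *
      (G e ^ ep (ppos M) e (ppos M (iv l)))⁻¹ := by
    rintro ⟨a, b⟩
    cases b
    · have h1 : (G (a, false) : FreeGroup (Gn M)) = (G (a, true))⁻¹ := by
        rw [← G_inv]
        rfl
      rw [h1, map_inv, Pool.Agent.N513.PF.G_true, hθ0, FreeGroup.lift_apply_of, hf]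
      show (G e ^ ep (ppos M) e (ppos M (a, true)) * G (a, true) *
        (G e ^ ep (ppos M) e (ppos M (a, false)))⁻¹)⁻¹ =
        G e ^ ep (ppos M) e (ppos M (a, false)) * (FreeGroup.of a)⁻¹ *
          (G e ^ ep (ppos M) e (ppos M (a, true)))⁻¹
      rw [Pool.Agent.N513.PF.G_true]
      group
    · rw [Pool.Agent.N513.PF.G_true, hθ0, FreeGroup.lift_apply_of, hf]
      rfl
  have hlt : ppos M (iv e) < ppos M e := by rw [pe, pie]; exact i1
  refine ⟨θ, ?_, fun z => twN_up hU.arr hlt hθ z, ?_⟩
  · have hhx : M.hh (Uni.uu M) x = G e := by rw [← he]; exact hU.hh_uu e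
    have := Sf.Eqv.of_hh h.ok (s1 := fun d => θ (Uni.uu M d)) (s2 := tx M x Lp (Uni.uu M))
      (γ := fun _ => 1) (fun _ _ => rfl) (fun d hd hdo => ?_)
    · exact this
    · obtain ⟨l, hl⟩ := hU.ex_l hd hdo
      have hlr : dr M (iv l) = M.rev d := by rw [hU.dr_iv, hl]
      have e1 : M.hh (fun d => θ (Uni.uu M d)) d = θ (G l) := by
        rw [Sf.hh_map, ← hl, hU.hh_uu]
      rw [e1, hθ]
      have e2 : ∀ z, tx M x Lp (Uni.uu M) z = Uni.uu M z * (if Lp z then G e else 1)⁻¹ := by
        intro z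
        unfold tx
        rw [hhx]
        by_cases h1 : Lp z
        · rw [if_pos h1, if_pos h1]
        · rw [if_neg h1, if_neg h1]
          group
      have e3 : M.hh (tx M x Lp (Uni.uu M)) d = (if Lp d then G e else 1) * G l *
          (if Lp (M.cw (M.rev d)) then G e else 1)⁻¹ := by
        have h1 : M.hh (Uni.uu M) d = G l := by rw [← hl]; exact hU.hh_uu l
        rw [← h1]
        unfold Sf.hh
        rw [e2, e2]
        group
      rw [e3]
      have pl : ppos M l = ps M.cw M.o d := by unfold ppos; rw [hl]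
      have pil : ppos M (iv l) = ps M.cw M.o (M.rev d) := by unfold ppos; rw [hlr]
      by_cases c1 : d = x
      · have hle : l = e := hU.dr_inj (by rw [hl, he, c1])
        subst hle
        rw [if_pos (by rw [c1]; exact h.l3), if_pos (by rw [c1]; exact h.l1)]
        have e4 : ep (ppos M) l (ppos M l) = 0 := if_neg (by omega)
        have e5 : ep (ppos M) l (ppos M (iv l)) = 0 := if_neg (by omega)
        rw [e4, e5]
        group
      · by_cases c2 : M.rev d = x
        · have hd2 : d = M.rev x := by rw [← c2, h.ok.rr d hd]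
          have hle : l = iv e := hU.dr_inj (by rw [hl, hie, hd2])
          subst hle
          rw [iv_iv]
          rw [if_neg (by rw [hd2]; exact h.l2), if_neg (by rw [c2]; exact h.l4)]
          have e4 : ep (ppos M) e (ppos M e) = 0 := if_neg (by omega)
          have e5 : ep (ppos M) e (ppos M (iv e)) = 0 := if_neg (by omega)
          rw [e4, e5]
          group
        · have hrA := h.ok.mrev d hd
          have h6 := h.l5 (M.rev d) hrA c2 (by rw [h.ok.rr d hd]; exact c1)
          have k1 : ∀ z ∈ M.A, z ≠ x → ∀ m : Gn M × Bool, dr M m = z →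
              (if Lp z then G e else 1) = G e ^ ep (ppos M) e (ppos M m) := by
            intro z hz hzx m hm
            have h7 := i2 z hz
            have pm : ppos M m = ps M.cw M.o z := by unfold ppos; rw [hm]
            have h8 : ps M.cw M.o z ≠ ps M.cw M.o x := fun h9 => hzx (hU.psi hz h.xA h9)
            unfold ep
            by_cases h9 : Lp z
            · have h10 := h7.1 h9
              rw [if_pos h9, if_pos (by omega), zpow_one]
            · have h10 : ¬ (ps M.cw M.o (M.rev x) < ps M.cw M.o z ∧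
                ps M.cw M.o z ≤ ps M.cw M.o x) := fun h11 => h9 (h7.2 h11)
              rw [if_neg h9, if_neg (by omega), zpow_zero]
          have k2 : (if Lp (M.cw (M.rev d)) then (G e : FreeGroup (Gn M)) else 1) =
              if Lp (M.rev d) then G e else 1 := by simp only [h6]
          rw [k2, k1 d hd c1 l hl, k1 _ hrA c2 (iv l) hlr]
          group
  · -- a letter on the left
    have hne : M.cw (M.rev x) ≠ x := by
      intro h1
      have h2 : M.fc x = x := h1
      have h3 : (fun z => z = x) x ↔ (fun z => z = x) M.o := by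
        refine (hU.f x h.xA).symm (fun z => z = x) fun d hd => ?_
        constructor
        · intro h4
          exact h.ok.fi d hd x h.xA (h4.trans h2.symm)
        · intro h4
          rw [h4]
          exact h2
      exact h.xo (h3.1 rfl).symm
    have hA := h.ok.hm _ (h.ok.mrev x h.xA)
    have ho : M.cw (M.rev x) ≠ M.o := fun h1 => h.l0 (by rw [← h1]; exact h.l1)
    obtain ⟨l, hl⟩ := hU.ex_l hA ho
    have h1 := (i2 _ hA).1 h.l1
    have h2 : ps M.cw M.o (M.cw (M.rev x)) ≠ ps M.cw M.o x := fun h3 => hne (hU.psi hA h.xA h3)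
    have pl : ppos M l = ps M.cw M.o (M.cw (M.rev x)) := by unfold ppos; rw [hl]
    exact ⟨G l, twN_ne hU.arr hlt hθ (by omega) (by omega)⟩

end Adp

end Pool.Agent.V8H82.PF
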