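import Pool.Agent.V8H82.PF.Adapt

/-!
# Maps adapted to a separating curve
-/

set_option autoImplicit false
set_option linter.unusedVariables false
set_option linter.unusedSectionVars false

namespace Pool.Agent.V8H82.PF

open Finset List Pool.Agent.N513.PF

variable {D : Type}

namespace Adp

variable {M : Sf D} {x : D} {Lp : D → Prop}

/-- flatness of the twisted connection -/
lemma tx_fl (h : Adp M x Lp) {G : Type} [Group G] {s : D → G} (hs : M.Fl s) :
    M.Fl (tx M x Lp s) := by
  classical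
  have e2 : ∀ z, tx M x Lp s z = s z * (if Lp z then M.hh s x else 1)⁻¹ := by
    intro z
    unfold tx
    by_cases h1 : Lp z
    · rw [if_pos h1, if_pos h1]
    · rw [if_neg h1, if_neg h1]
      group
  have e3 : ∀ d, M.hh (tx M x Lp s) d = (if Lp d then M.hh s x else 1) * M.hh s d *
      (if Lp (M.cw (M.rev d)) then M.hh s x else 1)⁻¹ := by
    intro d
    have : M.hh (tx M x Lp s) d = (tx M x Lp s d)⁻¹ * tx M x Lp s (M.cw (M.rev d)) := rfl
    rw [this, e2, e2]
    unfold Sf.hh
    group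
  have f1 := hs x h.xA h.xo
  have c1 : M.hh (tx M x Lp s) x = M.hh s x := by
    rw [e3, if_pos h.l3, if_pos h.l1]
    group
  have c2 : M.hh (tx M x Lp s) (M.rev x) = M.hh s (M.rev x) := by
    rw [e3, if_neg h.l2, h.ok.rr x h.xA, if_neg h.l4]
    group
  intro d hd hdo
  by_cases k1 : d = x
  · rw [k1, c1, c2, f1]
  · by_cases k2 : M.rev d = x
    · have hd2 : d = M.rev x := by rw [← k2, h.ok.rr d hd]
      rw [k2, hd2, c1, c2, f1, inv_inv]
    · have hrA := h.ok.mrev d hd
      have h6 := h.l5 (M.rev d) hrA k2 (by rw [h.ok.rr d hd]; exact k1)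
      have h7 := h.l5 d hd k1 k2
      rw [e3, e3, h.ok.rr d hd, hs d hd hdo]
      simp only [h6, h7]
      group

/-- the twist is compatible with equivalences -/
lemma tx_eqv (h : Adp M x Lp) {G : Type} [Group G] {s1 s2 : D → G} (he : M.Eqv 1 s1 s2) :
    M.Eqv 1 (tx M x Lp s1) (tx M x Lp s2) := by
  obtain ⟨φ, γ, h1, h2, h3, h4⟩ := he
  have hγ : ∀ d ∈ M.A, γ d = 1 := fun d hd => by
    rw [← h3]
    exact ((h.v d hd).val h2).symm
  have h5 := Sf.hh_gauge h.ok h1 h2 h4 h.xA
  rw [hγ _ h.xA, hγ _ (h.ok.mrev _ h.xA)] at h5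
  refine ⟨φ, γ, h1, h2, h3, fun d hd => ?_⟩
  have h6 := h4 d hd
  rw [hγ d hd] at h6 ⊢
  unfold tx
  by_cases h7 : Lp d
  · rw [if_pos h7, if_pos h7, h5, h6]
    group
  · rw [if_neg h7, if_neg h7, h6]

lemma cwx (h : Adp M x Lp) : M.cw x ≠ M.rev x := by
  intro h1
  have h2 := h.itv.1
  have h3 := ps_step h.ok.hm h.ok.hi h.ok.ho h.xA
    (reach h.ok.hm h.ok.hi h.ok.ho (h.v x h.xA)) (by
      rw [h1]
      exact h.ok.rev_ne_o h.xA h.xo)
  rw [h1] at h3
  omega

/-- the left corners are the face of `x` -/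
lemma face (h : Adp M x Lp) (hd : ¬ Same M.A M.fc x (M.rev x)) :
    ∀ d ∈ M.A, (Lp d ↔ Same M.A M.fc x d) := by
  have hr : ∀ d ∈ M.A, d ≠ x → M.rev d ≠ x → (Same M.A M.fc x (M.rev d) ↔ Same M.A M.fc x d) := by
    intro d hdA h1 h2
    by_cases h3 : d = M.o
    · rw [h3, h.ok.ro]
    · have h4 := h.r1 d hdA h3 h1 h2
      exact ⟨fun h5 => h5.trans h4.symm, fun h5 => h5.trans h4⟩
  have hc : ∀ d ∈ M.A, (Same M.A M.fc x (M.cw d) ↔ Same M.A M.fc x (M.rev d)) := by
    intro d hdA
    rw [← h.ok.fcr hdA]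
    have h4 := Same.step (f := M.fc) (h.ok.mrev d hdA)
    exact ⟨fun h5 => h5.trans h4.symm, fun h5 => h5.trans h4⟩
  have key : ∀ d ∈ M.A, ((Lp (M.cw d) ↔ Same M.A M.fc x (M.cw d)) ↔
      (Lp d ↔ Same M.A M.fc x d)) := by
    intro d hdA
    rw [hc d hdA]
    by_cases h1 : d = x
    · rw [h1]
      have k1 := h.l4
      have k2 := h.l3
      have k3 : Same M.A M.fc x x := Same.refl x
      tauto
    · by_cases h2 : M.rev d = x
      · have hd2 : d = M.rev x := by rw [← h2, h.ok.rr d hdA]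
        rw [h2, hd2]
        have k1 := h.l1
        have k2 := h.l2
        have k3 : Same M.A M.fc x x := Same.refl x
        tauto
      · rw [h.l5 d hdA h1 h2, hr d hdA h1 h2]
  intro d hdA
  have k0 := (h.v x h.xA) (fun z => (Lp z ↔ Same M.A M.fc x z)) key
  have k1 := (h.v d hdA) (fun z => (Lp z ↔ Same M.A M.fc x z)) key
  have k2 : (Lp x ↔ Same M.A M.fc x x) := iff_of_true h.l3 (Same.refl x)
  exact k1.1 (k0.2 k2)

end Adp

/-- the twist after the deletion of the loop -/
noncomputable def tS {G : Type} [Group G] (Lp : D → Prop) (za zb : D) (s : D → G) (d : D) : G :=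
  open Classical in if Lp d then s za * (s zb)⁻¹ * s d * ((s za)⁻¹ * s zb) else s d

section

variable [DecidableEq D] {M : Sf D} {x : D} {Lp : D → Prop}

/-- the situation of a loop that separates -/
structure SepH (M : Sf D) (x : D) (Lp : D → Prop) : Prop where
  adp : Adp M x Lp
  dif : ¬ Same M.A M.fc x (M.rev x)
  ess : M.fc x ≠ x

namespace SepH

lemma dh (h : SepH M x Lp) : M.DelH x := ⟨h.adp.ok, h.adp.xA, h.adp.xo, not_same.1 h.dif⟩

lemma lface (h : SepH M x Lp) {d : D} (hd : d ∈ M.A) : Lp (M.fc d) ↔ Lp d := by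
  rw [h.adp.face h.dif d hd, h.adp.face h.dif _ (h.adp.ok.fm d hd)]
  have h4 := Same.step (f := M.fc) hd
  exact ⟨fun h5 => h5.trans h4.symm, fun h5 => h5.trans h4⟩

lemma lrev (h : SepH M x Lp) {d : D} (hd : d ∈ (M.del x).A) : Lp (M.rev d) ↔ Lp d := by
  have hd' := mem_rm.1 hd
  rw [h.adp.face h.dif d hd'.1, h.adp.face h.dif _ (h.adp.ok.mrev d hd'.1)]
  by_cases h3 : d = M.o
  · rw [h3, h.adp.ok.ro]
  · have h4 := h.adp.r1 d hd'.1 h3 hd'.2.1 (h.adp.rne hd'.1 hd'.2.2)
    exact ⟨fun h5 => h5.trans h4.symm, fun h5 => h5.trans h4⟩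

lemma nax (h : SepH M x Lp) : M.cw (M.rev x) ≠ x := h.ess

lemma naxr (h : SepH M x Lp) : M.cw (M.rev x) ≠ M.rev x := by
  intro h1
  have h2 := h.adp.l1
  rw [h1] at h2
  exact h.adp.l2 h2

lemma nbx (h : SepH M x Lp) : M.cw x ≠ x := by
  intro h1
  have h2 := h.adp.l4
  rw [h1] at h2
  exact h2 h.adp.l3

lemma nbxr (h : SepH M x Lp) : M.cw x ≠ M.rev x := h.adp.cwx

lemma za_mem (h : SepH M x Lp) : M.cw (M.rev x) ∈ (M.del x).A :=
  mem_rm.2 ⟨h.adp.ok.hm _ (h.adp.ok.mrev _ h.adp.xA), h.nax, h.naxr⟩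

lemma zb_mem (h : SepH M x Lp) : M.cw x ∈ (M.del x).A :=
  mem_rm.2 ⟨h.adp.ok.hm _ h.adp.xA, h.nbx, h.nbxr⟩

/-- the darts before `rev x` and before `x` -/
lemma wy (h : SepH M x Lp) : ∃ w ∈ (M.del x).A, ∃ y ∈ (M.del x).A, M.cw w = M.rev x ∧
    M.cw y = x ∧ (M.del x).cw w = M.cw (M.rev x) ∧ (M.del x).cw y = M.cw x ∧ ¬ Lp w ∧ Lp y ∧
    ∀ d ∈ (M.del x).A, d ≠ w → d ≠ y → (Lp ((M.del x).cw d) ↔ Lp d) := by
  have ok := h.adp.ok
  have hxr := ok.mrev x h.adp.xA
  obtain ⟨w, hw, hw2⟩ := surj ok.hm ok.hi hxr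
  obtain ⟨y, hy, hy2⟩ := surj ok.hm ok.hi h.adp.xA
  have w1 : w ≠ x := by
    rintro rfl
    exact h.nbxr hw2
  have w2 : w ≠ M.rev x := by
    rintro rfl
    exact h.naxr hw2
  have y1 : y ≠ x := by
    rintro rfl
    exact h.nbx hy2
  have y2 : y ≠ M.rev x := by
    rintro rfl
    exact h.nax hy2
  refine ⟨w, mem_rm.2 ⟨hw, w1, w2⟩, y, mem_rm.2 ⟨hy, y1, y2⟩, hw2, hy2, ?_, ?_, ?_, ?_, ?_⟩
  · show sk M.cw x (M.rev x) w = _
    have := h.nax
    have := ok.rn x h.adp.xA h.adp.xo
    unfold sk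
    grind
  · show sk M.cw x (M.rev x) y = _
    have := h.nbxr
    unfold sk
    grind
  · intro h1
    have := (h.adp.l5 w hw w1 (h.adp.rne hw w2)).2 h1
    rw [hw2] at this
    exact h.adp.l2 this
  · have := (h.adp.l5 y hy y1 (h.adp.rne hy y2))
    rw [hy2] at this
    exact this.1 h.adp.l3
  · intro d hd h1 h2
    have hd' := mem_rm.1 hd
    have e1 : (M.del x).cw d = M.cw d := by
      show sk M.cw x (M.rev x) d = _
      have i1 := ok.hi d hd'.1 w hw
      have i2 := ok.hi d hd'.1 y hy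
      unfold sk
      grind
    rw [e1]
    exact h.adp.l5 d hd'.1 hd'.2.1 (h.adp.rne hd'.1 hd'.2.2)

/-- one vertex and one face -/
lemma uni (h : SepH M x Lp) : Uni (M.del x) where
  ok := h.dh.ok'
  v d hd := (h.dh.same h.dh.st.mo hd).2 (h.adp.v d (mem_rm.1 hd).1)
  f d hd := by
    have s := h.dh.st
    have key : ∀ d ∈ (M.del x).A, Same (M.del x).A (M.del x).fc d (M.rev d) := by
      intro d hd
      have hd' := mem_rm.1 hd
      by_cases h3 : d = M.o
      · rw [h3, h.adp.ok.ro]
        exact Same.refl _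
      · have h4 := h.adp.r1 d hd'.1 h3 hd'.2.1 (h.adp.rne hd'.1 hd'.2.2)
        intro P hP
        have k2 := ex2_val s.gm s.gi h.dh.he s.me' s.dif s.nd' (γ := P) (fun d hd => by
          have := hP d hd
          rw [h.dh.fc_eq hd] at this
          exact propext this)
        have k3 := h4 (ex2 M.fc x (M.rev x) P) (fun d hd => by rw [k2 d hd])
        have hr' := mem_rm.1 (s.mrev' d hd)
        rw [ex2_of hd'.2.1 hd'.2.2, ex2_of hr'.2.1 hr'.2.2] at k3
        exact k3
    refine h.dh.ok'.conn' (fun z => Same (M.del x).A (M.del x).fc (M.del x).o z)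
      (fun z hz => ?_) (fun z hz => ?_) (Same.refl _) d hd
    · exact ⟨fun h1 => h1.trans (Same.step hz).symm, fun h1 => h1.trans (Same.step hz)⟩
    · exact ⟨fun h1 => h1.trans (key z hz).symm, fun h1 => h1.trans (key z hz)⟩

/-- the twists before and after the deletion -/
lemma rel (h : SepH M x Lp) {B B' : Empty → Cv D} (hB : ∀ i, TC M (M.del x) (ND M x) (B i) (B' i))
    {G : Type} [Group G] {s s' : D → G} (hs : (h.dh.stp.lk hB).E G s s') :
    (h.dh.stp.lk hB).E G (tx M x Lp s) (tS Lp (M.cw (M.rev x)) (M.cw x) s') := by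
  classical
  obtain ⟨h1, h2, s1, h3, h4, h5⟩ := hs
  obtain ⟨n1, n2⟩ := id h3
  have hU := h.uni
  obtain ⟨za, hza⟩ : ∃ za, za = M.cw (M.rev x) := ⟨_, rfl⟩
  obtain ⟨zb, hzb⟩ : ∃ zb, zb = M.cw x := ⟨_, rfl⟩
  rw [← hza, ← hzb]
  rw [← hza] at n2
  rw [← hzb] at n1
  have La : Lp za := by rw [hza]; exact h.adp.l1
  have Lb : ¬ Lp zb := by rw [hzb]; exact h.adp.l4
  have ehx : M.hh s1 x = (s1 zb)⁻¹ * s1 za := by
    unfold Sf.hh
    rw [← hza, n1]
  have tp : ∀ (t : D → G) d, Lp d → tS Lp za zb t d =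
      t za * (t zb)⁻¹ * t d * ((t za)⁻¹ * t zb) := fun t d hd => by
    unfold tS
    rw [if_pos hd]
  have tn : ∀ (t : D → G) d, ¬ Lp d → tS Lp za zb t d = t d := fun t d hd => by
    unfold tS
    rw [if_neg hd]
  have g1 : M.Eqv 1 (tx M x Lp s1) (tS Lp za zb s1) := by
    refine ⟨fun d => if Lp d then s1 za * (s1 zb)⁻¹ else 1, fun _ => 1, fun d hd => ?_,
      fun _ _ => rfl, rfl, fun d hd => ?_⟩
    · simp only [h.lface hd]
    · beta_reduce
      by_cases h6 : Lp d
      · rw [tp _ _ h6, if_pos h6]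
        unfold tx
        rw [if_pos h6, ehx]
        group
      · rw [tn _ _ h6, if_neg h6]
        unfold tx
        rw [if_neg h6]
        group
  have g2 : ND M x G (tS Lp za zb s1) := by
    constructor
    · show tS Lp za zb s1 x = tS Lp za zb s1 (M.cw x)
      rw [← hzb, tn _ _ Lb, tp _ _ h.adp.l3, n1]
      group
    · show tS Lp za zb s1 (M.rev x) = tS Lp za zb s1 (M.cw (M.rev x))
      rw [← hza, tn _ _ h.adp.l2, tp _ _ La, n2]
      group
  have f1 := h.adp.tx_fl h1
  have f2 := h.adp.tx_eqv h4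
  have f3 : M.Fl (tS Lp za zb s1) := g1.fl h.adp.ok (f2.fl h.adp.ok f1)
  have f4 : (M.del x).Fl (tS Lp za zb s1) := h.dh.stp.fl g2 f3
  have f5 : (M.del x).Eqv 1 (tS Lp za zb s1) (tS Lp za zb s') := by
    obtain ⟨φ, γ, e1, e2, e3, e4⟩ := h5
    have hγ : ∀ d ∈ (M.del x).A, γ d = 1 := fun d hd => by
      rw [← e3]
      exact ((hU.v d hd).val e2).symm
    have hφ : ∀ d ∈ (M.del x).A, φ d = φ M.o := fun d hd => ((hU.f d hd).val e1).symm
    have e5 : ∀ d ∈ (M.del x).A, s' d = φ M.o * s1 d := fun d hd => by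
      rw [e4 d hd, hγ d hd, hφ d hd]
      group
    have ma : za ∈ (M.del x).A := by rw [hza]; exact h.za_mem
    have mb : zb ∈ (M.del x).A := by rw [hzb]; exact h.zb_mem
    refine ⟨φ, γ, e1, e2, e3, fun d hd => ?_⟩
    rw [hγ d hd, hφ d hd]
    by_cases h6 : Lp d
    · rw [tp _ _ h6, tp _ _ h6, e5 d hd, e5 _ ma, e5 _ mb]
      group
    · rw [tn _ _ h6, tn _ _ h6, e5 d hd]
      group
  exact ⟨f1, f5.fl h.dh.ok' f4, tS Lp za zb s1, g2, f2.trans1 g1, f5⟩

/-- tails of the boundary word -/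
lemma _root_.Pool.Agent.V8H82.PF.Uni.tail {M : Sf D} (h : Uni M) : ∀ (k : ℕ) (z : D), z ∈ M.A →
    ds M.fc M.o z = k → ∀ (A C : List (Gn M × Bool)) (l : Gn M × Bool), wl M z = A ++ l :: C →
    C = wl M (M.fc (dr M l)) := by
  intro k
  induction k with
  | zero =>
    intro z hz hk A C l he
    by_cases h1 : z = M.o
    · rw [h1, h.wl_o] at he
      exact absurd he.symm (by simp)
    · have := ds_step (h.rf hz) h1
      omega
  | succ k ih =>
    intro z hz hk A C l he
    by_cases h1 : z = M.o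
    · rw [h1, ds_self] at hk
      omega
    · obtain ⟨m, hm⟩ := h.ex_l hz h1
      have h2 := ds_step (h.rf hz) h1
      rw [← hm, h.wl_cons, hm] at he
      cases A with
      | nil =>
        have h3 := List.cons.inj he
        rw [← h3.2, ← h3.1, hm]
      | cons a A =>
        have h3 := List.cons.inj he
        exact ih (M.fc z) (h.ok.fm z hz) (by omega) A C l h3.2

/-- the boundary word of the block -/
lemma seg (h : SepH M x Lp) {w y : D} (hy : y ∈ (M.del x).A)
    (hyb : (M.del x).cw y = M.cw x) (hLw : ¬ Lp w)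
    (hL : ∀ d ∈ (M.del x).A, d ≠ w → d ≠ y → (Lp ((M.del x).cw d) ↔ Lp d)) :
    ∀ (k : ℕ) (z : D), z ∈ (M.del x).A → Lp z → ds (M.del x).fc (M.del x).o z = k →
    ∃ U, wl (M.del x) z = U ++ wl (M.del x) (M.cw x) ∧ U ≠ [] ∧
      (∀ q, ps (M.del x).cw (M.del x).o z = q + 1 →
        PU (ppos (M.del x)) q U (ps (M.del x).cw (M.del x).o y)) ∧
      ∀ l ∈ U, Lp (dr (M.del x) l) := by
  have hU := h.uni
  intro k
  induction k with
  | zero =>
    intro z hz hLz hk
    exfalso
    by_cases h1 : z = M.o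
    · rw [h1] at hLz
      exact h.adp.l0 hLz
    · have := ds_step (hU.rf hz) h1
      omega
  | succ k ih =>
    intro z hz hLz hk
    have hzo : z ≠ M.o := by
      rintro rfl
      exact h.adp.l0 hLz
    obtain ⟨l, hl⟩ := hU.ex_l hz hzo
    have h2 := ds_step (hU.rf hz) hzo
    have hr := hU.ok.mrev z hz
    have hLr : Lp ((M.del x).rev z) := (h.lrev hz).2 hLz
    have hlr : dr (M.del x) (iv l) = (M.del x).rev z := by rw [hU.dr_iv, hl]
    have hp : ppos (M.del x) l = ps (M.del x).cw (M.del x).o z := by unfold ppos; rw [hl]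
    have hpi : ppos (M.del x) (iv l) = ps (M.del x).cw (M.del x).o ((M.del x).rev z) := by
      unfold ppos
      rw [hlr]
    have e1 : wl (M.del x) z = l :: wl (M.del x) ((M.del x).fc z) := by
      rw [← hl, hU.wl_cons, hl]
    by_cases c1 : (M.del x).rev z = y
    · have e2 : (M.del x).fc z = M.cw x := by
        show (M.del x).cw ((M.del x).rev z) = _
        rw [c1, hyb]
      refine ⟨[l], by rw [e1, e2]; rfl, by simp, fun q hq => ⟨by rw [hp, hq], ?_⟩, ?_⟩
      · show ppos (M.del x) (iv l) = _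
        rw [hpi, c1]
      · intro l' hl'
        have : l' = l := by simpa using hl'
        rw [this, hl]
        exact hLz
    · have c2 : (M.del x).rev z ≠ w := by
        intro h3
        rw [h3] at hLr
        exact hLw hLr
      have hLf : Lp ((M.del x).fc z) := (hL _ hr c2 c1).2 hLr
      have hfA := hU.ok.fm z hz
      obtain ⟨U, u1, u2, u3, u4⟩ := ih _ hfA hLf (by omega)
      have hfo : (M.del x).fc z ≠ (M.del x).o := by
        intro h3
        rw [h3] at hLf
        exact h.adp.l0 hLf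
      have h4 := ps_step hU.ok.hm hU.ok.hi hU.ok.ho hr (hU.rc hr) hfo
      refine ⟨l :: U, by rw [e1, u1]; rfl, by simp, fun q hq => ⟨by rw [hp, hq], ?_⟩, ?_⟩
      · rw [hpi]
        exact u3 _ h4
      · intro l' hl'
        rcases List.mem_cons.1 hl' with h5 | h5
        · rw [h5, hl]
          exact hLz
        · exact u4 l' h5

/-- the case of a separating loop -/
theorem sp (h : SepH M x Lp) :
    ∃ θ : FreeGroup (Gn (M.del x)) →* FreeGroup (Gn (M.del x)),
      (M.del x).Eqv 1 (fun d => θ (Uni.uu (M.del x) d))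
        (tS Lp (M.cw (M.rev x)) (M.cw x) (Uni.uu (M.del x))) ∧
      (∀ z, z = θ z ∨ lt (nm (M.del x)) (ppos (M.del x)) z (θ z)) ∧ ∃ z, θ z ≠ z := by
  classical
  have hU := h.uni
  obtain ⟨w, hw, y, hy, w1, y1, hwa, hyb, hLw, hLy, hL⟩ := h.wy
  have hza := h.za_mem
  have hzb := h.zb_mem
  have La : Lp (M.cw (M.rev x)) := h.adp.l1
  have Lb : ¬ Lp (M.cw x) := h.adp.l4
  obtain ⟨i1, i2⟩ := interval hU.ok hU.v (Lp := Lp) hw hy h.adp.l0 hL hLw hLy
    (by rw [hwa]; exact La) (by rw [hyb]; exact Lb)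
  obtain ⟨U, u1, u2, u3, u4⟩ := h.seg hy hyb hLw hL _ _ hza La rfl
  have hzao : M.cw (M.rev x) ≠ M.o := fun h1 => h.adp.l0 (by rw [← h1]; exact La)
  have pza : ps (M.del x).cw (M.del x).o (M.cw (M.rev x)) =
      ps (M.del x).cw (M.del x).o w + 1 := by
    rw [← hwa]
    exact ps_step hU.ok.hm hU.ok.hi hU.ok.ho hw (hU.rc hw) (by rw [hwa]; exact hzao)
  have hLl : ∀ l : Gn (M.del x) × Bool, (Lp (dr (M.del x) l) ↔
      ps (M.del x).cw (M.del x).o w < ppos (M.del x) l ∧
        ppos (M.del x) l ≤ ps (M.del x).cw (M.del x).o y) := fun l => i2 _ (hU.dr_mem l).1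
  have hblk : Blk (nm (M.del x)) (ppos (M.del x)) (ps (M.del x).cw (M.del x).o w)
      (ps (M.del x).cw (M.del x).o y) U := by
    refine ⟨hU.arr, fun l h1 h2 => ?_, u2, u3 _ pza, fun l hl => (hLl l).1 (u4 l hl),
      fun l h1 h2 => ?_, ?_⟩
    · have h3 := (hLl l).2 ⟨h1, h2⟩
      have h4 := (h.lrev (hU.dr_mem l).1).2 h3
      have h5 : M.rev (dr (M.del x) l) = dr (M.del x) (iv l) := (hU.dr_iv l).symm
      rw [h5] at h4
      exact (hLl _).1 h4
    · -- all the letters of the block occur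
      have h3 := (hLl l).2 ⟨h1, h2⟩
      have key : ∀ (k : ℕ) (l : Gn (M.del x) × Bool), Lp (dr (M.del x) l) →
          ps (M.del x).fc ((M.del x).fc (M.del x).o) (dr (M.del x) l) = k → l ∈ U := by
        intro k
        induction k using Nat.strong_induction_on with
        | _ k ih =>
          intro l hLl' hk
          have hz := (hU.dr_mem l).1
          obtain ⟨z', hz', hz2⟩ := surj hU.ok.fm hU.ok.fi hz
          have hz2' : (M.del x).cw ((M.del x).rev z') = dr (M.del x) l := hz2
          have hr := hU.ok.mrev z' hz'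
          by_cases c1 : (M.del x).rev z' = w
          · -- the first letter
            rw [c1, hwa] at hz2'
            obtain ⟨m, U', hm⟩ := List.exists_cons_of_ne_nil u2
            have e1 : wl (M.del x) (M.cw (M.rev x)) =
                l :: wl (M.del x) ((M.del x).fc (dr (M.del x) l)) := by
              rw [hz2']
              exact hU.wl_cons l
            rw [u1, hm, List.cons_append] at e1
            rw [hm, (List.cons.inj e1).1]
            simp
          · have hLr : Lp ((M.del x).rev z') := by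
              by_contra h4
              have c2 : (M.del x).rev z' ≠ y := by
                intro h5
                rw [h5] at h4
                exact h4 hLy
              have h6 := hL _ hr c1 c2
              rw [hz2'] at h6
              exact h4 (h6.1 hLl')
            have hLz : Lp z' := by
              have h4 := (h.lrev hz')
              exact h4.1 hLr
            have hzo : z' ≠ (M.del x).o := by
              rintro rfl
              exact h.adp.l0 hLz
            obtain ⟨m, hm⟩ := hU.ex_l hz' hzo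
            have hne : dr (M.del x) l ≠ (M.del x).fc (M.del x).o := by
              intro h4
              rw [h4] at hz2
              have := hU.ok.fi _ hz' _ hU.ok.ho hz2
              exact hzo this
            have hreach : ∃ k, (M.del x).fc^[k] ((M.del x).fc (M.del x).o) = z' :=
              reach hU.ok.fm hU.ok.fi (hU.ok.fm _ hU.ok.ho)
                ((Same.step hU.ok.ho).symm.trans (hU.f _ hz'))
            have h5 := ps_step hU.ok.fm hU.ok.fi (hU.ok.fm _ hU.ok.ho) hz' hreach
              (by rw [hz2]; exact hne)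
            rw [hz2] at h5
            have h6 := ih _ (by rw [hm]; omega) m (by rw [hm]; exact hLz) rfl
            obtain ⟨S, T, hST⟩ := List.append_of_mem h6
            have h7 : wl (M.del x) (M.cw (M.rev x)) = S ++ m :: (T ++ wl (M.del x) (M.cw x)) := by
              rw [u1, hST]
              simp
            have h8 := hU.tail _ _ hza rfl S _ m h7
            rw [hm, hz2, hU.wl_cons] at h8
            cases T with
            | nil =>
              exfalso
              rw [List.nil_append] at h8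
              by_cases c3 : M.cw x = (M.del x).o
              · rw [c3, hU.wl_o] at h8
                exact absurd h8.symm (by simp)
              · obtain ⟨b, hb⟩ := hU.ex_l hzb c3
                rw [← hb, hU.wl_cons] at h8
                have h9 := (List.cons.inj h8).1
                rw [h9] at hb
                rw [hb] at hLl'
                exact Lb hLl'
            | cons t T =>
              rw [List.cons_append] at h8
              rw [hST, ← (List.cons.inj h8).1]
              simp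
      exact key _ l h3 rfl
    · -- no repetitions
      obtain ⟨z', hz', hz2⟩ := surj hU.ok.fm hU.ok.fi hza
      have h3 := hU.bd_aux _ z' hz' rfl
      rw [hz2] at h3
      have h4 := h3.nodup hU.arr
      rw [u1] at h4
      exact (List.nodup_append.1 h4).1
  obtain ⟨f, hf⟩ : ∃ f : Gn (M.del x) × Bool → FreeGroup (Gn (M.del x)), f = fun l =>
    if ps (M.del x).cw (M.del x).o w < ppos (M.del x) l ∧
        ppos (M.del x) l ≤ ps (M.del x).cw (M.del x).o y then
      (FreeGroup.mk U)⁻¹ * G l * FreeGroup.mk U else G l := ⟨_, rfl⟩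
  obtain ⟨θ, hθ0⟩ : ∃ θ : FreeGroup (Gn (M.del x)) →* FreeGroup (Gn (M.del x)),
    θ = FreeGroup.lift fun a => f (a, true) := ⟨_, rfl⟩
  have hθ : ∀ l, θ (G l) = if ps (M.del x).cw (M.del x).o w < ppos (M.del x) l ∧
        ppos (M.del x) l ≤ ps (M.del x).cw (M.del x).o y then
      (FreeGroup.mk U)⁻¹ * G l * FreeGroup.mk U else G l := by
    rintro ⟨a, b⟩
    cases b
    · have h1 : (G (a, false) : FreeGroup (Gn (M.del x))) = (G (a, true))⁻¹ := by
        rw [← G_inv]
        rfl
      have h2 : iv (a, false) = ((a, true) : Gn (M.del x) × Bool) := rfl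
      have h2' : iv (a, true) = ((a, false) : Gn (M.del x) × Bool) := rfl
      rw [h1, map_inv, Pool.Agent.N513.PF.G_true, hθ0, FreeGroup.lift_apply_of, hf]
      by_cases h3 : ps (M.del x).cw (M.del x).o w < ppos (M.del x) (a, false) ∧
        ppos (M.del x) (a, false) ≤ ps (M.del x).cw (M.del x).o y
      · have h4 := hblk.iv _ h3.1 h3.2
        rw [h2] at h4
        simp only [if_pos h3, if_pos h4]
        rw [Pool.Agent.N513.PF.G_true]
        group
      · have h4 : ¬ (ps (M.del x).cw (M.del x).o w < ppos (M.del x) (a, true) ∧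
            ppos (M.del x) (a, true) ≤ ps (M.del x).cw (M.del x).o y) := by
          intro h5
          apply h3
          have := hblk.iv _ h5.1 h5.2
          rwa [h2'] at this
        simp only [if_neg h3, if_neg h4]
        rw [Pool.Agent.N513.PF.G_true]
    · rw [Pool.Agent.N513.PF.G_true, hθ0, FreeGroup.lift_apply_of, hf]
      rfl
  refine ⟨θ, ?_, fun z => (hblk.twS_up hθ _ z le_rfl).1, hblk.twS_ne hθ⟩
  obtain ⟨u, hu⟩ : ∃ u, u = Uni.uu (M.del x) := ⟨_, rfl⟩
  rw [← hu]
  have hhu : ∀ l, (M.del x).hh u (dr (M.del x) l) = G l := by rw [hu]; exact hU.hh_uu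
  obtain ⟨za, hzae⟩ : ∃ za, za = M.cw (M.rev x) := ⟨_, rfl⟩
  obtain ⟨zb, hzbe⟩ : ∃ zb, zb = M.cw x := ⟨_, rfl⟩
  have hUu : (u za)⁻¹ * u zb = FreeGroup.mk U := by
    rw [hu, hzae, hzbe]
    unfold Uni.uu
    rw [u1, mk_app]
    group
  rw [← hzae, ← hzbe]
  rw [← hzae] at hwa
  rw [← hzbe] at hyb
  have tp : ∀ d, Lp d → tS Lp za zb u d =
      u za * (u zb)⁻¹ * u d * ((u za)⁻¹ * u zb) := fun d hd => by
    unfold tS
    rw [if_pos hd]
  have tn : ∀ d, ¬ Lp d → tS Lp za zb u d = u d := fun d hd => by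
    unfold tS
    rw [if_neg hd]
  have := Sf.Eqv.of_hh hU.ok (s1 := fun d => θ (u d)) (s2 := tS Lp za zb u)
    (γ := fun _ => 1) (fun _ _ => rfl) (fun d hd hdo => ?_)
  · exact this
  · obtain ⟨l, hl⟩ := hU.ex_l hd hdo
    have e1 : (M.del x).hh (fun d => θ (u d)) d = θ (G l) := by
      rw [Sf.hh_map, ← hl, hhu]
    rw [e1, hθ, ← hUu]
    have hLd := hLl l
    rw [hl] at hLd
    have e2 : G l = (u d)⁻¹ * u ((M.del x).fc d) := by
      rw [← hhu l, hl]
      rfl
    have e3 : (M.del x).hh (tS Lp za zb u) d = (tS Lp za zb u d)⁻¹ *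
      tS Lp za zb u ((M.del x).fc d) := rfl
    rw [e3, e2]
    have hr := hU.ok.mrev d hd
    have hLr : Lp ((M.del x).rev d) ↔ Lp d := h.lrev hd
    have La' : Lp za := by rw [hzae]; exact La
    have Lb' : ¬ Lp zb := by rw [hzbe]; exact Lb
    by_cases h1 : Lp d
    · rw [if_pos (hLd.1 h1), tp d h1]
      by_cases c1 : (M.del x).rev d = y
      · have h2 : (M.del x).fc d = zb := by
          show (M.del x).cw ((M.del x).rev d) = _
          rw [c1, hyb]
        rw [h2, tn zb Lb']
        group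
      · have c2 : (M.del x).rev d ≠ w := by
          intro h3
          rw [h3] at hLr
          exact hLw (hLr.2 h1)
        have h2 : Lp ((M.del x).fc d) := (hL _ hr c2 c1).2 (hLr.2 h1)
        rw [tp _ h2]
        group
    · rw [if_neg (fun h2 => h1 (hLd.2 h2)), tn d h1]
      by_cases c1 : (M.del x).rev d = w
      · have h2 : (M.del x).fc d = za := by
          show (M.del x).cw ((M.del x).rev d) = _
          rw [c1, hwa]
        rw [h2, tp za La']
        group
      · have c2 : (M.del x).rev d ≠ y := by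
          intro h3
          rw [h3] at hLr
          exact h1 (hLr.1 hLy)
        have h2 : ¬ Lp ((M.del x).fc d) := fun h4 => h1 (hLr.1 ((hL _ hr c1 c2).1 h4))
        rw [tn _ h2]
        group

end SepH

end

end Pool.Agent.V8H82.PF
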