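import Pool.Agent.V8H82.PF.Unif

/-!
# Curves with the same twist; the annulus between two loops
-/

set_option autoImplicit false
set_option linter.unusedVariables false
set_option linter.unusedSectionVars false

namespace Pool.Agent.V8H82.PF

open Finset List

variable {D : Type} {ι : Type}

/-- the same twist -/
def EqC (M : Sf D) (K K' : Cv D) : Prop :=
  ∀ (G : Type) [Group G] (s : D → G), M.Fl s → M.Eqv 1 (tw M K 1 s) (tw M K' 1 s)

lemma EqC.refl {M : Sf D} (K : Cv D) : EqC M K K := fun _ _ _ _ => Sf.Eqv.refl _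

lemma EqC.symm {M : Sf D} {K K' : Cv D} (h : EqC M K K') : EqC M K' K :=
  fun G _ s hs => (h G s hs).symm1

lemma EqC.trans {M : Sf D} {K K' K'' : Cv D} (h : EqC M K K') (h' : EqC M K' K'') :
    EqC M K K'' := fun G _ s hs => (h G s hs).trans1 (h' G s hs)

lemma Lk.eqc {M M' : Sf D} {B B' : ι → Cv D} (h : Lk M B M' B') {i j : ι}
    (he : EqC M' (B' i) (B' j)) : EqC M (B i) (B j) := by
  intro G _ s hs
  obtain ⟨s', h1⟩ := h.dn G s hs
  exact (h.eq G 1 _ _ _ _ (h.tw G s s' 1 i h1) (h.tw G s s' 1 j h1)).2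
    (he G s' (h.fl G _ _ h1).2)

/-- the reversed loop has the same twist -/
lemma LR.reor {M : Sf D} {K : Cv D} (hM : M.Ok) (h : LR M K) {k x : D} (hc : K.c = [k])
    (hx : x = k ∨ x = M.rev k) : ∃ K1 : Cv D, K1.c = [x] ∧ LR M K1 ∧ EqC M K K1 := by
  rcases hx with rfl | rfl
  · exact ⟨K, hc, h, EqC.refl K⟩
  · refine ⟨rvK M K k, rfl, h.rv hM hc, fun G _ s hs => ?_⟩
    exact ((lkRv hM h hc).tw G s s 1 () ⟨hs, hs, Sf.Eqv.refl _⟩).2.2

/-- a property at a fixed dart -/
lemma same_fix {A : Finset D} {f : D → D} (hi : ∀ d ∈ A, ∀ d' ∈ A, f d = f d' → d = d')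
    {z z' : D} (hz : z ∈ A) (hf : f z = z) (h : Same A f z z') : z' = z := by
  refine (h (fun d => d = z) fun d hd => ?_).1 rfl
  constructor
  · intro h1
    exact hi d hd z hz (h1.trans hf.symm)
  · rintro rfl
    exact hf

/-- an annulus -/
structure Ann (M : Sf D) (K1 K2 : Cv D) (e x y : D) : Prop where
  ok : M.Ok
  l1 : LR M K1
  l2 : LR M K2
  c1 : K1.c = [x]
  c2 : K2.c = [M.rev y]
  eA : e ∈ M.A
  xA : x ∈ M.A
  yA : y ∈ M.A
  f1 : M.fc e = x
  f2 : M.fc x = M.rev e
  f3 : M.fc (M.rev e) = y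
  f4 : M.fc y = e
  dj : ¬ Same M.A M.cw x y

namespace Ann

variable {M : Sf D} {K1 K2 : Cv D} {e x y : D}

lemma xc (h : Ann M K1 K2 e x y) : x ∈ K1.c := by rw [h.c1]; simp

lemma yc (h : Ann M K1 K2 e x y) : M.rev y ∈ K2.c := by rw [h.c2]; simp

lemma v1 (h : Ann M K1 K2 e x y) : Same M.A M.cw (M.rev x) x := by
  have := h.l1.chain
  rwa [h.c1, Cycle.chain_singleton] at this

lemma v2 (h : Ann M K1 K2 e x y) : Same M.A M.cw y (M.rev y) := by
  have := h.l2.chain
  rw [h.c2, Cycle.chain_singleton, h.ok.rr y h.yA] at this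
  exact this

lemma g1 (h : Ann M K1 K2 e x y) : M.cw (M.rev e) = x := h.f1

lemma g2 (h : Ann M K1 K2 e x y) : M.cw (M.rev x) = M.rev e := h.f2

lemma g3 (h : Ann M K1 K2 e x y) : M.cw e = y := by
  rw [← h.f3, h.ok.fcr h.eA]

lemma g4 (h : Ann M K1 K2 e x y) : M.cw (M.rev y) = e := h.f4

lemma ve (h : Ann M K1 K2 e x y) : Same M.A M.cw e y := by
  have := Same.step (f := M.cw) h.eA
  rwa [h.g3] at this

lemma vr (h : Ann M K1 K2 e x y) : Same M.A M.cw (M.rev e) x := by
  have := Same.step (f := M.cw) (h.ok.mrev _ h.eA)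
  rwa [h.g1] at this

lemma k1 (h : Ann M K1 K2 e x y) {d : D} (hd : d ∈ M.A) : K1.L d ↔ d = x ∨ d = M.rev e := by
  have a1 := h.l1.l1 x h.xc
  rw [h.g2] at a1
  have a2 := h.l1.l2 x h.xc
  have a3 := h.l1.l3 x h.xc
  have a4 := h.l1.l4 x h.xc
  constructor
  · intro hL
    by_contra hcon
    push Not at hcon
    obtain ⟨z, hz, h1⟩ := h.l1.l6 d hd hL
    rw [h.c1] at hz
    have hzx : z = x := by simpa using hz
    rw [hzx] at h1
    have key := (h1 (fun d => K1.L d ∧ d ≠ x ∧ d ≠ M.rev e) fun z hz => ?_).2 ⟨hL, hcon.1, hcon.2⟩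
    · exact key.2.1 rfl
    · have b1 := h.ok.hi z hz (M.rev e) (h.ok.mrev _ h.eA)
      have b2 := h.ok.hi z hz (M.rev x) (h.ok.mrev _ h.xA)
      rw [h.g1] at b1
      rw [h.g2] at b2
      have b3 : z ≠ x → z ≠ M.rev x → (K1.L (M.cw z) ↔ K1.L z) := by
        intro b4 b5
        refine h.l1.l5 z hz ?_ ?_
        · rw [h.c1]
          simpa using b4
        · rw [h.c1]
          simp only [List.mem_singleton]
          intro b6
          apply b5
          rw [← b6, h.ok.rr z hz]
      have b4 := h.g1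
      have b5 := h.g2
      constructor
      · rintro ⟨c1, c2, c3⟩
        have c4 : z ≠ M.rev e := fun c => c2 (by rw [c, h.g1])
        have c5 : z ≠ M.rev x := fun c => c3 (by rw [c, h.g2])
        have c6 : z ≠ x := fun c => a4 (by rw [← c]; exact c1)
        exact ⟨(b3 c6 c5).1 c1, c6, c4⟩
      · rintro ⟨c1, c2, c3⟩
        have c5 : z ≠ M.rev x := fun c => a2 (by rw [← c]; exact c1)
        exact ⟨(b3 c2 c5).2 c1, fun c => c3 (b1 c), fun c => c5 (b2 c)⟩
  · rintro (rfl | rfl)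
    · exact a3
    · exact a1

lemma k2 (h : Ann M K1 K2 e x y) {d : D} (hd : d ∈ M.A) :
    K2.L d ↔ Same M.A M.cw y d ∧ d ≠ y ∧ d ≠ e := by
  have a1 := h.l2.l1 _ h.yc
  have a2 := h.l2.l2 _ h.yc
  have a3 := h.l2.l3 _ h.yc
  have a4 := h.l2.l4 _ h.yc
  rw [h.ok.rr y h.yA] at a1 a2
  rw [h.g4] at a4
  constructor
  · intro hL
    obtain ⟨z, hz, h1⟩ := h.l2.l6 d hd hL
    rw [h.c2] at hz
    have hzx : z = M.rev y := by simpa using hz
    rw [hzx] at h1
    exact ⟨h.v2.trans h1, fun c => a2 (by rw [← c]; exact hL), fun c => a4 (by rw [← c]; exact hL)⟩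
  · rintro ⟨h1, h2, h3⟩
    by_contra hL
    have key := (h1 (fun d => ¬ K2.L d ∧ d ≠ y ∧ d ≠ e) fun z hz => ?_).2 ⟨hL, h2, h3⟩
    · exact key.2.1 rfl
    · have b1 := h.ok.hi z hz e h.eA
      have b2 := h.ok.hi z hz (M.rev y) (h.ok.mrev _ h.yA)
      rw [h.g3] at b1
      rw [h.g4] at b2
      have b3 : z ≠ M.rev y → z ≠ y → (K2.L (M.cw z) ↔ K2.L z) := by
        intro b4 b5
        refine h.l2.l5 z hz ?_ ?_
        · rw [h.c2]
          simpa using b4
        · rw [h.c2]
          simp only [List.mem_singleton]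
          intro b6
          exact b5 (h.ok.ri hz h.yA b6)
      constructor
      · rintro ⟨c1, c2, c3⟩
        have c4 : z ≠ e := fun c => c2 (by rw [c, h.g3])
        have c5 : z ≠ M.rev y := fun c => c3 (by rw [c, h.g4])
        have c6 : z ≠ y := fun c => c1 (by rw [c]; exact a1)
        exact ⟨fun c => c1 ((b3 c5 c6).2 c), c6, c4⟩
      · rintro ⟨c1, c2, c3⟩
        have c5 : z ≠ M.rev y := fun c => c1 (by rw [c]; exact a3)
        exact ⟨fun c => c1 ((b3 c5 c2).1 c), fun c => c3 (b1 c), fun c => c5 (b2 c)⟩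

/-- the face -/
lemma face (h : Ann M K1 K2 e x y) {d : D} (hd : d ∈ M.A) :
    Same M.A M.fc e d ↔ d = e ∨ d = x ∨ d = M.rev e ∨ d = y := by
  constructor
  · intro h1
    refine (h1 (fun d => d = e ∨ d = x ∨ d = M.rev e ∨ d = y) fun z hz => ?_).1 (Or.inl rfl)
    have b1 := h.ok.fi z hz e h.eA
    have b2 := h.ok.fi z hz x h.xA
    have b3 := h.ok.fi z hz (M.rev e) (h.ok.mrev _ h.eA)
    have b4 := h.ok.fi z hz y h.yA
    rw [h.f1] at b1
    rw [h.f2] at b2
    rw [h.f3] at b3
    rw [h.f4] at b4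
    constructor
    · rintro (c | c | c | c)
      · exact Or.inr (Or.inr (Or.inr (b4 c)))
      · exact Or.inl (b1 c)
      · exact Or.inr (Or.inl (b2 c))
      · exact Or.inr (Or.inr (Or.inl (b3 c)))
    · rintro (c | c | c | c)
      · rw [c, h.f1]
        exact Or.inr (Or.inl rfl)
      · rw [c, h.f2]
        exact Or.inr (Or.inr (Or.inl rfl))
      · rw [c, h.f3]
        exact Or.inr (Or.inr (Or.inr rfl))
      · rw [c, h.f4]
        exact Or.inl rfl
  · have s1 : Same M.A M.fc e x := by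
      have := Same.step (f := M.fc) h.eA
      rwa [h.f1] at this
    have s2 : Same M.A M.fc x (M.rev e) := by
      have := Same.step (f := M.fc) h.xA
      rwa [h.f2] at this
    have s3 : Same M.A M.fc (M.rev e) y := by
      have := Same.step (f := M.fc) (h.ok.mrev _ h.eA)
      rwa [h.f3] at this
    rintro (rfl | rfl | rfl | rfl)
    · exact Same.refl _
    · exact s1
    · exact s1.trans s2
    · exact (s1.trans s2).trans s3

/-- **Two loops that bound an annulus have the same twist.** -/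
theorem eqc (h : Ann M K1 K2 e x y) : EqC M K1 K2 := by
  classical
  intro G _ s hs
  have hxr := h.ok.mrev _ h.eA
  have heo : e ≠ M.o := by
    intro h1
    have h2 := h.vr
    rw [h1, h.ok.ro] at h2
    exact h.l1.base x h.xc h2
  have hyo : y ≠ M.o := by
    intro h1
    have h2 := h.v2
    rw [h1] at h2
    have h3 := h.l2.base _ h.yc
    rw [h1] at h3
    exact h3 h2
  have t1 := hs e h.eA heo
  have t2 := hs y h.yA hyo
  have t3 : M.hh s (M.rev e) = (s (M.rev e))⁻¹ * s y := by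
    show (s (M.rev e))⁻¹ * s (M.fc (M.rev e)) = _
    rw [h.f3]
  have t4 : M.hh s e = (s e)⁻¹ * s x := by
    show (s e)⁻¹ * s (M.fc e) = _
    rw [h.f1]
  have t5 : M.hh s y = (s y)⁻¹ * s e := by
    show (s y)⁻¹ * s (M.fc y) = _
    rw [h.f4]
  have t6 : M.hh s x = (s x)⁻¹ * s (M.rev e) := by
    show (s x)⁻¹ * s (M.fc x) = _
    rw [h.f2]
  rw [t3, t4] at t1
  rw [t5] at t2
  have cons : s (M.rev e) * (s x)⁻¹ = s y * (s e)⁻¹ := by
    have : s y = s (M.rev e) * ((s (M.rev e))⁻¹ * s y) := by group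
    rw [this, t1]
    group
  obtain ⟨p, hp⟩ : ∃ p, p = s (M.rev e) * (s x)⁻¹ := ⟨_, rfl⟩
  refine ⟨fun d => if Same M.A M.fc e d then p else 1,
    fun d => if Same M.A M.cw y d then (s e)⁻¹ * s y else 1, fun d hd => ?_, fun d hd => ?_, ?_,
    fun d hd => ?_⟩
  · have e1 : Same M.A M.fc e (M.fc d) ↔ Same M.A M.fc e d :=
      ⟨fun h1 => h1.trans (Same.step hd).symm, fun h1 => h1.trans (Same.step hd)⟩
    simp only [e1]
  · have e1 : Same M.A M.cw y (M.cw d) ↔ Same M.A M.cw y d :=
      ⟨fun h1 => h1.trans (Same.step hd).symm, fun h1 => h1.trans (Same.step hd)⟩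
    simp only [e1]
  · exact if_neg fun h1 => h.l2.base _ h.yc (h1.symm.trans h.v2)
  · have hol1 : K1.L d → hol M K1 s d = M.hh s x := by
      intro h1
      refine hol_single h.c1 ?_ s
      rcases (h.k1 hd).1 h1 with rfl | rfl
      · exact Same.refl _
      · exact h.vr.symm
    have hol2 : K2.L d → hol M K2 s d = (s e)⁻¹ * s y := by
      intro h1
      rw [hol_single h.c2 (h.v2.symm.trans ((h.k2 hd).1 h1).1) s, t2]
      group
    simp only [h.face hd]
    by_cases c1 : d = x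
    · have n1 : ¬ Same M.A M.cw y d := fun c => h.dj (by rw [← c1]; exact c.symm)
      have n2 : ¬ K2.L d := fun c => n1 ((h.k2 hd).1 c).1
      have n3 : K1.L d := (h.k1 hd).2 (Or.inl c1)
      rw [tw_neg n2, tw_pos n3, hol1 n3, if_pos (Or.inr (Or.inl c1)), if_neg n1, hp, t6, c1]
      group
    · by_cases c2 : d = M.rev e
      · have n1 : ¬ Same M.A M.cw y d := fun c => h.dj (by
          rw [c2] at c
          exact (c.trans h.vr).symm)
        have n2 : ¬ K2.L d := fun c => n1 ((h.k2 hd).1 c).1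
        have n3 : K1.L d := (h.k1 hd).2 (Or.inr c2)
        rw [tw_neg n2, tw_pos n3, hol1 n3, if_pos (Or.inr (Or.inr (Or.inl c2))), if_neg n1, hp,
          t6, c2]
        group
      · have n3 : ¬ K1.L d := fun c => by
          rcases (h.k1 hd).1 c with c3 | c3
          · exact c1 c3
          · exact c2 c3
        rw [tw_neg n3]
        by_cases c3 : d = e
        · have n1 : Same M.A M.cw y d := by rw [c3]; exact h.ve.symm
          have n2 : ¬ K2.L d := fun c => ((h.k2 hd).1 c).2.2 c3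
          rw [tw_neg n2, if_pos (Or.inl c3), if_pos n1, hp, cons, c3]
          group
        · by_cases c4 : d = y
          · have n1 : Same M.A M.cw y d := by rw [c4]; exact Same.refl _
            have n2 : ¬ K2.L d := fun c => ((h.k2 hd).1 c).2.1 c4
            rw [tw_neg n2, if_pos (Or.inr (Or.inr (Or.inr c4))), if_pos n1, hp, cons, c4]
            group
          · have n4 : ¬ (d = e ∨ d = x ∨ d = M.rev e ∨ d = y) := by tauto
            rw [if_neg n4]
            by_cases n1 : Same M.A M.cw y d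
            · have n2 : K2.L d := (h.k2 hd).2 ⟨n1, c4, c3⟩
              rw [tw_pos n2, hol2 n2, if_pos n1, zpow_neg_one, one_mul]
            · have n2 : ¬ K2.L d := fun c => n1 ((h.k2 hd).1 c).1
              rw [tw_neg n2, if_neg n1]
              group

end Ann

end Pool.Agent.V8H82.PF
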