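import Pool.Agent.V8H82.PF.Curve1
import Pool.Agent.N513.PF.Main

/-!
# The bound for one family of curves on one map
-/

set_option autoImplicit false
set_option linter.unusedVariables false
set_option linter.unusedSectionVars false

namespace Pool.Agent.V8H82.PF

open Finset List Pool.Agent.N513.PF

variable {D : Type}

/-- equal up to the gauge -/
lemma Univ.hom_eq {M : Sf D} {F G : Type} [Group F] [Group G] {u : D → F} (h : Univ M F u)
    {φ1 φ2 : F →* G} (he : M.Eqv 1 (fun d => φ1 (u d)) (fun d => φ2 (u d))) : φ1 = φ2 := by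
  ext a
  have := h.un G 1 φ1 φ2 he a
  rw [this]
  group

/-- two frames are isomorphic -/
lemma Frm.iso {M : Sf D} (hM : M.Ok) (F1 F2 : Frm M) :
    ∃ Φ : FreeGroup F1.β ≃* FreeGroup F2.β, M.Eqv 1 (fun d => Φ (F1.u d)) F2.u ∧
      (∀ x y, lt F1.n F1.p x y → lt F2.n F2.p (Φ x) (Φ y)) ∧
      ∀ x y, lt F2.n F2.p x y → lt F1.n F1.p (Φ.symm x) (Φ.symm y) := by
  obtain ⟨φ, h1⟩ := F1.univ.ex _ F2.u F2.univ.fl
  obtain ⟨ψ, h2⟩ := F2.univ.ex _ F1.u F1.univ.fl
  have e1 : ψ.comp φ = MonoidHom.id _ := by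
    refine F1.univ.hom_eq ?_
    have h3 := h1.map ψ
    rw [map_one] at h3
    exact h3.trans1 h2
  have e2 : φ.comp ψ = MonoidHom.id _ := by
    refine F2.univ.hom_eq ?_
    have h3 := h2.map φ
    rw [map_one] at h3
    exact h3.trans1 h1
  obtain ⟨Φ, hΦ⟩ : ∃ Φ : FreeGroup F1.β ≃* FreeGroup F2.β, Φ = MonoidHom.toMulEquiv φ ψ e1 e2 :=
    ⟨_, rfl⟩
  have hΦ1 : ∀ x, Φ x = φ x := fun x => by rw [hΦ]; rfl
  have hΦ2 : ∀ x, Φ.symm x = ψ x := fun x => by rw [hΦ]; rfl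
  have z1 := h1.zz hM
  rw [Sf.zz_map, F1.zz, F2.zz] at z1
  have z1' : Φ (FreeGroup.mk F1.zl) = FreeGroup.mk F2.zl := by
    rw [hΦ1, z1]
    group
  have z2' : Φ.symm (FreeGroup.mk F2.zl) = FreeGroup.mk F1.zl := by
    rw [← z1', Φ.symm_apply_apply]
  have hlen : F1.zl.length = F2.zl.length := by
    rw [len_bd F1.arr F1.bd F1.all, len_bd F2.arr F2.bd F2.all, card_eq Φ]
  refine ⟨Φ, ?_, ?_, ?_⟩
  · simp only [hΦ1]
    exact h1
  · exact iso_pres F1.arr F2.arr F1.bd F2.bd F1.all F2.all hlen Φ z1'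
  · exact iso_pres F2.arr F1.arr F2.bd F1.bd F2.all F1.all hlen.symm Φ.symm z2'

/-- essential -/
def Ess (M : Sf D) (K : Cv D) : Prop :=
  ∃ (G : Type) (_ : Group G) (s : D → G), M.Fl s ∧ lp M K s ≠ 1

variable [DecidableEq D]

/-- the automorphism of the twist in a frame -/
lemma Frm.twist {M : Sf D} {K : Cv D} {g : ℕ} (F0 : Frm M) (h : Good g M (fun _ : Unit => K))
    (hess : Ess M K) :
    ∃ t : MulAut (FreeGroup F0.β), M.Eqv 1 (fun d => t (F0.u d)) (tw M K 1 F0.u) ∧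
      PosEl (lt F0.n F0.p) t ∧ t ≠ 1 := by
  have hM := h.ok
  have lr : LR M K := h.lr ()
  obtain ⟨F1, θ, t1, t2, z0, t3⟩ := curve_frame h hess
  obtain ⟨Φ, p1, p2, p3⟩ := F0.iso hM F1
  obtain ⟨τ, hτ⟩ : ∃ τ : FreeGroup F0.β →* FreeGroup F0.β,
    τ = Φ.symm.toMonoidHom.comp (θ.comp Φ.toMonoidHom) := ⟨_, rfl⟩
  have hτa : ∀ x, τ x = Φ.symm (θ (Φ x)) := fun x => by rw [hτ]; rfl
  have q1 : M.Eqv 1 (fun d => τ (F0.u d)) (tw M K 1 F0.u) := by
    have a1 : M.Eqv 1 (fun d => θ (Φ (F0.u d))) (fun d => Φ (tw M K 1 F0.u d)) := by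
      have b1 := p1.map θ
      rw [map_one] at b1
      have b2 : M.Eqv 1 (tw M K 1 F1.u) (tw M K 1 fun d => Φ (F0.u d)) :=
        lr.eqv hM 1 p1.symm1
      have b3 := tw_map (M := M) (K := K) Φ.toMonoidHom 1 F0.u
      have b4 : (tw M K 1 fun d => Φ (F0.u d)) = fun d => Φ (tw M K 1 F0.u d) := b3
      rw [b4] at b2
      exact (b1.trans1 t1).trans1 b2
    have a2 := a1.map Φ.symm.toMonoidHom
    rw [map_one] at a2
    have a3 : (fun d => Φ.symm.toMonoidHom (θ (Φ (F0.u d)))) = fun d => τ (F0.u d) := by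
      funext d
      rw [hτa]
      rfl
    have a4 : (fun d => Φ.symm.toMonoidHom (Φ (tw M K 1 F0.u d))) = tw M K 1 F0.u := by
      funext d
      exact Φ.symm_apply_apply _
    rw [a3, a4] at a2
    exact a2
  obtain ⟨σ, q2⟩ := F0.univ.ex _ (tw M K (-1) F0.u) (lr.fl hM (-1) F0.univ.fl)
  have e1 : τ.comp σ = MonoidHom.id _ := by
    refine F0.univ.hom_eq ?_
    have a1 := q2.map τ
    rw [map_one, ← tw_map] at a1
    have a2 := (a1.trans1 (lr.eqv hM (-1) q1))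
    refine a2.trans1 (Sf.Eqv.of_eq fun d hd => ?_)
    rw [lr.tw_tw hM, neg_add_cancel, tw_zero]
    rfl
  have e2 : σ.comp τ = MonoidHom.id _ := by
    refine F0.univ.hom_eq ?_
    have a1 := q1.map σ
    rw [map_one, ← tw_map] at a1
    have a2 := (a1.trans1 (lr.eqv hM 1 q2))
    refine a2.trans1 (Sf.Eqv.of_eq fun d hd => ?_)
    rw [lr.tw_tw hM, add_neg_cancel, tw_zero]
    rfl
  obtain ⟨t, ht⟩ : ∃ t : MulAut (FreeGroup F0.β), t = MonoidHom.toMulEquiv τ σ e2 e1 := ⟨_, rfl⟩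
  have hta : ∀ x, t x = τ x := fun x => by rw [ht]; rfl
  refine ⟨t, ?_, ⟨?_, ?_⟩, ?_⟩
  · simp only [hta]
    exact q1
  · have z1 := q1.zz hM
    rw [lr.zz hM, Sf.zz_map, F0.zz] at z1
    have z2 : t (FreeGroup.mk F0.zl) = FreeGroup.mk F0.zl := by
      rw [hta]
      conv_rhs => rw [z1]
      group
    exact iso_pres F0.arr F0.arr F0.bd F0.bd F0.all F0.all rfl t z2
  · intro x
    show x = t x ∨ lt F0.n F0.p x (t x)
    rw [hta, hτa]
    rcases t2 (Φ x) with h1 | h1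
    · left
      rw [← h1, Φ.symm_apply_apply]
    · right
      have := p3 _ _ h1
      rwa [Φ.symm_apply_apply] at this
  · intro h1
    apply t3
    have h2 : t (Φ.symm z0) = Φ.symm z0 := by
      rw [h1]
      rfl
    rw [hta, hτa, Φ.apply_symm_apply] at h2
    exact Φ.symm.injective h2

/-- the relation: the product of the twists is the twist of the boundary -/
def Rel {ι : Type} (M : Sf D) (B : ι → Cv D) (w : List ι) : Prop :=
  ∀ (G : Type) [Group G] (s : D → G), M.Fl s →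
    M.Eqv (M.zz s)⁻¹ s (w.foldl (fun s i => tw M (B i) 1 s) s)

/-- the product of the twists in a frame -/
lemma Frm.word {ι : Type} {M : Sf D} {B : ι → Cv D} (hM : M.Ok) (hB : ∀ i, LR M (B i))
    (F0 : Frm M) (t : ι → MulAut (FreeGroup F0.β))
    (ht : ∀ i, M.Eqv 1 (fun d => t i (F0.u d)) (tw M (B i) 1 F0.u)) (w : List ι) :
    M.Eqv 1 (fun d => (w.map t).prod (F0.u d))
      (w.foldl (fun s i => tw M (B i) 1 s) F0.u) := by
  induction w using List.reverseRecOn with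
  | nil => exact Sf.Eqv.refl _
  | append_singleton w i ih =>
    rw [List.foldl_append, List.map_append, List.prod_append]
    simp only [List.foldl_cons, List.foldl_nil, List.map_cons, List.map_nil, List.prod_singleton]
    have h1 := (ht i).map (w.map t).prod.toMonoidHom
    rw [map_one, ← tw_map] at h1
    exact h1.trans1 ((hB i).eqv hM 1 ih)

/-- **The bound for one family of curves on one map.** -/
theorem one_bound {ι : Type} [Finite ι] {M : Sf D} {B : ι → Cv D} {g : ℕ} (h : Good g M B)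
    (hess : ∀ i, Ess M (B i)) : ∃ N : ℕ, ∀ w : List ι, Rel M B w → w.length ≤ N := by
  have hM := h.ok
  -- the reference frame
  obtain ⟨F0⟩ : Nonempty (Frm M) := by
    have h0 : Good g M (fun i : Empty => B i.elim) :=
      ⟨h.ok, fun i => i.elim, fun i => i.elim, h.gen⟩
    obtain ⟨M1, B1, h1, h2, ⟨h3⟩⟩ := h0.reduce
    have hU := h1.uni h2
    obtain ⟨u, u1, u2⟩ := h3.univ hU.univ
    exact ⟨Frm.mk' hU u2 (h3.zz _ _ _ u1).symm⟩
  have key : ∀ i, ∃ t : MulAut (FreeGroup F0.β),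
      M.Eqv 1 (fun d => t (F0.u d)) (tw M (B i) 1 F0.u) ∧
      PosEl (lt F0.n F0.p) t ∧ t ≠ 1 := by
    intro i
    have h0 : Good g M (fun _ : Unit => B i) :=
      ⟨h.ok, fun _ => h.lr i, fun _ _ h1 => absurd rfl h1, h.gen⟩
    exact F0.twist h0 (hess i)
  choose t t1 t2 using key
  have hfin := finite_words (r := lt F0.n F0.p) (fun x y z => Pool.Agent.N513.PF.lt_trans)
    (fun x y => Pool.Agent.N513.PF.lt_asymm) (S := Set.range t) (Set.finite_range t)
    (by rintro _ ⟨i, rfl⟩; exact t2 i) (MulAut.conj (M.zz F0.u)⁻¹)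
  obtain ⟨N, hN⟩ := (hfin.image List.length).bddAbove
  refine ⟨N, fun w hw => ?_⟩
  have h1 := hw _ F0.u F0.univ.fl
  have h2 := F0.word hM h.lr t t1 w
  have h3 := h1.trans1 h2.symm1
  have h4 : (w.map t).prod = MulAut.conj (M.zz F0.u)⁻¹ := by
    ext a
    have := F0.univ.un _ (M.zz F0.u)⁻¹ (MonoidHom.id _) (w.map t).prod.toMonoidHom h3 a
    rw [MulAut.conj_apply]
    exact this
  have h5 : (w.map t) ∈ {w : List (MulAut (FreeGroup F0.β)) | (∀ s ∈ w, s ∈ Set.range t) ∧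
      w.prod = MulAut.conj (M.zz F0.u)⁻¹} := by
    refine ⟨fun s hs => ?_, h4⟩
    obtain ⟨i, _, rfl⟩ := List.mem_map.1 hs
    exact ⟨i, rfl⟩
  have h6 := hN (Set.mem_image_of_mem _ h5)
  rwa [List.length_map] at h6

end Pool.Agent.V8H82.PF
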