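import Pool.Agent.V8H82.PF.Disj

/-!
# The number of curves with different twists that pairwise meet at most once
-/

set_option autoImplicit false
set_option linter.unusedVariables false
set_option linter.unusedSectionVars false

namespace Pool.Agent.V8H82.PF

open Finset List

variable {D : Type} {ι : Type}

/-- the group of order two -/
abbrev Z2 : Type := Multiplicative (ZMod 2)

/-- its generator -/
def aa : Z2 := Multiplicative.ofAdd 1

lemma aa_ne : aa ≠ 1 := by decide

lemma aa_inv : aa⁻¹ = aa := by decide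

open Classical in
/-- the crossing number with a curve, modulo two -/
noncomputable def xi (K : Cv D) (d : D) : Z2 := if K.L d then aa else 1

lemma xi_pos {K : Cv D} {d : D} (h : K.L d) : xi K d = aa := by
  unfold xi
  rw [if_pos h]

lemma xi_neg {K : Cv D} {d : D} (h : ¬ K.L d) : xi K d = 1 := by
  unfold xi
  rw [if_neg h]

variable {M : Sf D} {K : Cv D}

lemma LR.xi_on (h : LR M K) {x : D} (hx : x ∈ K.c) : M.hh (xi K) x = 1 := by
  unfold Sf.hh
  rw [xi_pos (h.l1 x hx), xi_pos (h.l3 x hx)]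
  group

lemma LR.xi_onr (hM : M.Ok) (h : LR M K) {x : D} (hx : x ∈ K.c) :
    M.hh (xi K) (M.rev x) = 1 := by
  unfold Sf.hh
  rw [hM.rr x (h.mem x hx), xi_neg (h.l4 x hx), xi_neg (h.l2 x hx)]
  group

lemma LR.xi_off (hM : M.Ok) (h : LR M K) {d : D} (hd : d ∈ M.A) (h1 : d ∉ K.c)
    (h2 : M.rev d ∉ K.c) : M.hh (xi K) d = (xi K d)⁻¹ * xi K (M.rev d) := by
  have h5 := h.l5 (M.rev d) (hM.mrev d hd) h2 (by rw [hM.rr d hd]; exact h1)
  unfold Sf.hh
  congr 1
  by_cases h6 : K.L (M.rev d)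
  · rw [xi_pos h6, xi_pos (h5.2 h6)]
  · rw [xi_neg h6, xi_neg fun h7 => h6 (h5.1 h7)]

lemma LR.xi_fl (hM : M.Ok) (h : LR M K) : M.Fl (xi K) := by
  intro d hd hdo
  by_cases h1 : d ∈ K.c
  · rw [h.xi_on h1, h.xi_onr hM h1, inv_one]
  · by_cases h2 : M.rev d ∈ K.c
    · have h3 := h.xi_onr hM h2
      rw [hM.rr d hd] at h3
      rw [h.xi_on h2, h3, inv_one]
    · rw [h.xi_off hM hd h1 h2, h.xi_off hM (hM.mrev d hd) h2 (by rwa [hM.rr d hd]),
        hM.rr d hd]
      group

lemma LR.lp_xi (h : LR M K) : lp M K (xi K) = 1 := by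
  unfold lp
  refine List.prod_eq_one fun y hy => ?_
  obtain ⟨x, hx, rfl⟩ := List.mem_map.1 hy
  exact h.xi_on hx

/-! ### The number of classes -/

/-- the bound -/
def NC1 (g : ℕ) : ℕ := 4 * g * 2 ^ (4 * g + 1)

lemma card_gn {g : ℕ} [DecidableEq D] {M : Sf D} {B : Empty → Cv D} (h : Good g M B)
    (hR : Rdc M B) : Fintype.card (Gn M) ≤ 4 * g + 1 := by
  have h1 := h.size hR
  have h2 : Fintype.card (Gn M) ≤ M.A.card := by
    have := Fintype.card_le_of_injective (fun d : Gn M => (⟨d.1, d.2.1⟩ : {d // d ∈ M.A}))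
      (fun a b h => by
        have : a.1 = b.1 := congrArg (fun z : {d // d ∈ M.A} => z.1) h
        exact Subtype.ext this)
    rwa [Fintype.card_coe] at this
  simp only [Fintype.card_eq_zero, mul_zero, zero_add] at h1
  omega

variable [DecidableEq D]

/-- **The number of curves with different twists.** -/
theorem cls_bound {g : ℕ} {M : Sf D} {B : ι → Cv D} (h : Good g M B) (he : ∀ i, Ess M (B i))
    (hc : ∀ i j, i ≠ j → Mt M B i j → lp M (B j) (xi (B i)) ≠ 1) (T : Finset ι)
    (hT : ∀ i ∈ T, ∀ j ∈ T, i ≠ j → ¬ EqC M (B i) (B j)) : T.card ≤ NC1 g := by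
  classical
  have hM := h.ok
  have h0 : Good g M (fun i : Empty => B i.elim) :=
    ⟨h.ok, fun i => i.elim, fun i => i.elim, h.gen⟩
  obtain ⟨M1, B1, h1, h2, ⟨h3⟩⟩ := h0.reduce
  have hU := h1.uni h2
  obtain ⟨u, u1, u2⟩ := h3.univ hU.univ
  have h4 : ∀ i, ∃ φ : FreeGroup (Gn M1) →* Z2, M.Eqv 1 (fun d => φ (u d)) (xi (B i)) :=
    fun i => u2.ex _ _ ((h.lr i).xi_fl hM)
  choose φ hφ using h4
  obtain ⟨c, hcd⟩ : ∃ c : ι → (Gn M1 → Z2), c = fun i a => φ i (FreeGroup.of a) := ⟨_, rfl⟩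
  have key : ∀ i j, i ≠ j → c i = c j → ¬ Mt M B i j := by
    intro i j hij hcc hm
    have e1 : φ i = φ j := by
      refine FreeGroup.ext_hom _ _ fun a => ?_
      have := congrFun hcc a
      rw [hcd] at this
      exact this
    have e2 : M.Eqv 1 (xi (B i)) (xi (B j)) := by
      have := (hφ i).symm1
      rw [e1] at this
      exact this.trans1 (hφ j)
    refine hc i j hij hm (((h.lr j).lp_one hM e2).1 (h.lr j).lp_xi)
  have hfib : ∀ v ∈ (Finset.univ : Finset (Gn M1 → Z2)),
      (T.filter fun i => c i = v).card ≤ 4 * g := by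
    intro v _
    have h5 : Fintype.card {i // i ∈ T.filter fun i => c i = v} ≤ 4 * g := by
      refine disj_bound (B := fun i : {i // i ∈ T.filter fun i => c i = v} => B i.1)
        ⟨h.ok, fun i => h.lr i.1, fun i j hij => h.sh i.1 j.1 fun h6 => hij (Subtype.ext h6),
          h.gen⟩ (fun i j hij => ?_) (fun i => he i.1) (fun i j hij => ?_)
      · refine key i.1 j.1 (fun h6 => hij (Subtype.ext h6)) ?_
        rw [(Finset.mem_filter.1 i.2).2, (Finset.mem_filter.1 j.2).2]
      · exact hT i.1 (Finset.mem_filter.1 i.2).1 j.1 (Finset.mem_filter.1 j.2).1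
          fun h6 => hij (Subtype.ext h6)
    rwa [Fintype.card_coe] at h5
  have h6 := Finset.card_le_mul_card_image_of_maps_to (f := c) (s := T)
    (t := Finset.univ) (fun i _ => Finset.mem_univ _) (4 * g) hfib
  have h7 : (Finset.univ : Finset (Gn M1 → Z2)).card ≤ 2 ^ (4 * g + 1) := by
    rw [Finset.card_univ, Fintype.card_fun]
    have h8 : Fintype.card Z2 = 2 := by
      show Fintype.card (Multiplicative (ZMod 2)) = 2
      rw [Fintype.card_multiplicative]
      exact ZMod.card 2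
    rw [h8]
    exact Nat.pow_le_pow_right (by norm_num) (card_gn h1 h2)
  exact h6.trans (Nat.mul_le_mul_left _ h7)

/-- representatives -/
lemma exists_rep (M : Sf D) (B : ι → Cv D) (w : List ι) : ∃ T : Finset ι,
    (∀ i ∈ T, ∀ j ∈ T, i ≠ j → ¬ EqC M (B i) (B j)) ∧ ∀ i ∈ w, ∃ t ∈ T, EqC M (B i) (B t) := by
  classical
  induction w with
  | nil => exact ⟨∅, by simp, by simp⟩
  | cons i w ih =>
    obtain ⟨T, h1, h2⟩ := ih
    by_cases h3 : ∃ t ∈ T, EqC M (B i) (B t)
    · refine ⟨T, h1, fun j hj => ?_⟩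
      rcases List.mem_cons.1 hj with rfl | hj
      · exact h3
      · exact h2 j hj
    · push Not at h3
      refine ⟨insert i T, fun a ha b hb hab => ?_, fun j hj => ?_⟩
      · rcases Finset.mem_insert.1 ha with ha' | ha'
        · rcases Finset.mem_insert.1 hb with hb' | hb'
          · exact absurd (ha'.trans hb'.symm) hab
          · rw [ha']
            exact h3 b hb'
        · rcases Finset.mem_insert.1 hb with hb' | hb'
          · rw [hb']
            exact fun h4 => h3 a ha' h4.symm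
          · exact h1 a ha' b hb' hab
      · rcases List.mem_cons.1 hj with rfl | hj
        · exact ⟨j, Finset.mem_insert_self _ _, EqC.refl _⟩
        · obtain ⟨t, ht, ht2⟩ := h2 j hj
          exact ⟨t, Finset.mem_insert_of_mem ht, ht2⟩

/-- replacing the curves by curves with the same twists -/
lemma fold_eqc {κ : Type} {M : Sf D} (hM : M.Ok) {B : ι → Cv D} {B' : κ → Cv D}
    (hB : ∀ i, LR M (B i)) (hB' : ∀ k, LR M (B' k)) {w : List ι} {w' : List κ}
    (h : List.Forall₂ (fun i k => EqC M (B i) (B' k)) w w') {G : Type} [Group G] :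
    ∀ s s' : D → G, M.Fl s → M.Eqv 1 s s' →
      M.Eqv 1 (w.foldl (fun s i => tw M (B i) 1 s) s) (w'.foldl (fun s i => tw M (B' i) 1 s) s') := by
  induction h with
  | nil => exact fun s s' _ h1 => h1
  | cons hik _ ih =>
    intro s s' hs h1
    rw [List.foldl_cons, List.foldl_cons]
    exact ih _ _ ((hB _).fl hM 1 hs) ((hik G s hs).trans1 ((hB' _).eqv hM 1 h1))

/-- **The bound for all the families of curves.** -/
theorem fam_bound (g : ℕ) : ∃ N : ℕ, ∀ (D : Type) [DecidableEq D] (ι : Type) (M : Sf D)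
    (B : ι → Cv D), Good g M B → (∀ i, Ess M (B i)) →
    (∀ i j, i ≠ j → Mt M B i j → lp M (B j) (xi (B i)) ≠ 1) →
    ∀ w : List ι, Rel M B w → w.length ≤ N := by
  obtain ⟨N, hN⟩ := fin_max (T := Fin (NC1 g + 1))
    (P := fun m N => ∀ (D : Type) [DecidableEq D] (M : Sf D) (B : Fin m.1 → Cv D),
      Good g M B → (∀ i, Ess M (B i)) → ∀ w : List (Fin m.1), Rel M B w → w.length ≤ N)
    (fun m => unif g m.1)
    (fun t N N' hNN h1 D _ M B h2 h3 w hw => (h1 D M B h2 h3 w hw).trans hNN)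
  refine ⟨N, fun D _ ι M B h1 h2 h3 w hw => ?_⟩
  have hM := h1.ok
  obtain ⟨T, hT1, hT2⟩ := exists_rep M B w
  have hT3 := cls_bound h1 h2 h3 T hT1
  obtain ⟨e⟩ : Nonempty ({x // x ∈ T} ≃ Fin T.card) := ⟨T.equivFin⟩
  obtain ⟨B', hB'⟩ : ∃ B' : Fin T.card → Cv D, B' = fun k => B (e.symm k).1 := ⟨_, rfl⟩
  have hlr : ∀ k, LR M (B' k) := fun k => by rw [hB']; exact h1.lr _
  obtain ⟨w', hw1, hw2⟩ : ∃ w' : List (Fin T.card), w'.length = w.length ∧
      List.Forall₂ (fun i k => EqC M (B i) (B' k)) w w' := by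
    clear hw
    induction w with
    | nil => exact ⟨[], rfl, List.Forall₂.nil⟩
    | cons i w ih =>
      obtain ⟨w', h4, h5⟩ := ih fun j hj => hT2 j (List.mem_cons_of_mem _ hj)
      obtain ⟨t, ht, ht2⟩ := hT2 i (by simp)
      refine ⟨e ⟨t, ht⟩ :: w', by simp [h4], List.Forall₂.cons ?_ h5⟩
      rw [hB']
      simp only [Equiv.symm_apply_apply]
      exact ht2
  have hR : Rel M B' w' := by
    intro G _ s hs
    exact (hw G s hs).trans1 (fold_eqc hM h1.lr hlr hw2 s s hs (Sf.Eqv.refl _))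
  rw [← hw1]
  refine hN ⟨T.card, by omega⟩ D M B' ⟨hM, hlr, fun i j hij => ?_, h1.gen⟩ (fun k => ?_) w' hR
  · rw [hB']
    refine h1.sh _ _ fun h4 => hij ?_
    exact e.symm.injective (Subtype.ext h4)
  · rw [hB']
    exact h2 _

end Pool.Agent.V8H82.PF
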