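import Pool.Agent.V8H82.PF.Bound

/-!
# Transport of relations along links; the size of reduced maps
-/

set_option autoImplicit false
set_option linter.unusedVariables false
set_option linter.unusedSectionVars false

namespace Pool.Agent.V8H82.PF

open Finset List

variable {D : Type} {ι : Type}

/-! ### Transport along links -/

lemma Lk.ess {M M' : Sf D} {B B' : ι → Cv D} (h : Lk M B M' B') {i : ι} (he : Ess M (B i)) :
    Ess M' (B' i) := by
  obtain ⟨G, _, s, h1, h2⟩ := he
  obtain ⟨s', h3⟩ := h.dn G s h1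
  exact ⟨G, _, s', (h.fl G _ _ h3).2, fun h4 => h2 ((h.lp G s s' i h3).1 h4)⟩

lemma Lk_fold {M M' : Sf D} {B B' : ι → Cv D} (h : Lk M B M' B') {G : Type} [Group G]
    (w : List ι) : ∀ s s' : D → G, h.E G s s' →
    h.E G (w.foldl (fun s i => tw M (B i) 1 s) s) (w.foldl (fun s i => tw M' (B' i) 1 s) s') := by
  induction w with
  | nil => exact fun s s' hs => hs
  | cons i w ih => exact fun s s' hs => ih _ _ (h.tw G s s' 1 i hs)

lemma Lk.rel {M M' : Sf D} {B B' : ι → Cv D} (h : Lk M B M' B') {w : List ι}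
    (hw : Rel M B w) : Rel M' B' w := by
  intro G _ s' hs'
  obtain ⟨s, hs⟩ := h.up G s' hs'
  have h1 := hw G s (h.fl G _ _ hs).1
  rw [h.zz G _ _ hs]
  exact (h.eq G _ _ _ _ _ hs (Lk_fold h w s s' hs)).1 h1

/-! ### The size of a reduced map -/

variable [DecidableEq D]

lemma LR.card_c {M : Sf D} {K : Cv D} (h : LR M K) : K.c.toFinset.card = K.c.length :=
  List.toFinset_card_of_nodup h.nd

/-- the length of the curves in a reduced map -/
lemma Good.len {g : ℕ} [Fintype ι] {M : Sf D} {B : ι → Cv D} (h : Good g M B) (hR : Rdc M B)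
    (i : ι) : (B i).c.length ≤ Fintype.card ι := by
  classical
  have hpos : 0 < Fintype.card ι := Fintype.card_pos_iff.2 ⟨i⟩
  by_cases h1 : ∃ x, (B i).c = [x]
  · obtain ⟨x, hx⟩ := h1
    rw [hx, List.length_singleton]
    omega
  · push Not at h1
    have h2 : ∀ x ∈ (B i).c, ∃ j, j ≠ i ∧ ∃ y ∈ (B j).c, Same M.A M.cw x y := fun x hx =>
      (hR.r3 i x hx).resolve_left (h1 x)
    haveI : Nonempty ι := ⟨i⟩
    haveI : Nonempty D := ⟨M.o⟩
    choose! f f1 y f2 f3 using h2
    rw [← (h.lr i).card_c, ← Finset.card_univ]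
    refine Finset.card_le_card_of_injOn f (fun x _ => Finset.mem_coe.2 (Finset.mem_univ _))
      fun x hx x' hx' he => ?_
    have hx := List.mem_toFinset.1 hx
    have hx' := List.mem_toFinset.1 hx'
    refine h.sh i (f x) (f1 x hx).symm x hx x' hx' (y x) (f2 x hx) (y x') ?_ (f3 x hx) (f3 x' hx')
    rw [he]
    exact f2 x' hx'

/-- the darts of the curves -/
def crv [Fintype ι] (B : ι → Cv D) : Finset D := Finset.univ.biUnion fun i => (B i).c.toFinset

lemma mem_crv [Fintype ι] {B : ι → Cv D} {x : D} : x ∈ crv B ↔ ∃ i, x ∈ (B i).c := by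
  unfold crv
  simp

lemma Good.card_crv {g : ℕ} [Fintype ι] {M : Sf D} {B : ι → Cv D} (h : Good g M B)
    (hR : Rdc M B) : (crv B).card ≤ Fintype.card ι * Fintype.card ι := by
  unfold crv
  refine Finset.card_biUnion_le.trans ?_
  refine (Finset.sum_le_card_nsmul _ _ (Fintype.card ι) fun i _ => ?_).trans ?_
  · rw [(h.lr i).card_c]
    exact h.len hR i
  · rw [Finset.card_univ, smul_eq_mul]

/-- the number of orbits -/
lemma NO.le {A : Finset D} {f : D → D} {n : ℕ} {T : Finset D} (h : NO A f n)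
    (hT : ∀ ψ : D → ℕ, (∀ d ∈ A, ψ (f d) = ψ d) → ∀ d ∈ A, ∃ t ∈ T, ψ d = ψ t) :
    n ≤ T.card := by
  obtain ⟨ψ, h1, h2⟩ := h
  have h3 : Finset.range n ⊆ T.image ψ := by
    intro k hk
    obtain ⟨d, hd, hd2⟩ := h2 k (Finset.mem_range.1 hk)
    obtain ⟨t, ht, ht2⟩ := hT ψ h1 d hd
    exact Finset.mem_image.2 ⟨t, ht, by rw [← ht2, hd2]⟩
  have h4 := Finset.card_le_card h3
  rw [Finset.card_range] at h4
  exact h4.trans Finset.card_image_le

/-- the size of a reduced map -/
theorem Good.size {g : ℕ} [Fintype ι] {M : Sf D} {B : ι → Cv D} (h : Good g M B)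
    (hR : Rdc M B) : M.A.card ≤ 6 * (Fintype.card ι * Fintype.card ι) + 4 * g + 1 := by
  have hc := h.card_crv hR
  obtain ⟨a, b, ha, hb, hab⟩ := h.gen
  have h1 : a ≤ (insert M.o (crv B)).card := by
    refine ha.le fun ψ hψ d hd => ?_
    rcases hR.r2 d hd with h1 | ⟨i, x, hx, h1⟩
    · exact ⟨M.o, Finset.mem_insert_self _ _, (h1.val hψ).symm⟩
    · exact ⟨x, Finset.mem_insert_of_mem (mem_crv.2 ⟨i, hx⟩), (h1.val hψ).symm⟩
  have h2 : b ≤ (insert M.o (crv B ∪ (crv B).image M.rev)).card := by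
    refine hb.le fun ψ hψ d hd => ?_
    by_contra h3
    push Not at h3
    have h4 := h.ok.conn' (fun z => ψ z ≠ ψ d) (fun z hz => by rw [hψ z hz]) (fun z hz => ?_)
      (fun h5 => h3 M.o (Finset.mem_insert_self _ _) h5.symm) d hd
    · exact h4 rfl
    · by_cases h5 : z = M.o
      · rw [h5, h.ok.ro]
      · by_cases h6 : z ∈ crv B
        · have a1 := h3 z (Finset.mem_insert_of_mem (Finset.mem_union_left _ h6))
          have a2 := h3 (M.rev z) (Finset.mem_insert_of_mem (Finset.mem_union_right _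
            (Finset.mem_image_of_mem _ h6)))
          exact ⟨fun _ => fun h7 => a1 h7.symm, fun _ => fun h7 => a2 h7.symm⟩
        · by_cases h7 : M.rev z ∈ crv B
          · have a1 := h3 (M.rev z) (Finset.mem_insert_of_mem (Finset.mem_union_left _ h7))
            have a2 := h3 (M.rev (M.rev z)) (Finset.mem_insert_of_mem (Finset.mem_union_right _
              (Finset.mem_image_of_mem _ h7)))
            rw [h.ok.rr z hz] at a2
            exact ⟨fun _ => fun h7 => a2 h7.symm, fun _ => fun h7 => a1 h7.symm⟩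
          · have h8 := hR.r1 z hz h5 (fun i => ⟨fun h9 => h6 (mem_crv.2 ⟨i, h9⟩),
              fun h9 => h7 (mem_crv.2 ⟨i, h9⟩)⟩)
            rw [h8.val hψ]
  have h3 := Finset.card_insert_le M.o (crv B)
  have h4 := Finset.card_insert_le M.o (crv B ∪ (crv B).image M.rev)
  have h5 := Finset.card_union_le (crv B) ((crv B).image M.rev)
  have h6 := Finset.card_image_le (s := crv B) (f := M.rev)
  omega

end Pool.Agent.V8H82.PF
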