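import Pool.Agent.V8H82.PF.Link

/-!
# Curves under deletion and contraction
-/

set_option autoImplicit false
set_option linter.unusedVariables false
set_option linter.unusedSectionVars false

namespace Pool.Agent.V8H82.PF

open Finset List

variable {D : Type} [DecidableEq D] {M : Sf D} {e : D} {K : Cv D}

/-! ### Deletion -/

section del

lemma Sf.DelH.same (h : M.DelH e) {x y : D} (hx : x ∈ (M.del e).A) (hy : y ∈ (M.del e).A) :
    Same (M.del e).A (M.del e).cw x y ↔ Same M.A M.cw x y :=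
  same_sk h.ok.hm h.ok.hi h.he h.st.me' h.st.hne h.st.f1 h.st.f2 h.st.nd hx hy

/-- the left corners and the rotation -/
lemma Sf.DelH.hL (h : M.DelH e) (hK : LR M K) (h1 : e ∉ K.c) (h2 : M.rev e ∉ K.c) {d : D}
    (hd : d ∈ (M.del e).A) : K.L ((M.del e).cw d) ↔ K.L (M.cw d) := by
  have a1 := hK.l5 e h.he h1 h2
  have a2 := hK.l5 (M.rev e) h.st.me' h2 (by rw [h.ok.rr e h.he]; exact h1)
  show K.L (sk M.cw e (M.rev e) d) ↔ K.L (M.cw d)
  unfold sk
  grind

lemma Sf.DelH.lr (h : M.DelH e) (hK : LR M K) (h1 : e ∉ K.c) (h2 : M.rev e ∉ K.c) :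
    LR (M.del e) K := by
  have mem : ∀ x ∈ K.c, x ∈ (M.del e).A := fun x hx =>
    mem_rm.2 ⟨hK.mem x hx, fun h3 => h1 (h3 ▸ hx), fun h3 => h2 (h3 ▸ hx)⟩
  have rmem : ∀ x ∈ K.c, M.rev x ∈ (M.del e).A := fun x hx => h.st.mrev' x (mem x hx)
  refine ⟨hK.ne, hK.nd, mem, ?_, ?_, ?_, ?_, ?_, hK.l3, ?_, ?_, ?_⟩
  · cases hc : K.c with
    | nil => exact absurd hc hK.ne
    | cons x l =>
      have h3 := hK.isChain (x := x) (l := l) (by rw [hc])
      rw [Cycle.chain_coe_cons]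
      refine h3.imp_of_mem_imp fun a b ha hb hab => ?_
      have hm : ∀ a ∈ (x :: (l ++ [x])), a ∈ K.c := fun a ha => by
        rw [hc]
        simp only [List.mem_cons, List.mem_append, List.not_mem_nil] at ha ⊢
        tauto
      exact (h.same (rmem a (hm a ha)) (mem b (hm b hb))).2 hab
  · intro x hx x' hx' h3
    exact hK.dist x hx x' hx' ((h.same (mem x hx) (mem x' hx')).1 h3)
  · intro x hx h3
    exact hK.base x hx ((h.same h.st.mo (mem x hx)).1 h3)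
  · intro y hy
    exact (h.hL hK h1 h2 (rmem y hy)).2 (hK.l1 y hy)
  · exact hK.l2
  · intro x hx h3
    exact hK.l4 x hx ((h.hL hK h1 h2 (mem x hx)).1 h3)
  · intro d hd h3 h4
    rw [h.hL hK h1 h2 hd]
    exact hK.l5 d (mem_rm.1 hd).1 h3 h4
  · intro d hd h3
    obtain ⟨x, hx, h4⟩ := hK.l6 d (mem_rm.1 hd).1 h3
    exact ⟨x, hx, (h.same (mem x hx) hd).2 h4⟩

lemma Sf.DelH.hol (h : M.DelH e) (hK : LR M K) (h1 : e ∉ K.c) (h2 : M.rev e ∉ K.c) {G : Type}
    [Group G] {s : D → G} (hs : ND M e G s) {d : D} (hd : d ∈ (M.del e).A) (hL : K.L d) :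
    hol (M.del e) K s d = hol M K s d := by
  obtain ⟨x, hx, h4⟩ := hK.l6 d (mem_rm.1 hd).1 hL
  have mem : ∀ x ∈ K.c, x ∈ (M.del e).A := fun x hx =>
    mem_rm.2 ⟨hK.mem x hx, fun h3 => h1 (h3 ▸ hx), fun h3 => h2 (h3 ▸ hx)⟩
  obtain ⟨l, hl⟩ := rot_mem hx
  have r1 : Rt M K d (x :: l) := ⟨hl, x, l, rfl, h4⟩
  have r2 : Rt (M.del e) K d (x :: l) := ⟨hl, x, l, rfl, (h.same (mem x hx) hd).2 h4⟩
  rw [hK.hol_eq s r1, (h.lr hK h1 h2).hol_eq s r2]
  congr 1
  refine List.map_congr_left fun y hy => ?_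
  exact h.stp.hh' hs (mem y (hl.mem_iff.2 hy))

lemma Sf.DelH.tc (h : M.DelH e) (hK : LR M K) (h1 : e ∉ K.c) (h2 : M.rev e ∉ K.c) :
    TC M (M.del e) (ND M e) K K where
  lr := hK
  lr' := h.lr hK h1 h2
  tw G _ z s hs hF := by
    have hne : ∀ d ∈ M.A, d ∉ K.c → M.rev d ∉ K.c → s d = s (M.cw d) →
        tw M K z s d = tw M K z s (M.cw d) := by
      intro d hd h3 h4 h5
      have h6 := hK.l5 d hd h3 h4
      by_cases h7 : K.L d
      · obtain ⟨x, hx, h8⟩ := hK.l6 d hd h7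
        rw [tw_pos h7, tw_pos (h6.2 h7), ← h5, hK.hol_same s hx h8 (Same.step hd)]
      · rw [tw_neg h7, tw_neg (fun h8 => h7 (h6.1 h8)), ← h5]
    refine ⟨tw M K z s, ⟨hne e h.he h1 h2 hs.1,
      hne _ h.st.me' h2 (by rw [h.ok.rr e h.he]; exact h1) hs.2⟩, Sf.Eqv.refl _,
      Sf.Eqv.of_eq fun d hd => ?_⟩
    by_cases h7 : K.L d
    · rw [tw_pos h7, tw_pos h7, h.hol hK h1 h2 hs hd h7]
    · rw [tw_neg h7, tw_neg h7]
  lp G _ s hs := by
    unfold lp
    have mem : ∀ x ∈ K.c, x ∈ (M.del e).A := fun x hx =>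
      mem_rm.2 ⟨hK.mem x hx, fun h3 => h1 (h3 ▸ hx), fun h3 => h2 (h3 ▸ hx)⟩
    have : K.c.map ((M.del e).hh s) = K.c.map (M.hh s) :=
      List.map_congr_left fun y hy => h.stp.hh' hs (mem y hy)
    rw [this]

end del

/-! ### Contraction: the vertices -/

section con

lemma Sf.ConH.same1 (h : M.ConH e) {x y : D} (hx : x ∈ (M.con e).A) (hy : y ∈ (M.con e).A)
    (hs : Same M.A M.cw x y) : Same (M.con e).A (M.con e).cw x y := by
  intro P hP
  have s := h.st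
  have k2 := ex2_val s.gm s.gi h.he s.me' s.dif s.nd' (fun d hd => propext (hP d hd))
  have k3 := hs (ex2 M.cw e (M.rev e) P) (fun d hd => by rw [k2 d hd])
  rw [mem_rm.1 hx |>.2 |> fun h => ex2_of h.1 h.2, mem_rm.1 hy |>.2 |> fun h => ex2_of h.1 h.2] at k3
  exact k3

lemma Sf.ConH.same2 (h : M.ConH e) {x y : D} (hx : x ∈ (M.con e).A) (hy : y ∈ (M.con e).A)
    (hs : Same M.A M.cw x e) (hs' : Same M.A M.cw (M.rev e) y) :
    Same (M.con e).A (M.con e).cw x y := by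
  intro P hP
  have s := h.st
  have k2 := ex2_val s.gm s.gi h.he s.me' s.dif s.nd' (fun d hd => propext (hP d hd))
  have k3 := hs (ex2 M.cw e (M.rev e) P) (fun d hd => by rw [k2 d hd])
  have k4 := hs' (ex2 M.cw e (M.rev e) P) (fun d hd => by rw [k2 d hd])
  have k5 : ex2 M.cw e (M.rev e) P e ↔ ex2 M.cw e (M.rev e) P (M.rev e) := by
    unfold ex2
    simp
  rw [mem_rm.1 hx |>.2 |> fun h => ex2_of h.1 h.2] at k3
  rw [mem_rm.1 hy |>.2 |> fun h => ex2_of h.1 h.2] at k4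
  exact k3.trans (k5.trans k4)

lemma Sf.ConH.same3 (h : M.ConH e) {x y : D} (hs : Same (M.con e).A (M.con e).cw x y) :
    Same M.A M.cw x y ∨ (Same M.A M.cw x e ∧ Same M.A M.cw (M.rev e) y) ∨
      (Same M.A M.cw x (M.rev e) ∧ Same M.A M.cw e y) := by
  have s := h.st
  refine (hs (fun y => Same M.A M.cw x y ∨ (Same M.A M.cw x e ∧ Same M.A M.cw (M.rev e) y) ∨
      (Same M.A M.cw x (M.rev e) ∧ Same M.A M.cw e y)) fun d hd => ?_).1 (Or.inl (Same.refl x))
  refine iff_of_eq (mg_val (A := M.A) (γ := fun y => Same M.A M.cw x y ∨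
    (Same M.A M.cw x e ∧ Same M.A M.cw (M.rev e) y) ∨
      (Same M.A M.cw x (M.rev e) ∧ Same M.A M.cw e y)) (fun d hd => ?_) h.he s.me' ?_ d hd)
  · have e1 : ∀ z, Same M.A M.cw z (M.cw d) ↔ Same M.A M.cw z d := fun z =>
      ⟨fun h1 => h1.trans (Same.step hd).symm, fun h1 => h1.trans (Same.step hd)⟩
    simp only [e1]
  · refine propext ?_
    have r1 := Same.refl (A := M.A) (f := M.cw) e
    have r2 := Same.refl (A := M.A) (f := M.cw) (M.rev e)
    constructor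
    · rintro (h1 | h1 | h1)
      · exact Or.inr (Or.inl ⟨h1, r2⟩)
      · exact Or.inr (Or.inl ⟨h1.1, r2⟩)
      · exact Or.inl h1.1
    · rintro (h1 | h1 | h1)
      · exact Or.inr (Or.inr ⟨h1, r1⟩)
      · exact Or.inl h1.1
      · exact Or.inr (Or.inr ⟨h1.1, r1⟩)

lemma Sf.ConH.nee (h : M.ConH e) : ¬ Same M.A M.cw (M.rev e) e := by
  obtain ⟨P, p1, p2, p3, p4⟩ := h.dif
  intro h1
  exact p2 ((h1 P p1).1 p3)

lemma Sf.ConH.neo (h : M.ConH e) : ¬ Same M.A M.cw (M.rev e) M.o := by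
  obtain ⟨P, p1, p2, p3, p4⟩ := h.dif
  intro h1
  exact p4 ((h1 P p1).1 p3)

/-! ### Contraction, first case: the curve avoids the vertex of the reversed dart -/

/-- the curve after the contraction of `e`, if it avoids the final vertex of `e` -/
def cvA (M : Sf D) (e : D) (K : Cv D) : Cv D where
  c := K.c
  L d := (Same M.A M.cw (M.rev e) d ∧ K.L e) ∨ (¬ Same M.A M.cw (M.rev e) d ∧ K.L d)

section A

variable (h : M.ConH e) (hK : LR M K) (hA : ∀ x ∈ K.c, ¬ Same M.A M.cw (M.rev e) x)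

include h hK hA

lemma Sf.ConH.rA : ∀ x ∈ K.c, ¬ Same M.A M.cw (M.rev e) (M.rev x) := by
  intro x hx h1
  obtain ⟨y, hy, h2⟩ := hK.next hx
  exact hA y hy (h1.trans h2)

lemma Sf.ConH.memA : ∀ x ∈ K.c, x ∈ (M.con e).A := by
  intro x hx
  refine mem_rm.2 ⟨hK.mem x hx, fun h1 => ?_, fun h1 => ?_⟩
  · have := Sf.ConH.rA h hK hA x hx
    rw [h1] at this
    exact this (Same.refl _)
  · have := hA x hx
    rw [h1] at this
    exact this (Same.refl _)

lemma Sf.ConH.lA {d : D} (hd : ¬ Same M.A M.cw (M.rev e) d) : (cvA M e K).L d ↔ K.L d := by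
  show (Same M.A M.cw (M.rev e) d ∧ K.L e) ∨ (¬ Same M.A M.cw (M.rev e) d ∧ K.L d) ↔ K.L d
  tauto

lemma Sf.ConH.lA' {d : D} (hd : Same M.A M.cw (M.rev e) d) : (cvA M e K).L d ↔ K.L e := by
  show (Same M.A M.cw (M.rev e) d ∧ K.L e) ∨ (¬ Same M.A M.cw (M.rev e) d ∧ K.L d) ↔ K.L e
  tauto

lemma Sf.ConH.nL {d : D} (hdA : d ∈ M.A) (hd : Same M.A M.cw (M.rev e) d) : ¬ K.L d := by
  intro h1
  obtain ⟨x, hx, h2⟩ := hK.l6 d hdA h1
  exact hA x hx (hd.trans h2.symm)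

lemma Sf.ConH.eA : e ∉ K.c ∧ M.rev e ∉ K.c := by
  refine ⟨fun h1 => ?_, fun h1 => hA _ h1 (Same.refl _)⟩
  exact Sf.ConH.rA h hK hA e h1 (Same.refl _)

lemma Sf.ConH.hLA {d : D} (hd : d ∈ (M.con e).A) :
    (cvA M e K).L ((M.con e).cw d) ↔ (cvA M e K).L (M.cw d) := by
  have s := h.st
  obtain ⟨e1, e2⟩ := Sf.ConH.eA h hK hA
  have k1 : (cvA M e K).L e ↔ K.L e := Sf.ConH.lA h hK hA h.nee
  have k2 : (cvA M e K).L (M.rev e) ↔ K.L e := Sf.ConH.lA' h hK hA (Same.refl _)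
  have k3 : (cvA M e K).L (M.cw (M.rev e)) ↔ K.L e := Sf.ConH.lA' h hK hA (Same.step s.me')
  have k4 : (cvA M e K).L (M.cw e) ↔ K.L e := by
    rw [Sf.ConH.lA h hK hA (fun h1 => h.nee (h1.trans (Same.step h.he).symm))]
    exact hK.l5 e h.he e1 e2
  show (cvA M e K).L (mg M.cw e (M.rev e) d) ↔ (cvA M e K).L (M.cw d)
  unfold mg
  grind

lemma Sf.ConH.lrA : LR (M.con e) (cvA M e K) := by
  have mem := Sf.ConH.memA h hK hA
  have s := h.st
  have rmem : ∀ x ∈ K.c, M.rev x ∈ (M.con e).A := fun x hx => s.mrev' x (mem x hx)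
  have rA := Sf.ConH.rA h hK hA
  have cA : ∀ x ∈ K.c, ¬ Same M.A M.cw (M.rev e) (M.cw x) := fun x hx h1 =>
    hA x hx (h1.trans (Same.step (hK.mem x hx)).symm)
  have crA : ∀ x ∈ K.c, ¬ Same M.A M.cw (M.rev e) (M.cw (M.rev x)) := fun x hx h1 =>
    rA x hx (h1.trans (Same.step (h.ok.mrev _ (hK.mem x hx))).symm)
  refine ⟨hK.ne, hK.nd, mem, ?_, ?_, ?_, ?_, ?_, ?_, ?_, ?_, ?_⟩
  · show Cycle.Chain _ (K.c : Cycle D)
    cases hc : K.c with
    | nil => exact absurd hc hK.ne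
    | cons x l =>
      have h3 := hK.isChain (x := x) (l := l) (by rw [hc])
      rw [Cycle.chain_coe_cons]
      refine h3.imp_of_mem_imp fun a b ha hb hab => ?_
      have hm : ∀ a ∈ (x :: (l ++ [x])), a ∈ K.c := fun a ha => by
        rw [hc]
        simp only [List.mem_cons, List.mem_append, List.not_mem_nil] at ha ⊢
        tauto
      exact h.same1 (rmem a (hm a ha)) (mem b (hm b hb)) hab
  · intro x hx x' hx' h3
    rcases h.same3 h3 with h4 | h4 | h4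
    · exact hK.dist x hx x' hx' h4
    · exact absurd h4.2 (hA x' hx')
    · exact absurd h4.1.symm (hA x hx)
  · intro x hx h3
    rcases h.same3 h3 with h4 | h4 | h4
    · exact hK.base x hx h4
    · exact absurd h4.2 (hA x hx)
    · exact absurd h4.1.symm h.neo
  · intro y hy
    have := Sf.ConH.hLA h hK hA (rmem y hy)
    rw [Sf.ConH.lA h hK hA (crA y hy)] at this
    exact this.2 (hK.l1 y hy)
  · intro y hy h3
    exact hK.l2 y hy ((Sf.ConH.lA h hK hA (rA y hy)).1 h3)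
  · intro y hy
    exact (Sf.ConH.lA h hK hA (hA y hy)).2 (hK.l3 y hy)
  · intro x hx h3
    have := Sf.ConH.hLA h hK hA (mem x hx)
    rw [Sf.ConH.lA h hK hA (cA x hx)] at this
    exact hK.l4 x hx (this.1 h3)
  · intro d hd h3 h4
    rw [Sf.ConH.hLA h hK hA hd]
    have hdA := (mem_rm.1 hd).1
    by_cases h5 : Same M.A M.cw (M.rev e) d
    · rw [Sf.ConH.lA' h hK hA h5, Sf.ConH.lA' h hK hA (h5.trans (Same.step hdA))]
    · rw [Sf.ConH.lA h hK hA h5,
        Sf.ConH.lA h hK hA (fun h6 => h5 (h6.trans (Same.step hdA).symm))]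
      exact hK.l5 d hdA h3 h4
  · intro d hd h3
    have hdA := (mem_rm.1 hd).1
    rcases h3 with ⟨h4, h5⟩ | ⟨h4, h5⟩
    · obtain ⟨x, hx, h6⟩ := hK.l6 e h.he h5
      exact ⟨x, hx, h.same2 (mem x hx) hd h6 h4⟩
    · obtain ⟨x, hx, h6⟩ := hK.l6 d hdA h5
      exact ⟨x, hx, h.same1 (mem x hx) hd h6⟩

lemma Sf.ConH.holA1 {G : Type} [Group G] {s : D → G} (hs : NC M e G s) {d : D}
    (hd : d ∈ (M.con e).A) (hd1 : Same M.A M.cw (M.rev e) d) (hL : K.L e) :
    hol (M.con e) (cvA M e K) s d = hol M K s e := by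
  have mem := Sf.ConH.memA h hK hA
  obtain ⟨x, hx, h4⟩ := hK.l6 e h.he hL
  obtain ⟨l, hl⟩ := rot_mem hx
  have r1 : Rt M K e (x :: l) := ⟨hl, x, l, rfl, h4⟩
  have r2 : Rt (M.con e) (cvA M e K) d (x :: l) := ⟨hl, x, l, rfl, h.same2 (mem x hx) hd h4 hd1⟩
  rw [hK.hol_eq s r1, (Sf.ConH.lrA h hK hA).hol_eq s r2]
  congr 1
  refine List.map_congr_left fun y hy => ?_
  exact h.stp.hh' hs (mem y (hl.mem_iff.2 hy))

lemma Sf.ConH.holA2 {G : Type} [Group G] {s : D → G} (hs : NC M e G s) {d : D}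
    (hd : d ∈ (M.con e).A) (hL : K.L d) :
    hol (M.con e) (cvA M e K) s d = hol M K s d := by
  have mem := Sf.ConH.memA h hK hA
  obtain ⟨x, hx, h4⟩ := hK.l6 d (mem_rm.1 hd).1 hL
  obtain ⟨l, hl⟩ := rot_mem hx
  have r1 : Rt M K d (x :: l) := ⟨hl, x, l, rfl, h4⟩
  have r2 : Rt (M.con e) (cvA M e K) d (x :: l) := ⟨hl, x, l, rfl, h.same1 (mem x hx) hd h4⟩
  rw [hK.hol_eq s r1, (Sf.ConH.lrA h hK hA).hol_eq s r2]
  congr 1
  refine List.map_congr_left fun y hy => ?_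
  exact h.stp.hh' hs (mem y (hl.mem_iff.2 hy))

lemma Sf.ConH.tcA : TC M (M.con e) (NC M e) K (cvA M e K) where
  lr := hK
  lr' := Sf.ConH.lrA h hK hA
  tw G _ z s hs hF := by
    classical
    have st := h.st
    obtain ⟨e1, e2⟩ := Sf.ConH.eA h hK hA
    obtain ⟨γ, hγ⟩ : ∃ γ : D → G, γ = fun d => if Same M.A M.cw (M.rev e) d ∧ K.L e then
      (hol M K s e) ^ z else 1 := ⟨_, rfl⟩
    have g1 : ∀ d, Same M.A M.cw (M.rev e) d → K.L e → γ d = (hol M K s e) ^ z :=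
      fun d h1 h2 => by rw [hγ]; exact if_pos ⟨h1, h2⟩
    have g2 : ∀ d, ¬ Same M.A M.cw (M.rev e) d → γ d = 1 :=
      fun d h1 => by rw [hγ]; exact if_neg (fun h2 => h1 h2.1)
    have g3 : ∀ d, ¬ K.L e → γ d = 1 :=
      fun d h1 => by rw [hγ]; exact if_neg (fun h2 => h1 h2.2)
    have ce := h.ok.hm _ st.me'
    have sce : Same M.A M.cw (M.rev e) (M.cw (M.rev e)) := Same.step st.me'
    have nce : ¬ Same M.A M.cw (M.rev e) (M.cw e) :=
      fun h1 => h.nee (h1.trans (Same.step h.he).symm)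
    have L1 := Sf.ConH.nL h hK hA st.me' (Same.refl _)
    have L2 := Sf.ConH.nL h hK hA ce sce
    have L3 := hK.l5 e h.he e1 e2
    obtain ⟨n1, n2⟩ := hs
    rw [h.ok.fcr h.he] at n2
    unfold Sf.fc at n1
    refine ⟨fun d => tw M K z s d * (γ d)⁻¹, ⟨?_, ?_⟩, ⟨fun _ => 1, γ, fun _ _ => rfl,
      fun d hd => ?_, g2 _ h.neo, fun d hd => by group⟩, Sf.Eqv.of_eq fun d hd => ?_⟩
    · show tw M K z s e * (γ e)⁻¹ = tw M K z s (M.cw (M.rev e)) * (γ (M.cw (M.rev e)))⁻¹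
      rw [g2 e h.nee, tw_neg L2]
      by_cases hL : K.L e
      · rw [tw_pos hL, g1 _ sce hL, ← n1]
        group
      · rw [tw_neg hL, g3 _ hL, ← n1]
    · show tw M K z s (M.rev e) * (γ (M.rev e))⁻¹ =
        tw M K z s (M.fc (M.rev e)) * (γ (M.fc (M.rev e)))⁻¹
      rw [h.ok.fcr h.he, g2 _ nce, tw_neg L1]
      by_cases hL : K.L e
      · obtain ⟨x, hx, h8⟩ := hK.l6 e h.he hL
        rw [tw_pos (L3.2 hL), g1 _ (Same.refl _) hL, n2,
          hK.hol_same s hx h8 (Same.step h.he)]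
        group
      · rw [tw_neg (fun h9 => hL (L3.1 h9)), g3 _ hL, ← n2]
    · rw [hγ]
      have e1 : Same M.A M.cw (M.rev e) (M.cw d) ↔ Same M.A M.cw (M.rev e) d :=
        ⟨fun h1 => h1.trans (Same.step hd).symm, fun h1 => h1.trans (Same.step hd)⟩
      simp only [e1]
    · by_cases h5 : Same M.A M.cw (M.rev e) d
      · have h6 := Sf.ConH.lA' h hK hA h5
        rw [tw_neg (Sf.ConH.nL h hK hA (mem_rm.1 hd).1 h5)]
        by_cases hL : K.L e
        · rw [tw_pos (h6.2 hL), g1 _ h5 hL, Sf.ConH.holA1 h hK hA ⟨n1, by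
            rw [h.ok.fcr h.he]; exact n2⟩ hd h5 hL, zpow_neg]
        · rw [tw_neg (fun h9 => hL (h6.1 h9)), g3 _ hL]
          group
      · have h6 := Sf.ConH.lA h hK hA h5
        rw [g2 _ h5]
        by_cases hL : K.L d
        · rw [tw_pos (h6.2 hL), tw_pos hL, Sf.ConH.holA2 h hK hA ⟨n1, by
            rw [h.ok.fcr h.he]; exact n2⟩ hd hL]
          group
        · rw [tw_neg (fun h9 => hL (h6.1 h9)), tw_neg hL]
          group
  lp G _ s hs := by
    unfold lp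
    have : (cvA M e K).c.map ((M.con e).hh s) = K.c.map (M.hh s) :=
      List.map_congr_left fun y hy => h.stp.hh' hs (Sf.ConH.memA h hK hA y hy)
    rw [this]

end A

/-! ### Contraction, second case: `e` lies on the curve -/

/-- the curve after the contraction of its dart `e` -/
def cvB (K : Cv D) (l : List D) : Cv D := ⟨l, K.L⟩

section B

variable (h : M.ConH e) (hK : LR M K) {l : List D} (hl : K.c ~r (e :: l))

include h hK hl

lemma Sf.ConH.mc : ∀ x, x ∈ K.c ↔ x = e ∨ x ∈ l := by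
  intro x
  rw [hl.mem_iff, List.mem_cons]

lemma Sf.ConH.ec : e ∈ K.c := (Sf.ConH.mc h hK hl e).2 (Or.inl rfl)

lemma Sf.ConH.nodB : (e :: l).Nodup := hl.nodup_iff.1 hK.nd

lemma Sf.ConH.hd : ∃ b l', l = b :: l' ∧ Same M.A M.cw (M.rev e) b := by
  have h1 := hK.isChain hl
  cases l with
  | nil =>
    rw [List.nil_append, List.isChain_cons_cons] at h1
    exact absurd h1.1 h.nee
  | cons b l' =>
    rw [List.cons_append, List.isChain_cons_cons] at h1
    exact ⟨b, l', rfl, h1.1⟩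

lemma Sf.ConH.memB : ∀ x ∈ l, x ∈ (M.con e).A := by
  intro x hx
  have h1 := Sf.ConH.nodB h hK hl
  rw [List.nodup_cons] at h1
  have hxc := (Sf.ConH.mc h hK hl x).2 (Or.inr hx)
  refine mem_rm.2 ⟨hK.mem x hxc, fun h2 => h1.1 (h2 ▸ hx), fun h2 => ?_⟩
  have h3 := hK.l2 e (Sf.ConH.ec h hK hl)
  rw [← h2] at h3
  exact h3 (hK.l3 x hxc)

lemma Sf.ConH.hLB {d : D} (hd : d ∈ (M.con e).A) :
    K.L ((M.con e).cw d) ↔ K.L (M.cw d) := by
  have ec := Sf.ConH.ec h hK hl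
  have k1 := hK.l1 e ec
  have k2 := hK.l2 e ec
  have k3 := hK.l3 e ec
  have k4 := hK.l4 e ec
  show K.L (mg M.cw e (M.rev e) d) ↔ K.L (M.cw d)
  unfold mg
  grind

lemma Sf.ConH.lrB : LR (M.con e) (cvB K l) := by
  have mem := Sf.ConH.memB h hK hl
  have s := h.st
  have mc := Sf.ConH.mc h hK hl
  have nd := Sf.ConH.nodB h hK hl
  have nd' := (List.nodup_cons.1 nd)
  have ec := Sf.ConH.ec h hK hl
  have rmem : ∀ x ∈ l, M.rev x ∈ (M.con e).A := fun x hx => s.mrev' x (mem x hx)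
  obtain ⟨b, l', hb, hb2⟩ := Sf.ConH.hd h hK hl
  have hbl : b ∈ l := by rw [hb]; simp
  refine ⟨?_, nd'.2, mem, ?_, ?_, ?_, ?_, ?_, ?_, ?_, ?_, ?_⟩
  · show l ≠ []
    rw [hb]
    simp
  · show Cycle.Chain _ (l : Cycle D)
    rw [hb, Cycle.chain_coe_cons]
    have h1 := hK.isChain hl
    rw [hb, List.cons_append, List.isChain_cons_cons] at h1
    have h2 := h1.2
    rw [← List.cons_append, List.isChain_append] at h2 ⊢
    refine ⟨?_, List.isChain_singleton b, ?_⟩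
    · refine h2.1.imp_of_mem_imp fun x y hx hy hxy => ?_
      rw [← hb] at hx hy
      exact h.same1 (rmem x hx) (mem y hy) hxy
    · intro x hx y hy
      have h3 := h2.2.2 x hx e (by simp)
      have h4 : y = b := by
        simp at hy
        exact hy.symm
      subst h4
      have h5 : x ∈ l := by
        rw [hb]
        exact List.mem_of_mem_getLast? hx
      exact h.same2 (rmem x h5) (mem y hbl) h3 hb2
  · intro x hx x' hx' h3
    have hx1 := (mc x).2 (Or.inr hx)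
    have hx1' := (mc x').2 (Or.inr hx')
    rcases h.same3 h3 with h4 | h4 | h4
    · exact hK.dist x hx1 x' hx1' h4
    · exact absurd (hK.dist x hx1 e ec h4.1) (fun h5 => nd'.1 (h5 ▸ hx))
    · exact absurd (hK.dist e ec x' hx1' h4.2) (fun h5 => nd'.1 (h5 ▸ hx'))
  · intro x hx h3
    have hx1 := (mc x).2 (Or.inr hx)
    rcases h.same3 h3 with h4 | h4 | h4
    · exact hK.base x hx1 h4
    · exact hK.base e ec h4.1
    · exact absurd h4.1.symm h.neo
  · intro y hy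
    exact (Sf.ConH.hLB h hK hl (rmem y hy)).2 (hK.l1 y ((mc y).2 (Or.inr hy)))
  · intro y hy
    exact hK.l2 y ((mc y).2 (Or.inr hy))
  · intro y hy
    exact hK.l3 y ((mc y).2 (Or.inr hy))
  · intro x hx h3
    exact hK.l4 x ((mc x).2 (Or.inr hx)) ((Sf.ConH.hLB h hK hl (mem x hx)).1 h3)
  · intro d hd h3 h4
    have hd' := mem_rm.1 hd
    have h6 := Sf.ConH.hLB h hK hl hd
    have h7 : K.L (M.cw d) ↔ K.L d := by
      refine hK.l5 d hd'.1 ?_ ?_
      · rw [mc]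
        rintro (h5 | h5)
        · exact hd'.2.1 h5
        · exact h3 h5
      · rw [mc]
        rintro (h5 | h5)
        · apply hd'.2.2
          rw [← h5, h.ok.rr d hd'.1]
        · exact h4 h5
    exact h6.trans h7
  · intro d hd h3
    have hd' := mem_rm.1 hd
    obtain ⟨x, hx, h4⟩ := hK.l6 d hd'.1 h3
    rcases (mc x).1 hx with h5 | h5
    · subst h5
      exact ⟨b, hbl, (h.same2 hd (mem b hbl) h4.symm hb2).symm⟩
    · exact ⟨x, h5, h.same1 (mem x h5) hd h4⟩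

lemma Sf.ConH.hhe {G : Type} [Group G] {s : D → G} (hs : NC M e G s) : M.hh s e = 1 := by
  have := hs.1
  unfold Sf.fc at this
  unfold Sf.hh
  rw [← this]
  group

lemma Sf.ConH.holB {G : Type} [Group G] {s : D → G} (hs : NC M e G s) {d : D}
    (hd : d ∈ (M.con e).A) (hL : K.L d) :
    hol (M.con e) (cvB K l) s d = hol M K s d := by
  have mem := Sf.ConH.memB h hK hl
  have mc := Sf.ConH.mc h hK hl
  have hhe := Sf.ConH.hhe h hK hl hs
  have lr := Sf.ConH.lrB h hK hl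
  obtain ⟨b, l', hb, hb2⟩ := Sf.ConH.hd h hK hl
  have hbl : b ∈ l := by rw [hb]; simp
  obtain ⟨x, hx, h4⟩ := hK.l6 d (mem_rm.1 hd).1 hL
  rcases (mc x).1 hx with h5 | h5
  · subst h5
    have r1 : Rt M K d (x :: l) := ⟨hl, x, l, rfl, h4⟩
    have r2 : Rt (M.con x) (cvB K l) d l :=
      ⟨List.IsRotated.refl l, b, l', hb, (h.same2 hd (mem b hbl) h4.symm hb2).symm⟩
    rw [hK.hol_eq s r1, lr.hol_eq s r2, List.map_cons, List.prod_cons, hhe, one_mul]
    congr 1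
    refine List.map_congr_left fun y hy => ?_
    exact h.stp.hh' hs (mem y hy)
  · obtain ⟨u, v, huv⟩ := List.mem_iff_append.1 h5
    have w1 : K.c ~r (x :: (v ++ e :: u)) := by
      refine hl.trans ?_
      rw [huv]
      have := List.isRotated_append (l := e :: u) (l' := x :: v)
      simpa using this
    have w2 : l ~r (x :: (v ++ u)) := by
      rw [huv]
      have := List.isRotated_append (l := u) (l' := x :: v)
      simpa using this
    have r1 : Rt M K d (x :: (v ++ e :: u)) := ⟨w1, x, _, rfl, h4⟩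
    have r2 : Rt (M.con e) (cvB K l) d (x :: (v ++ u)) := ⟨w2, x, _, rfl, h.same1 (mem x h5) hd h4⟩
    rw [hK.hol_eq s r1, lr.hol_eq s r2]
    have e1 : (x :: (v ++ u)).map ((M.con e).hh s) = (x :: (v ++ u)).map (M.hh s) :=
      List.map_congr_left fun y hy => h.stp.hh' hs (mem y (w2.mem_iff.2 hy))
    rw [e1]
    simp only [List.map_cons, List.prod_cons, List.map_append, List.prod_append, hhe, one_mul]

lemma Sf.ConH.tcB : TC M (M.con e) (NC M e) K (cvB K l) where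
  lr := hK
  lr' := Sf.ConH.lrB h hK hl
  tw G _ z s hs hF := by
    have st := h.st
    have ec := Sf.ConH.ec h hK hl
    have hhe := Sf.ConH.hhe h hK hl hs
    obtain ⟨n1, n2⟩ := id hs
    rw [h.ok.fcr h.he] at n2
    unfold Sf.fc at n1
    obtain ⟨y, hy, hy2⟩ := hK.next ec
    refine ⟨tw M K z s, ⟨?_, ?_⟩, Sf.Eqv.refl _, Sf.Eqv.of_eq fun d hd => ?_⟩
    · show tw M K z s e = tw M K z s (M.cw (M.rev e))
      rw [tw_pos (hK.l3 e ec), tw_pos (hK.l1 e ec), ← n1,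
        hK.hol_same s hy hy2.symm (Same.step st.me'), hK.hol_next s ec, hhe]
      group
    · rw [h.ok.fcr h.he, tw_neg (hK.l2 e ec), tw_neg (hK.l4 e ec)]
      exact n2
    · by_cases hL : K.L d
      · rw [tw_pos hL, tw_pos (K := cvB K l) hL, Sf.ConH.holB h hK hl hs hd hL]
      · rw [tw_neg hL, tw_neg (K := cvB K l) hL]
  lp G _ s hs := by
    have hhe := Sf.ConH.hhe h hK hl hs
    unfold lp
    rw [prod_rot_one (f := M.hh s) hl]
    have : (cvB K l).c.map ((M.con e).hh s) = l.map (M.hh s) :=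
      List.map_congr_left fun y hy => h.stp.hh' hs (Sf.ConH.memB h hK hl y hy)
    rw [this, List.map_cons, List.prod_cons, hhe, one_mul]

end B

end con

end Pool.Agent.V8H82.PF
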