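import Pool.Agent.V8H82.PF.AdaptS

/-!
# For every curve there is a frame in which its twist is positive
-/

set_option autoImplicit false
set_option linter.unusedVariables false
set_option linter.unusedSectionVars false

namespace Pool.Agent.V8H82.PF

open Finset List Pool.Agent.N513.PF

variable {D : Type}

lemma Same.congr {A : Finset D} {f f' : D → D} (hf : ∀ d ∈ A, f' d = f d) {x y : D}
    (h : Same A f x y) : Same A f' x y := by
  intro P hP
  exact h P fun d hd => by rw [← hf d hd]; exact hP d hd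

/-- the frame of a link -/
noncomputable def Frm.mk' {M M' : Sf D} (hU : Uni M') {u : D → FreeGroup (Gn M')}
    (hu : Univ M (FreeGroup (Gn M')) u) (hz : M.zz u = M'.zz (Uni.uu M')) : Frm M where
  β := Gn M'
  dec := inferInstance
  fin := inferInstance
  n := nm M'
  p := ppos M'
  zl := wl M' (M'.fc M'.o)
  arr := hU.arr
  bd := hU.bd
  all := hU.all
  u := u
  univ := hu
  zz := by rw [hz, hU.zz_uu]

section conp

variable [DecidableEq D] {M : Sf D} {K : Cv D} {x e : D}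

/-- the contraction of an edge from the base vertex to the vertex of the loop -/
structure PC (M : Sf D) (K : Cv D) (x e : D) : Prop where
  ok : M.Ok
  lr : LR M K
  hc : K.c = [x]
  r1 : ∀ d ∈ M.A, d ≠ M.o → d ≠ x → M.rev d ≠ x → Same M.A M.fc d (M.rev d)
  hv : ∀ d ∈ M.A, Same M.A M.cw M.o d ∨ Same M.A M.cw x d
  eA : e ∈ M.A
  e1 : Same M.A M.cw M.o e
  e2 : Same M.A M.cw x (M.rev e)
  e3 : ¬ K.L (M.rev e)

namespace PC

lemma xc (h : PC M K x e) : x ∈ K.c := by rw [h.hc]; simp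

lemma xA (h : PC M K x e) : x ∈ M.A := h.lr.mem x h.xc

lemma base (h : PC M K x e) : ¬ Same M.A M.cw M.o x := h.lr.base x h.xc

lemma xo (h : PC M K x e) : x ≠ M.o := by
  rintro h1
  apply h.base
  rw [h1]
  exact Same.refl _

lemma ch (h : PC M K x e) : Same M.A M.cw (M.rev x) x := by
  have hch := h.lr.chain
  rw [h.hc, Cycle.chain_singleton] at hch
  exact hch

lemma l6 (h : PC M K x e) {d : D} (hd : d ∈ M.A) (hL : K.L d) : Same M.A M.cw x d := by
  obtain ⟨y, hy, h1⟩ := h.lr.l6 d hd hL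
  rw [h.hc] at hy
  have : y = x := by simpa using hy
  rwa [this] at h1

lemma ex (h : PC M K x e) : e ≠ x := by
  rintro rfl
  exact h.base h.e1

lemma erx (h : PC M K x e) : M.rev e ≠ x := by
  intro h1
  have h2 : e = M.rev x := by rw [← h1, h.ok.rr e h.eA]
  apply h.base
  have h3 := h.e1
  rw [h2] at h3
  exact h3.trans h.ch

lemma con (h : PC M K x e) : M.ConH e := by
  refine ⟨h.ok, h.eA, ?_, fun z => Same M.A M.cw (M.rev e) z, fun d hd => ?_, fun h1 => ?_,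
    Same.refl _, fun h1 => ?_⟩
  · rintro rfl
    have h1 := h.e2
    rw [h.ok.ro] at h1
    exact h.base h1.symm
  · exact ⟨fun h3 => h3.trans (Same.step hd).symm, fun h3 => h3.trans (Same.step hd)⟩
  · exact h.base (h.e1.trans (h1.symm.trans h.e2.symm))
  · exact h.base (h1.symm.trans h.e2.symm)

lemma nLe (h : PC M K x e) : ¬ K.L e := fun h1 =>
  h.base (h.e1.trans (h.l6 h.eA h1).symm)

lemma nc (h : PC M K x e) {d : D} (h1 : d ≠ x) : d ∉ K.c := by
  rw [h.hc]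
  simpa using h1

lemma hL (h : PC M K x e) {d : D} (hd : d ∈ (M.con e).A) :
    K.L ((M.con e).cw d) ↔ K.L (M.cw d) := by
  have s := h.con.st
  have k1 := h.nLe
  have k2 := h.e3
  have k3 := h.lr.l5 e h.eA (h.nc h.ex) (h.nc h.erx)
  have k4 := h.lr.l5 (M.rev e) s.me' (h.nc h.erx) (by
    rw [h.ok.rr e h.eA]
    exact h.nc h.ex)
  show K.L (mg M.cw e (M.rev e) d) ↔ K.L (M.cw d)
  unfold mg
  grind

lemma adp (h : PC M K x e) : Adp (M.con e) x K.L where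
  ok := h.con.ok'
  v d hd := by
    have hd' := mem_rm.1 hd
    rcases h.hv d hd'.1 with h1 | h1
    · exact h.con.same1 h.con.st.mo hd h1
    · exact h.con.same2 h.con.st.mo hd h.e1 (h.e2.symm.trans h1)
  xA := mem_rm.2 ⟨h.xA, h.ex.symm, h.erx.symm⟩
  xo := h.xo
  r1 d hd h1 h2 h3 := by
    have s := h.con.st
    have h4 := h.r1 d (mem_rm.1 hd).1 h1 h2 h3
    have h5 := (same_sk s.hm s.hi s.he s.me' s.hne s.f1 s.f2 s.nd hd (s.mrev' d hd)).2 h4
    exact h5.congr fun d hd => h.con.fc_eq hd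
  l0 h1 := h.base (h.l6 h.ok.ho h1).symm
  l1 := by
    have s := h.con.st
    have hxr : M.rev x ∈ (M.con e).A := s.mrev' x (mem_rm.2 ⟨h.xA, h.ex.symm, h.erx.symm⟩)
    exact (h.hL hxr).2 (h.lr.l1 x h.xc)
  l2 := h.lr.l2 x h.xc
  l3 := h.lr.l3 x h.xc
  l4 h1 := h.lr.l4 x h.xc ((h.hL (mem_rm.2 ⟨h.xA, h.ex.symm, h.erx.symm⟩)).1 h1)
  l5 d hd h1 h2 := by
    rw [h.hL hd]
    exact h.lr.l5 d (mem_rm.1 hd).1 (h.nc h1) (h.nc h2)

lemma rel (h : PC M K x e) {B B' : Empty → Cv D} (hB : ∀ i, TC M (M.con e) (NC M e) (B i) (B' i))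
    {G : Type} [Group G] {s s' : D → G} (hs : (h.con.stp.lk hB).E G s s') :
    (h.con.stp.lk hB).E G (tw M K 1 s) (tx (M.con e) x K.L s') := by
  obtain ⟨h1, h2, s1, h3, h4, h5⟩ := hs
  obtain ⟨n1, n2⟩ := id h3
  have k1 := h.nLe
  have k2 := h.e3
  have s := h.con.st
  have k3 := h.lr.l5 e h.eA (h.nc h.ex) (h.nc h.erx)
  have k4 := h.lr.l5 (M.rev e) s.me' (h.nc h.erx) (by
    rw [h.ok.rr e h.eA]
    exact h.nc h.ex)
  have k3' : ¬ K.L (M.cw e) := fun h6 => k1 (k3.1 h6)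
  have k4' : ¬ K.L (M.cw (M.rev e)) := fun h6 => k2 (k4.1 h6)
  refine ⟨h.lr.fl h.ok 1 h1, h.adp.tx_fl h2, tw M K 1 s1, ⟨?_, ?_⟩, h.lr.eqv h.ok 1 h4,
    Sf.Eqv.trans1 (Sf.Eqv.of_eq fun d hd => ?_) (h.adp.tx_eqv h5)⟩
  · show tw M K 1 s1 e = tw M K 1 s1 (M.cw (M.rev e))
    rw [tw_neg k1, tw_neg k4']
    exact n1
  · rw [h.ok.fcr h.eA, tw_neg k2, tw_neg k3']
    rw [h.ok.fcr h.eA] at n2
    exact n2
  · have hxA : x ∈ (M.con e).A := mem_rm.2 ⟨h.xA, h.ex.symm, h.erx.symm⟩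
    unfold tx
    by_cases h6 : K.L d
    · rw [if_pos h6, tw_pos h6, hol_single h.hc (h.l6 (mem_rm.1 hd).1 h6),
        h.con.stp.hh' h3 hxA, zpow_neg_one]
    · rw [if_neg h6, tw_neg h6]

end PC

end conp

variable [DecidableEq D]

/-- **Every essential curve has a frame in which its twist is positive.** -/
theorem curve_frame {M : Sf D} {K : Cv D} {g : ℕ} (h : Good g M (fun _ : Unit => K))
    (hess : ∃ (G : Type) (_ : Group G) (s : D → G), M.Fl s ∧ lp M K s ≠ 1) :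
    ∃ (Fr : Frm M) (θ : FreeGroup Fr.β →* FreeGroup Fr.β),
      M.Eqv 1 (fun d => θ (Fr.u d)) (tw M K 1 Fr.u) ∧
      (∀ z, z = θ z ∨ lt Fr.n Fr.p z (θ z)) ∧ ∃ z, θ z ≠ z := by
  obtain ⟨M1, B1, hG, hR, ⟨L1⟩⟩ := h.reduce
  obtain ⟨K1, hK1⟩ : ∃ K1, K1 = B1 () := ⟨_, rfl⟩
  have hB1 : B1 = fun _ => K1 := by
    funext i
    rw [hK1]
  subst hB1
  have lr1 : LR M1 K1 := hG.lr ()
  have ok := hG.ok
  obtain ⟨x, hx⟩ : ∃ x, x ∈ K1.c := List.exists_mem_of_ne_nil _ lr1.ne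
  have hc : K1.c = [x] := by
    rcases hR.r3 () x hx with h1 | ⟨j, hj, _⟩
    · exact h1
    · exact absurd rfl hj
  have hxA := lr1.mem x hx
  have ch : Same M1.A M1.cw (M1.rev x) x := by
    have hch := lr1.chain
    rw [hc, Cycle.chain_singleton] at hch
    exact hch
  have hv : ∀ d ∈ M1.A, Same M1.A M1.cw M1.o d ∨ Same M1.A M1.cw x d := by
    intro d hd
    rcases hR.r2 d hd with h1 | ⟨i, y, hy, h1⟩
    · exact Or.inl h1
    · rw [hc] at hy
      have : y = x := by simpa using hy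
      rw [this] at h1
      exact Or.inr h1
  have hr1 : ∀ d ∈ M1.A, d ≠ M1.o → d ≠ x → M1.rev d ≠ x → Same M1.A M1.fc d (M1.rev d) := by
    intro d hd h1 h2 h3
    refine hR.r1 d hd h1 fun i => ?_
    rw [hc]
    simp [h2, h3]
  have hbase := lr1.base x hx
  -- the edge from the base vertex
  obtain ⟨e, he, he1, he2⟩ : ∃ e ∈ M1.A, Same M1.A M1.cw M1.o e ∧ Same M1.A M1.cw x (M1.rev e) := by
    by_contra h3
    push Not at h3
    refine hbase (ok.conn (fun z => Same M1.A M1.cw M1.o z) (fun z hz => ?_) (fun z hz => ?_)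
      (Same.refl _) x hxA)
    · exact ⟨fun h4 => h4.trans (Same.step hz).symm, fun h4 => h4.trans (Same.step hz)⟩
    · have h4 := h3 z hz
      have h5 := h3 _ (ok.mrev z hz)
      rw [ok.rr z hz] at h5
      have h6 := hv z hz
      have h7 := hv _ (ok.mrev z hz)
      constructor
      · intro h8
        rcases h6 with h9 | h9
        · exact h9
        · exact absurd h9 (h5 h8)
      · intro h8
        rcases h7 with h9 | h9
        · exact h9
        · exact absurd h9 (h4 h8)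
  -- the orientation
  obtain ⟨K2, x2, ⟨L2⟩, hP⟩ : ∃ (K2 : Cv D) (x2 : D),
      Nonempty (Lk M1 (fun _ : Unit => K1) M1 (fun _ : Unit => K2)) ∧ PC M1 K2 x2 e := by
    by_cases hL : K1.L (M1.rev e)
    · refine ⟨rvK M1 K1 x, M1.rev x, ⟨lkRv ok lr1 hc⟩, ok, lr1.rv ok hc, rfl, ?_, ?_, he, he1,
        ch.trans he2, fun h1 => h1.2 hL⟩
      · intro d hd h1 h2 h3
        refine hr1 d hd h1 (fun h4 => h3 (by rw [h4])) (fun h4 => h2 ?_)
        rw [← h4, ok.rr d hd]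
      · intro d hd
        rcases hv d hd with h1 | h1
        · exact Or.inl h1
        · exact Or.inr (ch.trans h1)
    · exact ⟨K1, x, ⟨Lk.refl ok fun _ => lr1⟩, ok, lr1, hc, hr1, hv, he, he1, he2, hL⟩
  -- the links
  have L12 := L1.trans L2
  have hB0 : ∀ i : Empty, TC M1 (M1.con e) (NC M1 e) ((fun _ : Unit => K2) (Empty.elim i))
    ((fun _ : Unit => K2) (Empty.elim i)) := fun i => i.elim
  have L3 := hP.con.stp.lk hB0
  obtain ⟨L3, hL3⟩ : ∃ L3, L3 = hP.con.stp.lk hB0 := ⟨_, rfl⟩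
  have L0 := (L12.sub (fun i : Empty => (Empty.elim i : Unit))).trans L3
  obtain ⟨L0, hL0⟩ : ∃ L0, L0 = (L12.sub (fun i : Empty => (Empty.elim i : Unit))).trans L3 :=
    ⟨_, rfl⟩
  have rel0 : ∀ (G : Type) [Group G] (s s' : D → G), L0.E G s s' →
      L0.E G (tw M K 1 s) (tx (M1.con e) x2 K2.L s') := by
    intro G _ s s' hE
    rw [hL0] at hE ⊢
    obtain ⟨s1, hE1, hE2⟩ := hE
    refine ⟨tw M1 K2 1 s1, L12.tw G s s1 1 () hE1, ?_⟩
    rw [hL3] at hE2 ⊢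
    exact hP.rel hB0 hE2
  have hA := hP.adp
  by_cases hs : Same (M1.con e).A (M1.con e).fc x2 ((M1.con e).rev x2)
  · -- nonseparating
    have hU := hA.uni hs
    obtain ⟨θ, t1, t2, t3⟩ := hA.ns hs
    obtain ⟨u, u1, u2⟩ := L0.univ hU.univ
    refine ⟨Frm.mk' hU u2 (L0.zz _ _ _ u1).symm, θ, ?_, t2, t3⟩
    exact (L0.eq _ 1 _ _ _ _ (L0.map _ _ θ _ _ u1) (rel0 _ _ _ u1)).2 t1
  · -- separating
    have hess2 : (M1.con e).fc x2 ≠ x2 := by
      intro h1
      obtain ⟨G, _, s, h2, h3⟩ := hess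
      obtain ⟨s1, h4⟩ := L12.dn G s h2
      have h5 : lp M1 K2 s1 ≠ 1 := fun h6 => h3 ((L12.lp G s s1 () h4).1 h6)
      obtain ⟨s2, h6, h7⟩ := hP.con.stp.fix G s1 (L12.fl G _ _ h4).2
      have h8 : lp M1 K2 s2 ≠ 1 := fun h9 => h5 ((hP.lr.lp_one ok h7).1 h9)
      apply h8
      unfold lp
      rw [hP.hc, List.map_singleton, List.prod_singleton, ← hP.con.stp.hh' h6 hA.xA]
      have : (M1.con e).hh s2 x2 = (s2 x2)⁻¹ * s2 ((M1.con e).fc x2) := rfl
      rw [this, h1]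
      group
    have hS : SepH (M1.con e) x2 K2.L := ⟨hA, hs, hess2⟩
    have hU := hS.uni
    have hB1 : ∀ i : Empty, TC (M1.con e) ((M1.con e).del x2) (ND (M1.con e) x2)
      ((fun _ : Unit => K2) (Empty.elim i)) ((fun _ : Unit => K2) (Empty.elim i)) := fun i => i.elim
    obtain ⟨L4, hL4⟩ : ∃ L4, L4 = hS.dh.stp.lk hB1 := ⟨_, rfl⟩
    obtain ⟨L5, hL5⟩ : ∃ L5, L5 = L0.trans L4 := ⟨_, rfl⟩
    obtain ⟨θ, t1, t2, t3⟩ := hS.sp
    obtain ⟨u, u1, u2⟩ := L5.univ hU.univ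
    have rel5 : L5.E _ (tw M K 1 u) (tS K2.L ((M1.con e).cw ((M1.con e).rev x2))
        ((M1.con e).cw x2) (Uni.uu ((M1.con e).del x2))) := by
      rw [hL5] at u1 ⊢
      obtain ⟨s1, hE1, hE2⟩ := u1
      refine ⟨tx (M1.con e) x2 K2.L s1, rel0 _ _ _ hE1, ?_⟩
      rw [hL4] at hE2 ⊢
      exact hS.rel hB1 hE2
    refine ⟨Frm.mk' hU u2 (L5.zz _ _ _ u1).symm, θ, ?_, t2, t3⟩
    exact (L5.eq _ 1 _ _ _ _ (L5.map _ _ θ _ _ u1) rel5).2 t1

end Pool.Agent.V8H82.PF
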