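import Pool.Agent.V8H82.PF.Annul

/-!
# The number of disjoint curves with different twists
-/

set_option autoImplicit false
set_option linter.unusedVariables false
set_option linter.unusedSectionVars false

namespace Pool.Agent.V8H82.PF

open Finset List

variable {D : Type} {ι : Type}

/-- a reduced map with disjoint essential curves with different twists -/
structure Dis (g : ℕ) (M : Sf D) (B : ι → Cv D) (x : ι → D) : Prop where
  good : Good g M B
  red : Rdc M B
  dj : ∀ i j, i ≠ j → ¬ Mt M B i j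
  ess : ∀ i, Ess M (B i)
  neq : ∀ i j, i ≠ j → ¬ EqC M (B i) (B j)
  hx : ∀ i, (B i).c = [x i]

namespace Dis

variable {g : ℕ} {M : Sf D} {B : ι → Cv D} {x : ι → D}

lemma ok (h : Dis g M B x) : M.Ok := h.good.ok

lemma lr (h : Dis g M B x) (i : ι) : LR M (B i) := h.good.lr i

lemma xc (h : Dis g M B x) (i : ι) : x i ∈ (B i).c := by rw [h.hx]; simp

lemma xA (h : Dis g M B x) (i : ι) : x i ∈ M.A := (h.lr i).mem _ (h.xc i)

lemma base (h : Dis g M B x) (i : ι) : ¬ Same M.A M.cw M.o (x i) := (h.lr i).base _ (h.xc i)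

lemma ch (h : Dis g M B x) (i : ι) : Same M.A M.cw (M.rev (x i)) (x i) := by
  have := (h.lr i).chain
  rwa [h.hx, Cycle.chain_singleton] at this

lemma vv (h : Dis g M B x) {i j : ι} (hs : Same M.A M.cw (x i) (x j)) : i = j := by
  by_contra hij
  exact h.dj i j hij ⟨x i, h.xc i, x j, h.xc j, hs⟩

lemma xo (h : Dis g M B x) (i : ι) : x i ≠ M.o := fun h1 => h.base i (by
  rw [h1]
  exact Same.refl _)

/-- the darts of the curves, in both directions -/
def C (M : Sf D) (x : ι → D) (z : D) : Prop := ∃ i, z = x i ∨ z = M.rev (x i)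

lemma cv (h : Dis g M B x) {z : D} {i : ι} (hz : z = x i ∨ z = M.rev (x i)) :
    Same M.A M.cw (x i) z := by
  rcases hz with rfl | rfl
  · exact Same.refl _
  · exact (h.ch i).symm

lemma cA (h : Dis g M B x) {z : D} (hz : C M x z) : z ∈ M.A := by
  obtain ⟨i, rfl | rfl⟩ := hz
  · exact h.xA i
  · exact h.ok.mrev _ (h.xA i)

lemma crev (h : Dis g M B x) {z : D} (hz : C M x z) : C M x (M.rev z) := by
  obtain ⟨i, rfl | rfl⟩ := hz
  · exact ⟨i, Or.inr rfl⟩
  · exact ⟨i, Or.inl (h.ok.rr _ (h.xA i))⟩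

lemma crev' (h : Dis g M B x) {z : D} (hA : z ∈ M.A) (hz : C M x (M.rev z)) : C M x z := by
  have := h.crev hz
  rwa [h.ok.rr z hA] at this

lemma co (h : Dis g M B x) : ¬ C M x M.o := by
  rintro ⟨i, h1⟩
  exact h.base i (h.cv h1).symm

lemma hh_ne (h : Dis g M B x) {z : D} (hz : C M x z) :
    ∃ (G : Type) (_ : Group G) (s : D → G), M.hh s z ≠ 1 := by
  obtain ⟨i, h1⟩ := hz
  obtain ⟨G, iG, s, h2, h3⟩ := h.ess i
  refine ⟨G, iG, s, fun h4 => h3 ?_⟩
  unfold lp
  rw [h.hx, List.map_singleton, List.prod_singleton]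
  rcases h1 with rfl | rfl
  · exact h4
  · rw [h2 _ (h.xA i) (h.xo i)] at h4
    exact inv_eq_one.1 h4

lemma fne (h : Dis g M B x) {z : D} (hz : C M x z) : M.fc z ≠ z := by
  intro h1
  obtain ⟨G, _, s, h2⟩ := h.hh_ne hz
  apply h2
  show (s z)⁻¹ * s (M.fc z) = 1
  rw [h1]
  group

/-- the dart after a dart of a curve -/
lemma fN (h : Dis g M B x) {z : D} (hz : C M x z) : ¬ C M x (M.fc z) ∧ M.fc z ≠ M.o := by
  have hzA := h.cA hz
  obtain ⟨i, hi⟩ := id hz
  have h1 : Same M.A M.cw (x i) (M.fc z) := by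
    have h2 : Same M.A M.cw (x i) (M.rev z) := by
      rcases hi with rfl | rfl
      · exact (h.ch i).symm
      · rw [h.ok.rr _ (h.xA i)]
        exact Same.refl _
    exact h2.trans (Same.step (h.ok.mrev z hzA))
  constructor
  · rintro ⟨j, hj⟩
    have h2 := h.cv hj
    have h3 := h.vv (h1.trans h2.symm)
    subst h3
    have h4 : M.fc z = z ∨ M.fc z = M.rev z := by
      rcases hi with rfl | rfl <;> rcases hj with hj | hj
      · exact Or.inl hj
      · exact Or.inr hj
      · right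
        rw [hj, h.ok.rr _ (h.xA i)]
      · exact Or.inl hj
    rcases h4 with h4 | h4
    · exact h.fne hz h4
    · have h5 : Same M.A M.cw (M.rev z) z := by
        rcases hi with rfl | rfl
        · exact h.ch i
        · rw [h.ok.rr _ (h.xA i)]
          exact (h.ch i).symm
      have h6 := same_fix h.ok.hi (h.ok.mrev z hzA) h4 h5
      have h7 : z ≠ M.o := fun h8 => h.co (h8 ▸ hz)
      exact h.ok.rn z hzA h7 h6.symm
  · intro h2
    rw [h2] at h1
    exact h.base i h1.symm

/-- the other darts -/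
def N (M : Sf D) (x : ι → D) (z : D) : Prop := z ∈ M.A ∧ z ≠ M.o ∧ ¬ C M x z

lemma nrev (h : Dis g M B x) {z : D} (hz : N M x z) : N M x (M.rev z) :=
  ⟨h.ok.mrev z hz.1, h.ok.rev_ne_o hz.1 hz.2.1, fun h1 => hz.2.2 (h.crev' hz.1 h1)⟩

lemma nrn (h : Dis g M B x) {z : D} (hz : N M x z) : M.rev z ≠ z := h.ok.rn z hz.1 hz.2.1

lemma nr (h : Dis g M B x) {z : D} (hz : N M x z) : Same M.A M.fc z (M.rev z) := by
  refine h.red.r1 z hz.1 hz.2.1 fun i => ?_
  rw [h.hx]
  simp only [List.mem_singleton]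
  refine ⟨fun h1 => hz.2.2 ⟨i, Or.inl h1⟩, fun h1 => hz.2.2 ⟨i, Or.inr ?_⟩⟩
  rw [← h1, h.ok.rr z hz.1]

/-- no vertex of degree one -/
lemma deg (h : Dis g M B x) {z : D} (hz : N M x z) : M.cw z ≠ z := by
  intro h1
  rcases h.red.r2 z hz.1 with h2 | ⟨i, y, hy, h2⟩
  · have h3 := same_fix h.ok.hi hz.1 h1 h2.symm
    exact hz.2.1 h3.symm
  · rw [h.hx] at hy
    have h4 : y = x i := by simpa using hy
    have h3 := same_fix h.ok.hi hz.1 h1 h2.symm
    exact hz.2.2 ⟨i, Or.inl (h3.symm.trans h4)⟩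

/-- the pair of edges of a small face -/
lemma small (h : Dis g M B x) {e a b : D} (he : N M x e) (ha : C M x a) (hb : C M x b)
    (f1 : M.fc e = a) (f2 : M.fc a = M.rev e) (f3 : M.fc (M.rev e) = b) (f4 : M.fc b = e) :
    False := by
  have haA := h.cA ha
  have hbA := h.cA hb
  obtain ⟨i, hi⟩ := id ha
  obtain ⟨j, hj⟩ := id hb
  have hab : a ≠ b := by
    intro h1
    rw [← h1, f2] at f4
    exact h.nrn he f4
  have g1 : M.cw (M.rev e) = a := f1
  have g2 : M.cw (M.rev a) = M.rev e := f2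
  have g3 : M.cw e = b := by rw [← f3, h.ok.fcr he.1]
  have g4 : M.cw (M.rev b) = e := f4
  by_cases hij : i = j
  · subst hij
    have h1 : b = M.rev a := by
      rcases hi with rfl | rfl <;> rcases hj with rfl | rfl
      · exact absurd rfl hab
      · rfl
      · rw [h.ok.rr _ (h.xA i)]
      · exact absurd rfl hab
    have h2 : M.rev b = a := by rw [h1, h.ok.rr a haA]
    rw [h2] at g4
    rw [← h1] at g2
    refine (h.ok.conn (fun z => z ≠ e ∧ z ≠ M.rev e ∧ z ≠ a ∧ z ≠ b) (fun z hz => ?_)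
      (fun z hz => ?_) ⟨he.2.1.symm, (h.nrev he).2.1.symm, fun h3 => h.co (h3 ▸ ha),
        fun h3 => h.co (h3 ▸ hb)⟩ e he.1).1 rfl
    · have b1 := h.ok.hi z hz e he.1
      have b2 := h.ok.hi z hz (M.rev e) (h.nrev he).1
      have b3 := h.ok.hi z hz a haA
      have b4 := h.ok.hi z hz b hbA
      rw [g3] at b1
      rw [g1] at b2
      rw [g4] at b3
      rw [g2] at b4
      constructor
      · rintro ⟨c1, c2, c3, c4⟩
        refine ⟨?_, ?_, ?_, ?_⟩
        · rintro rfl
          exact c4 g3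
        · rintro rfl
          exact c3 g1
        · rintro rfl
          exact c1 g4
        · rintro rfl
          exact c2 g2
      · rintro ⟨c1, c2, c3, c4⟩
        exact ⟨fun c => c3 (b3 c), fun c => c4 (b4 c), fun c => c2 (b2 c), fun c => c1 (b1 c)⟩
    · have b1 : M.rev z = e → z = M.rev e := fun c => by rw [← c, h.ok.rr z hz]
      have b2 : M.rev z = M.rev e → z = e := h.ok.ri hz he.1
      have b3 : M.rev z = a → z = b := fun c => by rw [h1, ← c, h.ok.rr z hz]
      have b4 : M.rev z = b → z = a := fun c => by rw [← h2, ← c, h.ok.rr z hz]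
      constructor
      · rintro ⟨c1, c2, c3, c4⟩
        refine ⟨?_, ?_, ?_, ?_⟩
        · rintro rfl
          exact c2 rfl
        · rintro rfl
          exact c1 (h.ok.rr e he.1)
        · rintro rfl
          exact c4 h1.symm
        · rintro rfl
          exact c3 h2
      · rintro ⟨c1, c2, c3, c4⟩
        exact ⟨fun c => c2 (b1 c), fun c => c1 (b2 c), fun c => c4 (b3 c), fun c => c3 (b4 c)⟩
  · obtain ⟨K1, p1, p2, p3⟩ := (h.lr i).reor h.ok (h.hx i) hi
    have hj' : M.rev b = x j ∨ M.rev b = M.rev (x j) := by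
      rcases hj with rfl | rfl
      · exact Or.inr rfl
      · exact Or.inl (h.ok.rr _ (h.xA j))
    obtain ⟨K2, q1, q2, q3⟩ := (h.lr j).reor h.ok (h.hx j) hj'
    have hA : Ann M K1 K2 e a b := ⟨h.ok, p2, q2, p1, q1, he.1, haA, hbA, f1, f2, f3, f4,
      fun h1 => hij (h.vv ((h.cv hi).trans (h1.trans (h.cv hj).symm)))⟩
    exact h.neq i j hij (p3.trans (hA.eqc.trans q3.symm))

open Classical in
/-- the next dart that is not on a curve -/
noncomputable def nx (M : Sf D) (x : ι → D) (z : D) : D :=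
  if C M x (M.fc z) then M.fc (M.fc z) else M.fc z

lemma nx_spec (h : Dis g M B x) {ψ : D → ℕ} (hψ : ∀ d ∈ M.A, ψ (M.fc d) = ψ d) {z : D}
    (hz : N M x z) (hv : ψ z ≠ ψ M.o) : N M x (nx M x z) ∧ ψ (nx M x z) = ψ z := by
  have h1 := h.ok.fm z hz.1
  have h2 := hψ z hz.1
  unfold nx
  split_ifs with h3
  · have h4 := hψ _ h1
    exact ⟨⟨h.ok.fm _ h1, (h.fN h3).2, (h.fN h3).1⟩, h4.trans h2⟩
  · refine ⟨⟨h1, fun h4 => hv ?_, h3⟩, h2⟩
    rw [← h2, h4]

lemma nx_ne (h : Dis g M B x) {z : D} (hz : N M x z) : nx M x z ≠ z := by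
  intro h1
  have h2 := h.nr hz
  have h3 := (h2 (fun d => d = z ∨ d = M.fc z) fun d hd => ?_).1 (Or.inl rfl)
  · rcases h3 with h3 | h3
    · exact h.nrn hz h3
    · unfold nx at h1
      split_ifs at h1 with h4
      · rw [← h3] at h4
        exact (h.nrev hz).2.2 h4
      · exact h.nrn hz (h3.trans h1)
  · have b1 := h.ok.fi d hd z hz.1
    have b2 := h.ok.fi d hd (M.fc z) (h.ok.fm z hz.1)
    unfold nx at h1
    split_ifs at h1 with h4
    · constructor
      · rintro (c | c)
        · exact Or.inr (b2 (c.trans h1.symm))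
        · exact Or.inl (b1 c)
      · rintro (rfl | rfl)
        · exact Or.inr rfl
        · exact Or.inl h1
    · constructor
      · rintro (c | c)
        · exact Or.inl (b1 (c.trans h1.symm))
        · exact Or.inl (b1 c)
      · rintro (rfl | rfl)
        · exact Or.inl h1
        · left
          rw [h1, h1]

variable [DecidableEq D]

/-- a face with no leg has at least four darts that are not on the curves -/
lemma four (h : Dis g M B x) {ψ : D → ℕ} (hψ : ∀ d ∈ M.A, ψ (M.fc d) = ψ d) {d : D}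
    (hd : d ∈ M.A) (hv : ψ d ≠ ψ M.o) :
    ∃ S : Finset D, S.card = 4 ∧ ∀ z ∈ S, N M x z ∧ ψ z = ψ d := by
  classical
  -- a dart that is not on a curve
  obtain ⟨e, he, he2⟩ : ∃ e, N M x e ∧ ψ e = ψ d := by
    by_cases h1 : C M x d
    · exact ⟨M.fc d, ⟨h.ok.fm d hd, (h.fN h1).2, (h.fN h1).1⟩, hψ d hd⟩
    · exact ⟨d, ⟨hd, fun h2 => hv (by rw [h2]), h1⟩, rfl⟩
  have hr := h.nrev he
  have hr2 : ψ (M.rev e) = ψ d := by rw [← he2, ← (h.nr he).val hψ]
  have key : ∀ z, N M x z → ψ z = ψ d → z ≠ e → z ≠ M.rev e →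
      ∃ S : Finset D, S.card = 4 ∧ ∀ z ∈ S, N M x z ∧ ψ z = ψ d := by
    intro z hz hz2 hz3 hz4
    have h5 : ψ (M.rev z) = ψ d := by rw [← hz2, ← (h.nr hz).val hψ]
    refine ⟨{e, M.rev e, z, M.rev z}, ?_, ?_⟩
    · have n1 : e ∉ ({M.rev e, z, M.rev z} : Finset D) := by
        simp only [Finset.mem_insert, Finset.mem_singleton, not_or]
        refine ⟨(h.nrn he).symm, hz3.symm, fun h6 => hz4 ?_⟩
        rw [h6, h.ok.rr z hz.1]
      have n2 : M.rev e ∉ ({z, M.rev z} : Finset D) := by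
        simp only [Finset.mem_insert, Finset.mem_singleton, not_or]
        exact ⟨hz4.symm, fun h6 => hz3 (h.ok.ri he.1 hz.1 h6).symm⟩
      have n3 : z ∉ ({M.rev z} : Finset D) := by
        simp only [Finset.mem_singleton]
        exact (h.nrn hz).symm
      rw [Finset.card_insert_of_notMem n1, Finset.card_insert_of_notMem n2,
        Finset.card_insert_of_notMem n3, Finset.card_singleton]
    · intro w hw
      simp only [Finset.mem_insert, Finset.mem_singleton] at hw
      rcases hw with rfl | rfl | rfl | rfl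
      · exact ⟨he, he2⟩
      · exact ⟨hr, hr2⟩
      · exact ⟨hz, hz2⟩
      · exact ⟨h.nrev hz, h5⟩
  have e1 := h.nx_spec hψ he (by rw [he2]; exact hv)
  have e2 := h.nx_spec hψ hr (by rw [hr2]; exact hv)
  by_cases c1 : nx M x e = M.rev e
  · by_cases c2 : nx M x (M.rev e) = e
    · exfalso
      unfold nx at c1 c2
      split_ifs at c1 c2 with a1 a2 a2
      · exact h.small he a1 a2 rfl c1 rfl c2
      · rw [h.ok.fcr he.1] at c2
        exact h.deg he c2
      · exact h.deg hr c1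
      · exact h.deg hr c1
    · exact key _ e2.1 (e2.2.trans hr2) c2 (h.nx_ne hr)
  · exact key _ e1.1 (e1.2.trans he2) (h.nx_ne he) c1

/-- the number of curves -/
theorem le [Fintype ι] (h : Dis g M B x) : Fintype.card ι ≤ 4 * g := by
  classical
  obtain ⟨a, b, ha, hb, hab⟩ := h.good.gen
  obtain ⟨X, hX⟩ : ∃ X, X = Finset.univ.image x := ⟨_, rfl⟩
  obtain ⟨X', hX'⟩ : ∃ X', X' = Finset.univ.image fun i => M.rev (x i) := ⟨_, rfl⟩
  obtain ⟨S, hS⟩ : ∃ S, S = M.A.filter fun z => N M x z := ⟨_, rfl⟩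
  have mX : ∀ z, z ∈ X ↔ ∃ i, x i = z := fun z => by rw [hX]; simp
  have mX' : ∀ z, z ∈ X' ↔ ∃ i, M.rev (x i) = z := fun z => by rw [hX']; simp
  have mS : ∀ z, z ∈ S ↔ N M x z := fun z => by
    rw [hS, Finset.mem_filter]
    exact ⟨fun h1 => h1.2, fun h1 => ⟨h1.1, h1⟩⟩
  have cX : X.card = Fintype.card ι := by
    rw [hX, Finset.card_image_of_injective, Finset.card_univ]
    intro i j hij
    have hij' : x i = x j := hij
    exact h.vv (by rw [hij']; exact Same.refl _)
  have cX' : X'.card = Fintype.card ι := by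
    rw [hX', Finset.card_image_of_injective, Finset.card_univ]
    intro i j hij
    have hij' : x i = x j := h.ok.ri (h.xA i) (h.xA j) hij
    exact h.vv (by rw [hij']; exact Same.refl _)
  have dXX : Disjoint X X' := by
    rw [Finset.disjoint_left]
    intro z hz hz'
    obtain ⟨i, rfl⟩ := (mX z).1 hz
    obtain ⟨j, hj⟩ := (mX' _).1 hz'
    have h1 := h.ch j
    rw [hj] at h1
    have h2 := h.vv h1
    subst h2
    exact h.ok.rn _ (h.xA i) (h.xo i) hj
  -- the decomposition of the darts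
  have hA : M.A = insert M.o ((X ∪ X') ∪ S) := by
    ext z
    rw [Finset.mem_insert, Finset.mem_union, Finset.mem_union, mX, mX', mS]
    constructor
    · intro hz
      by_cases h1 : z = M.o
      · exact Or.inl h1
      · right
        by_cases h2 : C M x z
        · left
          obtain ⟨i, h3 | h3⟩ := h2
          · exact Or.inl ⟨i, h3.symm⟩
          · exact Or.inr ⟨i, h3.symm⟩
        · exact Or.inr ⟨hz, h1, h2⟩
    · rintro (rfl | (⟨i, rfl⟩ | ⟨i, rfl⟩) | h1)
      · exact h.ok.ho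
      · exact h.xA i
      · exact h.ok.mrev _ (h.xA i)
      · exact h1.1
  have hXS : Disjoint (X ∪ X') S := by
    rw [Finset.disjoint_left]
    intro z hz hz'
    rw [Finset.mem_union, mX, mX'] at hz
    rcases hz with ⟨i, rfl⟩ | ⟨i, rfl⟩
    · exact ((mS _).1 hz').2.2 ⟨i, Or.inl rfl⟩
    · exact ((mS _).1 hz').2.2 ⟨i, Or.inr rfl⟩
  have hoS : M.o ∉ (X ∪ X') ∪ S := by
    rw [Finset.mem_union, Finset.mem_union, mX, mX', mS]
    rintro ((⟨i, h1⟩ | ⟨i, h1⟩) | h1)
    · exact h.co ⟨i, Or.inl h1.symm⟩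
    · exact h.co ⟨i, Or.inr h1.symm⟩
    · exact h1.2.1 rfl
  have hcard : M.A.card = 1 + 2 * Fintype.card ι + S.card := by
    conv_lhs => rw [hA]
    rw [Finset.card_insert_of_notMem hoS, Finset.card_union_of_disjoint hXS,
      Finset.card_union_of_disjoint dXX, cX, cX']
    ring
  -- the darts of the curves are followed by others
  have h1 : (X ∪ X').card ≤ S.card := by
    refine Finset.card_le_card_of_injOn M.fc (fun z hz => ?_) (fun z hz z' hz' hzz => ?_)
    · rw [Finset.mem_coe, Finset.mem_union, mX, mX'] at hz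
      have hC : C M x z := by
        rcases hz with ⟨i, rfl⟩ | ⟨i, rfl⟩
        · exact ⟨i, Or.inl rfl⟩
        · exact ⟨i, Or.inr rfl⟩
      exact Finset.mem_coe.2 ((mS _).2 ⟨h.ok.fm z (h.cA hC), (h.fN hC).2, (h.fN hC).1⟩)
    · have hm : ∀ z ∈ X ∪ X', z ∈ M.A := fun z hz => by
        rw [hA]
        exact Finset.mem_insert_of_mem (Finset.mem_union_left _ hz)
      exact h.ok.fi z (hm z hz) z' (hm z' hz') hzz
  rw [Finset.card_union_of_disjoint dXX, cX, cX'] at h1
  -- the vertices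
  have h2 : a ≤ (insert M.o X).card := by
    refine ha.le fun ψ hψ d hd => ?_
    rcases h.red.r2 d hd with h1 | ⟨i, y, hy, h1⟩
    · exact ⟨M.o, Finset.mem_insert_self _ _, (h1.val hψ).symm⟩
    · rw [h.hx] at hy
      have h4 : y = x i := by simpa using hy
      rw [h4] at h1
      exact ⟨x i, Finset.mem_insert_of_mem ((mX _).2 ⟨i, rfl⟩), (h1.val hψ).symm⟩
  have h2' := Finset.card_insert_le M.o X
  -- the faces
  have h3 : 4 * (b - 1) ≤ S.card := by
    obtain ⟨ψ, hψ, hb2⟩ := hb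
    obtain ⟨R, hR⟩ : ∃ R, R = (Finset.range b).erase (ψ M.o) := ⟨_, rfl⟩
    have h4 : b - 1 ≤ R.card := by
      rw [hR]
      have := Finset.pred_card_le_card_erase (s := Finset.range b) (a := ψ M.o)
      rwa [Finset.card_range] at this
    have h5 : ∀ v ∈ R, 4 ≤ (S.filter fun z => ψ z = v).card := by
      intro v hv
      rw [hR, Finset.mem_erase, Finset.mem_range] at hv
      obtain ⟨d, hd, hd2⟩ := hb2 v hv.2
      obtain ⟨T, hT1, hT2⟩ := h.four hψ hd (by rw [hd2]; exact hv.1)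
      rw [← hT1]
      refine Finset.card_le_card fun z hz => ?_
      rw [Finset.mem_filter, mS]
      exact ⟨(hT2 z hz).1, (hT2 z hz).2.trans hd2⟩
    have h6 : R.card * 4 ≤ ∑ v ∈ R, (S.filter fun z => ψ z = v).card :=
      Finset.card_nsmul_le_sum R _ 4 h5
    have h7 : ∑ v ∈ R, (S.filter fun z => ψ z = v).card ≤ S.card := by
      rw [← Finset.card_biUnion]
      · exact Finset.card_le_card (Finset.biUnion_subset.2 fun v _ => Finset.filter_subset _ _)
      · intro v _ v' _ hvv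
        rw [Function.onFun, Finset.disjoint_left]
        intro z hz hz'
        exact hvv ((Finset.mem_filter.1 hz).2.symm.trans (Finset.mem_filter.1 hz').2)
    omega
  omega

end Dis

variable [DecidableEq D]

/-- **At most `4 g` disjoint essential curves have different twists.** -/
theorem disj_bound {g : ℕ} [Fintype ι] {M : Sf D} {B : ι → Cv D} (h : Good g M B)
    (hd : ∀ i j, i ≠ j → ¬ Mt M B i j) (he : ∀ i, Ess M (B i))
    (hn : ∀ i j, i ≠ j → ¬ EqC M (B i) (B j)) : Fintype.card ι ≤ 4 * g := by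
  obtain ⟨M', B', h1, h2, h3, ⟨L⟩⟩ := h.reduce'
  have h4 : ∀ i, ∃ x, (B' i).c = [x] := by
    intro i
    obtain ⟨x, hx⟩ := List.exists_mem_of_ne_nil _ (h1.lr i).ne
    rcases h2.r3 i x hx with h5 | ⟨j, hj, y, hy, h5⟩
    · exact ⟨x, h5⟩
    · exact absurd (h3 i j hj.symm ⟨x, hx, y, hy, h5⟩) (hd i j hj.symm)
  choose x hx using h4
  have h5 : Dis g M' B' x := ⟨h1, h2, fun i j hij hm => hd i j hij (h3 i j hij hm),
    fun i => L.ess (he i), fun i j hij hq => hn i j hij (L.eqc hq), hx⟩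
  exact h5.le

end Pool.Agent.V8H82.PF
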