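import Pool.Agent.V8H82.PF.Step

/-!
# Flat connections on rooted maps
-/

set_option autoImplicit false
set_option linter.unusedVariables false
set_option linter.unusedSectionVars false

namespace Pool.Agent.V8H82.PF

open Finset

/-- the data of a rooted map: the darts, the clockwise rotation around the initial vertices, the
reversal, and the leg -/
structure Sf (D : Type) where
  A : Finset D
  cw : D → D
  rev : D → D
  o : D

variable {D : Type}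

/-- the next dart along the face on the left -/
def Sf.fc (M : Sf D) (d : D) : D := M.cw (M.rev d)

/-- the axioms of a rooted map -/
structure Sf.Ok (M : Sf D) : Prop where
  ho : M.o ∈ M.A
  hm : ∀ d ∈ M.A, M.cw d ∈ M.A
  hi : ∀ d ∈ M.A, ∀ d' ∈ M.A, M.cw d = M.cw d' → d = d'
  mrev : ∀ d ∈ M.A, M.rev d ∈ M.A
  rr : ∀ d ∈ M.A, M.rev (M.rev d) = d
  ro : M.rev M.o = M.o
  rn : ∀ d ∈ M.A, d ≠ M.o → M.rev d ≠ d
  conn : ∀ P : D → Prop, (∀ d ∈ M.A, P (M.cw d) ↔ P d) → (∀ d ∈ M.A, P (M.rev d) ↔ P d) →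
    P M.o → ∀ d ∈ M.A, P d

namespace Sf

variable {M : Sf D} {G H : Type} [Group G] [Group H]

lemma Ok.fm (h : M.Ok) : ∀ d ∈ M.A, M.fc d ∈ M.A := fun d hd => h.hm _ (h.mrev _ hd)

lemma Ok.ri (h : M.Ok) {d d' : D} (hd : d ∈ M.A) (hd' : d' ∈ M.A) (h1 : M.rev d = M.rev d') :
    d = d' := by
  rw [← h.rr d hd, h1, h.rr d' hd']

lemma Ok.fi (h : M.Ok) : ∀ d ∈ M.A, ∀ d' ∈ M.A, M.fc d = M.fc d' → d = d' :=
  fun d hd d' hd' h1 => h.ri hd hd' (h.hi _ (h.mrev _ hd) _ (h.mrev _ hd') h1)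

lemma Ok.fo (h : M.Ok) : M.fc M.o = M.cw M.o := by
  unfold fc
  rw [h.ro]

lemma Ok.rev_ne_o (h : M.Ok) {d : D} (hd : d ∈ M.A) (hdo : d ≠ M.o) : M.rev d ≠ M.o := by
  intro h1
  apply hdo
  rw [← h.rr d hd, h1, h.ro]

lemma Ok.fcr (h : M.Ok) {d : D} (hd : d ∈ M.A) : M.fc (M.rev d) = M.cw d := by
  unfold fc
  rw [h.rr d hd]

/-- connectedness in terms of the faces -/
lemma Ok.conn' (h : M.Ok) (P : D → Prop) (h1 : ∀ d ∈ M.A, P (M.fc d) ↔ P d)
    (h2 : ∀ d ∈ M.A, P (M.rev d) ↔ P d) (h3 : P M.o) : ∀ d ∈ M.A, P d := by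
  refine h.conn P (fun d hd => ?_) h2 h3
  rw [← h.fcr hd, h1 _ (h.mrev _ hd), h2 d hd]

/-- the parallel transport along a dart -/
def hh (M : Sf D) (s : D → G) (d : D) : G := (s d)⁻¹ * s (M.cw (M.rev d))

/-- flat connections -/
def Fl (M : Sf D) (s : D → G) : Prop :=
  ∀ d ∈ M.A, d ≠ M.o → M.hh s (M.rev d) = (M.hh s d)⁻¹

/-- equivalence of connections; `x` is the change of the frame at the base point -/
def Eqv (M : Sf D) (x : G) (s1 s2 : D → G) : Prop :=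
  ∃ φ γ : D → G, (∀ d ∈ M.A, φ (M.fc d) = φ d) ∧ (∀ d ∈ M.A, γ (M.cw d) = γ d) ∧ γ M.o = x ∧
    ∀ d ∈ M.A, s2 d = φ d * s1 d * (γ d)⁻¹

/-- the transport along the boundary -/
def zz (M : Sf D) (s : D → G) : G := (s (M.cw M.o))⁻¹ * s M.o

lemma Eqv.refl (s : D → G) : M.Eqv 1 s s :=
  ⟨fun _ => 1, fun _ => 1, fun _ _ => rfl, fun _ _ => rfl, rfl, fun d _ => by group⟩

lemma Eqv.of_eq {s1 s2 : D → G} (h : ∀ d ∈ M.A, s2 d = s1 d) : M.Eqv 1 s1 s2 :=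
  ⟨fun _ => 1, fun _ => 1, fun _ _ => rfl, fun _ _ => rfl, rfl, fun d hd => by rw [h d hd]; group⟩

lemma Eqv.trans {x y : G} {s1 s2 s3 : D → G} (h : M.Eqv x s1 s2) (h' : M.Eqv y s2 s3) :
    M.Eqv (y * x) s1 s3 := by
  obtain ⟨φ, γ, h1, h2, h3, h4⟩ := h
  obtain ⟨φ', γ', h1', h2', h3', h4'⟩ := h'
  refine ⟨fun d => φ' d * φ d, fun d => γ' d * γ d, fun d hd => ?_, fun d hd => ?_, ?_,
    fun d hd => ?_⟩
  · simp only [h1 d hd, h1' d hd]
  · simp only [h2 d hd, h2' d hd]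
  · simp only [h3, h3']
  · rw [h4' d hd, h4 d hd]
    group

lemma Eqv.symm {x : G} {s1 s2 : D → G} (h : M.Eqv x s1 s2) : M.Eqv x⁻¹ s2 s1 := by
  obtain ⟨φ, γ, h1, h2, h3, h4⟩ := h
  refine ⟨fun d => (φ d)⁻¹, fun d => (γ d)⁻¹, fun d hd => ?_, fun d hd => ?_, ?_, fun d hd => ?_⟩
  · simp only [h1 d hd]
  · simp only [h2 d hd]
  · simp only [h3]
  · rw [h4 d hd]
    group

lemma Eqv.trans1 {x : G} {s1 s2 s3 : D → G} (h : M.Eqv x s1 s2) (h' : M.Eqv 1 s2 s3) :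
    M.Eqv x s1 s3 := by
  have := h.trans h'
  rwa [one_mul] at this

lemma Eqv.trans2 {x : G} {s1 s2 s3 : D → G} (h : M.Eqv 1 s1 s2) (h' : M.Eqv x s2 s3) :
    M.Eqv x s1 s3 := by
  have := h.trans h'
  rwa [mul_one] at this

lemma Eqv.symm1 {s1 s2 : D → G} (h : M.Eqv 1 s1 s2) : M.Eqv 1 s2 s1 := by
  have := h.symm
  rwa [inv_one] at this

lemma Eqv.map {x : G} {s1 s2 : D → G} (h : M.Eqv x s1 s2) (θ : G →* H) :
    M.Eqv (θ x) (fun d => θ (s1 d)) (fun d => θ (s2 d)) := by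
  obtain ⟨φ, γ, h1, h2, h3, h4⟩ := h
  refine ⟨fun d => θ (φ d), fun d => θ (γ d), fun d hd => ?_, fun d hd => ?_, ?_, fun d hd => ?_⟩
  · simp only [h1 d hd]
  · simp only [h2 d hd]
  · simp only [h3]
  · simp only [h4 d hd, map_mul, map_inv]

lemma hh_map (θ : G →* H) (s : D → G) (d : D) : M.hh (fun d => θ (s d)) d = θ (M.hh s d) := by
  unfold hh
  rw [map_mul, map_inv]

lemma Fl.map {s : D → G} (h : M.Fl s) (θ : G →* H) : M.Fl (fun d => θ (s d)) := by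
  intro d hd hdo
  rw [hh_map, hh_map, h d hd hdo, map_inv]

lemma zz_map (θ : G →* H) (s : D → G) : M.zz (fun d => θ (s d)) = θ (M.zz s) := by
  unfold zz
  rw [map_mul, map_inv]

/-- the transport after a change of frames -/
lemma hh_gauge (hM : M.Ok) {s1 s2 φ γ : D → G} (h1 : ∀ d ∈ M.A, φ (M.fc d) = φ d)
    (h2 : ∀ d ∈ M.A, γ (M.cw d) = γ d) (h4 : ∀ d ∈ M.A, s2 d = φ d * s1 d * (γ d)⁻¹) {d : D}
    (hd : d ∈ M.A) : M.hh s2 d = γ d * M.hh s1 d * (γ (M.rev d))⁻¹ := by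
  unfold hh
  have a1 := hM.fm d hd
  have a2 := h1 d hd
  have a3 := h2 _ (hM.mrev d hd)
  unfold fc at a1 a2
  rw [h4 d hd, h4 _ a1, a2, a3]
  group

lemma Eqv.fl {x : G} {s1 s2 : D → G} (hM : M.Ok) (h : M.Eqv x s1 s2) (hF : M.Fl s1) :
    M.Fl s2 := by
  obtain ⟨φ, γ, h1, h2, h3, h4⟩ := h
  intro d hd hdo
  rw [hh_gauge hM h1 h2 h4 hd, hh_gauge hM h1 h2 h4 (hM.mrev _ hd), hF d hd hdo, hM.rr d hd]
  group

lemma Eqv.zz {x : G} {s1 s2 : D → G} (hM : M.Ok) (h : M.Eqv x s1 s2) :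
    M.zz s2 = x * M.zz s1 * x⁻¹ := by
  obtain ⟨φ, γ, h1, h2, h3, h4⟩ := h
  have a1 := h1 _ hM.ho
  rw [hM.fo] at a1
  unfold Sf.zz
  rw [h4 _ hM.ho, h4 _ (hM.hm _ hM.ho), a1, h2 _ hM.ho, h3]
  group

/-- a function that is constant along a permutation except at one step is constant -/
lemma inv_fix_val {A : Finset D} {f : D → D} (hm : ∀ d ∈ A, f d ∈ A)
    (hi : ∀ d ∈ A, ∀ d' ∈ A, f d = f d' → d = d') {T : Type*} (φ : D → T) {e : D} (he : e ∈ A)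
    (hQ : ∀ d ∈ A, d ≠ e → φ (f d) = φ d) : φ (f e) = φ e := by
  have := inv_fix hm hi (fun d => φ d = φ e) he (fun d hd hde => by rw [hQ d hd hde])
  exact this.2 rfl

/-- connections with the same transports are equivalent -/
lemma Eqv.of_hh (hM : M.Ok) {s1 s2 γ : D → G} (h2 : ∀ d ∈ M.A, γ (M.cw d) = γ d)
    (h : ∀ d ∈ M.A, d ≠ M.o → M.hh s2 d = γ d * M.hh s1 d * (γ (M.rev d))⁻¹) :
    M.Eqv (γ M.o) s1 s2 := by
  have key : ∀ d ∈ M.A, d ≠ M.o → s2 (M.fc d) * γ (M.fc d) * (s1 (M.fc d))⁻¹ =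
      s2 d * γ d * (s1 d)⁻¹ := by
    intro d hd hdo
    have a1 := h d hd hdo
    have a3 := h2 _ (hM.mrev d hd)
    unfold hh at a1
    unfold fc
    rw [a3]
    have a2 : s2 (M.cw (M.rev d)) = s2 d * (γ d * ((s1 d)⁻¹ * s1 (M.cw (M.rev d))) *
        (γ (M.rev d))⁻¹) := by
      rw [← a1]
      group
    rw [a2]
    group
  refine ⟨fun d => s2 d * γ d * (s1 d)⁻¹, γ, fun d hd => ?_, h2, rfl, fun d hd => by group⟩
  by_cases hdo : d = M.o
  · rw [hdo]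
    exact inv_fix_val hM.fm hM.fi (fun d => s2 d * γ d * (s1 d)⁻¹) hM.ho key
  · exact key d hd hdo

variable [DecidableEq D]

/-! ### Deletion of an edge -/

/-- the map without the edge `e` -/
def del (M : Sf D) (e : D) : Sf D where
  A := rm M.A e (M.rev e)
  cw := sk M.cw e (M.rev e)
  rev := M.rev
  o := M.o

/-- the map with the edge `e` contracted -/
def con (M : Sf D) (e : D) : Sf D where
  A := rm M.A e (M.rev e)
  cw := mg M.cw e (M.rev e)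
  rev := M.rev
  o := M.o

/-- hypotheses of the deletion -/
structure DelH (M : Sf D) (e : D) : Prop where
  ok : M.Ok
  he : e ∈ M.A
  heo : e ≠ M.o
  dif : Diff M.A M.fc e (M.rev e)

/-- hypotheses of the contraction -/
structure ConH (M : Sf D) (e : D) : Prop where
  ok : M.Ok
  he : e ∈ M.A
  heo : e ≠ M.o
  dif : ∃ P : D → Prop, (∀ d ∈ M.A, P (M.cw d) ↔ P d) ∧ ¬ P e ∧ P (M.rev e) ∧ ¬ P M.o

/-- no isolated edge -/
lemma Ok.nd (h : M.Ok) {e : D} (he : e ∈ M.A) (heo : e ≠ M.o) :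
    ¬ (M.cw e = M.rev e ∧ M.cw (M.rev e) = e) := by
  rintro ⟨h1, h2⟩
  have he' := h.mrev e he
  have heo' := h.rev_ne_o he heo
  have := h.conn (fun d => d ≠ e ∧ d ≠ M.rev e) (fun d hd => ?_) (fun d hd => ?_)
    ⟨heo.symm, heo'.symm⟩ e he
  · exact this.1 rfl
  · have i1 := h.hi d hd e he
    have i2 := h.hi d hd _ he'
    grind
  · have i1 := h.rr d hd
    have i2 := h.rr e he
    grind

lemma Ok.nd2 (h : M.Ok) {e : D} (he : e ∈ M.A) (heo : e ≠ M.o) :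
    ¬ (M.fc e = M.rev e ∧ M.fc (M.rev e) = e) := by
  rintro ⟨h1, h2⟩
  have he' := h.mrev e he
  have heo' := h.rev_ne_o he heo
  rw [h.fcr he] at h2
  unfold fc at h1
  have := h.conn (fun d => d ≠ e ∧ d ≠ M.rev e) (fun d hd => ?_) (fun d hd => ?_)
    ⟨heo.symm, heo'.symm⟩ e he
  · exact this.1 rfl
  · have i1 := h.hi d hd e he
    have i2 := h.hi d hd _ he'
    grind
  · have i1 := h.rr d hd
    have i2 := h.rr e he
    grind

lemma DelH.st {e : D} (h : M.DelH e) : St M.A M.cw M.fc M.rev M.o e (M.rev e) where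
  ho := h.ok.ho
  hm := h.ok.hm
  hi := h.ok.hi
  mrev := h.ok.mrev
  rr := h.ok.rr
  ro := h.ok.ro
  hg _ _ := rfl
  he := h.he
  he' := rfl
  hne := (h.ok.rn e h.he h.heo).symm
  heo := h.heo
  dif := h.dif
  nd := h.ok.nd h.he h.heo

lemma ConH.st {e : D} (h : M.ConH e) : St M.A M.fc M.cw M.rev M.o e (M.rev e) where
  ho := h.ok.ho
  hm := h.ok.fm
  hi := h.ok.fi
  mrev := h.ok.mrev
  rr := h.ok.rr
  ro := h.ok.ro
  hg d hd := (h.ok.fcr hd).symm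
  he := h.he
  he' := rfl
  hne := (h.ok.rn e h.he h.heo).symm
  heo := h.heo
  dif := by
    obtain ⟨P, h1, h2, h3, h4⟩ := h.dif
    exact ⟨P, h1, h2, h3⟩
  nd := h.ok.nd2 h.he h.heo

lemma DelH.fc_eq {e : D} (h : M.DelH e) {d : D} (hd : d ∈ (M.del e).A) :
    (M.del e).fc d = mg M.fc e (M.rev e) d := (h.st.hg' d hd).symm

lemma ConH.fc_eq {e : D} (h : M.ConH e) {d : D} (hd : d ∈ (M.con e).A) :
    (M.con e).fc d = sk M.fc e (M.rev e) d := (h.st.fg' d hd).symm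

lemma DelH.ok' {e : D} (h : M.DelH e) : (M.del e).Ok where
  ho := h.st.mo
  hm := sk_mem h.ok.hm h.ok.hi h.he h.st.me' h.st.hne
  hi := sk_inj h.ok.hi h.he h.st.me' h.st.hne
  mrev := h.st.mrev'
  rr d hd := h.ok.rr d (mem_rm.1 hd).1
  ro := h.ok.ro
  rn d hd hdo := h.ok.rn d (mem_rm.1 hd).1 hdo
  conn P h1 h2 h3 d hd := by
    have s := h.st
    obtain ⟨Q, hQ⟩ : ∃ Q, Q = ex2 M.fc e (M.rev e) P := ⟨_, rfl⟩
    have k1 : ∀ d ∈ rm M.A e (M.rev e), P (mg M.fc e (M.rev e) d) = P d := by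
      intro d hd
      have e1 := h.fc_eq hd
      have e2 := h1 (M.rev d) (s.mrev' d hd)
      have e3 := h2 d hd
      rw [← e1]
      exact propext (e2.trans e3)
    have k2 := ex2_val s.gm s.gi h.he s.me' h.dif s.nd' k1
    rw [← hQ] at k2
    have k3 : ∀ x ∈ rm M.A e (M.rev e), Q x = P x := fun x hx => by
      rw [hQ, ex2_of (mem_rm.1 hx).2.1 (mem_rm.1 hx).2.2]
    have k4 : Q e = Q (M.rev e) := by
      rw [hQ]
      unfold ex2
      simp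
    have k5 : ∀ d ∈ M.A, Q (M.rev d) ↔ Q d := by
      intro x hx
      by_cases x1 : x = e
      · rw [x1, k4]
      · by_cases x2 : x = M.rev e
        · rw [x2, h.ok.rr e h.he, k4]
        · have x3 : x ∈ rm M.A e (M.rev e) := mem_rm.2 ⟨hx, x1, x2⟩
          rw [k3 x x3, k3 _ (s.mrev' x x3)]
          exact h2 x x3
    have k6 := h.ok.conn' Q (fun d hd => by rw [k2 d hd]) k5 (by rw [k3 _ s.mo]; exact h3)
    have := k6 d (mem_rm.1 hd).1
    rwa [k3 d hd] at this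

lemma ConH.ok' {e : D} (h : M.ConH e) : (M.con e).Ok where
  ho := h.st.mo
  hm := mg_mem h.ok.hm h.ok.hi h.he h.st.me' h.st.dif
  hi := mg_inj h.ok.hi h.he h.st.me' h.st.dif
  mrev := h.st.mrev'
  rr d hd := h.ok.rr d (mem_rm.1 hd).1
  ro := h.ok.ro
  rn d hd hdo := h.ok.rn d (mem_rm.1 hd).1 hdo
  conn P h1 h2 h3 d hd := by
    have s := h.st
    obtain ⟨Q, hQ⟩ : ∃ Q, Q = ex2 M.cw e (M.rev e) P := ⟨_, rfl⟩
    have k2 := ex2_val s.gm s.gi h.he s.me' s.dif s.nd' (fun d hd => propext (h1 d hd))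
    rw [← hQ] at k2
    have k3 : ∀ x ∈ rm M.A e (M.rev e), Q x = P x := fun x hx => by
      rw [hQ, ex2_of (mem_rm.1 hx).2.1 (mem_rm.1 hx).2.2]
    have k4 : Q e = Q (M.rev e) := by
      rw [hQ]
      unfold ex2
      simp
    have k5 : ∀ d ∈ M.A, Q (M.rev d) ↔ Q d := by
      intro x hx
      by_cases x1 : x = e
      · rw [x1, k4]
      · by_cases x2 : x = M.rev e
        · rw [x2, h.ok.rr e h.he, k4]
        · have x3 : x ∈ rm M.A e (M.rev e) := mem_rm.2 ⟨hx, x1, x2⟩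
          rw [k3 x x3, k3 _ (s.mrev' x x3)]
          exact h2 x x3
    have k6 := h.ok.conn Q (fun d hd => by rw [k2 d hd]) k5 (by rw [k3 _ s.mo]; exact h3)
    have := k6 d (mem_rm.1 hd).1
    rwa [k3 d hd] at this

end Sf

end Pool.Agent.V8H82.PF
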