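import Pool.Agent.V8H82.PF.Orb
import Pool.Agent.N513.PF.Stab

/-!
# Maps with one vertex and one face: the free group, the boundary word, the universal connection
-/

set_option autoImplicit false
set_option linter.unusedVariables false
set_option linter.unusedSectionVars false

namespace Pool.Agent.V8H82.PF

open Finset List Pool.Agent.N513.PF

variable {D : Type}

/-- the universal connection -/
structure Univ (M : Sf D) (F : Type) [Group F] (u : D → F) : Prop where
  fl : M.Fl u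
  ex : ∀ (G : Type) [Group G] (s : D → G), M.Fl s →
    ∃ φ : F →* G, M.Eqv 1 (fun d => φ (u d)) s
  un : ∀ (G : Type) [Group G] (x : G) (φ1 φ2 : F →* G),
    M.Eqv x (fun d => φ1 (u d)) (fun d => φ2 (u d)) → ∀ a, φ2 a = x * φ1 a * x⁻¹

/-- the universal connection along a link -/
lemma Lk.univ {ι : Type} {M M' : Sf D} {B B' : ι → Cv D} (h : Lk M B M' B') {F : Type} [Group F]
    {u' : D → F} (hu : Univ M' F u') : ∃ u : D → F, h.E F u u' ∧ Univ M F u := by
  obtain ⟨u, h1⟩ := h.up F u' hu.fl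
  refine ⟨u, h1, (h.fl F _ _ h1).1, fun G _ s hs => ?_, fun G _ x φ1 φ2 he => ?_⟩
  · obtain ⟨s', h2⟩ := h.dn G s hs
    obtain ⟨φ, h3⟩ := hu.ex G s' (h.fl G _ _ h2).2
    exact ⟨φ, (h.eq G 1 _ _ _ _ (h.map F G φ _ _ h1) h2).2 h3⟩
  · exact hu.un G x φ1 φ2 ((h.eq G x _ _ _ _ (h.map F G φ1 _ _ h1) (h.map F G φ2 _ _ h1)).1 he)

/-- the generators: the darts that come before their reverse -/
def Gn (M : Sf D) : Type := {d : D // d ∈ M.A ∧ d ≠ M.o ∧ ps M.cw M.o d < ps M.cw M.o (M.rev d)}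

noncomputable instance (M : Sf D) : DecidableEq (Gn M) := Classical.decEq _

noncomputable instance (M : Sf D) : Fintype (Gn M) :=
  @Fintype.ofInjective _ {d // d ∈ M.A} _ (fun d : Gn M => ⟨d.1, d.2.1⟩) (fun a b h => by
    have : a.1 = b.1 := congrArg (fun z : {d // d ∈ M.A} => z.1) h
    exact Subtype.ext this)

/-- the dart of a letter -/
def dr (M : Sf D) (l : Gn M × Bool) : D := if l.2 then l.1.1 else M.rev l.1.1

/-- the arrangement of the letters -/
noncomputable def ppos (M : Sf D) (l : Gn M × Bool) : ℕ := ps M.cw M.o (dr M l)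

namespace Uni

variable {M : Sf D}

lemma rc (h : Uni M) {d : D} (hd : d ∈ M.A) : ∃ k, M.cw^[k] M.o = d :=
  reach h.ok.hm h.ok.hi h.ok.ho (h.v d hd)

lemma rf (h : Uni M) {d : D} (hd : d ∈ M.A) : ∃ k, M.fc^[k] d = M.o :=
  reach h.ok.fm h.ok.fi hd (h.f d hd).symm

lemma psi (h : Uni M) {d d' : D} (hd : d ∈ M.A) (hd' : d' ∈ M.A)
    (he : ps M.cw M.o d = ps M.cw M.o d') : d = d' := ps_inj (h.rc hd) (h.rc hd') he

lemma dr_mem (h : Uni M) (l : Gn M × Bool) : dr M l ∈ M.A ∧ dr M l ≠ M.o := by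
  unfold dr
  split_ifs with h1
  · exact ⟨l.1.2.1, l.1.2.2.1⟩
  · exact ⟨h.ok.mrev _ l.1.2.1, h.ok.rev_ne_o l.1.2.1 l.1.2.2.1⟩

lemma dr_iv (h : Uni M) (l : Gn M × Bool) : dr M (iv l) = M.rev (dr M l) := by
  obtain ⟨⟨d, hd⟩, b⟩ := l
  unfold dr iv
  cases b
  · simp [h.ok.rr d hd.1]
  · simp

lemma dr_inj (h : Uni M) : Function.Injective (dr M) := by
  rintro ⟨⟨d, hd⟩, b⟩ ⟨⟨d', hd'⟩, b'⟩ he
  unfold dr at he
  cases b <;> cases b' <;> simp only [if_true, if_false, Bool.false_eq_true] at he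
  · have := h.ok.ri hd.1 hd'.1 he
    subst this
    rfl
  · exfalso
    have h1 := hd.2.2
    have h2 := hd'.2.2
    rw [← he, h.ok.rr d hd.1] at h2
    omega
  · exfalso
    have h1 := hd.2.2
    have h2 := hd'.2.2
    rw [he, h.ok.rr d' hd'.1] at h1
    omega
  · subst he
    rfl

lemma ex_l (h : Uni M) {d : D} (hd : d ∈ M.A) (hdo : d ≠ M.o) : ∃ l : Gn M × Bool, dr M l = d := by
  rcases Nat.lt_trichotomy (ps M.cw M.o d) (ps M.cw M.o (M.rev d)) with h1 | h1 | h1
  · exact ⟨(⟨d, hd, hdo, h1⟩, true), by simp [dr]⟩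
  · exact absurd (h.psi hd (h.ok.mrev d hd) h1).symm (h.ok.rn d hd hdo)
  · refine ⟨(⟨M.rev d, h.ok.mrev d hd, h.ok.rev_ne_o hd hdo, ?_⟩, false), ?_⟩
    · rw [h.ok.rr d hd]
      exact h1
    · simp [dr, h.ok.rr d hd]

end Uni

open Classical in
/-- the letter of a dart -/
noncomputable def ltr (M : Sf D) (d : D) : List (Gn M × Bool) :=
  if h : ∃ l : Gn M × Bool, dr M l = d then [h.choose] else []

lemma Uni.ltr_eq {M : Sf D} (h : Uni M) (l : Gn M × Bool) : ltr M (dr M l) = [l] := by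
  unfold ltr
  rw [dif_pos ⟨l, rfl⟩]
  have := Exists.choose_spec (⟨l, rfl⟩ : ∃ l' : Gn M × Bool, dr M l' = dr M l)
  rw [h.dr_inj this]

/-- the letters along the face, until the leg -/
noncomputable def wl (M : Sf D) (z : D) : List (Gn M × Bool) :=
  (List.range (ds M.fc M.o z)).flatMap fun i => ltr M (M.fc^[i] z)

namespace Uni

variable {M : Sf D}

lemma wl_o (h : Uni M) : wl M M.o = [] := by
  unfold wl
  rw [ds_self]
  rfl

lemma wl_cons (h : Uni M) (l : Gn M × Bool) : wl M (dr M l) = l :: wl M (M.fc (dr M l)) := by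
  obtain ⟨h1, h2⟩ := h.dr_mem l
  unfold wl
  rw [ds_step (h.rf h1) h2, List.range_succ_eq_map, List.flatMap_cons, List.flatMap_map]
  simp only [Function.iterate_zero, id_eq]
  rw [h.ltr_eq]
  rfl

/-- the last dart -/
lemma last (h : Uni M) : ∃ z ∈ M.A, M.cw z = M.o := surj h.ok.hm h.ok.hi h.ok.ho

end Uni

/-- the number of darts -/
noncomputable def nm (M : Sf D) : ℕ :=
  open Classical in if h : ∃ z ∈ M.A, M.cw z = M.o then ps M.cw M.o h.choose + 1 else 0

namespace Uni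

variable {M : Sf D}

lemma nm_eq (h : Uni M) {z : D} (hz : z ∈ M.A) (hzo : M.cw z = M.o) :
    nm M = ps M.cw M.o z + 1 := by
  unfold nm
  rw [dif_pos h.last]
  obtain ⟨h1, h2⟩ := h.last.choose_spec
  rw [h.ok.hi _ h1 z hz (h2.trans hzo.symm)]

lemma ps_lt (h : Uni M) {d : D} (hd : d ∈ M.A) : ps M.cw M.o d < nm M := by
  obtain ⟨z, h1, h2⟩ := h.last
  rw [h.nm_eq h1 h2]
  have := ps_last h.ok.hm (h.rc h1) h2 (h.rc hd)
  omega

lemma arr (h : Uni M) : Arr (nm M) (ppos M) where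
  inj l l' he := h.dr_inj (h.psi (h.dr_mem l).1 (h.dr_mem l').1 he)
  lo l := ps_pos (h.rc (h.dr_mem l).1) (h.dr_mem l).2
  hi l := h.ps_lt (h.dr_mem l).1
  n0 := by
    have := h.ps_lt h.ok.ho
    omega

/-- the boundary word -/
lemma bd_aux (h : Uni M) : ∀ (k : ℕ) (z : D), z ∈ M.A → ds M.fc M.o (M.fc z) = k →
    Bd (nm M) (ppos M) (ps M.cw M.o (M.rev z)) (wl M (M.fc z)) := by
  intro k
  induction k with
  | zero =>
    intro z hz hk
    have h1 := h.ok.fm z hz
    by_cases h2 : M.fc z = M.o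
    · rw [h2, h.wl_o]
      show ps M.cw M.o (M.rev z) + 1 = nm M
      exact (h.nm_eq (h.ok.mrev z hz) h2).symm
    · have := ds_step (h.rf h1) h2
      omega
  | succ k ih =>
    intro z hz hk
    have h1 := h.ok.fm z hz
    by_cases h2 : M.fc z = M.o
    · rw [h2, ds_self] at hk
      omega
    · obtain ⟨l, hl⟩ := h.ex_l h1 h2
      have h3 := ds_step (h.rf h1) h2
      have h4 := ih (M.fc z) h1 (by omega)
      rw [← hl, h.wl_cons, hl]
      refine ⟨?_, ?_⟩
      · show ps M.cw M.o (dr M l) = _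
        rw [hl]
        exact ps_step h.ok.hm h.ok.hi h.ok.ho (h.ok.mrev z hz) (h.rc (h.ok.mrev z hz)) h2
      · show Bd (nm M) (ppos M) (ps M.cw M.o (dr M (iv l))) _
        rw [h.dr_iv, hl]
        exact h4

/-- the boundary word -/
lemma bd (h : Uni M) : Bd (nm M) (ppos M) 0 (wl M (M.fc M.o)) := by
  have := h.bd_aux _ M.o h.ok.ho rfl
  rwa [h.ok.ro, ps_self] at this

/-- the boundary word has all the letters -/
lemma all (h : Uni M) (l : Gn M × Bool) : l ∈ wl M (M.fc M.o) := by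
  have key : ∀ d ∈ M.A, d ≠ M.o → ∀ l : Gn M × Bool, dr M l = d → l ∈ wl M (M.fc M.o) := by
    by_contra hcon
    push Not at hcon
    -- the darts whose letter occurs
    have h1 := (h.f (dr M l) (h.dr_mem l).1)
    obtain ⟨d, hd, hdo, l0, hl0, hnot⟩ := hcon
    have claim : ∀ (k : ℕ) (z : D), z ∈ M.A → (∃ T, wl M (M.fc M.o) = T ++ wl M z) → 
        ∃ T, wl M (M.fc M.o) = T ++ wl M (M.fc^[k] z) ∨ ∃ j ≤ k, M.fc^[j] z = M.o := by
      intro k
      induction k with
      | zero =>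
        rintro z hz ⟨T, hT⟩
        exact ⟨T, Or.inl hT⟩
      | succ k ih =>
        rintro z hz ⟨T, hT⟩
        by_cases h2 : z = M.o
        · exact ⟨T, Or.inr ⟨0, Nat.zero_le _, h2⟩⟩
        · obtain ⟨l, hl⟩ := h.ex_l hz h2
          obtain ⟨T', hT'⟩ := ih (M.fc z) (h.ok.fm z hz) ⟨T ++ [l], by
            rw [hT, ← hl, h.wl_cons]
            simp⟩
          rcases hT' with h3 | ⟨j, hj, h3⟩
          · exact ⟨T', Or.inl h3⟩
          · exact ⟨T', Or.inr ⟨j + 1, by omega, h3⟩⟩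
    -- the first arrival at `d`
    obtain ⟨k, hk⟩ := reach h.ok.fm h.ok.fi (h.ok.fm _ h.ok.ho)
      ((Same.step h.ok.ho).symm.trans (h.f d hd))
    have hk' : ∃ k, M.fc^[k] (M.fc M.o) = d := ⟨k, hk⟩
    have hps := ps_spec hk'
    obtain ⟨T, hT⟩ := claim (ps M.fc (M.fc M.o) d) (M.fc M.o) (h.ok.fm _ h.ok.ho) ⟨[], rfl⟩
    rcases hT with h3 | ⟨j, hj, h3⟩
    · apply hnot
      rw [h3, hps, ← hl0, h.wl_cons]
      simp
    · -- then one arrives earlier
      have h4 : M.fc^[j + 1] (M.fc M.o) = M.fc M.o := by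
        rw [Function.iterate_succ_apply', h3]
      rcases Nat.lt_or_ge j (ps M.fc (M.fc M.o) d) with h5 | h5
      · have h6 : M.fc^[ps M.fc (M.fc M.o) d - (j + 1)] (M.fc M.o) = d := by
          have h7 : M.fc^[(ps M.fc (M.fc M.o) d - (j + 1)) + (j + 1)] (M.fc M.o) = d := by
            rw [Nat.sub_add_cancel h5]
            exact hps
          rw [Function.iterate_add_apply, h4] at h7
          exact h7
        have := ps_le h6
        omega
      · have h6 : j = ps M.fc (M.fc M.o) d := by omega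
        rw [h6, hps] at h3
        exact hdo h3
  exact key (dr M l) (h.dr_mem l).1 (h.dr_mem l).2 l rfl

/-- the universal connection -/
noncomputable def uu (M : Sf D) (z : D) : FreeGroup (Gn M) :=
  FreeGroup.mk (wl M (M.fc M.o)) * (FreeGroup.mk (wl M z))⁻¹

lemma hh_uu (h : Uni M) (l : Gn M × Bool) : M.hh (uu M) (dr M l) = Pool.Agent.N513.PF.G l := by
  have e1 : M.cw (M.rev (dr M l)) = M.fc (dr M l) := rfl
  unfold Sf.hh
  rw [e1]
  unfold uu
  rw [h.wl_cons l, Pool.Agent.N513.PF.mk_cons]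
  group

lemma fl_uu (h : Uni M) : M.Fl (uu M) := by
  intro d hd hdo
  obtain ⟨l, hl⟩ := h.ex_l hd hdo
  rw [← hl, h.hh_uu, ← h.dr_iv, h.hh_uu, G_inv]

lemma zz_uu (h : Uni M) : M.zz (uu M) = FreeGroup.mk (wl M (M.fc M.o)) := by
  unfold Sf.zz
  rw [← h.ok.fo]
  unfold uu
  rw [h.wl_o]
  have e : (FreeGroup.mk ([] : List (Gn M × Bool))) = 1 := rfl
  rw [e]
  group

lemma univ (h : Uni M) : Univ M (FreeGroup (Gn M)) (uu M) where
  fl := h.fl_uu
  ex G _ s hs := by
    refine ⟨FreeGroup.lift fun a => M.hh s a.1, ?_⟩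
    have := Sf.Eqv.of_hh h.ok (s1 := fun d => FreeGroup.lift (fun a : Gn M => M.hh s a.1) (uu M d))
      (s2 := s) (γ := fun _ => 1) (fun _ _ => rfl) (fun d hd hdo => ?_)
    · exact this
    · rw [Sf.hh_map]
      obtain ⟨l, hl⟩ := h.ex_l hd hdo
      rw [← hl, h.hh_uu]
      obtain ⟨a, b⟩ := l
      cases b
      · rw [Pool.Agent.N513.PF.G_false, map_inv, FreeGroup.lift_apply_of]
        have e : dr M (a, false) = M.rev a.1 := by simp [dr]
        rw [e, hs a.1 a.2.1 a.2.2.1]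
        group
      · rw [Pool.Agent.N513.PF.G_true, FreeGroup.lift_apply_of]
        have e : dr M (a, true) = a.1 := by simp [dr]
        rw [e]
        group
  un G _ x φ1 φ2 he := by
    obtain ⟨φ, γ, h1, h2, h3, h4⟩ := he
    have hγ : ∀ d ∈ M.A, γ d = x := fun d hd => by
      rw [← h3]
      exact ((h.v d hd).val h2).symm
    have key : φ2 = (MulAut.conj x).toMonoidHom.comp φ1 := by
      refine FreeGroup.ext_hom _ _ fun a => ?_
      have h5 := Sf.hh_gauge h.ok h1 h2 h4 a.2.1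
      rw [Sf.hh_map, Sf.hh_map, hγ _ a.2.1, hγ _ (h.ok.mrev _ a.2.1)] at h5
      have h6 := h.hh_uu (a, true)
      have e : dr M (a, true) = a.1 := by simp [dr]
      rw [e, Pool.Agent.N513.PF.G_true] at h6
      rw [h6] at h5
      rw [h5]
      rfl
    intro a
    rw [key]
    rfl

end Uni

end Pool.Agent.V8H82.PF
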