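import Pool.Agent.N513.PF.Stab

/-!
# Isomorphisms of free groups that preserve the boundary words preserve the planar orders
-/

set_option autoImplicit false
set_option linter.unusedSectionVars false
set_option linter.unusedVariables false

namespace Pool.Agent.V8H82.PF

open Pool.Agent.N513.PF

variable {α β : Type} [DecidableEq α] [DecidableEq β] {n n' : ℕ} {p : α × Bool → ℕ}
  {p' : β × Bool → ℕ}

lemma prod_map' (φ : FreeGroup α →* FreeGroup β) (w : List (α × Bool)) :
    (w.map fun l => φ (G l)).prod = φ (FreeGroup.mk w) := by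
  induction w with
  | nil =>
    have e : FreeGroup.mk ([] : List (α × Bool)) = 1 := rfl
    rw [e, map_one]
    rfl
  | cons a w ih =>
    rw [mk_cons, map_mul, ← ih]
    rfl

/-- the number of descents of the image of the boundary word -/
lemma desc_total' (h : Arr n p) (h' : Arr n' p') {zl : List (α × Bool)} {zl' : List (β × Bool)}
    (hb : Bd n p 0 zl) (hall : ∀ a, a ∈ zl)
    (φ : FreeGroup α ≃* FreeGroup β) (hφ : φ (FreeGroup.mk zl) = FreeGroup.mk zl') :
    2 * desc n' p' 1 (zl.map fun l => φ (G l)) =
      2 * tau p' (FreeGroup.mk zl') + (zl.length : ℤ) := by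
  have h1 := tau_prod h' 1 (zl.map fun l => φ (G l))
  rw [one_mul] at h1
  have h2 : (zl.map fun l => φ (G l)).prod = FreeGroup.mk zl' := by
    have := prod_map' φ.toMonoidHom zl
    rw [← hφ]
    exact this
  rw [h2, tau_one, List.map_map] at h1
  have h3 := sum_pairs (hb.nodup h) hall (fun l => tau p' (φ (G l))) (fun l => by
    have e : φ (G (iv l)) = (φ (G l))⁻¹ := by rw [G_inv, map_inv]
    rw [e]
    refine tau_inv h' fun h4 => G_ne_one l ?_
    exact (map_eq_one_iff φ φ.injective).1 h4)
  have h4 : (zl.map (tau p' ∘ fun l => φ (G l))).sum = (zl.map fun l => tau p' (φ (G l))).sum :=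
    rfl
  rw [h4] at h1
  linarith

/-- an isomorphism that maps the boundary word to the boundary word preserves the order -/
theorem iso_pres (h : Arr n p) (h' : Arr n' p') {zl : List (α × Bool)} {zl' : List (β × Bool)}
    (hb : Bd n p 0 zl) (hb' : Bd n' p' 0 zl') (hall : ∀ a, a ∈ zl) (hall' : ∀ a, a ∈ zl')
    (hlen : zl.length = zl'.length)
    (φ : FreeGroup α ≃* FreeGroup β) (hφ : φ (FreeGroup.mk zl) = FreeGroup.mk zl') :
    ∀ x y, lt n p x y → lt n' p' (φ x) (φ y) := by
  rcases List.eq_nil_or_concat zl with hz0 | ⟨_, _, hz0⟩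
  · -- the trivial group
    intro x y h1
    exfalso
    have e : ∀ z : FreeGroup α, z = 1 := by
      intro z
      cases hz : z.toWord with
      | nil => exact FreeGroup.toWord_eq_nil_iff.1 hz
      | cons l s =>
        have := hall l
        rw [hz0] at this
        exact absurd this (by simp)
    rw [e x, e y] at h1
    exact Pool.Agent.N513.PF.lt_irrefl _ h1
  have hne : zl ≠ [] := by
    rw [hz0]
    simp
  clear hz0
  have hne' : zl' ≠ [] := by
    intro h1
    rw [h1] at hlen
    exact hne (List.length_eq_zero_iff.1 hlen)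
  obtain ⟨l1, rest, hz⟩ := List.exists_cons_of_ne_nil hne
  obtain ⟨l1', rest', hz'⟩ := List.exists_cons_of_ne_nil hne'
  have hlen' : rest.length = rest'.length := by
    rw [hz, hz'] at hlen
    simpa using hlen
  have hdesc : desc n' p' 1 (zl.map fun l => φ (G l)) = (rest.length : ℤ) := by
    have h1 := desc_total' h h' hb hall φ hφ
    have h2 := desc_total h' hb' hall' 1 rfl
    have h3 : desc n' p' 1 (zl'.map fun l => (1 : MulAut (FreeGroup β)) (G l)) =
        (rest'.length : ℤ) := by
      rw [hz'] at hb' ⊢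
      exact desc_self h' hb'
    rw [hlen] at h1
    rw [hlen']
    linarith
  have hds : ∀ P a Q, P ≠ [] → zl = P ++ a :: Q →
      lt n' p' (φ (FreeGroup.mk P * G a)) (φ (FreeGroup.mk P)) := by
    intro P a Q hP hPQ
    have e1 : desc n' p' 1 (zl.map fun l => φ (G l)) =
        ff n' p' 1 (φ (G l1)) + desc n' p' (1 * φ (G l1)) (rest.map fun l => φ (G l)) := by
      rw [hz]
      rfl
    rw [e1, ff_one h', zero_add] at hdesc
    have h4 : desc n' p' (1 * φ (G l1)) (rest.map fun l => φ (G l)) =
        ((rest.map fun l => φ (G l)).length : ℤ) := by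
      rw [hdesc, List.length_map]
    obtain ⟨c, P', hP'⟩ := List.exists_cons_of_ne_nil hP
    rw [hP', hz] at hPQ
    have h5 := List.cons.inj hPQ
    have h6 := desc_eq h4 (P'.map fun l => φ (G l)) (Q.map fun l => φ (G l)) (φ (G a)) (by
      rw [h5.2]
      simp)
    have e2 : (P'.map fun l => φ (G l)).prod = φ (FreeGroup.mk P') :=
      prod_map' φ.toMonoidHom P'
    rw [e2, one_mul, ← map_mul, h5.1, ← mk_cons, ← map_mul] at h6
    rw [hP']
    exact h6
  refine unique h (fun x y => lt n' p' (φ x) (φ y)) ?_ ?_ (fun x y => Pool.Agent.N513.PF.lt_asymm)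
  · intro l x y z hc
    have := cyc_mul h' (φ (G l)) (x := φ x) (y := φ y) (z := φ z) hc
    have e : ∀ u, φ (G l * u) = φ (G l) * φ u := fun u => map_mul _ _ _
    unfold Cyc at *
    simp only [e]
    exact this
  · refine pingpong h zl hb hall (fun x y => lt n' p' (φ x) (φ y)) (fun x => Pool.Agent.N513.PF.lt_irrefl _)
      (fun x y z => Pool.Agent.N513.PF.lt_trans) ?_ ?_ ?_ ?_ hds
    · intro x y
      rcases lt_tri h' (φ x) (φ y) with h1 | h1 | h1
      · exact Or.inl h1
      · exact Or.inr (Or.inl (φ.injective h1))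
      · exact Or.inr (Or.inr h1)
    · intro x hx
      show lt n' p' (φ 1) (φ x)
      rw [map_one]
      exact one_lt h' fun h1 => hx ((map_eq_one_iff φ φ.injective).1 h1)
    · intro u x y z hc
      have := cyc_mul h' (φ u) (x := φ x) (y := φ y) (z := φ z) hc
      have e : ∀ w, φ (u * w) = φ u * φ w := fun w => map_mul _ _ _
      unfold Cyc at *
      simp only [e]
      exact this
    · intro x hx1 hx2
      show lt n' p' (φ (FreeGroup.mk zl)) (φ x)
      rw [hφ]
      have h1 : φ x ≠ 1 := fun h2 => hx1 ((map_eq_one_iff φ φ.injective).1 h2)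
      have h2 : φ x ≠ FreeGroup.mk zl' := fun h3 => hx2 (φ.injective (by rw [h3, hφ]))
      unfold lt
      rw [mk_word hb'.red]
      refine hb'.min h' h'.n0 FreeGroup.isReduced_toWord ?_ ?_
      · cases hw : (φ x).toWord with
        | nil => exact absurd (FreeGroup.toWord_eq_nil_iff.1 hw) h1
        | cons m s => exact (h'.lo m).ne'
      · intro h3
        apply h2
        rw [h3, FreeGroup.mk_toWord]

/-- the ranks -/
lemma card_eq [Fintype α] [Fintype β] (φ : FreeGroup α ≃* FreeGroup β) :
    Fintype.card α = Fintype.card β := by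
  classical
  let Z := Multiplicative (ZMod 2)
  have e1 : (FreeGroup α →* Z) ≃ (FreeGroup β →* Z) :=
    { toFun := fun ψ => ψ.comp φ.symm.toMonoidHom
      invFun := fun ψ => ψ.comp φ.toMonoidHom
      left_inv := fun ψ => by ext x; simp
      right_inv := fun ψ => by ext x; simp }
  have e : (α → Z) ≃ (β → Z) :=
    (FreeGroup.lift (β := Z) (α := α)).trans
      (e1.trans (FreeGroup.lift (β := Z) (α := β)).symm)
  have h1 := Fintype.card_congr e
  rw [Fintype.card_fun, Fintype.card_fun] at h1
  have h2 : Fintype.card Z = 2 := by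
    show Fintype.card (Multiplicative (ZMod 2)) = 2
    rw [Fintype.card_multiplicative]
    exact ZMod.card 2
  rw [h2] at h1
  exact Nat.pow_right_injective (le_refl 2) h1

/-- the length of the boundary word -/
lemma len_bd [Fintype α] (h : Arr n p) {zl : List (α × Bool)} (hb : Bd n p 0 zl)
    (hall : ∀ a, a ∈ zl) : zl.length = 2 * Fintype.card α := by
  have h1 : zl.toFinset = Finset.univ := by
    ext a
    simp [hall a]
  have h2 := List.toFinset_card_of_nodup (hb.nodup h)
  rw [h1, Finset.card_univ, Fintype.card_prod, Fintype.card_bool] at h2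
  omega

end Pool.Agent.V8H82.PF
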