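import Pool.Agent.V8H82.PF.Twist

/-!
# Links between maps with curves; deletion and contraction are links
-/

set_option autoImplicit false
set_option linter.unusedVariables false
set_option linter.unusedSectionVars false

namespace Pool.Agent.V8H82.PF

open Finset List

variable {D : Type}

/-- a normalization condition for connections, on every group -/
def Nrm (D : Type) : Type 1 := ∀ (G : Type) [Group G], (D → G) → Prop

/-- an elementary step from `M` to a smaller map `M'` -/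
structure Stp (M M' : Sf D) (N : Nrm D) : Prop where
  ok : M.Ok
  ok' : M'.Ok
  sub : ∀ d ∈ M'.A, d ∈ M.A
  o' : M'.o = M.o
  rev' : M'.rev = M.rev
  kk : ∀ (G : Type) [Group G] (s : D → G), N G s → ∀ d ∈ M'.A, s (M'.cw d) = s (M.cw d)
  up : ∀ (G : Type) [Group G] (s : D → G), M'.Fl s →
    ∃ s1 : D → G, M.Fl s1 ∧ N G s1 ∧ ∀ d ∈ M'.A, s1 d = s d
  fix : ∀ (G : Type) [Group G] (s : D → G), M.Fl s → ∃ s1 : D → G, N G s1 ∧ M.Eqv 1 s s1
  eqv : ∀ (G : Type) [Group G] (x : G) (s1 s2 : D → G), N G s1 → N G s2 →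
    (M.Eqv x s1 s2 ↔ M'.Eqv x s1 s2)
  map : ∀ (G H : Type) [Group G] [Group H] (θ : G →* H) (s : D → G), N G s →
    N H (fun d => θ (s d))

namespace Stp

variable {M M' : Sf D} {N : Nrm D} {G : Type} [Group G]

lemma hh' (h : Stp M M' N) {s : D → G} (hs : N G s) {d : D} (hd : d ∈ M'.A) :
    M'.hh s d = M.hh s d := by
  unfold Sf.hh
  have h1 := h.ok'.mrev d hd
  have h2 := h.kk G s hs (M'.rev d) h1
  rw [h2, h.rev']

lemma fl (h : Stp M M' N) {s : D → G} (hs : N G s) (hF : M.Fl s) : M'.Fl s := by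
  intro d hd hdo
  rw [h.hh' hs hd, h.hh' hs (h.ok'.mrev d hd), h.rev']
  rw [h.o'] at hdo
  exact hF d (h.sub d hd) hdo

lemma zz (h : Stp M M' N) {s : D → G} (hs : N G s) : M'.zz s = M.zz s := by
  unfold Sf.zz
  have h2 := h.kk G s hs M'.o h.ok'.ho
  rw [h2, h.o']

end Stp

/-- the compatibility of a step with a curve -/
structure TC (M M' : Sf D) (N : Nrm D) (K K' : Cv D) : Prop where
  lr : LR M K
  lr' : LR M' K'
  tw : ∀ (G : Type) [Group G] (z : ℤ) (s : D → G), N G s → M.Fl s →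
    ∃ s2 : D → G, N G s2 ∧ M.Eqv 1 (tw M K z s) s2 ∧ M'.Eqv 1 s2 (tw M' K' z s)
  lp : ∀ (G : Type) [Group G] (s : D → G), N G s → (lp M' K' s = 1 ↔ lp M K s = 1)

/-- a link between two maps with families of curves -/
structure Lk {ι : Type} (M : Sf D) (B : ι → Cv D) (M' : Sf D) (B' : ι → Cv D) where
  E : ∀ (G : Type) [Group G], (D → G) → (D → G) → Prop
  fl : ∀ (G : Type) [Group G] (s s' : D → G), E G s s' → M.Fl s ∧ M'.Fl s'
  up : ∀ (G : Type) [Group G] (s' : D → G), M'.Fl s' → ∃ s : D → G, E G s s'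
  dn : ∀ (G : Type) [Group G] (s : D → G), M.Fl s → ∃ s' : D → G, E G s s'
  tw : ∀ (G : Type) [Group G] (s s' : D → G) (z : ℤ) (i : ι), E G s s' →
    E G (tw M (B i) z s) (tw M' (B' i) z s')
  eq : ∀ (G : Type) [Group G] (x : G) (s1 s1' s2 s2' : D → G), E G s1 s1' → E G s2 s2' →
    (M.Eqv x s1 s2 ↔ M'.Eqv x s1' s2')
  zz : ∀ (G : Type) [Group G] (s s' : D → G), E G s s' → M'.zz s' = M.zz s
  map : ∀ (G H : Type) [Group G] [Group H] (θ : G →* H) (s s' : D → G), E G s s' →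
    E H (fun d => θ (s d)) (fun d => θ (s' d))
  lp : ∀ (G : Type) [Group G] (s s' : D → G) (i : ι), E G s s' →
    (lp M' (B' i) s' = 1 ↔ lp M (B i) s = 1)

/-- the identity -/
def Lk.refl {ι : Type} {M : Sf D} {B : ι → Cv D} (hM : M.Ok) (hB : ∀ i, LR M (B i)) :
    Lk M B M B where
  E G _ s s' := s' = s ∧ M.Fl s
  fl G _ s s' h := by obtain ⟨rfl, h⟩ := h; exact ⟨h, h⟩
  up G _ s' h := ⟨s', rfl, h⟩
  dn G _ s' h := ⟨s', rfl, h⟩
  tw G _ s s' z i h := by obtain ⟨rfl, h⟩ := h; exact ⟨rfl, (hB i).fl hM z h⟩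
  eq G _ x s1 s1' s2 s2' h h' := by obtain ⟨rfl, _⟩ := h; obtain ⟨rfl, _⟩ := h'; rfl
  zz G _ s s' h := by obtain ⟨rfl, _⟩ := h; rfl
  map G H _ _ θ s s' h := by obtain ⟨rfl, h⟩ := h; exact ⟨rfl, h.map θ⟩
  lp G _ s s' i h := by obtain ⟨rfl, _⟩ := h; rfl

/-- composition -/
def Lk.trans {ι : Type} {M M' M'' : Sf D} {B B' B'' : ι → Cv D} (h : Lk M B M' B')
    (h' : Lk M' B' M'' B'') : Lk M B M'' B'' where
  E G _ s s'' := ∃ s', h.E G s s' ∧ h'.E G s' s''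
  fl G _ s s'' := by
    rintro ⟨s', h1, h2⟩
    exact ⟨(h.fl G _ _ h1).1, (h'.fl G _ _ h2).2⟩
  up G _ s'' hs := by
    obtain ⟨s', h1⟩ := h'.up G s'' hs
    obtain ⟨s, h2⟩ := h.up G s' (h'.fl G _ _ h1).1
    exact ⟨s, s', h2, h1⟩
  dn G _ s hs := by
    obtain ⟨s', h1⟩ := h.dn G s hs
    obtain ⟨s'', h2⟩ := h'.dn G s' (h.fl G _ _ h1).2
    exact ⟨s'', s', h1, h2⟩
  tw G _ s s'' z i := by
    rintro ⟨s', h1, h2⟩
    exact ⟨_, h.tw G _ _ z i h1, h'.tw G _ _ z i h2⟩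
  eq G _ x s1 s1'' s2 s2'' := by
    rintro ⟨s1', h1, h2⟩ ⟨s2', h3, h4⟩
    rw [h.eq G x _ _ _ _ h1 h3, h'.eq G x _ _ _ _ h2 h4]
  zz G _ s s'' := by
    rintro ⟨s', h1, h2⟩
    rw [h'.zz G _ _ h2, h.zz G _ _ h1]
  map G H _ _ θ s s'' := by
    rintro ⟨s', h1, h2⟩
    exact ⟨_, h.map G H θ _ _ h1, h'.map G H θ _ _ h2⟩
  lp G _ s s'' i := by
    rintro ⟨s', h1, h2⟩
    rw [h'.lp G _ _ i h2, h.lp G _ _ i h1]

/-- a subfamily -/
def Lk.sub {ι κ : Type} {M M' : Sf D} {B B' : ι → Cv D} (h : Lk M B M' B') (f : κ → ι) :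
    Lk M (fun k => B (f k)) M' (fun k => B' (f k)) where
  E := h.E
  fl := h.fl
  up := h.up
  dn := h.dn
  tw G _ s s' z i := h.tw G s s' z (f i)
  eq := h.eq
  zz := h.zz
  map := h.map
  lp G _ s s' i := h.lp G s s' (f i)

/-- a step is a link -/
def Stp.lk {ι : Type} {M M' : Sf D} {B B' : ι → Cv D} {N : Nrm D} (h : Stp M M' N)
    (hB : ∀ i, TC M M' N (B i) (B' i)) : Lk M B M' B' where
  E G _ s s' := M.Fl s ∧ M'.Fl s' ∧ ∃ s1, N G s1 ∧ M.Eqv 1 s s1 ∧ M'.Eqv 1 s1 s'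
  fl G _ s s' := by
    rintro ⟨h1, h2, h3⟩
    exact ⟨h1, h2⟩
  up G _ s' hs := by
    obtain ⟨s1, h1, h2, h3⟩ := h.up G s' hs
    exact ⟨s1, h1, hs, s1, h2, Sf.Eqv.refl _, Sf.Eqv.of_eq fun d hd => (h3 d hd).symm⟩
  dn G _ s hs := by
    obtain ⟨s1, h1, h2⟩ := h.fix G s hs
    exact ⟨s1, hs, h.fl h1 (h2.fl h.ok hs), s1, h1, h2, Sf.Eqv.refl _⟩
  tw G _ s s' z i := by
    rintro ⟨h1, h2, s1, h3, h4, h5⟩
    obtain ⟨s2, h6, h7, h8⟩ := (hB i).tw G z s1 h3 (h4.fl h.ok h1)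
    refine ⟨(hB i).lr.fl h.ok z h1, (hB i).lr'.fl h.ok' z h2, s2, h6, ?_, ?_⟩
    · exact ((hB i).lr.eqv h.ok z h4).trans1 h7
    · exact h8.trans1 ((hB i).lr'.eqv h.ok' z h5)
  eq G _ x s1 s1' s2 s2' := by
    rintro ⟨h1, h2, t1, h3, h4, h5⟩ ⟨h1', h2', t2, h3', h4', h5'⟩
    constructor
    · intro h6
      have h7 : M.Eqv x t1 t2 := (h4.symm1.trans2 h6).trans1 h4'
      exact (h5.symm1.trans2 ((h.eqv G x t1 t2 h3 h3').1 h7)).trans1 h5'
    · intro h6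
      have h7 : M'.Eqv x t1 t2 := (h5.trans2 h6).trans1 h5'.symm1
      exact (h4.trans2 ((h.eqv G x t1 t2 h3 h3').2 h7)).trans1 h4'.symm1
  zz G _ s s' := by
    rintro ⟨h1, h2, t1, h3, h4, h5⟩
    rw [h5.zz h.ok', h.zz h3, h4.zz h.ok]
    group
  map G H _ _ θ s s' := by
    rintro ⟨h1, h2, t1, h3, h4, h5⟩
    have h6 := h4.map θ
    have h7 := h5.map θ
    rw [map_one] at h6 h7
    exact ⟨h1.map θ, h2.map θ, _, h.map G H θ _ h3, h6, h7⟩
  lp G _ s s' i := by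
    rintro ⟨h1, h2, t1, h3, h4, h5⟩
    rw [(hB i).lr'.lp_one h.ok' h5, (hB i).lp G t1 h3, (hB i).lr.lp_one h.ok h4]

/-! ### Deletion and contraction are steps -/

section steps

variable [DecidableEq D] {M : Sf D} {e : D}

lemma Sf.fl_iff (hM : M.Ok) {G : Type} [Group G] (s : D → G) :
    M.Fl s ↔ St.FG M.A M.cw M.rev M.o s := by
  unfold Sf.Fl St.FG Sf.hh
  refine forall₂_congr fun d hd => forall_congr' fun hdo => ?_
  rw [hM.rr d hd]
  constructor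
  · intro h1
    have h2 : s (M.cw (M.rev d)) * ((s (M.rev d))⁻¹ * s (M.cw d)) = s d := by
      rw [h1]
      group
    rw [← h2]
    group
  · intro h1
    have h2 : s (M.cw (M.rev d)) * (s (M.rev d))⁻¹ * s (M.cw d) = s d := by
      rw [h1]
      group
    rw [← h2]
    group

lemma Sf.fl_iff2 (hM : M.Ok) {G : Type} [Group G] (s : D → G) :
    M.Fl s ↔ St.FG M.A M.fc M.rev M.o (fun d => (s d)⁻¹) := by
  unfold Sf.Fl St.FG Sf.hh
  refine forall₂_congr fun d hd => forall_congr' fun hdo => ?_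
  rw [hM.fcr hd, hM.rr d hd]
  unfold Sf.fc
  constructor
  · intro h1
    have h3 : ((s (M.rev d))⁻¹ * s (M.cw d))⁻¹ = (s d)⁻¹ * s (M.cw (M.rev d)) := by
      rw [h1]
      group
    rw [inv_inv, inv_inv, ← h3]
    group
  · intro h1
    rw [inv_inv, inv_inv] at h1
    rw [← h1]
    group

/-- the normalization for the deletion -/
def ND (M : Sf D) (e : D) : Nrm D := fun G _ s => St.Rd M.cw e (M.rev e) s

/-- the normalization for the contraction -/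
def NC (M : Sf D) (e : D) : Nrm D := fun G _ s => St.Rd M.fc e (M.rev e) s

lemma Sf.DelH.stp (h : M.DelH e) : Stp M (M.del e) (ND M e) where
  ok := h.ok
  ok' := h.ok'
  sub d hd := (mem_rm.1 hd).1
  o' := rfl
  rev' := rfl
  kk G _ s hs d hd := h.st.kk hs hd
  up G _ s hs := by
    obtain ⟨s1, h1, h2, h3⟩ := h.st.up ((Sf.fl_iff h.ok' s).1 hs)
    exact ⟨s1, (Sf.fl_iff h.ok s1).2 h1, h2, h3⟩
  fix G _ s hs := by
    obtain ⟨P, p1, p2, p3⟩ := h.dif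
    obtain ⟨φ, h1, h2, h3⟩ := h.st.fix ((Sf.fl_iff h.ok s).1 hs) p1 p2 p3
    exact ⟨_, h3, φ, fun _ => 1, h1, fun _ _ => rfl, rfl, fun d hd => by group⟩
  eqv G _ x s1 s2 h1 h2 := by
    constructor
    · rintro ⟨φ, γ, e1, e2, e3, e4⟩
      obtain ⟨e5, e6⟩ := h.st.eqv_down h1 h2 e1 e2 e4
      exact ⟨φ, γ, fun d hd => by rw [h.fc_eq hd]; exact e5 d hd, e6, e3,
        fun d hd => e4 d (mem_rm.1 hd).1⟩
    · rintro ⟨φ, γ, e1, e2, e3, e4⟩
      obtain ⟨φ1, γ1, f1, f2, f3, f4, f5⟩ := h.st.eqv_up h1 h2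
        (fun d hd => by rw [← h.fc_eq hd]; exact e1 d hd) e2 e4
      exact ⟨φ1, γ1, f1, f2, by rw [f5]; exact e3, f3⟩
  map G H _ _ θ s hs := ⟨congrArg θ hs.1, congrArg θ hs.2⟩

lemma Rd_inv {G : Type} [Group G] {f : D → D} {e e' : D} {s : D → G} (h : St.Rd f e e' s) :
    St.Rd f e e' (fun d => (s d)⁻¹) :=
  ⟨congrArg (·⁻¹) h.1, congrArg (·⁻¹) h.2⟩

lemma Sf.ConH.stp (h : M.ConH e) : Stp M (M.con e) (NC M e) where
  ok := h.ok
  ok' := h.ok'
  sub d hd := (mem_rm.1 hd).1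
  o' := rfl
  rev' := rfl
  kk G _ s hs d hd := by
    have := h.st.kg (Rd_inv hs) hd
    exact inv_injective this
  up G _ s hs := by
    have h0 := (Sf.fl_iff2 h.ok' s).1 hs
    have h0' : St.FG (rm M.A e (M.rev e)) (sk M.fc e (M.rev e)) M.rev M.o (fun d => (s d)⁻¹) := by
      intro d hd hdo
      have := h0 d hd hdo
      have e1 := h.fc_eq (h.st.mrev' d hd)
      change ((s ((M.con e).fc (M.rev d))))⁻¹ * ((s (M.rev d))⁻¹)⁻¹ =
        (s d)⁻¹ * ((s ((M.con e).fc d))⁻¹)⁻¹ at this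
      rw [h.fc_eq hd, e1] at this
      exact this
    obtain ⟨s1, h1, h2, h3⟩ := h.st.up h0'
    refine ⟨fun d => (s1 d)⁻¹, (Sf.fl_iff2 h.ok _).2 ?_, Rd_inv h2, fun d hd => ?_⟩
    · simpa only [inv_inv] using h1
    · show (s1 d)⁻¹ = s d
      rw [h3 d hd, inv_inv]
  fix G _ s hs := by
    obtain ⟨P, p1, p2, p3, p4⟩ := h.dif
    obtain ⟨γ, h1, h2, h3⟩ := h.st.fix ((Sf.fl_iff2 h.ok s).1 hs) p1 p2 p3
    refine ⟨fun d => s d * (γ d)⁻¹, ?_, fun _ => 1, γ, fun _ _ => rfl, h1, h2 _ p4,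
      fun d hd => by group⟩
    have h4 := Rd_inv h3
    simp only [mul_inv_rev, inv_inv] at h4
    exact h4
  eqv G _ x s1 s2 h1 h2 := by
    constructor
    · rintro ⟨φ, γ, e1, e2, e3, e4⟩
      obtain ⟨e5, e6⟩ := h.st.eqv_down (Rd_inv h1) (Rd_inv h2) e2 e1 (fun d hd => by
        rw [e4 d hd]
        group)
      exact ⟨φ, γ, fun d hd => by rw [h.fc_eq hd]; exact e6 d hd, e5, e3,
        fun d hd => e4 d (mem_rm.1 hd).1⟩
    · rintro ⟨φ, γ, e1, e2, e3, e4⟩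
      obtain ⟨γ1, φ1, f1, f2, f3, f4, f5⟩ := h.st.eqv_up (Rd_inv h1) (Rd_inv h2)
        (φ := γ) (γ := φ) e2
        (fun d hd => by rw [← h.fc_eq hd]; exact e1 d hd) (fun d hd => by
        rw [e4 d hd]
        group)
      refine ⟨φ1, γ1, f2, f1, by rw [f4]; exact e3, fun d hd => ?_⟩
      have := congrArg (·⁻¹) (f3 d hd)
      simp only [inv_inv, mul_inv_rev] at this
      rw [this]
      group
  map G H _ _ θ s hs := ⟨congrArg θ hs.1, congrArg θ hs.2⟩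

end steps

end Pool.Agent.V8H82.PF
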