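import Mathlib

/-!
# Rooted maps (cell decompositions of surfaces), their faces, deletion and contraction of edges
-/

set_option autoImplicit false
set_option linter.unusedVariables false
set_option linter.unusedSectionVars false

namespace Pool.Agent.V8H82.PF

open Finset

variable {D : Type}

/-- the same orbit -/
def Same (A : Finset D) (f : D → D) (x y : D) : Prop :=
  ∀ P : D → Prop, (∀ d ∈ A, P (f d) ↔ P d) → (P x ↔ P y)

/-- at least `n` orbits -/
def NO (A : Finset D) (f : D → D) (n : ℕ) : Prop :=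
  ∃ ψ : D → ℕ, (∀ d ∈ A, ψ (f d) = ψ d) ∧ ∀ i < n, ∃ d ∈ A, ψ d = i

lemma Same.refl {A : Finset D} {f : D → D} (x : D) : Same A f x x := fun _ _ => Iff.rfl

lemma Same.symm {A : Finset D} {f : D → D} {x y : D} (h : Same A f x y) : Same A f y x :=
  fun P hP => (h P hP).symm

lemma Same.trans {A : Finset D} {f : D → D} {x y z : D} (h : Same A f x y) (h' : Same A f y z) :
    Same A f x z := fun P hP => (h P hP).trans (h' P hP)

lemma Same.step {A : Finset D} {f : D → D} {x : D} (h : x ∈ A) : Same A f x (f x) :=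
  fun _ hP => (hP x h).symm

/-- functions constant on the orbits -/
lemma Same.val {A : Finset D} {f : D → D} {x y : D} (h : Same A f x y) {T : Type*} {γ : D → T}
    (hγ : ∀ d ∈ A, γ (f d) = γ d) : γ x = γ y := by
  have := (h (fun d => γ d = γ x) (fun d hd => by rw [hγ d hd])).1 rfl
  exact this.symm

lemma Same.mem {A : Finset D} {f : D → D} {x y : D} (h : Same A f x y) (hf : ∀ d ∈ A, f d ∈ A)
    (hx : x ∈ A) : y ∈ A := by
  refine (h (fun d => d ∈ A) (fun d hd => ?_)).1 hx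
  exact ⟨fun _ => hd, fun _ => hf d hd⟩

/-- a property that is invariant at all steps except one is invariant at this step, too -/
lemma inv_fix {A : Finset D} {f : D → D} (hm : ∀ d ∈ A, f d ∈ A)
    (hi : ∀ d ∈ A, ∀ d' ∈ A, f d = f d' → d = d') (Q : D → Prop) {e : D} (he : e ∈ A)
    (hQ : ∀ d ∈ A, d ≠ e → (Q (f d) ↔ Q d)) : Q (f e) ↔ Q e := by
  classical
  have hinj : Set.InjOn f (A : Set D) := fun x hx y hy h => hi x hx y hy h
  have himg : A.image f = A := by
    apply Finset.eq_of_subset_of_card_le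
    · intro x hx
      obtain ⟨d, hd, rfl⟩ := Finset.mem_image.1 hx
      exact hm d hd
    · rw [Finset.card_image_of_injOn hinj]
  have h1 : ∑ d ∈ A, (if Q (f d) then 1 else 0 : ℕ) = ∑ d ∈ A, (if Q d then 1 else 0 : ℕ) := by
    conv_rhs => rw [← himg]
    rw [Finset.sum_image hinj]
  rw [← Finset.add_sum_erase _ _ he, ← Finset.add_sum_erase A (fun d => if Q d then 1 else 0) he]
    at h1
  have h2 : ∑ d ∈ A.erase e, (if Q (f d) then 1 else 0 : ℕ) =
      ∑ d ∈ A.erase e, (if Q d then 1 else 0 : ℕ) := by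
    refine Finset.sum_congr rfl fun d hd => ?_
    rw [Finset.mem_erase] at hd
    simp only [hQ d hd.2 hd.1]
  rw [h2] at h1
  have h3 := Nat.add_right_cancel h1
  by_cases q1 : Q (f e) <;> by_cases q2 : Q e <;> simp_all

lemma surj {A : Finset D} {f : D → D} (hm : ∀ d ∈ A, f d ∈ A)
    (hi : ∀ d ∈ A, ∀ d' ∈ A, f d = f d' → d = d') {y : D} (hy : y ∈ A) : ∃ d ∈ A, f d = y := by
  classical
  have hinj : Set.InjOn f (A : Set D) := fun x hx y hy h => hi x hx y hy h
  have himg : A.image f = A := by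
    apply Finset.eq_of_subset_of_card_le
    · intro x hx
      obtain ⟨d, hd, rfl⟩ := Finset.mem_image.1 hx
      exact hm d hd
    · rw [Finset.card_image_of_injOn hinj]
  rw [← himg] at hy
  obtain ⟨d, hd, h⟩ := Finset.mem_image.1 hy
  exact ⟨d, hd, h⟩

variable [DecidableEq D]

/-- skip `e` and `e'` -/
def sk (f : D → D) (e e' : D) (d : D) : D :=
  if f d = e then (if f e = e' then f e' else f e)
  else if f d = e' then (if f e' = e then f e else f e')
  else f d

/-- merge the orbits of `e` and `e'`, and skip `e` and `e'` -/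
def mg (f : D → D) (e e' : D) (d : D) : D :=
  if f d = e then (if f e' = e' then f e else f e')
  else if f d = e' then (if f e = e then f e' else f e)
  else f d

/-- the darts other than `e` and `e'` -/
def rm (A : Finset D) (e e' : D) : Finset D := (A.erase e).erase e'

lemma mem_rm {A : Finset D} {e e' x : D} : x ∈ rm A e e' ↔ x ∈ A ∧ x ≠ e ∧ x ≠ e' := by
  unfold rm
  simp only [Finset.mem_erase]
  tauto

section gen

variable {A : Finset D} {f : D → D} {e e' : D}

lemma sk_mem (hm : ∀ d ∈ A, f d ∈ A) (hi : ∀ d ∈ A, ∀ d' ∈ A, f d = f d' → d = d')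
    (he : e ∈ A) (he' : e' ∈ A) (hne : e ≠ e') : ∀ d ∈ rm A e e', sk f e e' d ∈ rm A e e' := by
  intro d hd
  rw [mem_rm] at hd ⊢
  have i1 := hi d hd.1 e he
  have i2 := hi d hd.1 e' he'
  have i3 := hi e he e' he'
  have i4 := hm d hd.1
  have i5 := hm e he
  have i6 := hm e' he'
  unfold sk
  grind

lemma sk_inj (hi : ∀ d ∈ A, ∀ d' ∈ A, f d = f d' → d = d')
    (he : e ∈ A) (he' : e' ∈ A) (hne : e ≠ e') :
    ∀ d ∈ rm A e e', ∀ d' ∈ rm A e e', sk f e e' d = sk f e e' d' → d = d' := by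
  intro d hd d' hd'
  rw [mem_rm] at hd hd'
  have i0 := hi d hd.1 d' hd'.1
  have i1 := hi d hd.1 e he
  have i2 := hi d hd.1 e' he'
  have i3 := hi e he e' he'
  have i4 := hi d' hd'.1 e he
  have i5 := hi d' hd'.1 e' he'
  unfold sk
  grind

/-- invariant properties of `f` are invariant properties of `sk f` -/
lemma sk_inv {P : D → Prop} (hP : ∀ d ∈ A, P (f d) ↔ P d) (he : e ∈ A) (he' : e' ∈ A) :
    ∀ d ∈ rm A e e', P (sk f e e' d) ↔ P d := by
  intro d hd
  rw [mem_rm] at hd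
  have i1 := hP d hd.1
  have i2 := hP e he
  have i3 := hP e' he'
  unfold sk
  grind

lemma sk_val {T : Type*} {γ : D → T} (hP : ∀ d ∈ A, γ (f d) = γ d) (he : e ∈ A) (he' : e' ∈ A) :
    ∀ d ∈ rm A e e', γ (sk f e e' d) = γ d := by
  intro d hd
  rw [mem_rm] at hd
  have i1 := hP d hd.1
  have i2 := hP e he
  have i3 := hP e' he'
  unfold sk
  grind

/-- the extension of a function to `e`, `e'` along `f` -/
def ext {T : Type*} (f : D → D) (e e' : D) (γ : D → T) (d : D) : T :=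
  if d = e then (if f e = e' then γ (f e') else γ (f e))
  else if d = e' then (if f e' = e then γ (f e) else γ (f e'))
  else γ d

lemma ext_of {T : Type*} {γ : D → T} {d : D} (h1 : d ≠ e) (h2 : d ≠ e') :
    ext f e e' γ d = γ d := by
  unfold ext
  rw [if_neg h1, if_neg h2]

lemma ext_val {T : Type*} {γ : D → T} (hi : ∀ d ∈ A, ∀ d' ∈ A, f d = f d' → d = d')
    (he : e ∈ A) (he' : e' ∈ A) (hne : e ≠ e') (h1 : f e ≠ e) (h2 : f e' ≠ e')
    (h3 : ¬ (f e = e' ∧ f e' = e))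
    (hP : ∀ d ∈ rm A e e', γ (sk f e e' d) = γ d) :
    ∀ d ∈ A, ext f e e' γ (f d) = ext f e e' γ d := by
  intro d hd
  have hP' := hP d
  rw [mem_rm] at hP'
  have i1 := hi d hd e he
  have i2 := hi d hd e' he'
  have i3 := hi e he e' he'
  unfold sk at hP'
  unfold ext
  grind

/-- the same orbit -/
lemma same_sk (hm : ∀ d ∈ A, f d ∈ A) (hi : ∀ d ∈ A, ∀ d' ∈ A, f d = f d' → d = d')
    (he : e ∈ A) (he' : e' ∈ A) (hne : e ≠ e') (h1 : f e ≠ e) (h2 : f e' ≠ e')
    (h3 : ¬ (f e = e' ∧ f e' = e)) {x y : D} (hx : x ∈ rm A e e') (hy : y ∈ rm A e e') :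
    Same (rm A e e') (sk f e e') x y ↔ Same A f x y := by
  constructor
  · intro h P hP
    exact h P (sk_inv hP he he')
  · intro h P hP
    have := h (ext f e e' P) (fun d hd => by
      rw [ext_val hi he he' hne h1 h2 h3 (fun d hd => propext (hP d hd)) d hd])
    rw [mem_rm] at hx hy
    rwa [ext_of hx.2.1 hx.2.2, ext_of hy.2.1 hy.2.2] at this

lemma NO_sk {n : ℕ} (hi : ∀ d ∈ A, ∀ d' ∈ A, f d = f d' → d = d') (hm : ∀ d ∈ A, f d ∈ A)
    (he : e ∈ A) (he' : e' ∈ A) (hne : e ≠ e') (h1 : f e ≠ e) (h2 : f e' ≠ e')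
    (h3 : ¬ (f e = e' ∧ f e' = e)) (h : NO A f n) : NO (rm A e e') (sk f e e') n := by
  obtain ⟨ψ, hψ, hs⟩ := h
  refine ⟨ψ, sk_val hψ he he', fun i hi' => ?_⟩
  obtain ⟨d, hd, hdi⟩ := hs i hi'
  have i3 := hi e he e' he'
  have j1 := hψ e he
  have j2 := hψ e' he'
  have k1 := hm e he
  have k2 := hm e' he'
  by_cases hde : d = e
  · by_cases hee : f e = e'
    · refine ⟨f e', mem_rm.2 ⟨k2, ?_, ?_⟩, ?_⟩ <;> grind
    · refine ⟨f e, mem_rm.2 ⟨k1, ?_, ?_⟩, ?_⟩ <;> grind
  · by_cases hde' : d = e'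
    · by_cases hee : f e' = e
      · refine ⟨f e, mem_rm.2 ⟨k1, ?_, ?_⟩, ?_⟩ <;> grind
      · refine ⟨f e', mem_rm.2 ⟨k2, ?_, ?_⟩, ?_⟩ <;> grind
    · exact ⟨d, mem_rm.2 ⟨hd, hde, hde'⟩, hdi⟩

/-! ### merging -/

/-- different orbits -/
def Diff (A : Finset D) (f : D → D) (e e' : D) : Prop :=
  ∃ P : D → Prop, (∀ d ∈ A, P (f d) ↔ P d) ∧ ¬ P e ∧ P e'

lemma Diff.symm {A : Finset D} {f : D → D} {e e' : D} (h : Diff A f e e') : Diff A f e' e := by
  obtain ⟨P, h1, h2, h3⟩ := h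
  exact ⟨fun d => ¬ P d, fun d hd => not_congr (h1 d hd), fun h => h h3, h2⟩

lemma not_same {A : Finset D} {f : D → D} {e e' : D} : ¬ Same A f e e' ↔ Diff A f e e' := by
  constructor
  · intro h
    unfold Same at h
    push Not at h
    obtain ⟨P, hP, h1⟩ := h
    by_cases h2 : P e
    · by_cases h3 : P e'
      · exact absurd (iff_of_true h2 h3) (by tauto)
      · exact Diff.symm ⟨P, hP, h3, h2⟩
    · by_cases h3 : P e'
      · exact ⟨P, hP, h2, h3⟩
      · exact absurd (iff_of_false h2 h3) (by tauto)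
  · rintro ⟨P, hP, h1, h2⟩ h
    exact h1 ((h P hP).2 h2)

lemma mg_mem (hm : ∀ d ∈ A, f d ∈ A) (hi : ∀ d ∈ A, ∀ d' ∈ A, f d = f d' → d = d')
    (he : e ∈ A) (he' : e' ∈ A) (hd : Diff A f e e') :
    ∀ d ∈ rm A e e', mg f e e' d ∈ rm A e e' := by
  intro d hd'
  rw [mem_rm] at hd' ⊢
  obtain ⟨P, hP, p1, p2⟩ := hd
  have j1 := hP e he
  have j2 := hP e' he'
  have i1 := hi d hd'.1 e he
  have i2 := hi d hd'.1 e' he'
  have i3 := hi e he e' he'
  have i4 := hm d hd'.1
  have i5 := hm e he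
  have i6 := hm e' he'
  unfold mg
  grind

lemma mg_inj (hi : ∀ d ∈ A, ∀ d' ∈ A, f d = f d' → d = d')
    (he : e ∈ A) (he' : e' ∈ A) (hd : Diff A f e e') :
    ∀ d ∈ rm A e e', ∀ d' ∈ rm A e e', mg f e e' d = mg f e e' d' → d = d' := by
  intro d hd1 d' hd'
  rw [mem_rm] at hd1 hd'
  obtain ⟨P, hP, p1, p2⟩ := hd
  have j1 := hP e he
  have j2 := hP e' he'
  have i0 := hi d hd1.1 d' hd'.1
  have i1 := hi d hd1.1 e he
  have i2 := hi d hd1.1 e' he'
  have i3 := hi e he e' he'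
  have i4 := hi d' hd'.1 e he
  have i5 := hi d' hd'.1 e' he'
  unfold mg
  grind

lemma mg_val {T : Type*} {γ : D → T} (hP : ∀ d ∈ A, γ (f d) = γ d) (he : e ∈ A) (he' : e' ∈ A)
    (h : γ e = γ e') :
    ∀ d ∈ rm A e e', γ (mg f e e' d) = γ d := by
  intro d hd
  rw [mem_rm] at hd
  have i1 := hP d hd.1
  have i2 := hP e he
  have i3 := hP e' he'
  unfold mg
  grind

/-- the value of a function at the merged orbit -/
def mv {T : Type*} (f : D → D) (e e' : D) (γ : D → T) : T := if f e = e then γ (f e') else γ (f e)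

/-- the extension of a function to `e`, `e'` -/
def ex2 {T : Type*} (f : D → D) (e e' : D) (γ : D → T) (d : D) : T :=
  if d = e ∨ d = e' then mv f e e' γ else γ d

lemma ex2_of {T : Type*} {γ : D → T} {d : D} (h1 : d ≠ e) (h2 : d ≠ e') :
    ex2 f e e' γ d = γ d := by
  unfold ex2
  rw [if_neg (by tauto)]

/-- the two values at the merged orbit agree -/
lemma mg_two {T : Type*} {γ : D → T} (hm : ∀ d ∈ A, f d ∈ A)
    (hi : ∀ d ∈ A, ∀ d' ∈ A, f d = f d' → d = d')
    (he : e ∈ A) (he' : e' ∈ A) (hd : Diff A f e e')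
    (hP : ∀ d ∈ rm A e e', γ (mg f e e' d) = γ d) (h1 : f e ≠ e) (h2 : f e' ≠ e') :
    γ (f e) = γ (f e') := by
  obtain ⟨P, hPi, p1, p2⟩ := hd
  obtain ⟨b, hb, hbe⟩ := surj hm hi he'
  have j1 := hPi e he
  have j2 := hPi e' he'
  have j3 := hPi b hb
  -- the step from `b` goes to `f e`; the other steps stay in the orbit of `e'`
  have hne : e ≠ e' := by rintro rfl; exact p1 p2
  have hbne : b ≠ e' := by rintro rfl; exact h2 hbe
  have hbe' : b ≠ e := by rintro rfl; rw [hbe] at j1; tauto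
  have k1 := hP b (mem_rm.2 ⟨hb, hbe', hbne⟩)
  have k2 : mg f e e' b = f e := by
    unfold mg
    rw [hbe, if_neg hne.symm, if_pos rfl, if_neg h1]
  rw [k2] at k1
  -- now `γ b = γ (f e')`
  have k3 := inv_fix hm hi (fun d => P d ∧ (if d = e' then γ b else γ d) = γ b) he' (by
    intro d hd hde
    by_cases hde2 : d = e
    · have : ¬ P (f d) := by rw [hde2, j1]; exact p1
      have : ¬ P d := by rw [hde2]; exact p1
      tauto
    · have j4 := hPi d hd
      have j5 := hi d hd b hb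
      have k4 := hP d (mem_rm.2 ⟨hd, hde2, hde⟩)
      unfold mg at k4
      grind)
  simp only [if_true, p2, true_and, iff_true] at k3
  rw [if_neg h2] at k3
  rw [k1, k3.2]

lemma ex2_val {T : Type*} {γ : D → T} (hm : ∀ d ∈ A, f d ∈ A)
    (hi : ∀ d ∈ A, ∀ d' ∈ A, f d = f d' → d = d')
    (he : e ∈ A) (he' : e' ∈ A) (hd : Diff A f e e') (h3 : ¬ (f e = e ∧ f e' = e'))
    (hP : ∀ d ∈ rm A e e', γ (mg f e e' d) = γ d) :
    ∀ d ∈ A, ex2 f e e' γ (f d) = ex2 f e e' γ d := by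
  intro d hd'
  have h2 := mg_two hm hi he he' hd hP
  have hP' := hP d
  rw [mem_rm] at hP'
  obtain ⟨P, hPi, p1, p2⟩ := hd
  have j1 := hPi e he
  have j2 := hPi e' he'
  have i1 := hi d hd' e he
  have i2 := hi d hd' e' he'
  have i3 := hi e he e' he'
  unfold mg at hP'
  unfold ex2 mv
  grind

lemma NO_mg {n : ℕ} (hm : ∀ d ∈ A, f d ∈ A) (hi : ∀ d ∈ A, ∀ d' ∈ A, f d = f d' → d = d')
    (he : e ∈ A) (he' : e' ∈ A) (hd : Diff A f e e') (h3 : ¬ (f e = e ∧ f e' = e'))
    (h : NO A f (n + 1)) : NO (rm A e e') (mg f e e') n := by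
  obtain ⟨ψ, hψ, hs⟩ := h
  obtain ⟨P, hPi, p1, p2⟩ := hd
  have j1 := hPi e he
  have j2 := hPi e' he'
  have l1 := hψ e he
  have l2 := hψ e' he'
  obtain ⟨τ, hτ⟩ : ∃ τ : ℕ → ℕ, τ = fun i => if i = ψ e' then n else if i = n then ψ e' else i :=
    ⟨_, rfl⟩
  refine ⟨fun d => if τ (ψ d) = n then τ (ψ e) else τ (ψ d), ?_, ?_⟩
  · refine mg_val (γ := fun d => if τ (ψ d) = n then τ (ψ e) else τ (ψ d))
      (fun d hd => by simp only [hψ d hd]) he he' ?_
    have : τ (ψ e') = n := by rw [hτ]; simp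
    simp only [this, if_true]
    split_ifs with h5
    · rfl
    · rfl
  · intro i hi'
    -- a dart of the class
    obtain ⟨d, hd, hdi⟩ : ∃ d ∈ A, τ (ψ d) = i := by
      by_cases h6 : i = ψ e'
      · obtain ⟨d, hd, hdi⟩ := hs n (by omega)
        refine ⟨d, hd, ?_⟩
        rw [hτ]
        simp only [hdi]
        split_ifs with h7
        · omega
        · exact h6.symm
      · obtain ⟨d, hd, hdi⟩ := hs i (by omega)
        refine ⟨d, hd, ?_⟩
        rw [hτ]
        simp only [hdi]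
        rw [if_neg h6, if_neg (by omega)]
    have k1 := hm e he
    have k2 := hm e' he'
    have i3 := hi e he e' he'
    have t1 : τ (ψ e') = n := by rw [hτ]; simp
    by_cases hde : d = e
    · subst hde
      by_cases hee : f d = d
      · refine ⟨f e', mem_rm.2 ⟨k2, ?_, ?_⟩, ?_⟩ <;> grind
      · refine ⟨f d, mem_rm.2 ⟨k1, ?_, ?_⟩, ?_⟩ <;> grind
    · by_cases hde' : d = e'
      · exfalso
        rw [hde', t1] at hdi
        omega
      · refine ⟨d, mem_rm.2 ⟨hd, hde, hde'⟩, ?_⟩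
        simp only [hdi]
        rw [if_neg (by omega)]

end gen

end Pool.Agent.V8H82.PF
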