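import Pool.Agent.V8H82.PF.Reduce

/-!
# Orbits: iterates, positions, distances
-/

set_option autoImplicit false
set_option linter.unusedVariables false
set_option linter.unusedSectionVars false

namespace Pool.Agent.V8H82.PF

open Finset List

variable {D : Type} {A : Finset D} {f : D → D}

lemma it_mem (hm : ∀ d ∈ A, f d ∈ A) {a : D} (ha : a ∈ A) (k : ℕ) : f^[k] a ∈ A := by
  induction k with
  | zero => exact ha
  | succ k ih =>
    rw [Function.iterate_succ_apply']
    exact hm _ ih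

lemma it_inj (hm : ∀ d ∈ A, f d ∈ A) (hi : ∀ d ∈ A, ∀ d' ∈ A, f d = f d' → d = d') (k : ℕ)
    {a b : D} (ha : a ∈ A) (hb : b ∈ A) (h : f^[k] a = f^[k] b) : a = b := by
  induction k with
  | zero => exact h
  | succ k ih =>
    rw [Function.iterate_succ_apply', Function.iterate_succ_apply'] at h
    exact ih (hi _ (it_mem hm ha k) _ (it_mem hm hb k) h)

/-- the same orbit -/
lemma reach (hm : ∀ d ∈ A, f d ∈ A) (hi : ∀ d ∈ A, ∀ d' ∈ A, f d = f d' → d = d') {a b : D}
    (ha : a ∈ A) (h : Same A f a b) : ∃ k, f^[k] a = b := by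
  classical
  obtain ⟨S, hS⟩ : ∃ S, S = A.filter fun z => ∃ k, f^[k] a = z := ⟨_, rfl⟩
  have mS : ∀ z, z ∈ S ↔ z ∈ A ∧ ∃ k, f^[k] a = z := fun z => by rw [hS, Finset.mem_filter]
  have hmS : ∀ z ∈ S, f z ∈ S := by
    intro z hz
    obtain ⟨h1, k, hk⟩ := (mS z).1 hz
    exact (mS _).2 ⟨hm z h1, k + 1, by rw [Function.iterate_succ_apply', hk]⟩
  have hiS : ∀ z ∈ S, ∀ z' ∈ S, f z = f z' → z = z' := fun z hz z' hz' h1 =>
    hi z ((mS z).1 hz).1 z' ((mS z').1 hz').1 h1
  refine (h (fun z => ∃ k, f^[k] a = z) fun d hd => ?_).1 ⟨0, rfl⟩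
  constructor
  · intro h1
    have h2 : f d ∈ S := (mS _).2 ⟨hm d hd, h1⟩
    obtain ⟨w, hw, hw2⟩ := surj hmS hiS h2
    have h3 := hi w ((mS w).1 hw).1 d hd hw2
    rw [← h3]
    exact ((mS w).1 hw).2
  · rintro ⟨k, hk⟩
    exact ⟨k + 1, by rw [Function.iterate_succ_apply', hk]⟩

open Classical in
/-- the number of steps from `a` to `z` -/
noncomputable def ps (f : D → D) (a z : D) : ℕ := if h : ∃ k, f^[k] a = z then Nat.find h else 0

lemma ps_spec {a z : D} (h : ∃ k, f^[k] a = z) : f^[ps f a z] a = z := by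
  classical
  unfold ps
  rw [dif_pos h]
  exact Nat.find_spec h

lemma ps_le {a z : D} {k : ℕ} (h : f^[k] a = z) : ps f a z ≤ k := by
  classical
  unfold ps
  rw [dif_pos ⟨k, h⟩]
  exact Nat.find_min' _ h

lemma ps_self (a : D) : ps f a a = 0 := Nat.le_zero.1 (ps_le (k := 0) rfl)

lemma ps_pos {a z : D} (h : ∃ k, f^[k] a = z) (hne : z ≠ a) : 0 < ps f a z := by
  rcases Nat.eq_zero_or_pos (ps f a z) with h1 | h1
  · have h2 := ps_spec h
    rw [h1] at h2
    exact absurd h2.symm hne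
  · exact h1

lemma ps_inj {a z z' : D} (h : ∃ k, f^[k] a = z) (h' : ∃ k, f^[k] a = z')
    (he : ps f a z = ps f a z') : z = z' := by
  rw [← ps_spec h, ← ps_spec h', he]

lemma ps_step (hm : ∀ d ∈ A, f d ∈ A) (hi : ∀ d ∈ A, ∀ d' ∈ A, f d = f d' → d = d') {a z : D}
    (ha : a ∈ A) (hz : z ∈ A) (h : ∃ k, f^[k] a = z) (hne : f z ≠ a) :
    ps f a (f z) = ps f a z + 1 := by
  have h1 : f^[ps f a z + 1] a = f z := by rw [Function.iterate_succ_apply', ps_spec h]
  refine le_antisymm (ps_le h1) ?_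
  have h2 := ps_spec (f := f) (a := a) (z := f z) ⟨_, h1⟩
  obtain ⟨j, hj⟩ : ∃ j, ps f a (f z) = j + 1 := by
    cases h3 : ps f a (f z) with
    | zero =>
      rw [h3] at h2
      exact absurd h2.symm hne
    | succ j => exact ⟨j, rfl⟩
  rw [hj, Function.iterate_succ_apply'] at h2
  have h4 := hi _ (it_mem hm ha j) z hz h2
  have h5 := ps_le h4
  omega

lemma ps_last (hm : ∀ d ∈ A, f d ∈ A) {a z z' : D} (hz : ∃ k, f^[k] a = z) (h : f z = a)
    (hz' : ∃ k, f^[k] a = z') : ps f a z' ≤ ps f a z := by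
  have h1 : Function.IsPeriodicPt f (ps f a z + 1) a := by
    show f^[ps f a z + 1] a = a
    rw [Function.iterate_succ_apply', ps_spec hz, h]
  obtain ⟨k, hk⟩ := hz'
  have h2 : f^[k % (ps f a z + 1)] a = z' := by
    rw [h1.iterate_mod_apply, hk]
  have h3 := ps_le h2
  have h4 : k % (ps f a z + 1) < ps f a z + 1 := Nat.mod_lt _ (Nat.succ_pos _)
  omega

open Classical in
/-- the number of steps to `o` -/
noncomputable def ds (f : D → D) (o z : D) : ℕ := if h : ∃ k, f^[k] z = o then Nat.find h else 0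

lemma ds_self (o : D) : ds f o o = 0 := by
  classical
  unfold ds
  rw [dif_pos ⟨0, rfl⟩]
  exact Nat.le_zero.1 (Nat.find_min' _ rfl)

lemma ds_step {o z : D} (h : ∃ k, f^[k] z = o) (hne : z ≠ o) :
    ds f o z = ds f o (f z) + 1 := by
  classical
  obtain ⟨k, hk⟩ := h
  have h' : ∃ k, f^[k] (f z) = o := by
    cases k with
    | zero => exact absurd hk hne
    | succ k => exact ⟨k, by rw [← Function.iterate_succ_apply]; exact hk⟩
  have h : ∃ k, f^[k] z = o := ⟨k, hk⟩
  have h1 : ds f o z = Nat.find h := by unfold ds; rw [dif_pos h]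
  have h2 : ds f o (f z) = Nat.find h' := by unfold ds; rw [dif_pos h']
  rw [h1, h2]
  refine le_antisymm (Nat.find_min' _ ?_) ?_
  · rw [Function.iterate_succ_apply]
    exact Nat.find_spec h'
  · have h3 := Nat.find_spec h
    cases h4 : Nat.find h with
    | zero =>
      rw [h4] at h3
      exact absurd h3 hne
    | succ j =>
      rw [h4, Function.iterate_succ_apply] at h3
      have := Nat.find_min' h' h3
      omega

/-! ### Maps with one vertex and one face -/

/-- one vertex and one face -/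
structure Uni (M : Sf D) : Prop where
  ok : M.Ok
  v : ∀ d ∈ M.A, Same M.A M.cw M.o d
  f : ∀ d ∈ M.A, Same M.A M.fc M.o d

lemma Good.uni {ι : Type} [IsEmpty ι] {M : Sf D} {B : ι → Cv D} {g : ℕ} (h : Good g M B)
    (hR : Rdc M B) : Uni M where
  ok := h.ok
  v d hd := by
    rcases hR.r2 d hd with h1 | ⟨i, _⟩
    · exact h1
    · exact isEmptyElim i
  f d hd := by
    refine h.ok.conn' (fun z => Same M.A M.fc M.o z) (fun z hz => ?_) (fun z hz => ?_)
      (Same.refl _) d hd
    · exact ⟨fun h1 => h1.trans (Same.step hz).symm, fun h1 => h1.trans (Same.step hz)⟩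
    · by_cases h1 : z = M.o
      · rw [h1, h.ok.ro]
      · have h2 := hR.r1 z hz h1 (fun i => isEmptyElim i)
        exact ⟨fun h3 => h3.trans h2.symm, fun h3 => h3.trans h2⟩

end Pool.Agent.V8H82.PF
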