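import Pool.Agent.V8H82.PF.Iso

/-!
# Positivity of the twist about a letter
-/

set_option autoImplicit false
set_option linter.unusedSectionVars false
set_option linter.unusedVariables false

namespace Pool.Agent.V8H82.PF

open Pool.Agent.N513.PF

section words

variable {α : Type} [DecidableEq α] {n : ℕ} {p : α × Bool → ℕ}

lemma fst_of {l e : α × Bool} (h1 : l ≠ e) (h2 : l ≠ iv e) : l.1 ≠ e.1 := by
  intro h3
  obtain ⟨a, b⟩ := l
  obtain ⟨c, d⟩ := e
  simp only at h3
  subst h3
  unfold iv at h2
  cases b <;> cases d <;> simp_all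

/-- the word of a power of the letter `e` -/
def pw (e : α × Bool) (k : ℤ) : List (α × Bool) :=
  if 0 ≤ k then List.replicate k.natAbs e else List.replicate k.natAbs (iv e)

lemma pw_nat (e : α × Bool) (m : ℕ) : pw e m = List.replicate m e := by
  unfold pw
  rw [if_pos (by omega)]
  simp

lemma pw_neg (e : α × Bool) (m : ℕ) : pw e (-(m : ℤ)) = List.replicate m (iv e) := by
  unfold pw
  by_cases h : m = 0
  · subst h
    simp
  · rw [if_neg (by omega)]
    simp

lemma mk_rep (c : α × Bool) (m : ℕ) : FreeGroup.mk (List.replicate m c) = G c ^ m := by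
  induction m with
  | zero => rfl
  | succ m ih => rw [List.replicate_succ, mk_cons, ih, pow_succ']

lemma mk_pw (e : α × Bool) (k : ℤ) : FreeGroup.mk (pw e k) = G e ^ k := by
  obtain ⟨m, rfl | rfl⟩ := k.eq_nat_or_neg
  · rw [pw_nat, mk_rep, zpow_natCast]
  · rw [pw_neg, mk_rep, zpow_neg, zpow_natCast, G_inv, inv_pow]

/-- the word of a list of syllables -/
def wd (e : α × Bool) : List (ℤ × (α × Bool)) → ℤ → List (α × Bool)
  | [], kf => pw e kf
  | (k, l) :: L, kf => pw e k ++ l :: wd e L kf

/-- reduced lists of syllables, read from the direction `q` -/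
def Rs (p : α × Bool → ℕ) (e : α × Bool) : ℕ → List (ℤ × (α × Bool)) → Prop
  | _, [] => True
  | q, (k, l) :: L => l.1 ≠ e.1 ∧ (k = 0 → p l ≠ q) ∧ Rs p e (p (iv l)) L

lemma red_cons {a : α × Bool} {w : List (α × Bool)} (hw : FreeGroup.IsReduced w)
    (h : ∀ s, w ≠ iv a :: s) : FreeGroup.IsReduced (a :: w) := by
  cases w with
  | nil => exact FreeGroup.IsReduced.singleton
  | cons b w =>
    rw [FreeGroup.isReduced_cons_cons]
    refine ⟨fun h1 => ?_, hw⟩
    by_contra h2
    apply h w
    congr 1
    refine Prod.ext h1.symm ?_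
    show b.2 = !a.2
    revert h2
    cases b.2 <;> cases a.2 <;> simp

lemma red_rep {c : α × Bool} {w : List (α × Bool)} (hw : FreeGroup.IsReduced w)
    (h : ∀ s, w ≠ iv c :: s) (m : ℕ) : FreeGroup.IsReduced (List.replicate m c ++ w) := by
  induction m with
  | zero => exact hw
  | succ m ih =>
    rw [List.replicate_succ, List.cons_append]
    refine red_cons ih fun s hs => ?_
    cases m with
    | zero => exact h s hs
    | succ m =>
      rw [List.replicate_succ, List.cons_append] at hs
      exact iv_ne c (List.cons.inj hs).1.symm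

lemma red_pw {e : α × Bool} {w : List (α × Bool)} (hw : FreeGroup.IsReduced w)
    (h : ∀ l s, w = l :: s → l.1 ≠ e.1) (k : ℤ) : FreeGroup.IsReduced (pw e k ++ w) := by
  obtain ⟨m, rfl | rfl⟩ := k.eq_nat_or_neg
  · rw [pw_nat]
    exact red_rep hw (fun s hs => h _ _ hs rfl) m
  · rw [pw_neg]
    exact red_rep (c := iv e) hw (fun s hs => h _ _ hs rfl) m

/-- the first letter of a word of syllables -/
lemma wd_hd {e : α × Bool} {q : ℕ} {L : List (ℤ × (α × Bool))} (hL : Rs p e q L) (kf : ℤ)
    {m : α × Bool} (hm : m.1 ≠ e.1) (hq : q = p m) (s : List (α × Bool)) :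
    wd e L kf ≠ m :: s := by
  have key : ∀ (k : ℤ) (w : List (α × Bool)), pw e k ++ w = m :: s → k = 0 ∧ w = m :: s := by
    intro k w hw
    obtain ⟨j, rfl | rfl⟩ := k.eq_nat_or_neg
    · rw [pw_nat] at hw
      cases j with
      | zero => exact ⟨rfl, hw⟩
      | succ j =>
        rw [List.replicate_succ, List.cons_append] at hw
        exact absurd (congrArg Prod.fst (List.cons.inj hw).1).symm hm
    · rw [pw_neg] at hw
      cases j with
      | zero => exact ⟨rfl, hw⟩
      | succ j =>
        rw [List.replicate_succ, List.cons_append] at hw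
        exact absurd (congrArg Prod.fst (List.cons.inj hw).1).symm hm
  intro h1
  cases L with
  | nil =>
    have := (key kf [] (by rw [List.append_nil]; exact h1)).2
    exact absurd this (by simp)
  | cons x L =>
    obtain ⟨k, l⟩ := x
    obtain ⟨h2, h3⟩ := key k _ h1
    have h4 := (List.cons.inj h3).1
    exact hL.2.1 h2 (by rw [h4, hq])

lemma red_wd (e : α × Bool) : ∀ (L : List (ℤ × (α × Bool))) (q : ℕ) (kf : ℤ), Rs p e q L →
    FreeGroup.IsReduced (wd e L kf) := by
  intro L
  induction L with
  | nil =>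
    intro q kf _
    have := red_pw (e := e) (w := []) FreeGroup.IsReduced.nil (fun l s h => by simp at h) kf
    rw [List.append_nil] at this
    exact this
  | cons x L ih =>
    intro q kf hL
    obtain ⟨k, l⟩ := x
    refine red_pw (red_cons (ih _ kf hL.2.2) fun s hs => ?_) (fun l' s hs => ?_) k
    · exact wd_hd hL.2.2 kf (m := iv l) hL.1 rfl s hs
    · rw [← (List.cons.inj hs).1]
      exact hL.1

/-- every reduced word is a word of syllables -/
lemma ex_wd (h : Arr n p) (e : α × Bool) : ∀ (w : List (α × Bool)) (q : ℕ), FreeGroup.IsReduced w →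
    (∀ l s, w = l :: s → p l ≠ q) → ∃ L kf, wd e L kf = w ∧ Rs p e q L := by
  intro w
  induction w with
  | nil =>
    intro q _ _
    exact ⟨[], 0, by simp [wd, pw], trivial⟩
  | cons c w ih =>
    intro q hr hq
    have hr' : FreeGroup.IsReduced w := red_sub hr ⟨[c], [], by simp⟩
    have hc : ∀ l s, w = l :: s → p l ≠ p (iv c) := by
      intro l s hw hp
      have := h.inj hp
      subst this
      rw [hw] at hr
      have e1 : (FreeGroup.mk (c :: iv c :: s)).toWord = c :: iv c :: s := mk_word hr
      exact red_ne e1 rfl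
    obtain ⟨L, kf, h1, h2⟩ := ih (p (iv c)) hr' hc
    by_cases hce : c.1 = e.1
    · have hne : ∀ s, w ≠ iv c :: s := fun s hs => hc _ _ hs rfl
      have key : ∀ k : ℤ, (∃ t, pw e k ++ t = w) →
          ∃ k' : ℤ, pw e k' = c :: pw e k ∧ k' ≠ 0 := by
        rintro k ⟨t, ht⟩
        by_cases hc1 : c = e
        · subst hc1
          obtain ⟨m, rfl | rfl⟩ := k.eq_nat_or_neg
          · refine ⟨((m + 1 : ℕ) : ℤ), ?_, by omega⟩
            rw [pw_nat, pw_nat, List.replicate_succ]
          · cases m with
            | zero =>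
              refine ⟨((0 + 1 : ℕ) : ℤ), ?_, by omega⟩
              rw [pw_nat, pw_neg, List.replicate_succ]
              rfl
            | succ m =>
              exfalso
              rw [pw_neg, List.replicate_succ, List.cons_append] at ht
              exact hne _ ht.symm
        · have hc2 : c = iv e := by
            by_contra hc3
            exact fst_of hc1 hc3 hce
          obtain ⟨m, rfl | rfl⟩ := k.eq_nat_or_neg
          · cases m with
            | zero =>
              refine ⟨-((0 + 1 : ℕ) : ℤ), ?_, by omega⟩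
              rw [pw_nat, pw_neg, List.replicate_succ, hc2]
              rfl
            | succ m =>
              exfalso
              rw [pw_nat, List.replicate_succ, List.cons_append] at ht
              refine hne (List.replicate m e ++ t) ?_
              rw [hc2, iv_iv]
              exact ht.symm
          · refine ⟨-((m + 1 : ℕ) : ℤ), ?_, by omega⟩
            rw [pw_neg, pw_neg, List.replicate_succ, hc2]
      cases L with
      | nil =>
        obtain ⟨k', h3, h4⟩ := key kf ⟨[], by rw [List.append_nil]; exact h1⟩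
        refine ⟨[], k', ?_, trivial⟩
        show pw e k' = c :: w
        rw [h3]
        have : pw e kf = w := h1
        rw [this]
      | cons x L =>
        obtain ⟨k, l⟩ := x
        obtain ⟨k', h3, h4⟩ := key k ⟨_, h1⟩
        refine ⟨(k', l) :: L, kf, ?_, h2.1, fun h5 => absurd h5 h4, h2.2.2⟩
        show pw e k' ++ l :: wd e L kf = c :: w
        rw [h3, List.cons_append]
        have : pw e k ++ l :: wd e L kf = w := h1
        rw [this]
    · refine ⟨(0, c) :: L, kf, ?_, hce, fun _ => hq c w rfl, h2⟩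
      show pw e 0 ++ c :: wd e L kf = c :: w
      rw [h1]
      rfl

end words

section pos

variable {α : Type} [DecidableEq α] {n : ℕ} {p : α × Bool → ℕ}

/-- left of the letter `e` -/
def ep (p : α × Bool → ℕ) (e : α × Bool) (q : ℕ) : ℤ := if p (iv e) < q ∧ q < p e then 1 else 0

/-- the syllables of the image -/
def tL (p : α × Bool → ℕ) (e : α × Bool) : ℤ → List (ℤ × (α × Bool)) → List (ℤ × (α × Bool))
  | _, [] => []
  | a, (k, l) :: L => (k - a + ep p e (p l), l) :: tL p e (ep p e (p (iv l))) L

/-- the last exponent of the image -/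
def tk (p : α × Bool → ℕ) (e : α × Bool) : ℤ → List (ℤ × (α × Bool)) → ℤ → ℤ
  | a, [], kf => kf - a
  | _, (_, l) :: L, kf => tk p e (ep p e (p (iv l))) L kf

lemma tL_rs (e : α × Bool) : ∀ (L : List (ℤ × (α × Bool))) (q : ℕ), Rs p e q L →
    Rs p e q (tL p e (ep p e q) L) := by
  intro L
  induction L with
  | nil => intro q _; trivial
  | cons x L ih =>
    intro q hL
    obtain ⟨k, l⟩ := x
    refine ⟨hL.1, fun h1 h2 => ?_, ih _ hL.2.2⟩
    rw [h2] at h1
    exact hL.2.1 (by omega) h2

variable {θ : FreeGroup α →* FreeGroup α} {e : α × Bool}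

/-- the image of a word of syllables -/
lemma im_eq (hθ : ∀ l, θ (G l) = G e ^ ep p e (p l) * G l * (G e ^ ep p e (p (iv l)))⁻¹) :
    ∀ (L : List (ℤ × (α × Bool))) (kf a : ℤ),
    FreeGroup.mk (wd e (tL p e a L) (tk p e a L kf)) =
      G e ^ (-a) * θ (FreeGroup.mk (wd e L kf)) := by
  have he : θ (G e) = G e := by
    rw [hθ]
    have e1 : ep p e (p e) = 0 := by
      unfold ep
      rw [if_neg (by omega)]
    have e2 : ep p e (p (iv e)) = 0 := by
      unfold ep
      rw [if_neg (by omega)]
    rw [e1, e2]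
    group
  intro L
  induction L with
  | nil =>
    intro kf a
    show FreeGroup.mk (pw e (kf - a)) = G e ^ (-a) * θ (FreeGroup.mk (pw e kf))
    rw [mk_pw, mk_pw, map_zpow, he, ← zpow_add]
    congr 1
    ring
  | cons x L ih =>
    intro kf a
    obtain ⟨k, l⟩ := x
    show FreeGroup.mk (pw e (k - a + ep p e (p l)) ++
      l :: wd e (tL p e (ep p e (p (iv l))) L) (tk p e (ep p e (p (iv l))) L kf)) =
      G e ^ (-a) * θ (FreeGroup.mk (pw e k ++ l :: wd e L kf))
    rw [mk_app, mk_cons, ih, mk_app, mk_cons, mk_pw, mk_pw, map_mul, map_mul, map_zpow, he, hθ]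
    have e1 : G e ^ (k - a + ep p e (p l)) = G e ^ (-a) * G e ^ k * G e ^ (ep p e (p l)) := by
      rw [← zpow_add, ← zpow_add]
      congr 1
      ring
    rw [e1]
    group

lemma cle_rep (c : α × Bool) (q : ℕ) (m : ℕ) (s t : List (α × Bool))
    (h0 : m = 0 → cle n p q s t) (h1 : m ≠ 0 → cle n p (p (iv c)) s t) :
    cle n p q (List.replicate m c ++ s) (List.replicate m c ++ t) := by
  induction m generalizing q with
  | zero => exact h0 rfl
  | succ m ih =>
    rw [List.replicate_succ, List.cons_append, List.cons_append]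
    refine cle_cons (ih (p (iv c)) (fun hm => h1 (by omega)) (fun hm => h1 (by omega)))

lemma cle_app (q : ℕ) (u : List (α × Bool)) (c : α × Bool) (s t : List (α × Bool))
    (h : cle n p (p (iv c)) s t) : cle n p q (u ++ c :: s) (u ++ c :: t) := by
  induction u generalizing q with
  | nil => exact cle_cons h
  | cons a u ih => exact cle_cons (ih _)

/-- a shift to the left -/
lemma cmpA (h : Arr n p) {q : ℕ} (hq : q < n) (hq1 : q < p (iv e) ∨ p e < q) {l : α × Bool}
    (hl1 : p (iv e) < p l) (hl2 : p l < p e) (k : ℤ) (W W' : List (α × Bool)) :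
    cle n p q (pw e k ++ l :: W) (pw e (k + 1) ++ l :: W') := by
  have b1 := h.hi e
  have b2 := h.hi (iv e)
  have b3 := h.hi l
  obtain ⟨m, rfl | rfl⟩ := k.eq_nat_or_neg
  · have e1 : ((m : ℤ) + 1) = ((m + 1 : ℕ) : ℤ) := by push_cast; rfl
    rw [e1, pw_nat, pw_nat, List.replicate_succ', List.append_assoc]
    refine cle_rep e q m _ _ (fun _ => cle_hd ?_) (fun _ => cle_hd ?_)
    · show key n q (p l) < key n q (p e)
      rw [key_val hq b3, key_val hq b1]
      split_ifs <;> omega
    · show key n (p (iv e)) (p l) < key n (p (iv e)) (p e)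
      rw [key_val b2 b3, key_val b2 b1]
      split_ifs <;> omega
  · cases m with
    | zero =>
      have e1 : (-((0 : ℕ) : ℤ) + 1) = ((0 + 1 : ℕ) : ℤ) := by norm_num
      rw [e1, pw_nat, pw_neg]
      refine cle_hd ?_
      show key n q (p l) < key n q (p e)
      rw [key_val hq b3, key_val hq b1]
      split_ifs <;> omega
    | succ m =>
      have e1 : (-((m + 1 : ℕ) : ℤ) + 1) = -(m : ℤ) := by push_cast; ring
      rw [e1, pw_neg, pw_neg, List.replicate_succ', List.append_assoc]
      refine cle_rep (iv e) q m _ _ (fun _ => cle_hd ?_) (fun _ => cle_hd ?_)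
      · show key n q (p (iv e)) < key n q (p l)
        rw [key_val hq b3, key_val hq b2]
        split_ifs <;> omega
      · rw [iv_iv]
        show key n (p e) (p (iv e)) < key n (p e) (p l)
        rw [key_val b1 b3, key_val b1 b2]
        split_ifs <;> omega

/-- a shift to the right -/
lemma cmpB (h : Arr n p) {q : ℕ} (hq1 : p (iv e) < q) (hq2 : q < p e)
    {R R' : List (α × Bool)} (hR : hd p R < p (iv e) ∨ p e < hd p R)
    (hR' : hd p R' < p (iv e) ∨ p e < hd p R') (k : ℤ) :
    cle n p q (pw e k ++ R) (pw e (k - 1) ++ R') := by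
  have b1 := h.hi e
  have b2 := h.hi (iv e)
  have b3 := hd_lt h R
  have b4 := hd_lt h R'
  have hq : q < n := by omega
  obtain ⟨m, rfl | rfl⟩ := k.eq_nat_or_neg
  · cases m with
    | zero =>
      have e1 : (((0 : ℕ) : ℤ) - 1) = -((0 + 1 : ℕ) : ℤ) := by norm_num
      rw [e1, pw_nat, pw_neg]
      refine cle_hd ?_
      show key n q (hd p R) < key n q (p (iv e))
      rw [key_val hq b3, key_val hq b2]
      split_ifs <;> omega
    | succ m =>
      have e1 : (((m + 1 : ℕ) : ℤ) - 1) = (m : ℤ) := by push_cast; ring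
      rw [e1, pw_nat, pw_nat, List.replicate_succ', List.append_assoc]
      refine cle_rep e q m _ _ (fun _ => cle_hd ?_) (fun _ => cle_hd ?_)
      · show key n q (p e) < key n q (hd p R')
        rw [key_val hq b1, key_val hq b4]
        split_ifs <;> omega
      · show key n (p (iv e)) (p e) < key n (p (iv e)) (hd p R')
        rw [key_val b2 b1, key_val b2 b4]
        split_ifs <;> omega
  · have e1 : (-(m : ℤ) - 1) = -((m + 1 : ℕ) : ℤ) := by push_cast; ring
    rw [e1, pw_neg, pw_neg, List.replicate_succ', List.append_assoc]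
    refine cle_rep (iv e) q m _ _ (fun _ => cle_hd ?_) (fun _ => cle_hd ?_)
    · show key n q (hd p R) < key n q (p (iv e))
      rw [key_val hq b3, key_val hq b2]
      split_ifs <;> omega
    · rw [iv_iv]
      show key n (p e) (hd p R) < key n (p e) (p (iv e))
      rw [key_val b1 b3, key_val b1 b2]
      split_ifs <;> omega

/-- the comparison -/
lemma cmp (h : Arr n p) (he : p (iv e) < p e) : ∀ (L : List (ℤ × (α × Bool))) (q : ℕ) (kf : ℤ),
    q < n → q ≠ p e → q ≠ p (iv e) → Rs p e q L →
    cle n p q (wd e L kf) (wd e (tL p e (ep p e q) L) (tk p e (ep p e q) L kf)) := by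
  intro L
  induction L with
  | nil =>
    intro q kf hq hq1 hq2 _
    show cle n p q (pw e kf) (pw e (kf - ep p e q))
    unfold ep
    have h0 := h.lo (iv e)
    by_cases h1 : p (iv e) < q ∧ q < p e
    · rw [if_pos h1]
      have := cmpB h h1.1 h1.2 (R := []) (R' := []) (Or.inl h0) (Or.inl h0) kf
      rwa [List.append_nil, List.append_nil] at this
    · rw [if_neg h1, sub_zero]
      exact cle_refl _ _
  | cons x L ih =>
    intro q kf hq hq1 hq2 hL
    obtain ⟨k, l⟩ := x
    obtain ⟨hl, hk, hL'⟩ := hL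
    have hle : p l ≠ p e := fun h1 => hl (congrArg Prod.fst (h.inj h1))
    have hle' : p l ≠ p (iv e) := fun h1 =>
      hl (congrArg Prod.fst (h.inj h1) : l.1 = (iv e).1)
    have hle2 : p (iv l) ≠ p e := fun h1 =>
      hl (congrArg Prod.fst (h.inj h1) : (iv l).1 = e.1)
    have hle2' : p (iv l) ≠ p (iv e) := fun h1 =>
      hl (congrArg Prod.fst (h.inj h1) : (iv l).1 = (iv e).1)
    have ih' := ih (p (iv l)) kf (h.hi _) hle2 hle2' hL'
    show cle n p q (pw e k ++ l :: wd e L kf) (pw e (k - ep p e q + ep p e (p l)) ++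
      l :: wd e (tL p e (ep p e (p (iv l))) L) (tk p e (ep p e (p (iv l))) L kf))
    by_cases h1 : p (iv e) < q ∧ q < p e
    · have e1 : ep p e q = 1 := if_pos h1
      by_cases h2 : p (iv e) < p l ∧ p l < p e
      · have e2 : ep p e (p l) = 1 := if_pos h2
        rw [e1, e2, sub_add_cancel]
        exact cle_app _ _ _ _ _ ih'
      · have e2 : ep p e (p l) = 0 := if_neg h2
        rw [e1, e2, add_zero]
        refine cmpB h h1.1 h1.2 ?_ ?_ k
        · show p l < p (iv e) ∨ p e < p l
          omega
        · show p l < p (iv e) ∨ p e < p l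
          omega
    · have e1 : ep p e q = 0 := if_neg h1
      by_cases h2 : p (iv e) < p l ∧ p l < p e
      · have e2 : ep p e (p l) = 1 := if_pos h2
        rw [e1, e2, sub_zero]
        exact cmpA h hq (by omega) h2.1 h2.2 k _ _
      · have e2 : ep p e (p l) = 0 := if_neg h2
        rw [e1, e2, sub_zero, add_zero]
        exact cle_app _ _ _ _ _ ih'

/-- the word of the image -/
lemma im_word (h : Arr n p) (he : p (iv e) < p e)
    (hθ : ∀ l, θ (G l) = G e ^ ep p e (p l) * G l * (G e ^ ep p e (p (iv l)))⁻¹)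
    {L : List (ℤ × (α × Bool))} (kf : ℤ) (hL : Rs p e 0 L) :
    (θ (FreeGroup.mk (wd e L kf))).toWord = wd e (tL p e 0 L) (tk p e 0 L kf) := by
  have h0 := h.lo (iv e)
  have e0 : ep p e 0 = 0 := if_neg (by omega)
  have h1 := im_eq hθ L kf 0
  rw [neg_zero, zpow_zero, one_mul] at h1
  rw [← h1]
  refine mk_word (red_wd (p := p) e _ 0 _ ?_)
  have := tL_rs e L 0 hL
  rwa [e0] at this

/-- **positivity** of the twist about a letter -/
theorem twN_up (h : Arr n p) (he : p (iv e) < p e)
    (hθ : ∀ l, θ (G l) = G e ^ ep p e (p l) * G l * (G e ^ ep p e (p (iv l)))⁻¹)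
    (u : FreeGroup α) : u = θ u ∨ lt n p u (θ u) := by
  have h0 := h.lo (iv e)
  have e0 : ep p e 0 = 0 := if_neg (by omega)
  obtain ⟨L, kf, h1, h2⟩ := ex_wd h e u.toWord 0 FreeGroup.isReduced_toWord
    (fun l s _ => (h.lo l).ne')
  have h3 : u = FreeGroup.mk (wd e L kf) := by rw [h1, FreeGroup.mk_toWord]
  have h4 := im_word h he hθ kf h2
  rw [← h3] at h4
  have h5 := cmp h he L 0 kf h.n0 (h.lo _).ne (h.lo _).ne h2
  rw [e0, ← h4, h1] at h5
  rcases h5 with h6 | h6
  · exact Or.inl (FreeGroup.toWord_injective (code_inj h _ _ 0 h.n0 h6))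
  · exact Or.inr h6

/-- the twist is not trivial -/
theorem twN_ne (h : Arr n p) (he : p (iv e) < p e)
    (hθ : ∀ l, θ (G l) = G e ^ ep p e (p l) * G l * (G e ^ ep p e (p (iv l)))⁻¹)
    {l : α × Bool} (hl1 : p (iv e) < p l) (hl2 : p l < p e) : θ (G l) ≠ G l := by
  intro h1
  have hl : l.1 ≠ e.1 := by
    refine fst_of ?_ ?_
    · rintro rfl
      omega
    · rintro rfl
      omega
  have h0 := h.lo l
  have h2 := im_word h he hθ (L := [(0, l)]) 0 ⟨hl, fun _ => h0.ne', trivial⟩
  have e1 : FreeGroup.mk (wd e [(0, l)] 0) = G l := rfl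
  rw [e1, h1, G_word] at h2
  have e2 : ep p e (p l) = 1 := if_pos ⟨hl1, hl2⟩
  have h3 : wd e (tL p e 0 [(0, l)]) (tk p e 0 [(0, l)] 0) =
      pw e (0 - 0 + ep p e (p l)) ++ l :: pw e (0 - ep p e (p (iv l))) := rfl
  rw [h3, e2] at h2
  have h4 : pw e (0 - 0 + 1) = [e] := rfl
  rw [h4] at h2
  have h5 := (List.cons.inj h2).1
  rw [h5] at hl
  exact hl rfl

end pos

end Pool.Agent.V8H82.PF
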