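import Pool.Agent.V8H82.PF.Curve

/-!
# Reduction of a map with a family of curves
-/

set_option autoImplicit false
set_option linter.unusedVariables false
set_option linter.unusedSectionVars false

namespace Pool.Agent.V8H82.PF

open Finset List

variable {D : Type} {ι : Type} {M : Sf D} {B : ι → Cv D} {g : ℕ}

/-- a map of genus at most `g` with a family of simple closed curves that pairwise share at most
one vertex -/
structure Good (g : ℕ) (M : Sf D) (B : ι → Cv D) : Prop where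
  ok : M.Ok
  lr : ∀ i, LR M (B i)
  sh : ∀ i j, i ≠ j → ∀ x1 ∈ (B i).c, ∀ x2 ∈ (B i).c, ∀ y1 ∈ (B j).c, ∀ y2 ∈ (B j).c,
    Same M.A M.cw x1 y1 → Same M.A M.cw x2 y2 → x1 = x2
  gen : ∃ a b, NO M.A M.cw a ∧ NO M.A M.fc b ∧ M.A.card + 3 ≤ 2 * a + 2 * b + 4 * g

/-- reduced -/
structure Rdc (M : Sf D) (B : ι → Cv D) : Prop where
  r1 : ∀ e ∈ M.A, e ≠ M.o → (∀ i, e ∉ (B i).c ∧ M.rev e ∉ (B i).c) →
    Same M.A M.fc e (M.rev e)
  r2 : ∀ d ∈ M.A, Same M.A M.cw M.o d ∨ ∃ i, ∃ x ∈ (B i).c, Same M.A M.cw x d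
  r3 : ∀ i, ∀ x ∈ (B i).c, (B i).c = [x] ∨
    ∃ j, j ≠ i ∧ ∃ y ∈ (B j).c, Same M.A M.cw x y

/-- two curves of the family meet -/
def Mt (M : Sf D) (B : ι → Cv D) (i j : ι) : Prop :=
  ∃ x ∈ (B i).c, ∃ y ∈ (B j).c, Same M.A M.cw x y

lemma NO.congr {A : Finset D} {f f' : D → D} {n : ℕ} (h : NO A f n)
    (hf : ∀ d ∈ A, f' d = f d) : NO A f' n := by
  obtain ⟨ψ, h1, h2⟩ := h
  exact ⟨ψ, fun d hd => by rw [hf d hd, h1 d hd], h2⟩

lemma NO.mono {A : Finset D} {f : D → D} {n m : ℕ} (h : NO A f n) (hm : m ≤ n) : NO A f m := by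
  obtain ⟨ψ, h1, h2⟩ := h
  exact ⟨ψ, h1, fun i hi => h2 i (by omega)⟩

variable [DecidableEq D]

lemma card_rm {A : Finset D} {e e' : D} (he : e ∈ A) (he' : e' ∈ A) (hne : e ≠ e') :
    (rm A e e').card + 2 = A.card := by
  unfold rm
  have h1 : e' ∈ A.erase e := Finset.mem_erase.2 ⟨hne.symm, he'⟩
  have h2 := Finset.card_erase_add_one h1
  have h3 := Finset.card_erase_add_one he
  omega

lemma Good.del {e : D} (h : Good g M B) (hD : M.DelH e)
    (hB : ∀ i, e ∉ (B i).c ∧ M.rev e ∉ (B i).c) : Good g (M.del e) B where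
  ok := hD.ok'
  lr i := hD.lr (h.lr i) (hB i).1 (hB i).2
  sh i j hij x1 hx1 x2 hx2 y1 hy1 y2 hy2 h1 h2 := by
    have mi := (hD.lr (h.lr i) (hB i).1 (hB i).2).mem
    have mj := (hD.lr (h.lr j) (hB j).1 (hB j).2).mem
    exact h.sh i j hij x1 hx1 x2 hx2 y1 hy1 y2 hy2 ((hD.same (mi _ hx1) (mj _ hy1)).1 h1)
      ((hD.same (mi _ hx2) (mj _ hy2)).1 h2)
  gen := by
    obtain ⟨a, b, h1, h2, h3⟩ := h.gen
    have s := hD.st
    have h4 := card_rm hD.he s.me' s.hne
    have h5 : NO (M.del e).A (M.del e).cw a :=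
      NO_sk h.ok.hi h.ok.hm hD.he s.me' s.hne s.f1 s.f2 s.nd h1
    have h6 : ∀ b', NO M.A M.fc (b' + 1) → NO (M.del e).A (M.del e).fc b' := fun b' hb' =>
      (NO_mg s.gm s.gi hD.he s.me' s.dif s.nd' hb').congr fun d hd => hD.fc_eq hd
    have h7 : (M.del e).A.card + 2 = M.A.card := h4
    rcases b with _ | b
    · refine ⟨a, 0, h5, ?_, by omega⟩
      exact ⟨fun _ => 0, fun _ _ => rfl, fun i hi => absurd hi (Nat.not_lt_zero _)⟩
    · exact ⟨a, b, h5, h6 b h2, by omega⟩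

lemma Good.gen_con {e : D} (h : Good g M B) (hC : M.ConH e) :
    ∃ a b, NO (M.con e).A (M.con e).cw a ∧ NO (M.con e).A (M.con e).fc b ∧
      (M.con e).A.card + 3 ≤ 2 * a + 2 * b + 4 * g := by
  obtain ⟨a, b, h1, h2, h3⟩ := h.gen
  have s := hC.st
  have h4 := card_rm hC.he s.me' s.hne
  have h5 : NO (M.con e).A (M.con e).fc b :=
    (NO_sk h.ok.fi h.ok.fm hC.he s.me' s.hne s.f1 s.f2 s.nd h2).congr fun d hd => hC.fc_eq hd
  have h6 : ∀ b', NO M.A M.cw (b' + 1) → NO (M.con e).A (M.con e).cw b' := fun b' hb' =>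
    NO_mg s.gm s.gi hC.he s.me' s.dif s.nd' hb'
  have h7 : (M.con e).A.card + 2 = M.A.card := h4
  rcases a with _ | a
  · refine ⟨0, b, ?_, h5, by omega⟩
    exact ⟨fun _ => 0, fun _ _ => rfl, fun i hi => absurd hi (Nat.not_lt_zero _)⟩
  · exact ⟨a, b, h6 a h1, h5, by omega⟩

lemma Good.conA {e : D} (h : Good g M B) (hC : M.ConH e)
    (hA : ∀ i, ∀ x ∈ (B i).c, ¬ Same M.A M.cw (M.rev e) x) :
    Good g (M.con e) (fun i => cvA M e (B i)) where
  ok := hC.ok'
  lr i := Sf.ConH.lrA hC (h.lr i) (hA i)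
  sh i j hij x1 hx1 x2 hx2 y1 hy1 y2 hy2 h1 h2 := by
    have key : ∀ x ∈ (B i).c, ∀ y ∈ (B j).c, Same (M.con e).A (M.con e).cw x y →
        Same M.A M.cw x y := by
      intro x hx y hy hxy
      rcases hC.same3 hxy with h4 | h4 | h4
      · exact h4
      · exact absurd h4.2 (hA j y hy)
      · exact absurd h4.1.symm (hA i x hx)
    exact h.sh i j hij x1 hx1 x2 hx2 y1 hy1 y2 hy2 (key _ hx1 _ hy1 h1) (key _ hx2 _ hy2 h2)
  gen := h.gen_con hC

open Classical in
/-- the family after the contraction of a dart of the curve `i` -/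
noncomputable def famB (M : Sf D) (e : D) (B : ι → Cv D) (i : ι) (l : List D) (j : ι) : Cv D :=
  if j = i then cvB (B i) l else cvA M e (B j)

lemma Good.conB {e : D} (h : Good g M B) (hC : M.ConH e) (i : ι) {l : List D}
    (hl : (B i).c ~r (e :: l))
    (hA : ∀ j, j ≠ i → ∀ x ∈ (B j).c, ¬ Same M.A M.cw (M.rev e) x) :
    Good g (M.con e) (famB M e B i l) where
  ok := hC.ok'
  lr j := by
    unfold famB
    split_ifs with h1
    · exact Sf.ConH.lrB hC (h.lr i) hl
    · exact Sf.ConH.lrA hC (h.lr j) (hA j h1)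
  sh j1 j2 hij x1 hx1 x2 hx2 y1 hy1 y2 hy2 h1 h2 := by
    have mc := Sf.ConH.mc hC (h.lr i) hl
    have ec := Sf.ConH.ec hC (h.lr i) hl
    have nd := (List.nodup_cons.1 (Sf.ConH.nodB hC (h.lr i) hl)).1
    unfold famB at hx1 hx2 hy1 hy2
    by_cases e1 : j1 = i
    · have e2 : j2 ≠ i := fun e2 => hij (e1.trans e2.symm)
      subst e1
      rw [if_pos rfl] at hx1 hx2
      rw [if_neg e2] at hy1 hy2
      have hx1' := (mc x1).2 (Or.inr hx1)
      have hx2' := (mc x2).2 (Or.inr hx2)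
      have hy1' : y1 ∈ (B j2).c := hy1
      have hy2' : y2 ∈ (B j2).c := hy2
      have key : ∀ x y, y ∈ (B j2).c → Same (M.con e).A (M.con e).cw x y →
          Same M.A M.cw x y ∨ (Same M.A M.cw x (M.rev e) ∧ Same M.A M.cw e y) := by
        intro x y hy hxy
        rcases hC.same3 hxy with h4 | h4 | h4
        · exact Or.inl h4
        · exact absurd h4.2 (hA j2 e2 y hy)
        · exact Or.inr h4
      rcases key x1 y1 hy1' h1 with k1 | k1 <;> rcases key x2 y2 hy2' h2 with k2 | k2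
      · exact h.sh j1 j2 hij x1 hx1' x2 hx2' y1 hy1' y2 hy2' k1 k2
      · exfalso
        have := h.sh j1 j2 hij x1 hx1' e ec y1 hy1' y2 hy2' k1 k2.2
        exact nd (this ▸ hx1)
      · exfalso
        have := h.sh j1 j2 hij x2 hx2' e ec y2 hy2' y1 hy1' k2 k1.2
        exact nd (this ▸ hx2)
      · exact (h.lr j1).dist x1 hx1' x2 hx2' (k1.1.trans k2.1.symm)
    · rw [if_neg e1] at hx1 hx2
      have hx1' : x1 ∈ (B j1).c := hx1
      have hx2' : x2 ∈ (B j1).c := hx2
      have key : ∀ x y, x ∈ (B j1).c → Same (M.con e).A (M.con e).cw x y →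
          Same M.A M.cw x y ∨ (Same M.A M.cw x e ∧ Same M.A M.cw (M.rev e) y) := by
        intro x y hx hxy
        rcases hC.same3 hxy with h4 | h4 | h4
        · exact Or.inl h4
        · exact Or.inr h4
        · exact absurd h4.1.symm (hA j1 e1 x hx)
      by_cases e2 : j2 = i
      · subst e2
        rw [if_pos rfl] at hy1 hy2
        have hy1' := (mc y1).2 (Or.inr hy1)
        have hy2' := (mc y2).2 (Or.inr hy2)
        rcases key x1 y1 hx1' h1 with k1 | k1 <;> rcases key x2 y2 hx2' h2 with k2 | k2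
        · exact h.sh j1 j2 hij x1 hx1' x2 hx2' y1 hy1' y2 hy2' k1 k2
        · exact h.sh j1 j2 hij x1 hx1' x2 hx2' y1 hy1' e ec k1 k2.1
        · exact h.sh j1 j2 hij x1 hx1' x2 hx2' e ec y2 hy2' k1.1 k2
        · exact (h.lr j1).dist x1 hx1' x2 hx2' (k1.1.trans k2.1.symm)
      · rw [if_neg e2] at hy1 hy2
        have hy1' : y1 ∈ (B j2).c := hy1
        have hy2' : y2 ∈ (B j2).c := hy2
        have key2 : ∀ x y, x ∈ (B j1).c → y ∈ (B j2).c → Same (M.con e).A (M.con e).cw x y →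
            Same M.A M.cw x y := by
          intro x y hx hy hxy
          rcases key x y hx hxy with h4 | h4
          · exact h4
          · exact absurd h4.2 (hA j2 e2 y hy)
        exact h.sh j1 j2 hij x1 hx1' x2 hx2' y1 hy1' y2 hy2' (key2 _ _ hx1' hy1' h1)
          (key2 _ _ hx2' hy2' h2)
  gen := h.gen_con hC

lemma Good.mt_del {e : D} (h : Good g M B) (hD : M.DelH e)
    (hB : ∀ i, e ∉ (B i).c ∧ M.rev e ∉ (B i).c) {i j : ι} (hm : Mt (M.del e) B i j) :
    Mt M B i j := by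
  obtain ⟨x, hx, y, hy, h1⟩ := hm
  have mi := (hD.lr (h.lr i) (hB i).1 (hB i).2).mem
  have mj := (hD.lr (h.lr j) (hB j).1 (hB j).2).mem
  exact ⟨x, hx, y, hy, (hD.same (mi _ hx) (mj _ hy)).1 h1⟩

lemma Good.mt_conA {e : D} (h : Good g M B) (hC : M.ConH e)
    (hA : ∀ i, ∀ x ∈ (B i).c, ¬ Same M.A M.cw (M.rev e) x) {i j : ι}
    (hm : Mt (M.con e) (fun i => cvA M e (B i)) i j) : Mt M B i j := by
  obtain ⟨x, hx, y, hy, h1⟩ := hm
  refine ⟨x, hx, y, hy, ?_⟩
  rcases hC.same3 h1 with h4 | h4 | h4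
  · exact h4
  · exact absurd h4.2 (hA j y hy)
  · exact absurd h4.1.symm (hA i x hx)

lemma Good.mt_conB {e : D} (h : Good g M B) (hC : M.ConH e) (i : ι) {l : List D}
    (hl : (B i).c ~r (e :: l))
    (hA : ∀ j, j ≠ i → ∀ x ∈ (B j).c, ¬ Same M.A M.cw (M.rev e) x) {j1 j2 : ι} (hij : j1 ≠ j2)
    (hm : Mt (M.con e) (famB M e B i l) j1 j2) : Mt M B j1 j2 := by
  have mc := Sf.ConH.mc hC (h.lr i) hl
  have ec := Sf.ConH.ec hC (h.lr i) hl
  obtain ⟨x, hx, y, hy, hxy⟩ := hm
  unfold famB at hx hy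
  by_cases e1 : j1 = i
  · have e2 : j2 ≠ i := fun e2 => hij (e1.trans e2.symm)
    subst e1
    rw [if_pos rfl] at hx
    rw [if_neg e2] at hy
    have hx' := (mc x).2 (Or.inr hx)
    have hy' : y ∈ (B j2).c := hy
    rcases hC.same3 hxy with h4 | h4 | h4
    · exact ⟨x, hx', y, hy', h4⟩
    · exact absurd h4.2 (hA j2 e2 y hy')
    · exact ⟨e, ec, y, hy', h4.2⟩
  · rw [if_neg e1] at hx
    have hx' : x ∈ (B j1).c := hx
    have key : ∀ y, Same (M.con e).A (M.con e).cw x y →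
        Same M.A M.cw x y ∨ (Same M.A M.cw x e ∧ Same M.A M.cw (M.rev e) y) := by
      intro y hxy
      rcases hC.same3 hxy with h4 | h4 | h4
      · exact Or.inl h4
      · exact Or.inr h4
      · exact absurd h4.1.symm (hA j1 e1 x hx')
    by_cases e2 : j2 = i
    · subst e2
      rw [if_pos rfl] at hy
      have hy' := (mc y).2 (Or.inr hy)
      rcases key y hxy with k1 | k1
      · exact ⟨x, hx', y, hy', k1⟩
      · exact ⟨x, hx', e, ec, k1.1⟩
    · rw [if_neg e2] at hy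
      have hy' : y ∈ (B j2).c := hy
      rcases key y hxy with k1 | k1
      · exact ⟨x, hx', y, hy', k1⟩
      · exact absurd k1.2 (hA j2 e2 y hy')

/-- a loop -/
lemma LR.loop {K : Cv D} (hK : LR M K) {e : D} (he : e ∈ K.c) (h : Same M.A M.cw (M.rev e) e) :
    K.c = [e] := by
  obtain ⟨l, hl⟩ := rot_mem he
  have h1 := hK.isChain hl
  cases l with
  | nil => exact List.isRotated_singleton_iff'.1 hl.symm |>.symm |> fun h => by simpa using h
  | cons b l' =>
    exfalso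
    rw [List.cons_append, List.isChain_cons_cons] at h1
    have h2 : b ∈ K.c := hl.mem_iff.2 (by simp)
    have h3 := hK.dist e he b h2 (h.symm.trans h1.1)
    have h4 := hl.nodup_iff.1 hK.nd
    rw [h3] at h4
    simp at h4

/-- one step of the reduction -/
lemma Good.step (h : Good g M B) : Rdc M B ∨ ∃ (M' : Sf D) (B' : ι → Cv D), Good g M' B' ∧
    M'.A.card < M.A.card ∧ (∀ i j, i ≠ j → Mt M' B' i j → Mt M B i j) ∧
    Nonempty (Lk M B M' B') := by
  classical
  by_cases c1 : ∀ e ∈ M.A, e ≠ M.o → (∀ i, e ∉ (B i).c ∧ M.rev e ∉ (B i).c) →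
      Same M.A M.fc e (M.rev e)
  · by_cases c2 : ∀ d ∈ M.A, Same M.A M.cw M.o d ∨ ∃ i, ∃ x ∈ (B i).c, Same M.A M.cw x d
    · by_cases c3 : ∀ i, ∀ x ∈ (B i).c, (B i).c = [x] ∨
          ∃ j, j ≠ i ∧ ∃ y ∈ (B j).c, Same M.A M.cw x y
      · exact Or.inl ⟨c1, c2, c3⟩
      · right
        push Not at c3
        obtain ⟨i, x, hx, h1, h2⟩ := c3
        have hK := h.lr i
        obtain ⟨e, he, he2⟩ := hK.prev hx
        have heA := hK.mem e he
        have hne : ¬ Same M.A M.cw (M.rev e) e := by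
          intro h3
          have h4 := hK.loop he h3
          rw [h4] at hx
          have h5 : x = e := by simpa using hx
          rw [← h5] at h4
          exact h1 h4
        have hC : M.ConH e := by
          refine ⟨h.ok, heA, ?_, fun z => Same M.A M.cw (M.rev e) z, fun d hd => ?_, hne,
            Same.refl _, fun h3 => ?_⟩
          · rintro rfl
            exact hK.base _ he (Same.refl _)
          · exact ⟨fun h3 => h3.trans (Same.step hd).symm, fun h3 => h3.trans (Same.step hd)⟩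
          · exact hK.base x hx (h3.symm.trans he2)
        obtain ⟨l, hl⟩ := rot_mem he
        have hA : ∀ j, j ≠ i → ∀ y ∈ (B j).c, ¬ Same M.A M.cw (M.rev e) y :=
          fun j hj y hy h3 => h2 j hj y hy (he2.symm.trans h3)
        refine ⟨M.con e, famB M e B i l, h.conB hC i hl hA, ?_,
          fun _ _ hij => h.mt_conB hC i hl hA hij, ⟨hC.stp.lk fun j => ?_⟩⟩
        · have := card_rm heA hC.st.me' hC.st.hne
          show (rm M.A e (M.rev e)).card < M.A.card
          omega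
        · unfold famB
          split_ifs with h3
          · subst h3
            exact Sf.ConH.tcB hC (h.lr j) hl
          · exact Sf.ConH.tcA hC (h.lr j) (hA j h3)
    · right
      push Not at c2
      obtain ⟨d, hd, h1, h2⟩ := c2
      obtain ⟨e, he, he1, he2⟩ : ∃ e ∈ M.A, ¬ Same M.A M.cw d e ∧ Same M.A M.cw d (M.rev e) := by
        by_contra h3
        push Not at h3
        have := h.ok.conn (fun z => ¬ Same M.A M.cw d z) (fun z hz => ?_) (fun z hz => ?_)
          (fun h4 => h1 h4.symm) d hd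
        · exact this (Same.refl _)
        · exact not_congr ⟨fun h4 => h4.trans (Same.step hz).symm,
            fun h4 => h4.trans (Same.step hz)⟩
        · have h4 := h3 z hz
          have h5 := h3 _ (h.ok.mrev z hz)
          rw [h.ok.rr z hz] at h5
          tauto
      have heo : e ≠ M.o := by
        rintro rfl
        rw [h.ok.ro] at he2
        exact he1 he2
      have hC : M.ConH e :=
        ⟨h.ok, he, heo, fun z => Same M.A M.cw d z,
          fun z hz => ⟨fun h4 => h4.trans (Same.step hz).symm, fun h4 => h4.trans (Same.step hz)⟩,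
          he1, he2, fun h3 => h1 h3.symm⟩
      have hA : ∀ i, ∀ x ∈ (B i).c, ¬ Same M.A M.cw (M.rev e) x :=
        fun i x hx h3 => h2 i x hx (he2.trans h3).symm
      refine ⟨M.con e, fun i => cvA M e (B i), h.conA hC hA, ?_, fun _ _ _ => h.mt_conA hC hA,
        ⟨hC.stp.lk fun j => Sf.ConH.tcA hC (h.lr j) (hA j)⟩⟩
      have := card_rm he hC.st.me' hC.st.hne
      show (rm M.A e (M.rev e)).card < M.A.card
      omega
  · right
    push Not at c1
    obtain ⟨e, he, h1, h2, h3⟩ := c1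
    have hD : M.DelH e := ⟨h.ok, he, h1, not_same.1 h3⟩
    refine ⟨M.del e, B, h.del hD h2, ?_, fun _ _ _ => h.mt_del hD h2, ⟨hD.stp.lk fun i => hD.tc (h.lr i) (h2 i).1 (h2 i).2⟩⟩
    have := card_rm he hD.st.me' hD.st.hne
    show (rm M.A e (M.rev e)).card < M.A.card
    omega

/-- **Reduction.** -/
theorem Good.reduce' (h : Good g M B) : ∃ (M' : Sf D) (B' : ι → Cv D), Good g M' B' ∧
    Rdc M' B' ∧ (∀ i j, i ≠ j → Mt M' B' i j → Mt M B i j) ∧ Nonempty (Lk M B M' B') := by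
  obtain ⟨n, hn⟩ : ∃ n, M.A.card ≤ n := ⟨_, le_rfl⟩
  induction n generalizing M B with
  | zero =>
    have := Finset.card_pos.2 ⟨M.o, h.ok.ho⟩
    omega
  | succ n ih =>
    rcases h.step with h1 | ⟨M', B', h1, h2, h0, ⟨h3⟩⟩
    · exact ⟨M, B, h, h1, fun _ _ _ h2 => h2, ⟨Lk.refl h.ok h.lr⟩⟩
    · obtain ⟨M'', B'', h4, h5, h7, ⟨h6⟩⟩ := ih h1 (by omega)
      exact ⟨M'', B'', h4, h5, fun i j hij h8 => h0 i j hij (h7 i j hij h8), ⟨h3.trans h6⟩⟩

/-- **Reduction.** -/
theorem Good.reduce (h : Good g M B) : ∃ (M' : Sf D) (B' : ι → Cv D), Good g M' B' ∧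
    Rdc M' B' ∧ Nonempty (Lk M B M' B') := by
  obtain ⟨M', B', h1, h2, _, h3⟩ := h.reduce'
  exact ⟨M', B', h1, h2, h3⟩

end Pool.Agent.V8H82.PF
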