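import Pool.Agent.V8H82.PF.Count

/-!
# Relabelling of the darts
-/

set_option autoImplicit false
set_option linter.unusedVariables false
set_option linter.unusedSectionVars false

namespace Pool.Agent.V8H82.PF

open Finset List

variable {D E : Type} {ι : Type}

/-- a relabelling -/
structure Rb (M : Sf D) (M' : Sf E) (f : E → D) (g : D → E) : Prop where
  mf : ∀ x, f x ∈ M.A
  fg : ∀ d ∈ M.A, f (g d) = d
  gf : ∀ x, g (f x) = x
  A : ∀ x, x ∈ M'.A
  cw : ∀ x, f (M'.cw x) = M.cw (f x)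
  rev : ∀ x, f (M'.rev x) = M.rev (f x)
  o : f M'.o = M.o

/-- the relabelled curve -/
def Cv.re (K : Cv D) (f : E → D) (g : D → E) : Cv E := ⟨K.c.map g, fun x => K.L (f x)⟩

namespace Rb

variable {M : Sf D} {M' : Sf E} {f : E → D} {g : D → E} {G : Type} [Group G]

lemma inj (h : Rb M M' f g) {x y : E} (hxy : f x = f y) : x = y := by
  rw [← h.gf x, hxy, h.gf]

lemma cw' (h : Rb M M' f g) {d : D} (hd : d ∈ M.A) : M'.cw (g d) = g (M.cw d) := by
  rw [← h.gf (M'.cw (g d)), h.cw, h.fg d hd]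

lemma rev' (h : Rb M M' f g) {d : D} (hd : d ∈ M.A) : M'.rev (g d) = g (M.rev d) := by
  rw [← h.gf (M'.rev (g d)), h.rev, h.fg d hd]

lemma fc (h : Rb M M' f g) (x : E) : f (M'.fc x) = M.fc (f x) := by
  unfold Sf.fc
  rw [h.cw, h.rev]

lemma same (h : Rb M M' f g) {x y : E} (h1 : Same M.A M.cw (f x) (f y)) :
    Same M'.A M'.cw x y := by
  intro P hP
  have := h1 (fun d => P (g d)) fun d hd => by
    rw [← h.cw' hd]
    exact hP _ (h.A _)
  simp only [h.gf] at this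
  exact this

lemma same' (h : Rb M M' f g) {x y : E} (h1 : Same M'.A M'.cw x y) :
    Same M.A M.cw (f x) (f y) := by
  intro P hP
  exact h1 (fun z => P (f z)) fun z _ => by
    rw [h.cw]
    exact hP _ (h.mf z)

lemma samed (h : Rb M M' f g) {x y : D} (hx : x ∈ M.A) (hy : y ∈ M.A)
    (h1 : Same M.A M.cw x y) : Same M'.A M'.cw (g x) (g y) := by
  apply h.same
  rw [h.fg x hx, h.fg y hy]
  exact h1

lemma samed' (h : Rb M M' f g) {x y : D} (hx : x ∈ M.A) (hy : y ∈ M.A)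
    (h1 : Same M'.A M'.cw (g x) (g y)) : Same M.A M.cw x y := by
  have := h.same' h1
  rwa [h.fg x hx, h.fg y hy] at this

lemma ok (h : Rb M M' f g) (hM : M.Ok) : M'.Ok where
  ho := h.A _
  hm _ _ := h.A _
  hi x _ y _ hxy := by
    refine h.inj (hM.hi _ (h.mf x) _ (h.mf y) ?_)
    rw [← h.cw, hxy, h.cw]
  mrev _ _ := h.A _
  rr x _ := by
    apply h.inj
    rw [h.rev, h.rev, hM.rr _ (h.mf x)]
  ro := by
    apply h.inj
    rw [h.rev, h.o, hM.ro]
  rn x _ hx h1 := by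
    refine hM.rn (f x) (h.mf x) (fun h2 => hx (h.inj (by rw [h2, h.o]))) ?_
    rw [← h.rev, h1]
  conn P h1 h2 h3 x _ := by
    have := hM.conn (fun d => P (g d)) (fun d hd => by
      rw [← h.cw' hd]
      exact h1 _ (h.A _)) (fun d hd => by
      rw [← h.rev' hd]
      exact h2 _ (h.A _)) (by rw [← h.o, h.gf]; exact h3) (f x) (h.mf x)
    rwa [h.gf] at this

lemma no (h : Rb M M' f g) {n : ℕ} (h1 : NO M.A M.cw n) : NO M'.A M'.cw n := by
  obtain ⟨ψ, h2, h3⟩ := h1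
  refine ⟨fun x => ψ (f x), fun x _ => ?_, fun i hi => ?_⟩
  · simp only [h.cw]
    exact h2 _ (h.mf x)
  · obtain ⟨d, hd, hd2⟩ := h3 i hi
    exact ⟨g d, h.A _, by simp only [h.fg d hd]; exact hd2⟩

lemma nof (h : Rb M M' f g) {n : ℕ} (h1 : NO M.A M.fc n) : NO M'.A M'.fc n := by
  obtain ⟨ψ, h2, h3⟩ := h1
  refine ⟨fun x => ψ (f x), fun x _ => ?_, fun i hi => ?_⟩
  · simp only [h.fc]
    exact h2 _ (h.mf x)
  · obtain ⟨d, hd, hd2⟩ := h3 i hi
    exact ⟨g d, h.A _, by simp only [h.fg d hd]; exact hd2⟩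

lemma card [DecidableEq D] (h : Rb M M' f g) : M'.A.card = M.A.card := by
  refine Finset.card_bij (fun x _ => f x) (fun x _ => h.mf x) (fun x _ y _ hxy => h.inj hxy)
    fun d hd => ⟨g d, h.A _, h.fg d hd⟩

lemma lr (h : Rb M M' f g) (hM : M.Ok) {K : Cv D} (hK : LR M K) : LR M' (K.re f g) := by
  have mc : ∀ x ∈ (K.re f g).c, f x ∈ K.c ∧ g (f x) = x := by
    intro x hx
    obtain ⟨d, hd, rfl⟩ := List.mem_map.1 hx
    rw [h.fg d (hK.mem d hd)]
    exact ⟨hd, rfl⟩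
  have mc' : ∀ x, f x ∈ K.c → x ∈ (K.re f g).c := by
    intro x hx
    exact List.mem_map.2 ⟨f x, hx, h.gf x⟩
  refine ⟨?_, ?_, fun x _ => h.A x, ?_, ?_, ?_, ?_, ?_, ?_, ?_, ?_, ?_⟩
  · intro h1
    exact hK.ne (List.map_eq_nil_iff.1 h1)
  · refine hK.nd.map_on fun x hx y hy hxy => ?_
    rw [← h.fg x (hK.mem x hx), hxy, h.fg y (hK.mem y hy)]
  · show Cycle.Chain _ ((K.c.map g : List E) : Cycle E)
    have e : ((K.c.map g : List E) : Cycle E) = (K.c : Cycle D).map g := rfl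
    rw [e, Cycle.chain_map]
    cases hc : K.c with
    | nil => exact absurd hc hK.ne
    | cons x l =>
      have h3 := hK.isChain (x := x) (l := l) (by rw [hc])
      rw [Cycle.chain_coe_cons]
      refine h3.imp_of_mem_imp fun a b ha hb hab => ?_
      have hm : ∀ a ∈ (x :: (l ++ [x])), a ∈ M.A := fun a ha => by
        apply hK.mem
        rw [hc]
        simp only [List.mem_cons, List.mem_append, List.not_mem_nil] at ha ⊢
        tauto
      rw [h.rev' (hm a ha)]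
      exact h.samed (hM.mrev _ (hm a ha)) (hm b hb) hab
  · intro x hx y hy h1
    exact h.inj (hK.dist _ (mc x hx).1 _ (mc y hy).1 (h.same' h1))
  · intro x hx h1
    have := h.same' h1
    rw [h.o] at this
    exact hK.base _ (mc x hx).1 this
  · intro y hy
    show K.L (f (M'.cw (M'.rev y)))
    rw [h.cw, h.rev]
    exact hK.l1 _ (mc y hy).1
  · intro y hy h1
    have h1 : K.L (f (M'.rev y)) := h1
    rw [h.rev] at h1
    exact hK.l2 _ (mc y hy).1 h1
  · intro x hx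
    exact hK.l3 _ (mc x hx).1
  · intro y hy h1
    have h1 : K.L (f (M'.cw y)) := h1
    rw [h.cw] at h1
    exact hK.l4 _ (mc y hy).1 h1
  · intro x _ h1 h2
    have h3 := hK.l5 (f x) (h.mf x) (fun h3 => h1 (mc' x h3)) (fun h3 => h2 (mc' _ (by
      rw [h.rev]
      exact h3)))
    show K.L (f (M'.cw x)) ↔ K.L (f x)
    rw [h.cw]
    exact h3
  · intro x _ h1
    obtain ⟨y, hy, h2⟩ := hK.l6 (f x) (h.mf x) h1
    refine ⟨g y, List.mem_map_of_mem hy, h.same ?_⟩
    rw [h.fg y (hK.mem y hy)]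
    exact h2

lemma good [DecidableEq D] [DecidableEq E] (h : Rb M M' f g) {B : ι → Cv D} {k : ℕ}
    (hG : Good k M B) : Good k M' (fun i => (B i).re f g) where
  ok := h.ok hG.ok
  lr i := h.lr hG.ok (hG.lr i)
  sh i j hij x1 hx1 x2 hx2 y1 hy1 y2 hy2 h1 h2 := by
    have mc : ∀ i, ∀ x ∈ ((B i).re f g).c, f x ∈ (B i).c := by
      intro i x hx
      obtain ⟨d, hd, rfl⟩ := List.mem_map.1 hx
      rw [h.fg d ((hG.lr i).mem d hd)]
      exact hd
    exact h.inj (hG.sh i j hij _ (mc i _ hx1) _ (mc i _ hx2) _ (mc j _ hy1) _ (mc j _ hy2)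
      (h.same' h1) (h.same' h2))
  gen := by
    obtain ⟨a, b, h1, h2, h3⟩ := hG.gen
    exact ⟨a, b, h.no h1, h.nof h2, by rw [h.card]; exact h3⟩

/-! ### Connections -/

lemma hh (h : Rb M M' f g) (s : D → G) (x : E) : M'.hh (fun x => s (f x)) x = M.hh s (f x) := by
  unfold Sf.hh
  simp only [h.cw, h.rev]

lemma fl (h : Rb M M' f g) {s : D → G} (hs : M.Fl s) : M'.Fl (fun x => s (f x)) := by
  intro x _ hx
  rw [h.hh, h.hh, h.rev]
  exact hs _ (h.mf x) fun h1 => hx (h.inj (by rw [h1, h.o]))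

lemma fl' (h : Rb M M' f g) (hM : M.Ok) {s : E → G} (hs : M'.Fl s) : M.Fl (fun d => s (g d)) := by
  have e : (fun x => (fun d => s (g d)) (f x)) = s := by
    funext x
    simp only [h.gf]
  intro d hd hdo
  have h1 := h.hh (fun d => s (g d)) (g d)
  have h2 := h.hh (fun d => s (g d)) (g (M.rev d))
  rw [e, h.fg d hd] at h1
  rw [e, h.fg _ (hM.mrev d hd)] at h2
  rw [← h1, ← h2, ← h.rev' hd]
  refine hs _ (h.A _) fun h3 => hdo ?_
  rw [← h.fg d hd, h3, h.o]

lemma eqv (h : Rb M M' f g) {x : G} {s1 s2 : D → G} (hs : M.Eqv x s1 s2) :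
    M'.Eqv x (fun x => s1 (f x)) (fun x => s2 (f x)) := by
  obtain ⟨φ, γ, h1, h2, h3, h4⟩ := hs
  refine ⟨fun x => φ (f x), fun x => γ (f x), fun x _ => ?_, fun x _ => ?_, ?_, fun x _ => ?_⟩
  · simp only [h.fc]
    exact h1 _ (h.mf x)
  · simp only [h.cw]
    exact h2 _ (h.mf x)
  · simp only [h.o]
    exact h3
  · exact h4 _ (h.mf x)

lemma zz (h : Rb M M' f g) (s : D → G) : M'.zz (fun x => s (f x)) = M.zz s := by
  unfold Sf.zz
  simp only [h.cw, h.o]

lemma hol (h : Rb M M' f g) (hM : M.Ok) {K : Cv D} (hK : LR M K) (s : D → G) {x : E}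
    (hx : K.L (f x)) : hol M' (K.re f g) (fun x => s (f x)) x = hol M K s (f x) := by
  obtain ⟨y, hy, h1⟩ := hK.l6 (f x) (h.mf x) hx
  obtain ⟨w, hw⟩ := hK.exRt hy h1
  have hw' : Rt M' (K.re f g) x (w.map g) := by
    obtain ⟨h2, a, l, h3, h4⟩ := hw
    refine ⟨h2.map g, g a, l.map g, by rw [h3]; rfl, h.same ?_⟩
    rw [h.fg a (hK.mem a (h2.mem_iff.2 (by rw [h3]; simp)))]
    exact h4
  rw [hK.hol_eq s hw, (h.lr hM hK).hol_eq _ hw', List.map_map]
  congr 1
  refine List.map_congr_left fun a ha => ?_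
  show M'.hh (fun x => s (f x)) (g a) = M.hh s a
  rw [h.hh, h.fg a (hK.mem a (hw.1.mem_iff.2 ha))]

lemma tw (h : Rb M M' f g) (hM : M.Ok) {K : Cv D} (hK : LR M K) (z : ℤ) (s : D → G) :
    PF.tw M' (K.re f g) z (fun x => s (f x)) = fun x => PF.tw M K z s (f x) := by
  funext x
  by_cases hx : K.L (f x)
  · have hx' : (K.re f g).L x := hx
    rw [tw_pos hx, tw_pos hx', h.hol hM hK s hx]
  · have hx' : ¬ (K.re f g).L x := hx
    rw [tw_neg hx, tw_neg hx']

lemma lp (h : Rb M M' f g) (hM : M.Ok) {K : Cv D} (hK : LR M K) (s : D → G) :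
    lp M' (K.re f g) (fun x => s (f x)) = lp M K s := by
  unfold PF.lp Cv.re
  rw [List.map_map]
  congr 1
  refine List.map_congr_left fun a ha => ?_
  show M'.hh (fun x => s (f x)) (g a) = M.hh s a
  rw [h.hh, h.fg a (hK.mem a ha)]

lemma ess (h : Rb M M' f g) (hM : M.Ok) {K : Cv D} (hK : LR M K) (he : Ess M K) :
    Ess M' (K.re f g) := by
  obtain ⟨G, _, s, h1, h2⟩ := he
  exact ⟨G, _, _, h.fl h1, by rw [h.lp hM hK]; exact h2⟩

lemma fold (h : Rb M M' f g) (hM : M.Ok) {B : ι → Cv D} (hB : ∀ i, LR M (B i)) (w : List ι) :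
    ∀ s : D → G, w.foldl (fun s i => PF.tw M' ((B i).re f g) 1 s) (fun x => s (f x)) =
      fun x => w.foldl (fun s i => PF.tw M (B i) 1 s) s (f x) := by
  induction w with
  | nil => exact fun s => rfl
  | cons i w ih =>
    intro s
    rw [List.foldl_cons, List.foldl_cons, h.tw hM (hB i), ih]

lemma rel (h : Rb M M' f g) (hM : M.Ok) {B : ι → Cv D} (hB : ∀ i, LR M (B i)) {w : List ι}
    (hw : Rel M B w) : Rel M' (fun i => (B i).re f g) w := by
  intro G _ s' hs'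
  have e : (fun x => (fun d => s' (g d)) (f x)) = s' := by
    funext x
    simp only [h.gf]
  have h1 := h.eqv (hw G _ (h.fl' hM hs'))
  have h2 := h.fold hM hB w (fun d => s' (g d))
  rw [← h2, e] at h1
  have h3 := h.zz (fun d => s' (g d))
  rw [e] at h3
  rw [h3]
  exact h1

end Rb

/-! ### Relabelling by an initial segment -/

/-- the relabelling -/
lemma exists_rb {M : Sf D} (hM : M.Ok) :
    ∃ (M' : Sf (Fin M.A.card)) (f : Fin M.A.card → D) (g : D → Fin M.A.card), Rb M M' f g := by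
  classical
  obtain ⟨e⟩ : Nonempty ({x // x ∈ M.A} ≃ Fin M.A.card) := ⟨M.A.equivFin⟩
  obtain ⟨f, hf⟩ : ∃ f : Fin M.A.card → D, f = fun x => (e.symm x).1 := ⟨_, rfl⟩
  obtain ⟨g, hg⟩ : ∃ g : D → Fin M.A.card,
    g = fun d => if h : d ∈ M.A then e ⟨d, h⟩ else e ⟨M.o, hM.ho⟩ := ⟨_, rfl⟩
  have mf : ∀ x, f x ∈ M.A := fun x => by rw [hf]; exact (e.symm x).2
  have fg : ∀ d ∈ M.A, f (g d) = d := by
    intro d hd
    rw [hf, hg]
    simp only [dif_pos hd, Equiv.symm_apply_apply]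
  have gf : ∀ x, g (f x) = x := by
    intro x
    have h1 := mf x
    rw [hg]
    simp only [dif_pos h1]
    have h2 : (⟨f x, h1⟩ : {x // x ∈ M.A}) = e.symm x := Subtype.ext (by simp only [hf])
    rw [h2, Equiv.apply_symm_apply]
  refine ⟨⟨Finset.univ, fun x => g (M.cw (f x)), fun x => g (M.rev (f x)), g M.o⟩, f, g, mf, fg,
    gf, fun x => Finset.mem_univ x, fun x => fg _ (hM.hm _ (mf x)), fun x => fg _ (hM.mrev _ (mf x)),
    fg _ hM.ho⟩

end Pool.Agent.V8H82.PF
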