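import Pool.Agent.V8H82.PF.Map

/-!
# One step: skipping a pair of darts in one permutation and merging two orbits of the other one
-/

set_option autoImplicit false
set_option linter.unusedVariables false
set_option linter.unusedSectionVars false

namespace Pool.Agent.V8H82.PF

open Finset

variable {D : Type} [DecidableEq D]

/-- the hypotheses of one step: `f` is the permutation in which `e` and `e'` are skipped, `g` is
the one in which their orbits are merged -/
structure St (A : Finset D) (f g rev : D → D) (o e e' : D) : Prop where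
  ho : o ∈ A
  hm : ∀ d ∈ A, f d ∈ A
  hi : ∀ d ∈ A, ∀ d' ∈ A, f d = f d' → d = d'
  mrev : ∀ d ∈ A, rev d ∈ A
  rr : ∀ d ∈ A, rev (rev d) = d
  ro : rev o = o
  hg : ∀ d ∈ A, g d = f (rev d)
  he : e ∈ A
  he' : e' = rev e
  hne : e ≠ e'
  heo : e ≠ o
  dif : Diff A g e e'
  nd : ¬ (f e = e' ∧ f e' = e)

namespace St

variable {A : Finset D} {f g rev : D → D} {o e e' : D}

lemma me' (h : St A f g rev o e e') : e' ∈ A := by rw [h.he']; exact h.mrev _ h.he

lemma re (h : St A f g rev o e e') : rev e = e' := h.he'.symm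

lemma re' (h : St A f g rev o e e') : rev e' = e := by rw [h.he', h.rr _ h.he]

lemma heo' (h : St A f g rev o e e') : e' ≠ o := by
  intro h1
  have := h.re'
  rw [h1, h.ro] at this
  exact h.heo this.symm

lemma gm (h : St A f g rev o e e') : ∀ d ∈ A, g d ∈ A := fun d hd => by
  rw [h.hg d hd]
  exact h.hm _ (h.mrev _ hd)

lemma ri (h : St A f g rev o e e') {d d' : D} (hd : d ∈ A) (hd' : d' ∈ A) (h1 : rev d = rev d') :
    d = d' := by
  rw [← h.rr d hd, h1, h.rr d' hd']

lemma gi (h : St A f g rev o e e') : ∀ d ∈ A, ∀ d' ∈ A, g d = g d' → d = d' := by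
  intro d hd d' hd' h1
  rw [h.hg d hd, h.hg d' hd'] at h1
  exact h.ri hd hd' (h.hi _ (h.mrev _ hd) _ (h.mrev _ hd') h1)

lemma ge (h : St A f g rev o e e') : g e = f e' := by rw [h.hg e h.he, h.re]

lemma ge' (h : St A f g rev o e e') : g e' = f e := by rw [h.hg e' h.me', h.re']

lemma fg (h : St A f g rev o e e') {d : D} (hd : d ∈ A) : f d = g (rev d) := by
  rw [h.hg _ (h.mrev _ hd), h.rr d hd]

lemma f1 (h : St A f g rev o e e') : f e ≠ e := by
  intro h1
  obtain ⟨P, hP, p1, p2⟩ := h.dif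
  have := hP e' h.me'
  rw [h.ge', h1] at this
  exact p1 (this.2 p2)

lemma f2 (h : St A f g rev o e e') : f e' ≠ e' := by
  intro h1
  obtain ⟨P, hP, p1, p2⟩ := h.dif
  have := hP e h.he
  rw [h.ge, h1] at this
  exact p1 (this.1 p2)

lemma nd' (h : St A f g rev o e e') : ¬ (g e = e ∧ g e' = e') := by
  rintro ⟨h1, h2⟩
  exact h.nd ⟨by rw [← h.ge', h2], by rw [← h.ge, h1]⟩

lemma mo (h : St A f g rev o e e') : o ∈ rm A e e' :=
  mem_rm.2 ⟨h.ho, h.heo.symm, h.heo'.symm⟩

lemma mrev' (h : St A f g rev o e e') : ∀ d ∈ rm A e e', rev d ∈ rm A e e' := by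
  intro d hd
  rw [mem_rm] at hd ⊢
  refine ⟨h.mrev _ hd.1, fun h1 => hd.2.2 ?_, fun h1 => hd.2.1 ?_⟩
  · rw [← h.rr d hd.1, h1, h.re]
  · rw [← h.rr d hd.1, h1, h.re']

/-- the relation of the two permutations persists -/
lemma hg' (h : St A f g rev o e e') :
    ∀ d ∈ rm A e e', mg g e e' d = sk f e e' (rev d) := by
  intro d hd
  rw [mem_rm] at hd
  have h1 := h.hg d hd.1
  have h2 := h.ge
  have h3 := h.ge'
  unfold mg sk
  rw [h1, h2, h3]

lemma fg' (h : St A f g rev o e e') :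
    ∀ d ∈ rm A e e', sk f e e' d = mg g e e' (rev d) := by
  intro d hd
  rw [h.hg' _ (h.mrev' _ hd), h.rr d (mem_rm.1 hd).1]

variable {G : Type} [Group G]

/-- the condition of flatness -/
def FG (A : Finset D) (f rev : D → D) (o : D) (t : D → G) : Prop :=
  ∀ d ∈ A, d ≠ o → t (f (rev d)) * (t (rev d))⁻¹ = t d * (t (f d))⁻¹

/-- normalized at the removed edge -/
def Rd (f : D → D) (e e' : D) (t : D → G) : Prop := t e = t (f e) ∧ t e' = t (f e')

lemma kk (h : St A f g rev o e e') {t : D → G} (ht : Rd f e e' t) {d : D} (hd : d ∈ rm A e e') :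
    t (sk f e e' d) = t (f d) := by
  obtain ⟨h1, h2⟩ := ht
  unfold sk
  grind

lemma kg (h : St A f g rev o e e') {t : D → G} (ht : Rd f e e' t) {d : D} (hd : d ∈ rm A e e') :
    t (mg g e e' d) = t (g d) := by
  rw [h.hg' d hd, h.kk ht (h.mrev' _ hd), h.hg d (mem_rm.1 hd).1]

lemma down (h : St A f g rev o e e') {t : D → G} (ht : Rd f e e' t) (hF : FG A f rev o t) :
    FG (rm A e e') (sk f e e') rev o t := by
  intro d hd hdo
  rw [h.kk ht hd, h.kk ht (h.mrev' _ hd)]
  exact hF d (mem_rm.1 hd).1 hdo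

lemma ext_rd (h : St A f g rev o e e') (t : D → G) : Rd f e e' (ext f e e' t) := by
  have h1 := h.f1
  have h2 := h.f2
  have h3 := h.nd
  have h4 := h.hne
  unfold Rd ext
  grind

lemma up (h : St A f g rev o e e') {t : D → G} (hF : FG (rm A e e') (sk f e e') rev o t) :
    ∃ t1 : D → G, FG A f rev o t1 ∧ Rd f e e' t1 ∧ ∀ d ∈ rm A e e', t1 d = t d := by
  refine ⟨ext f e e' t, ?_, h.ext_rd t, fun d hd => ?_⟩
  · have hR := h.ext_rd t
    intro d hd hdo
    by_cases h1 : d = e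
    · rw [h1, h.re, ← hR.2, ← hR.1]
      group
    · by_cases h2 : d = e'
      · rw [h2, h.re', ← hR.1, ← hR.2]
        group
      · have hd' : d ∈ rm A e e' := mem_rm.2 ⟨hd, h1, h2⟩
        have hr' := h.mrev' d hd'
        have h3 := hF d hd' hdo
        have e1 : ∀ x ∈ rm A e e', ext f e e' t x = t x := fun x hx =>
          ext_of (mem_rm.1 hx).2.1 (mem_rm.1 hx).2.2
        have hsk := sk_mem h.hm h.hi h.he h.me' h.hne
        rw [← h.kk hR hd', ← h.kk hR hr', e1 _ (hsk _ hr'), e1 _ hr', e1 _ hd', e1 _ (hsk _ hd')]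
        exact h3
  · exact ext_of (mem_rm.1 hd).2.1 (mem_rm.1 hd).2.2

/-- normalization, by a `g`-invariant factor -/
lemma fix (h : St A f g rev o e e') {t : D → G} (hF : FG A f rev o t) {P : D → Prop}
    (hP : ∀ d ∈ A, P (g d) ↔ P d) (p1 : ¬ P e) (p2 : P e') :
    ∃ φ : D → G, (∀ d ∈ A, φ (g d) = φ d) ∧ (∀ d, ¬ P d → φ d = 1) ∧
      Rd f e e' (fun d => φ d * t d) := by
  classical
  refine ⟨fun d => if P d then t e * (t (f e))⁻¹ else 1, fun d hd => ?_, fun d hd => ?_, ?_, ?_⟩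
  · simp only [hP d hd]
  · simp only [if_neg hd]
  · have h1 : P (f e) := by rw [← h.ge', hP e' h.me']; exact p2
    simp only [if_neg p1, if_pos h1]
    group
  · have h1 : ¬ P (f e') := by rw [← h.ge, hP e h.he]; exact p1
    simp only [if_pos p2, if_neg h1]
    have h2 := hF e h.he h.heo
    rw [h.re] at h2
    rw [← h2]
    group

/-- an equivalence on the large set restricts -/
lemma eqv_down (h : St A f g rev o e e') {t1 t2 φ γ : D → G} (h1 : Rd f e e' t1)
    (h2 : Rd f e e' t2) (hφ : ∀ d ∈ A, φ (g d) = φ d) (hγ : ∀ d ∈ A, γ (f d) = γ d)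
    (ht : ∀ d ∈ A, t2 d = φ d * t1 d * (γ d)⁻¹) :
    (∀ d ∈ rm A e e', φ (mg g e e' d) = φ d) ∧ (∀ d ∈ rm A e e', γ (sk f e e' d) = γ d) := by
  refine ⟨mg_val hφ h.he h.me' ?_, sk_val hγ h.he h.me'⟩
  have a1 := ht e h.he
  have a2 := ht (f e) (h.hm _ h.he)
  rw [hγ e h.he, ← h2.1, ← h1.1, a1] at a2
  have a3 : φ e = φ (f e) := by
    have := mul_right_cancel a2
    exact mul_right_cancel this
  rw [a3, ← h.ge', hφ e' h.me']

/-- an equivalence on the small set extends -/
lemma eqv_up (h : St A f g rev o e e') {t1 t2 φ γ : D → G} (h1 : Rd f e e' t1)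
    (h2 : Rd f e e' t2) (hφ : ∀ d ∈ rm A e e', φ (mg g e e' d) = φ d)
    (hγ : ∀ d ∈ rm A e e', γ (sk f e e' d) = γ d)
    (ht : ∀ d ∈ rm A e e', t2 d = φ d * t1 d * (γ d)⁻¹) :
    ∃ φ1 γ1 : D → G, (∀ d ∈ A, φ1 (g d) = φ1 d) ∧ (∀ d ∈ A, γ1 (f d) = γ1 d) ∧
      (∀ d ∈ A, t2 d = φ1 d * t1 d * (γ1 d)⁻¹) ∧ φ1 o = φ o ∧ γ1 o = γ o := by
  have m1 := h.f1
  have m2 := h.f2
  have m3 := h.nd
  have m4 := h.hne
  have hf1 := h.hm e h.he
  have hf2 := h.hm e' h.me'
  refine ⟨ex2 g e e' φ, ext f e e' γ, ex2_val h.gm h.gi h.he h.me' h.dif h.nd' hφ,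
    ext_val h.hi h.he h.me' h.hne h.f1 h.f2 h.nd hγ, ?_,
    ex2_of h.heo.symm h.heo'.symm, ext_of h.heo.symm h.heo'.symm⟩
  have two := mg_two h.gm h.gi h.he h.me' h.dif hφ
  rw [h.ge, h.ge'] at two
  intro d hd
  have key : ∀ x ∈ rm A e e', t2 x = ex2 g e e' φ x * t1 x * (ext f e e' γ x)⁻¹ := fun x hx => by
    rw [ex2_of (mem_rm.1 hx).2.1 (mem_rm.1 hx).2.2, ext_of (mem_rm.1 hx).2.1 (mem_rm.1 hx).2.2]
    exact ht x hx
  have ge := h.ge
  have ge' := h.ge'
  obtain ⟨r1, r2⟩ := h1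
  obtain ⟨s1, s2⟩ := h2
  by_cases h3 : d = e
  · subst h3
    by_cases h4 : f d = e'
    · have h5 : f e' ≠ d := fun h5 => m3 ⟨h4, h5⟩
      have h6 : f e' ∈ rm A d e' := mem_rm.2 ⟨hf2, h5, m2⟩
      have h7 := ht _ h6
      have e1 : ex2 g d e' φ d = φ (f e') := by
        unfold ex2 mv
        grind
      have e2 : ext f d e' γ d = γ (f e') := by
        unfold ext
        grind
      rw [e1, e2]
      rw [s1, h4, s2, r1, h4, r2]
      exact h7
    · have h6 : f d ∈ rm A d e' := mem_rm.2 ⟨hf1, m1, h4⟩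
      have h7 := ht _ h6
      have e1 : ex2 g d e' φ d = φ (f d) := by
        unfold ex2 mv
        grind
      have e2 : ext f d e' γ d = γ (f d) := by
        unfold ext
        grind
      rw [e1, e2]
      rw [s1, r1]
      exact h7
  · by_cases h3' : d = e'
    · subst h3'
      by_cases h4 : f d = e
      · have h5 : f e ≠ d := fun h5 => m3 ⟨h5, h4⟩
        have h6 : f e ∈ rm A e d := mem_rm.2 ⟨hf1, m1, h5⟩
        have h7 := ht _ h6
        have e1 : ex2 g e d φ d = φ (f e) := by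
          unfold ex2 mv
          grind
        have e2 : ext f e d γ d = γ (f e) := by
          unfold ext
          grind
        rw [e1, e2]
        rw [s2, h4, s1, r2, h4, r1]
        exact h7
      · have h6 : f d ∈ rm A e d := mem_rm.2 ⟨hf2, h4, m2⟩
        have h7 := ht _ h6
        have e1 : ex2 g e d φ d = φ (f d) := by
          unfold ex2 mv
          grind
        have e2 : ext f e d γ d = γ (f d) := by
          unfold ext
          grind
        rw [e1, e2]
        rw [s2, r2]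
        exact h7
    · exact key d (mem_rm.2 ⟨hd, h3, h3'⟩)

end St

end Pool.Agent.V8H82.PF
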