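import Mathlib

/-!
# Cell decompositions of a surface with one boundary component, curves and Dehn twists

A finite cell decomposition of a compact connected oriented surface with one boundary component is
given by its darts (oriented edges), as in the theory of combinatorial maps. One dart, the leg, is
a half-edge: it leads from the base vertex to the boundary of the surface. The face that contains
the leg is the annulus next to the boundary, the other faces are discs.
-/

set_option autoImplicit false

namespace Pool.Agent.V8H82.Surf

/-- A finite cell decomposition of a compact connected oriented surface with one boundary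
component. The elements of `D` are the darts: each edge gives two darts, one for each direction,
and there is one more dart, the leg, from the base vertex to the boundary. -/
structure Surface (D : Type) where
  /-- the next dart in clockwise order around the vertex where the dart starts -/
  rot : Equiv.Perm D
  /-- the same edge in the other direction -/
  rev : Equiv.Perm D
  /-- the leg, from the base vertex to the boundary of the surface -/
  leg : D
  rev_rev : ∀ d, rev (rev d) = d
  rev_leg : rev leg = leg
  rev_ne : ∀ d, d ≠ leg → rev d ≠ d
  /-- the surface is connected -/
  conn : ∀ P : Set D, leg ∈ P → (∀ d ∈ P, rot d ∈ P) → (∀ d ∈ P, rev d ∈ P) → ∀ d, d ∈ P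

namespace Surface

variable {D : Type} (S : Surface D)

/-- two darts start at the same vertex -/
def SameVertex (a b : D) : Prop := S.rot.SameCycle a b

/-- the next dart along the face on the left -/
def face : Equiv.Perm D := S.rot * S.rev

/-- The surface has genus `g`: with `V` vertices, `E` edges and `F` faces, `V - E + F = 2 - 2 g`,
where `2 E + 1` is the number of darts. -/
def HasGenus (g : ℕ) : Prop :=
  2 * Nat.card (Quotient (Equiv.Perm.SameCycle.setoid S.rot)) +
    2 * Nat.card (Quotient (Equiv.Perm.SameCycle.setoid S.face)) + 4 * g = Nat.card D + 3

/-- the dart `b` starts at the vertex where `a` ends -/
def Follows (a b : D) : Prop := S.SameVertex (S.rev a) b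

/-- `p` is a closed edge path at the base vertex (the leg starts and, as `rev leg = leg`, formally
also ends at the base vertex) -/
def IsLoop (p : List D) : Prop := S.leg ∉ p ∧ List.IsChain S.Follows (S.leg :: (p ++ [S.leg]))

/-- the reversed path -/
def inv (p : List D) : List D := (p.map S.rev).reverse

/-- the darts along the face on the left of `d`, starting with `d` -/
noncomputable def around (d : D) : List D :=
  (List.range (Function.minimalPeriod S.face d)).map fun i => S.face^[i] d

/-- the closed path at the base vertex along the face that contains the leg: it is parallel to the
boundary of the surface, which it has on its left -/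
noncomputable def zeta : List D := (S.around S.leg).tail

/-- the relations between the darts: `d * rev d = 1` for every edge, and the boundary of every face
other than the one that contains the leg is trivial -/
def rels : Set (FreeGroup D) :=
  {r | ∃ d, d ≠ S.leg ∧ r = FreeGroup.of d * FreeGroup.of (S.rev d)} ∪
    {r | ∃ d, S.leg ∉ S.around d ∧ r = ((S.around d).map FreeGroup.of).prod}

/-- the class of an edge path: two edge paths with the same ends (without the leg) have the same
class if and only if they are homotopic in the surface -/
def cls (p : List D) : PresentedGroup S.rels := (p.map PresentedGroup.of).prod

/-- `c` is a simple closed curve (a closed edge path without repeated vertices or edges) that does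
not meet the base vertex and does not bound a disc -/
structure IsCurve (c : List D) : Prop where
  ne : c ≠ []
  closed : Cycle.Chain S.Follows (c : Cycle D)
  simple : c.Pairwise fun a b => ¬ S.SameVertex a b
  edges : ∀ a ∈ c, S.rev a ∉ c
  base : ∀ a ∈ c, ¬ S.SameVertex S.leg a
  essential : S.cls c ≠ 1

/-- `d` starts at a vertex of the curve `c` and goes off to the left of `c`: turning clockwise from
`d` one meets the dart of `c` that leaves the vertex before the one that arrives -/
def Left (c : List D) (d : D) : Prop :=
  d ∉ c ∧ ∃ n, S.rot^[n] d ∈ c ∧ ∀ m < n, S.rev (S.rot^[m] d) ∉ c

/-- `d` starts at a vertex of the curve `c` and goes off to the right of `c` -/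
def Right (c : List D) (d : D) : Prop := S.Left (S.inv c) d

open Classical in
/-- once around the curve `c`, from the vertex where `d` starts, if `d` goes off to the left -/
noncomputable def turn (c : List D) (d : D) : List D :=
  if S.Left c d then c.rotate (c.findIdx fun x => decide (S.SameVertex x d)) else []

/-- The positive (right-handed) Dehn twist about the curve `c`, on edge paths: whenever the path
leaves `c` to the left it first goes once around `c`, and whenever it arrives at `c` from the left
it then goes once around `c` backwards. So the path turns right when it crosses `c`. -/
noncomputable def twist (c : List D) (p : List D) : List D :=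
  p.flatMap fun d => S.turn c d ++ d :: S.inv (S.turn c (S.rev d))

/-- the two curves are disjoint -/
def AreDisjoint (c c' : List D) : Prop := ∀ a ∈ c, ∀ b ∈ c', ¬ S.SameVertex a b

/-- the two curves meet at exactly one vertex and cross there transversally: `c'` arrives there by
`p` and leaves by `b` -/
def CrossOnce (c c' : List D) : Prop :=
  ∃ a ∈ c, ∃ b ∈ c', ∃ p ∈ c', S.SameVertex a b ∧ S.Follows p b ∧
    (∀ a' ∈ c, ∀ b' ∈ c', S.SameVertex a' b' → a' = a ∧ b' = b) ∧
    ((S.Left c (S.rev p) ∧ S.Right c b) ∨ (S.Right c (S.rev p) ∧ S.Left c b))

/-- The product of the positive Dehn twists about the curves `c i`, for `i` in the list `w` (the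
last one acts first), is the positive Dehn twist about the boundary: it acts on the loops at the
base vertex in the same way, namely by `p ↦ zeta⁻¹ p zeta`. -/
def IsFactorization {ι : Type} (c : ι → List D) (w : List ι) : Prop :=
  ∀ p, S.IsLoop p →
    S.cls (w.foldr (fun i q => S.twist (c i) q) p) = S.cls (S.inv S.zeta ++ p ++ S.zeta)

end Surface

end Pool.Agent.V8H82.Surf
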