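import Pool.Agent.V8H82.PF.Cls
import Pool.Agent.V8H82.PF.Surf

/-!
# From surfaces to rooted maps: the curves
-/

set_option autoImplicit false
set_option linter.unusedVariables false
set_option linter.unusedSectionVars false

namespace Pool.Agent.V8H82.PF

open Finset List Pool.Agent.V8H82.Surf

variable {D : Type} [Fintype D]

/-- the rooted map of a surface -/
def sf (S : Surface D) : Sf D := ⟨Finset.univ, S.rot, S.rev, S.leg⟩

variable {S : Surface D}

lemma sf_fc (d : D) : (sf S).fc d = S.face d := rfl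

lemma same_of (h : D → D) (f : Equiv.Perm D) (hf : ⇑f = h) {x y : D} :
    Same (Finset.univ : Finset D) h x y ↔ f.SameCycle x y := by
  subst hf
  constructor
  · intro h
    refine (h (fun z => f.SameCycle x z) fun d _ => ?_).1 (Equiv.Perm.SameCycle.refl f x)
    exact Equiv.Perm.sameCycle_apply_right
  · rintro ⟨i, rfl⟩ P hP
    have hP' : ∀ d, P (f d) ↔ P d := fun d => hP d (Finset.mem_univ d)
    symm
    induction i using Int.induction_on with
    | zero => rfl
    | succ i ih =>
      rw [add_comm, zpow_one_add, Equiv.Perm.mul_apply, hP']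
      exact ih
    | pred i ih =>
      have h2 := hP' ((f ^ (-(i : ℤ) - 1)) x)
      rw [← Equiv.Perm.mul_apply, ← zpow_one_add, add_sub_cancel] at h2
      rw [← h2]
      exact ih

lemma same_rot {x y : D} : Same (sf S).A (sf S).cw x y ↔ S.SameVertex x y :=
  same_of _ S.rot rfl

lemma same_face {x y : D} : Same (sf S).A (sf S).fc x y ↔ S.face.SameCycle x y :=
  same_of _ S.face rfl

lemma sf_ok (S : Surface D) : (sf S).Ok where
  ho := Finset.mem_univ _
  hm _ _ := Finset.mem_univ _
  hi _ _ _ _ h := S.rot.injective h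
  mrev _ _ := Finset.mem_univ _
  rr d _ := S.rev_rev d
  ro := S.rev_leg
  rn d _ h := S.rev_ne d h
  conn P h1 h2 h3 d _ := S.conn {z | P z} h3 (fun z hz => (h1 z (Finset.mem_univ _)).2 hz)
    (fun z hz => (h2 z (Finset.mem_univ _)).2 hz) d

/-! ### Cyclic lists -/

lemma cyc_next {T : Type} {R : T → T → Prop} {c : List T} (h : Cycle.Chain R (c : Cycle T)) {x : T}
    (hx : x ∈ c) : ∃ y ∈ c, R x y := by
  obtain ⟨l, hl⟩ := rot_mem hx
  rw [Cycle.coe_eq_coe.2 hl, Cycle.chain_coe_cons] at h
  cases h2 : l ++ [x] with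
  | nil => simp at h2
  | cons y l' =>
    rw [h2, List.isChain_cons_cons] at h
    refine ⟨y, ?_, h.1⟩
    have h3 : y ∈ l ++ [x] := by rw [h2]; simp
    rw [(hl.trans (rot_next x l)).mem_iff]
    exact h3

lemma cyc_prev {T : Type} {R : T → T → Prop} {c : List T} (h : Cycle.Chain R (c : Cycle T)) {x : T}
    (hx : x ∈ c) : ∃ y ∈ c, R y x := by
  obtain ⟨l, hl⟩ := rot_mem hx
  rw [Cycle.coe_eq_coe.2 hl, Cycle.chain_coe_cons] at h
  rcases List.eq_nil_or_concat l with h1 | ⟨l', y, h1⟩
  · rw [h1, List.nil_append, List.isChain_cons_cons] at h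
    exact ⟨x, hx, h.1⟩
  · rw [List.concat_eq_append] at h1
    rw [h1] at h
    have h3 : x :: ((l' ++ [y]) ++ [x]) = (x :: l') ++ [y, x] := by simp
    rw [h3, List.isChain_append] at h
    have h4 := h.2.1
    rw [List.isChain_cons_cons] at h4
    refine ⟨y, ?_, h4.1⟩
    rw [hl.mem_iff, h1]
    simp

lemma sv_refl (a : D) : S.SameVertex a a := Equiv.Perm.SameCycle.refl _ a

lemma sv_symm {a b : D} (h : S.SameVertex a b) : S.SameVertex b a := Equiv.Perm.SameCycle.symm h

lemma sv_trans {a b c : D} (h : S.SameVertex a b) (h' : S.SameVertex b c) : S.SameVertex a c :=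
  Equiv.Perm.SameCycle.trans h h'

lemma sv_rot (a : D) : S.SameVertex a (S.rot a) :=
  Equiv.Perm.sameCycle_apply_right.2 (Equiv.Perm.SameCycle.refl _ a)

lemma sv_it (a : D) (n : ℕ) : S.SameVertex a (S.rot^[n] a) := by
  induction n with
  | zero => exact sv_refl a
  | succ n ih =>
    rw [Function.iterate_succ_apply']
    exact sv_trans ih (sv_rot _)

lemma sv_reach {a b : D} (h : S.SameVertex a b) : ∃ k, S.rot^[k] a = b :=
  reach (A := Finset.univ) (fun _ _ => Finset.mem_univ _) (fun _ _ _ _ h => S.rot.injective h)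
    (Finset.mem_univ _) ((same_of _ S.rot rfl).2 h)

lemma cu1 {c : List D} (h : S.IsCurve c) {x x' : D} (hx : x ∈ c) (hx' : x' ∈ c)
    (hs : S.SameVertex x x') : x = x' := by
  by_contra hne
  have : Std.Symm (fun a b => ¬ S.SameVertex a b) := ⟨fun a b h h' => h (sv_symm h')⟩
  exact h.simple.forall hx hx' hne hs

lemma cu2 {c : List D} (h : S.IsCurve c) {y y' : D} (hy : y ∈ c) (hy' : y' ∈ c)
    (hs : S.SameVertex (S.rev y) (S.rev y')) : y = y' := by
  classical
  have h1 : ∀ x ∈ c, ∃ z ∈ c, S.Follows x z := fun x hx => cyc_next h.closed hx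
  have : Nonempty D := ⟨y⟩
  choose! f f1 f2 using h1
  have h3 : Set.SurjOn f (c.toFinset : Set D) (c.toFinset : Set D) := by
    intro z hz
    have hz' : z ∈ c := List.mem_toFinset.1 hz
    obtain ⟨x, hx, hxz⟩ := cyc_prev h.closed hz'
    refine ⟨x, List.mem_toFinset.2 hx, ?_⟩
    exact cu1 h (f1 x hx) hz' (sv_trans (sv_symm (f2 x hx)) hxz)
  have h4 := Finset.injOn_of_surjOn_of_card_le f
    (fun x hx => List.mem_toFinset.2 (f1 x (List.mem_toFinset.1 hx))) h3 le_rfl
  refine h4 (List.mem_toFinset.2 hy) (List.mem_toFinset.2 hy') ?_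
  exact cu1 h (f1 y hy) (f1 y' hy') (sv_trans (sv_symm (f2 y hy)) (sv_trans hs (f2 y' hy')))

/-! ### The left side of a curve -/

/-- on the curve or to the left -/
def LL (S : Surface D) (c : List D) (d : D) : Prop :=
  ∃ n, S.rot^[n] d ∈ c ∧ ∀ m < n, S.rev (S.rot^[m] d) ∉ c

lemma LL_iff {c : List D} {d : D} : LL S c d ↔ d ∈ c ∨ S.Left c d := by
  constructor
  · intro h
    by_cases hd : d ∈ c
    · exact Or.inl hd
    · exact Or.inr ⟨hd, h⟩
  · rintro (h | h)
    · exact ⟨0, h, fun m hm => absurd hm (Nat.not_lt_zero m)⟩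
    · exact h.2

lemma left_iff {c : List D} {d : D} (hd : d ∉ c) : S.Left c d ↔ LL S c d :=
  ⟨fun h => h.2, fun h => ⟨hd, h⟩⟩

lemma mem_inv {c : List D} {d : D} : d ∈ S.inv c ↔ S.rev d ∈ c := by
  unfold Surface.inv
  rw [List.mem_reverse, List.mem_map]
  constructor
  · rintro ⟨a, ha, rfl⟩
    rwa [S.rev_rev]
  · intro h
    exact ⟨_, h, S.rev_rev d⟩

/-- the darts to the right are not to the left -/
lemma right_not {c : List D} (h : S.IsCurve c) {d : D} (hd : S.Right c d) : ¬ LL S c d := by
  rintro ⟨n1, h1, h2⟩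
  obtain ⟨_, n2, h3, h4⟩ := hd
  rw [mem_inv] at h3
  rcases Nat.lt_trichotomy n1 n2 with h5 | h5 | h5
  · refine h4 n1 h5 ?_
    rw [mem_inv, S.rev_rev]
    exact h1
  · rw [← h5] at h3
    exact h.edges _ h1 h3
  · exact h2 n2 h5 h3

/-- the curve of the list of darts -/
def cv (S : Surface D) (c : List D) : Cv D := ⟨c, LL S c⟩

lemma cv_lr {c : List D} (h : S.IsCurve c) : LR (sf S) (cv S c) where
  ne := h.ne
  nd := h.simple.imp fun hab h1 => hab (by rw [h1]; exact sv_refl _)
  mem _ _ := Finset.mem_univ _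
  chain := h.closed.imp fun a b hab => same_rot.2 hab
  dist x hx x' hx' hs := cu1 h hx hx' (same_rot.1 hs)
  base x hx hs := h.base x hx (same_rot.1 hs)
  l1 := by
    intro y hy
    obtain ⟨x, hx, hyx⟩ := cyc_next h.closed hy
    have hex := sv_reach hyx
    obtain ⟨k, hk⟩ : ∃ k, k = ps S.rot (S.rev y) x := ⟨_, rfl⟩
    have h1 := ps_spec hex
    rw [← hk] at h1
    have h2 : S.rev y ∉ c := h.edges y hy
    obtain ⟨j, rfl⟩ : ∃ j, k = j + 1 := by
      cases k with
      | zero =>
        exfalso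
        apply h2
        have h3 : S.rev y = x := h1
        rw [h3]
        exact hx
      | succ j => exact ⟨j, rfl⟩
    refine ⟨j, ?_, fun m hm h3 => ?_⟩
    · show S.rot^[j] (S.rot (S.rev y)) ∈ c
      rw [← Function.iterate_succ_apply, h1]
      exact hx
    · have h3' : S.rev (S.rot^[m] (S.rot (S.rev y))) ∈ c := h3
      rw [← Function.iterate_succ_apply] at h3'
      have h4 : S.SameVertex (S.rev y) (S.rev (S.rev (S.rot^[m + 1] (S.rev y)))) := by
        rw [S.rev_rev]
        exact sv_it _ _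
      have h5 := cu2 h hy h3' h4
      have h6 : S.rot^[m + 1] (S.rev y) = S.rev y := by
        conv_rhs => rw [h5, S.rev_rev]
      have h7 : S.rot^[(j + 1) - (m + 1)] (S.rev y) = x := by
        have h8 : S.rot^[((j + 1) - (m + 1)) + (m + 1)] (S.rev y) = x := by
          rw [Nat.sub_add_cancel (by omega)]
          exact h1
        rwa [Function.iterate_add_apply, h6] at h8
      have h8 := ps_le (f := S.rot) h7
      omega
  l2 := by
    rintro y hy ⟨n, h1, h2⟩
    cases n with
    | zero => exact h.edges y hy h1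
    | succ n =>
      refine h2 0 (Nat.succ_pos n) ?_
      show S.rev (S.rev y) ∈ c
      rw [S.rev_rev]
      exact hy
  l3 x hx := ⟨0, hx, fun m hm => absurd hm (Nat.not_lt_zero m)⟩
  l4 := by
    rintro x hx ⟨n, h1, h2⟩
    have h1' : S.rot^[n] (S.rot x) ∈ c := h1
    have h2' : ∀ m < n, S.rev (S.rot^[m] (S.rot x)) ∉ c := h2
    rw [← Function.iterate_succ_apply] at h1'
    have h3 := cu1 h hx h1' (sv_it _ _)
    have h4 : Function.IsPeriodicPt S.rot (n + 1) x := h3.symm
    obtain ⟨y, hy, hyx⟩ := cyc_prev h.closed hx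
    obtain ⟨k, hk⟩ := sv_reach (sv_symm hyx)
    have h5 : S.rot^[k % (n + 1)] x = S.rev y := by
      rw [h4.iterate_mod_apply, hk]
    have h6 : k % (n + 1) < n + 1 := Nat.mod_lt _ (Nat.succ_pos _)
    cases h7 : k % (n + 1) with
    | zero =>
      rw [h7] at h5
      have h8 : x = S.rev y := h5
      exact h.edges y hy (h8 ▸ hx)
    | succ m =>
      rw [h7, Function.iterate_succ_apply] at h5
      refine h2' m (by omega) ?_
      rw [h5, S.rev_rev]
      exact hy
  l5 := by
    intro d _ h1 h2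
    constructor
    · rintro ⟨n, h3, h4⟩
      refine ⟨n + 1, ?_, fun m hm => ?_⟩
      · rw [Function.iterate_succ_apply]
        exact h3
      · cases m with
        | zero => exact h2
        | succ m =>
          rw [Function.iterate_succ_apply]
          exact h4 m (by omega)
    · rintro ⟨n, h3, h4⟩
      cases n with
      | zero => exact absurd h3 h1
      | succ n =>
        refine ⟨n, ?_, fun m hm => ?_⟩
        · rw [Function.iterate_succ_apply] at h3
          exact h3
        · have := h4 (m + 1) (by omega)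
          rwa [Function.iterate_succ_apply] at this
  l6 := by
    rintro d _ ⟨n, h1, _⟩
    exact ⟨_, h1, same_rot.2 (sv_symm (sv_it d n))⟩

end Pool.Agent.V8H82.PF
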