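import Pool.Agent.V8H82.PF.Tr1

/-!
# From surfaces to rooted maps: paths, twists, homotopy
-/

set_option autoImplicit false
set_option linter.unusedVariables false
set_option linter.unusedSectionVars false

namespace Pool.Agent.V8H82.PF

open Finset List Pool.Agent.V8H82.Surf

variable {D : Type} [Fintype D] {S : Surface D} {G : Type} [Group G]

/-- the transport along a path -/
def HH (S : Surface D) (s : D → G) (p : List D) : G := (p.map ((sf S).hh s)).prod

lemma HH_append (s : D → G) (p q : List D) : HH S s (p ++ q) = HH S s p * HH S s q := by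
  unfold HH
  rw [List.map_append, List.prod_append]

lemma HH_cons (s : D → G) (d : D) (q : List D) :
    HH S s (d :: q) = (sf S).hh s d * HH S s q := by
  unfold HH
  rw [List.map_cons, List.prod_cons]

lemma HH_nil (s : D → G) : HH S s [] = 1 := rfl

lemma HH_rev {s : D → G} (hs : (sf S).Fl s) {d : D} (hd : d ≠ S.leg) :
    (sf S).hh s (S.rev d) = ((sf S).hh s d)⁻¹ := hs d (Finset.mem_univ _) hd

lemma inv_cons (d : D) (p : List D) : S.inv (d :: p) = S.inv p ++ [S.rev d] := by
  unfold Surface.inv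
  rw [List.map_cons, List.reverse_cons]

lemma HH_inv {s : D → G} (hs : (sf S).Fl s) {p : List D} (hp : S.leg ∉ p) :
    HH S s (S.inv p) = (HH S s p)⁻¹ := by
  induction p with
  | nil =>
    unfold Surface.inv
    simp [HH]
  | cons d p ih =>
    rw [List.mem_cons, not_or] at hp
    rw [inv_cons, HH_append, HH_cons, HH_cons, HH_nil, ih hp.2, HH_rev hs (fun h => hp.1 h.symm)]
    group

lemma leg_inv {p : List D} : S.leg ∈ S.inv p ↔ S.leg ∈ p := by
  rw [mem_inv, S.rev_leg]

/-- telescoping along a face -/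
lemma face_prod (s : D → G) (d : D) (n : ℕ) :
    HH S s ((List.range n).map fun i => S.face^[i] d) = (s d)⁻¹ * s (S.face^[n] d) := by
  induction n with
  | zero =>
    rw [List.range_zero, List.map_nil, HH_nil]
    simp
  | succ n ih =>
    rw [List.range_succ, List.map_append, HH_append, ih, List.map_singleton, HH_cons, HH_nil]
    have e : (sf S).hh s (S.face^[n] d) = (s (S.face^[n] d))⁻¹ * s (S.face^[n + 1] d) := by
      rw [Function.iterate_succ_apply']
      rfl
    rw [e]
    group

/-- the homomorphism given by a flat connection -/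
lemma exists_hom {s : D → G} (hs : (sf S).Fl s) :
    ∃ Φ : PresentedGroup S.rels →* G, ∀ p, Φ (S.cls p) = HH S s p := by
  have hlift : ∀ p : List D, FreeGroup.lift (fun d => (sf S).hh s d)
      ((p.map FreeGroup.of).prod) = HH S s p := by
    intro p
    unfold HH
    rw [map_list_prod, List.map_map]
    congr 1
    refine List.map_congr_left fun d _ => ?_
    simp
  have hr : ∀ r ∈ S.rels, FreeGroup.lift (fun d => (sf S).hh s d) r = 1 := by
    rintro r (⟨d, hd, rfl⟩ | ⟨d, hd, rfl⟩)
    · rw [map_mul, FreeGroup.lift_apply_of, FreeGroup.lift_apply_of, HH_rev hs hd]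
      group
    · rw [hlift]
      unfold Surface.around
      rw [face_prod, Function.iterate_minimalPeriod]
      group
  refine ⟨PresentedGroup.toGroup hr, fun p => ?_⟩
  unfold Surface.cls HH
  rw [map_list_prod, List.map_map]
  congr 1
  refine List.map_congr_left fun d _ => ?_
  exact PresentedGroup.toGroup.of hr

lemma HH_cls {s : D → G} (hs : (sf S).Fl s) {p q : List D} (h : S.cls p = S.cls q) :
    HH S s p = HH S s q := by
  obtain ⟨Φ, hΦ⟩ := exists_hom hs
  rw [← hΦ, ← hΦ, h]

lemma minp_pos (d : D) : 0 < Function.minimalPeriod S.face d := by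
  have h1 : d ∈ Function.periodicPts S.face := by
    obtain ⟨n, hn, h2⟩ := isOfFinOrder_iff_pow_eq_one.1 (isOfFinOrder_of_finite S.face)
    refine ⟨n, hn, ?_⟩
    show S.face^[n] d = d
    rw [Equiv.Perm.iterate_eq_pow, h2]
    rfl
  exact Function.minimalPeriod_pos_of_mem_periodicPts h1

/-- the boundary -/
lemma HH_zeta (s : D → G) : HH S s S.zeta = (sf S).zz s := by
  unfold Surface.zeta Surface.around
  obtain ⟨m, hm⟩ : ∃ m, Function.minimalPeriod S.face S.leg = m + 1 :=
    ⟨Function.minimalPeriod S.face S.leg - 1, by have := minp_pos (S := S) S.leg; omega⟩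
  rw [hm, List.range_succ_eq_map, List.map_cons, List.tail_cons, List.map_map]
  have e : ((fun i => S.face^[i] S.leg) ∘ Nat.succ) = fun i => S.face^[i] (S.face S.leg) := by
    funext i
    exact Function.iterate_succ_apply _ _ _
  have e1 : S.face^[m] (S.face S.leg) = S.leg := by
    rw [← Function.iterate_succ_apply]
    have := Function.iterate_minimalPeriod (f := S.face) (x := S.leg)
    rwa [hm] at this
  rw [e, face_prod, e1]
  unfold Sf.zz
  have e2 : (sf S).cw (sf S).o = S.face S.leg := by
    show S.rot S.leg = S.rot (S.rev S.leg)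
    rw [S.rev_leg]
  rw [e2]
  rfl

lemma leg_zeta : S.leg ∉ S.zeta := by
  unfold Surface.zeta Surface.around
  obtain ⟨m, hm⟩ : ∃ m, Function.minimalPeriod S.face S.leg = m + 1 :=
    ⟨Function.minimalPeriod S.face S.leg - 1, by have := minp_pos (S := S) S.leg; omega⟩
  rw [hm, List.range_succ_eq_map, List.map_cons, List.tail_cons, List.map_map]
  intro h
  obtain ⟨i, hi, h2⟩ := List.mem_map.1 h
  rw [List.mem_range] at hi
  have h3 : Function.IsPeriodicPt S.face (i + 1) S.leg := h2
  have := h3.minimalPeriod_le (Nat.succ_pos i)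
  omega

/-! ### The twist on paths -/

lemma turn_rt {c : List D} {d : D} (hd : S.Left c d) : Rt (sf S) (cv S c) d (S.turn c d) := by
  classical
  unfold Surface.turn
  rw [if_pos hd]
  obtain ⟨n, h1, _⟩ := hd.2
  have hex : ∃ x ∈ c, (fun x => decide (S.SameVertex x d)) x = true :=
    ⟨_, h1, by simpa using sv_symm (sv_it d n)⟩
  have hlt := List.findIdx_lt_length_of_exists hex
  have h2 := List.findIdx_getElem (w := hlt)
  generalize (c.findIdx fun x => decide (S.SameVertex x d)) = k at hlt h2
  have e : c.rotate k = c.get ⟨k, hlt⟩ :: (c.drop (k + 1) ++ c.take k) := by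
    rw [List.rotate_eq_drop_append_take hlt.le, List.drop_eq_getElem_cons hlt, List.cons_append]
    rfl
  exact ⟨⟨_, rfl⟩, _, _, e, same_rot.2 (by simpa using h2)⟩

lemma turn_neg {c : List D} {d : D} (hd : ¬ S.Left c d) : S.turn c d = [] := by
  unfold Surface.turn
  rw [if_neg hd]

lemma leg_turn {c : List D} (h : S.IsCurve c) (d : D) : S.leg ∉ S.turn c d := by
  by_cases hd : S.Left c d
  · intro h1
    have h2 : S.leg ∈ c := (turn_rt hd).1.mem_iff.2 h1
    exact h.base _ h2 (sv_refl _)
  · rw [turn_neg hd]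
    simp

lemma HH_turn {c : List D} (h : S.IsCurve c) (s : D → G) {d : D} (h1 : d ∉ c) :
    HH S s (S.turn c d) = mm (sf S) (cv S c) 1 s d := by
  unfold mm
  by_cases hd : S.Left c d
  · have h2 : (cv S c).L d := hd.2
    rw [if_pos h2, zpow_one, (cv_lr h).hol_eq s (turn_rt hd)]
    rfl
  · have h2 : ¬ (cv S c).L d := fun h3 => hd ⟨h1, h3⟩
    rw [if_neg h2, turn_neg hd, HH_nil]

/-- the transport along the twisted dart is the twisted transport along the dart -/
lemma HH_twist1 {c : List D} (h : S.IsCurve c) {s : D → G} (hs : (sf S).Fl s) {d : D}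
    (hd : d ≠ S.leg) :
    HH S s (S.turn c d ++ d :: S.inv (S.turn c (S.rev d))) =
      (sf S).hh (tw (sf S) (cv S c) 1 s) d := by
  have hM := sf_ok S
  have lr := cv_lr h
  have hdA : d ∈ (sf S).A := Finset.mem_univ _
  rw [HH_append, HH_cons, HH_inv hs (leg_turn h _)]
  by_cases h1 : d ∈ c
  · have h2 : ¬ S.Left c d := fun h3 => h3.1 h1
    have h3 : ¬ S.Left c (S.rev d) := fun h4 => lr.l2 d h1 h4.2
    rw [turn_neg h2, turn_neg h3, HH_nil, lr.hh_on hM 1 s h1]
    group
  · by_cases h1' : S.rev d ∈ c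
    · have h2 : ¬ S.Left c (S.rev d) := fun h3 => h3.1 h1'
      have h3 : ¬ S.Left c d := fun h4 => lr.l2 _ h1' (by
        show LL S c (S.rev (S.rev d))
        rw [S.rev_rev]
        exact h4.2)
      have h4 := lr.hh_onr hM 1 s h1'
      have e : (sf S).rev (S.rev d) = d := S.rev_rev d
      rw [e] at h4
      rw [turn_neg h2, turn_neg h3, HH_nil, h4]
      group
    · rw [lr.hh_off hM 1 s hdA h1 h1', HH_turn h s h1, HH_turn h s h1', mul_assoc]
      rfl

lemma twist_cons (c : List D) (d : D) (p : List D) :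
    S.twist c (d :: p) = (S.turn c d ++ d :: S.inv (S.turn c (S.rev d))) ++ S.twist c p := by
  unfold Surface.twist
  rw [List.flatMap_cons]

lemma HH_twist {c : List D} (h : S.IsCurve c) {s : D → G} (hs : (sf S).Fl s) {p : List D}
    (hp : S.leg ∉ p) : HH S s (S.twist c p) = HH S (tw (sf S) (cv S c) 1 s) p := by
  induction p with
  | nil => rfl
  | cons d p ih =>
    rw [List.mem_cons, not_or] at hp
    rw [twist_cons, HH_append, HH_cons, HH_twist1 h hs (fun h => hp.1 h.symm), ih hp.2]

lemma leg_twist {c : List D} (h : S.IsCurve c) {p : List D} (hp : S.leg ∉ p) :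
    S.leg ∉ S.twist c p := by
  induction p with
  | nil => simp [Surface.twist]
  | cons d p ih =>
    rw [List.mem_cons, not_or] at hp
    rw [twist_cons, List.mem_append, List.mem_append, List.mem_cons, leg_inv]
    rintro ((h1 | h1 | h1) | h1)
    · exact leg_turn h _ h1
    · exact hp.1 h1
    · exact leg_turn h _ h1
    · exact ih hp.2 h1

lemma HH_fold {ι : Type} {c : ι → List D} (h : ∀ i, S.IsCurve (c i)) (w : List ι) :
    ∀ {s : D → G}, (sf S).Fl s → ∀ {p : List D}, S.leg ∉ p →
      S.leg ∉ w.foldr (fun i q => S.twist (c i) q) p ∧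
      HH S s (w.foldr (fun i q => S.twist (c i) q) p) =
        HH S (w.foldl (fun s i => tw (sf S) (cv S (c i)) 1 s) s) p := by
  induction w with
  | nil => exact fun _ _ hp => ⟨hp, rfl⟩
  | cons i w ih =>
    intro s hs p hp
    rw [List.foldr_cons, List.foldl_cons]
    have hs' := (cv_lr (h i)).fl (sf_ok S) 1 hs
    refine ⟨leg_twist (h i) (ih hs hp).1, ?_⟩
    rw [HH_twist (h i) hs (ih hs hp).1, (ih hs' hp).2]

lemma fold_fl {ι : Type} {c : ι → List D} (h : ∀ i, S.IsCurve (c i)) (w : List ι) :
    ∀ {s : D → G}, (sf S).Fl s →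
      (sf S).Fl (w.foldl (fun s i => tw (sf S) (cv S (c i)) 1 s) s) := by
  induction w with
  | nil => exact fun hs => hs
  | cons i w ih =>
    intro s hs
    rw [List.foldl_cons]
    exact ih ((cv_lr (h i)).fl (sf_ok S) 1 hs)

/-! ### Paths from the base vertex -/

/-- a path from the base vertex to the vertex of `d` -/
def Pa (S : Surface D) (p : List D) (d : D) : Prop :=
  S.leg ∉ p ∧ List.IsChain S.Follows (S.leg :: (p ++ [d]))

lemma chain_last {T : Type} {R : T → T → Prop} {p : List T} {a b : T}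
    (h : List.IsChain R (p ++ [a])) (hab : ∀ x, R x a → R x b) : List.IsChain R (p ++ [b]) := by
  rw [List.isChain_append] at h ⊢
  refine ⟨h.1, List.isChain_singleton b, fun x hx y hy => ?_⟩
  have h1 := h.2.2 x hx a (by simp)
  simp only [List.head?_cons, Option.mem_def, Option.some.injEq] at hy
  rw [← hy]
  exact hab x h1

lemma Pa.same {p : List D} {d d' : D} (h : Pa S p d) (h' : S.SameVertex d d') : Pa S p d' := by
  refine ⟨h.1, ?_⟩
  have := h.2
  rw [← List.cons_append] at this ⊢
  exact chain_last this fun x hx => sv_trans hx h'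

lemma Pa.nil : Pa S [] S.leg := by
  refine ⟨by simp, ?_⟩
  show List.IsChain S.Follows [S.leg, S.leg]
  rw [List.isChain_pair]
  show S.SameVertex (S.rev S.leg) S.leg
  rw [S.rev_leg]
  exact sv_refl _

lemma Pa.snoc {p : List D} {d : D} (h : Pa S p d) (hd : d ≠ S.leg) :
    Pa S (p ++ [d]) (S.rev d) := by
  refine ⟨?_, ?_⟩
  · rw [List.mem_append, List.mem_singleton]
    rintro (h1 | h1)
    · exact h.1 h1
    · exact hd h1.symm
  · have h1 := h.2
    rw [← List.cons_append] at h1
    have e : S.leg :: ((p ++ [d]) ++ [S.rev d]) = ((S.leg :: p) ++ [d]) ++ [S.rev d] := by simp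
    rw [e, List.isChain_append]
    refine ⟨h1, List.isChain_singleton _, fun x hx y hy => ?_⟩
    simp only [List.head?_cons, Option.mem_def, Option.some.injEq] at hy
    rw [← hy]
    rw [List.getLast?_append] at hx
    simp only [List.getLast?_singleton, Option.some_or, Option.mem_def, Option.some.injEq] at hx
    rw [← hx]
    exact sv_refl _

lemma Pa.ex (S : Surface D) (d : D) : ∃ p, Pa S p d := by
  refine S.conn {d | ∃ p, Pa S p d} ⟨[], Pa.nil⟩ ?_ ?_ d
  · rintro d ⟨p, hp⟩
    exact ⟨p, hp.same (sv_rot d)⟩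
  · rintro d ⟨p, hp⟩
    by_cases hd : d = S.leg
    · rw [hd, S.rev_leg]
      exact ⟨[], Pa.nil⟩
    · exact ⟨_, hp.snoc hd⟩

/-- reversal of a path -/
lemma chain_inv {l : List D} (h : List.IsChain S.Follows l) :
    List.IsChain S.Follows (S.inv l) := by
  unfold Surface.inv
  rw [List.isChain_reverse, List.isChain_map]
  refine h.imp fun a b hab => ?_
  show S.SameVertex (S.rev (S.rev b)) (S.rev a)
  rw [S.rev_rev]
  exact sv_symm hab

/-- a path followed by a reversed path is a loop -/
lemma Pa.loop {p q : List D} {d d' : D} (hp : Pa S p d) (hq : Pa S q d')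
    (h : S.SameVertex d d') : S.IsLoop (p ++ S.inv q) := by
  refine ⟨?_, ?_⟩
  · rw [List.mem_append, leg_inv]
    rintro (h1 | h1)
    · exact hp.1 h1
    · exact hq.1 h1
  · have hq' := hq.same (sv_symm h)
    have h1 := hp.2
    have h2 := chain_inv hq'.2
    have e : S.inv (S.leg :: (q ++ [d])) = S.rev d :: (S.inv q ++ [S.leg]) := by
      unfold Surface.inv
      simp [S.rev_leg]
    rw [e] at h2
    rw [← List.cons_append, List.isChain_append] at h1
    have e2 : S.leg :: ((p ++ S.inv q) ++ [S.leg]) = (S.leg :: p) ++ (S.inv q ++ [S.leg]) := by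
      simp
    rw [e2, List.isChain_append]
    refine ⟨h1.1, h2.tail, fun x hx y hy => ?_⟩
    have h3 : S.SameVertex (S.rev x) d := h1.2.2 x hx d (by simp)
    cases h4 : S.inv q ++ [S.leg] with
    | nil => simp at h4
    | cons z l =>
      rw [h4] at hy h2
      simp only [List.head?_cons, Option.mem_def, Option.some.injEq] at hy
      rw [List.isChain_cons_cons] at h2
      have h5 : S.SameVertex (S.rev (S.rev d)) z := h2.1
      rw [S.rev_rev, hy] at h5
      exact sv_trans h3 h5

/-- **The factorization gives the relation between the connections.** -/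
theorem fac_rel {ι : Type} {c : ι → List D} (h : ∀ i, S.IsCurve (c i)) {w : List ι}
    (hw : S.IsFactorization c w) : Rel (sf S) (fun i => cv S (c i)) w := by
  intro G _ s hs
  have hM := sf_ok S
  obtain ⟨s', hs'⟩ : ∃ s', s' = w.foldl (fun s i => tw (sf S) (cv S (c i)) 1 s) s := ⟨_, rfl⟩
  have hF' : (sf S).Fl s' := by rw [hs']; exact fold_fl h w hs
  obtain ⟨z, hz⟩ : ∃ z, z = (sf S).zz s := ⟨_, rfl⟩
  have key : ∀ p, S.IsLoop p → HH S s' p = z⁻¹ * HH S s p * z := by
    intro p hp
    have h1 := HH_cls hs (hw p hp)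
    rw [(HH_fold h w hs hp.1).2, ← hs', HH_append, HH_append, HH_inv hs leg_zeta, HH_zeta,
      ← hz] at h1
    exact h1
  have key2 : ∀ (p q : List D) (d d' : D), Pa S p d → Pa S q d' → S.SameVertex d d' →
      (HH S s' p)⁻¹ * z⁻¹ * HH S s p = (HH S s' q)⁻¹ * z⁻¹ * HH S s q := by
    intro p q d d' hp hq hdd
    have h1 := key _ (hp.loop hq hdd)
    rw [HH_append, HH_append, HH_inv hF' hq.1, HH_inv hs hq.1] at h1
    have h2 : HH S s' p = z⁻¹ * (HH S s p * (HH S s q)⁻¹) * z * HH S s' q := by
      rw [← h1]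
      group
    rw [h2]
    group
  choose pa hpa using Pa.ex S
  obtain ⟨γ, hγ⟩ : ∃ γ : D → G, γ = fun d => (HH S s' (pa d))⁻¹ * z⁻¹ * HH S s (pa d) := ⟨_, rfl⟩
  have e0 : γ (sf S).o = z⁻¹ := by
    rw [hγ]
    have := key2 (pa S.leg) [] S.leg S.leg (hpa _) Pa.nil (sv_refl _)
    rw [HH_nil, HH_nil] at this
    show (HH S s' (pa S.leg))⁻¹ * z⁻¹ * HH S s (pa S.leg) = z⁻¹
    rw [this]
    group
  rw [← hz, ← e0, ← hs']
  refine Sf.Eqv.of_hh hM (fun d _ => ?_) (fun d _ hd => ?_)
  · rw [hγ]
    exact (key2 _ _ _ _ (hpa d) (hpa _) (sv_rot d)).symm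
  · have h1 := key2 _ _ _ _ ((hpa d).snoc hd) (hpa (S.rev d)) (sv_refl _)
    rw [HH_append, HH_append, HH_cons, HH_cons, HH_nil, HH_nil] at h1
    have e1 : γ d = (HH S s' (pa d))⁻¹ * z⁻¹ * HH S s (pa d) := by rw [hγ]
    have e2 : γ ((sf S).rev d) = (HH S s' (pa (S.rev d)))⁻¹ * z⁻¹ * HH S s (pa (S.rev d)) := by
      rw [hγ]
      rfl
    rw [← h1] at e2
    rw [e1, e2]
    group

end Pool.Agent.V8H82.PF
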