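import Pool.Agent.V8H82.PF.Tr2

/-!
# From surfaces to rooted maps: genus, essential curves, crossings
-/

set_option autoImplicit false
set_option linter.unusedVariables false
set_option linter.unusedSectionVars false

namespace Pool.Agent.V8H82.PF

open Finset List Pool.Agent.V8H82.Surf

variable {D : Type} [Fintype D] {S : Surface D}

/-! ### The genus -/

lemma no_of (f : Equiv.Perm D) (h : D → D) (hf : ⇑f = h) :
    NO (Finset.univ : Finset D) h (Nat.card (Quotient (Equiv.Perm.SameCycle.setoid f))) := by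
  classical
  subst hf
  have : Finite (Quotient (Equiv.Perm.SameCycle.setoid f)) := Quotient.finite _
  obtain ⟨e⟩ : Nonempty (Quotient (Equiv.Perm.SameCycle.setoid f) ≃
    Fin (Nat.card (Quotient (Equiv.Perm.SameCycle.setoid f)))) := ⟨Finite.equivFin _⟩
  refine ⟨fun d => (e (Quotient.mk _ d)).1, fun d _ => ?_, fun i hi => ?_⟩
  · have h1 : (Quotient.mk (Equiv.Perm.SameCycle.setoid f) (f d)) = Quotient.mk _ d :=
      Quotient.sound (Equiv.Perm.sameCycle_apply_left.2 (Equiv.Perm.SameCycle.refl f d))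
    simp only [h1]
  · obtain ⟨d, hd⟩ := Quotient.exists_rep (e.symm ⟨i, hi⟩)
    refine ⟨d, Finset.mem_univ _, ?_⟩
    simp only [hd, Equiv.apply_symm_apply]

lemma sf_gen {g : ℕ} (h : S.HasGenus g) : ∃ a b, NO (sf S).A (sf S).cw a ∧
    NO (sf S).A (sf S).fc b ∧ (sf S).A.card + 3 ≤ 2 * a + 2 * b + 4 * g := by
  refine ⟨_, _, no_of S.rot _ rfl, no_of S.face _ rfl, ?_⟩
  unfold Surface.HasGenus at h
  have h1 : (sf S).A.card = Nat.card D := by
    rw [Nat.card_eq_fintype_card]
    exact Finset.card_univ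
  omega

lemma sf_good {ι : Type} {g : ℕ} (h : S.HasGenus g) {c : ι → List D} (hc : ∀ i, S.IsCurve (c i))
    (hp : ∀ i j, i ≠ j → S.AreDisjoint (c i) (c j) ∨ S.CrossOnce (c i) (c j)) :
    Good g (sf S) (fun i => cv S (c i)) where
  ok := sf_ok S
  lr i := cv_lr (hc i)
  sh i j hij x1 hx1 x2 hx2 y1 hy1 y2 hy2 h1 h2 := by
    rcases hp i j hij with h3 | ⟨a, ha, b, hb, p, hp, h4, h5, h6, h7⟩
    · exact absurd (same_rot.1 h1) (h3 _ hx1 _ hy1)
    · rw [(h6 x1 hx1 y1 hy1 (same_rot.1 h1)).1, (h6 x2 hx2 y2 hy2 (same_rot.1 h2)).1]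
  gen := sf_gen h

/-! ### The tautological connection -/

open Classical in
/-- the first dart of the face -/
noncomputable def rt (S : Surface D) (d : D) : D :=
  if S.face.SameCycle S.leg d then S.face S.leg
  else (Quotient.mk (Equiv.Perm.SameCycle.setoid S.face) d).out

lemma rt_same (S : Surface D) (d : D) : S.face.SameCycle (rt S d) d := by
  unfold rt
  split_ifs with h
  · exact Equiv.Perm.sameCycle_apply_left.2 h
  · exact Quotient.exact (Quotient.out_eq (Quotient.mk (Equiv.Perm.SameCycle.setoid S.face) d))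

lemma rt_face (S : Surface D) (d : D) : rt S (S.face d) = rt S d := by
  unfold rt
  have e1 : S.face.SameCycle S.leg (S.face d) ↔ S.face.SameCycle S.leg d :=
    Equiv.Perm.sameCycle_apply_right
  have e2 : (Quotient.mk (Equiv.Perm.SameCycle.setoid S.face) (S.face d)) = Quotient.mk _ d :=
    Quotient.sound (Equiv.Perm.sameCycle_apply_left.2 (Equiv.Perm.SameCycle.refl S.face d))
  rw [e2]
  by_cases h : S.face.SameCycle S.leg d
  · rw [if_pos h, if_pos (e1.2 h)]
  · rw [if_neg h, if_neg fun h1 => h (e1.1 h1)]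

lemma rt_reach (S : Surface D) (d : D) : ∃ k, S.face^[k] (rt S d) = d :=
  reach (A := Finset.univ) (fun _ _ => Finset.mem_univ _) (fun _ _ _ _ h => S.face.injective h)
    (Finset.mem_univ _) ((same_of _ S.face rfl).2 (rt_same S d))

/-- the tautological connection -/
noncomputable def st (S : Surface D) (d : D) : PresentedGroup S.rels :=
  S.cls ((List.range (ps S.face (rt S d) d)).map fun i => S.face^[i] (rt S d))

lemma cls_snoc (p : List D) (d : D) :
    S.cls (p ++ [d]) = S.cls p * (PresentedGroup.of d : PresentedGroup S.rels) := by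
  unfold Surface.cls
  simp

lemma cls_snoc' (d : D) (hd : ¬ S.face.SameCycle S.leg d) :
    S.cls (S.around d) = 1 := by
  have h1 : S.leg ∉ S.around d := by
    intro h
    obtain ⟨i, hi, h2⟩ := List.mem_map.1 h
    apply hd
    rw [← h2]
    have : ∀ n, S.face.SameCycle (S.face^[n] d) d := by
      intro n
      induction n with
      | zero => exact Equiv.Perm.SameCycle.refl _ _
      | succ n ih =>
        rw [Function.iterate_succ_apply']
        exact Equiv.Perm.sameCycle_apply_left.2 ih
    exact this i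
  have h2 : ((S.around d).map FreeGroup.of).prod ∈ S.rels := Or.inr ⟨d, h1, rfl⟩
  have h3 := PresentedGroup.one_of_mem h2
  rw [map_list_prod, List.map_map] at h3
  exact h3

lemma st_step (d : D) (hd : d ≠ S.leg) :
    st S (S.face d) = st S d * (PresentedGroup.of d : PresentedGroup S.rels) := by
  obtain ⟨a, ha⟩ : ∃ a, a = rt S d := ⟨_, rfl⟩
  have hr := rt_reach S d
  have hsp := ps_spec hr
  have e1 : S.cls ((List.range (ps S.face (rt S d) d + 1)).map fun i => S.face^[i] (rt S d)) =
      st S d * (PresentedGroup.of d : PresentedGroup S.rels) := by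
    rw [List.range_succ, List.map_append, List.map_singleton, cls_snoc, hsp]
    rfl
  by_cases h1 : S.face d = rt S d
  · rw [← e1]
    have h2 : st S (S.face d) = 1 := by
      unfold st
      rw [rt_face, h1, ps_self, List.range_zero, List.map_nil]
      rfl
    rw [h2]
    have h3 : Function.IsPeriodicPt S.face (ps S.face (rt S d) d + 1) (rt S d) := by
      show S.face^[ps S.face (rt S d) d + 1] (rt S d) = rt S d
      rw [Function.iterate_succ_apply', hsp, h1]
    have h4 : Function.minimalPeriod S.face (rt S d) = ps S.face (rt S d) d + 1 := by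
      refine le_antisymm (h3.minimalPeriod_le (Nat.succ_pos _)) ?_
      by_contra hlt
      push Not at hlt
      have h5 := minp_pos (S := S) (rt S d)
      have h6 : S.face^[ps S.face (rt S d) d - Function.minimalPeriod S.face (rt S d)] (rt S d) =
          d := by
        have h7 : S.face^[(ps S.face (rt S d) d - Function.minimalPeriod S.face (rt S d)) +
            Function.minimalPeriod S.face (rt S d)] (rt S d) = d := by
          rw [Nat.sub_add_cancel (by omega)]
          exact hsp
        rwa [Function.iterate_add_apply, Function.iterate_minimalPeriod] at h7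
      have := ps_le (f := S.face) h6
      omega
    rw [← h4]
    refine (cls_snoc' (S := S) (rt S d) fun h5 => ?_).symm
    have h6 : S.face.SameCycle S.leg d := h5.trans (rt_same S d)
    have h7 : rt S d = S.face S.leg := by
      unfold rt
      rw [if_pos h6]
    exact hd (S.face.injective (h1.trans h7))
  · rw [← e1]
    unfold st
    rw [rt_face]
    have := ps_step (A := Finset.univ) (f := S.face) (fun _ _ => Finset.mem_univ _)
      (fun _ _ _ _ h => S.face.injective h) (Finset.mem_univ (rt S d)) (Finset.mem_univ d) hr h1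
    rw [this]

lemma st_hh (d : D) (hd : d ≠ S.leg) :
    (sf S).hh (st S) d = (PresentedGroup.of d : PresentedGroup S.rels) := by
  show (st S d)⁻¹ * st S (S.face d) = _
  rw [st_step d hd]
  group

lemma st_fl : (sf S).Fl (st S) := by
  intro d _ hd
  have hd' : S.rev d ≠ S.leg := (sf_ok S).rev_ne_o (Finset.mem_univ d) hd
  have h1 := st_hh (S := S) (S.rev d) hd'
  rw [st_hh d hd]
  have h2 : FreeGroup.of d * FreeGroup.of (S.rev d) ∈ S.rels := Or.inl ⟨d, hd, rfl⟩
  have h3 := PresentedGroup.one_of_mem h2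
  rw [map_mul] at h3
  have h4 : (PresentedGroup.of d : PresentedGroup S.rels) * PresentedGroup.of (S.rev d) = 1 := h3
  exact h1.trans (eq_inv_of_mul_eq_one_right h4)

lemma cv_ess {c : List D} (h : S.IsCurve c) : Ess (sf S) (cv S c) := by
  refine ⟨_, inferInstance, st S, st_fl, fun h1 => h.essential ?_⟩
  rw [← h1]
  unfold Surface.cls lp
  congr 1
  refine List.map_congr_left fun d hd => ?_
  refine (st_hh d ?_).symm
  rintro rfl
  exact h.base _ hd (sv_refl _)

/-! ### Crossings -/

lemma prod_nodup {T : Type} [DecidableEq T] {G : Type} [CommGroup G] {c : List T} (hc : c.Nodup)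
    {f : T → G} {b : T} (hb : b ∈ c) (hf : ∀ x ∈ c, x ≠ b → f x = 1) :
    (c.map f).prod = f b := by
  rw [← List.prod_toFinset f hc]
  refine Finset.prod_eq_single b (fun x hx hxb => hf x (List.mem_toFinset.1 hx) hxb) fun h => ?_
  exact absurd (List.mem_toFinset.2 hb) h

lemma cross_lp {c c' : List D} (h : S.IsCurve c) (h' : S.IsCurve c') (hX : S.CrossOnce c c') :
    lp (sf S) (cv S c') (xi (cv S c)) ≠ 1 := by
  classical
  obtain ⟨a, ha, b, hb, p, hp, h1, h2, h3, h4⟩ := hX
  have lr := cv_lr h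
  have hM := sf_ok S
  have hnotc : ∀ d, S.Left c d ∨ S.Right c d → d ∉ c := by
    rintro d (h5 | h5) h6
    · exact h5.1 h6
    · exact right_not h h5 (LL_iff.2 (Or.inl h6))
  have hb' : b ∉ c := hnotc b (by tauto)
  have hp' : S.rev p ∉ c := hnotc _ (by tauto)
  have hprev : ∀ x ∈ c', S.Follows x b → x = p := fun x hx hxb =>
    cu2 h' hx hp (sv_trans hxb (sv_symm h2))
  have k1 : ∀ x ∈ c', x ∉ c := by
    intro x hx hxc
    have := (h3 x hxc x hx (sv_refl _)).2
    exact hb' (this ▸ hxc)
  have k2 : ∀ x ∈ c', S.rev x ∉ c := by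
    intro x hx hxc
    obtain ⟨y, hy, hxy⟩ := cyc_next h'.closed hx
    have h5 := h3 _ hxc y hy hxy
    rw [h5.2] at hxy
    have h6 := hprev x hx hxy
    rw [h6] at hxc
    exact hp' hxc
  have k3 : ∀ x ∈ c', x ≠ b → xi (cv S c) x = 1 := by
    intro x hx hxb
    refine xi_neg fun hL => hxb ?_
    obtain ⟨z, hz, hzx⟩ := lr.l6 x (Finset.mem_univ _) hL
    exact (h3 z hz x hx (same_rot.1 hzx)).2
  have k4 : ∀ x ∈ c', x ≠ p → xi (cv S c) (S.rev x) = 1 := by
    intro x hx hxp
    refine xi_neg fun hL => hxp ?_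
    obtain ⟨z, hz, hzx⟩ := lr.l6 _ (Finset.mem_univ _) hL
    obtain ⟨y, hy, hxy⟩ := cyc_next h'.closed hx
    have h5 := h3 z hz y hy (sv_trans (same_rot.1 hzx) hxy)
    rw [h5.2] at hxy
    exact hprev x hx hxy
  have hnd : c'.Nodup := (cv_lr h').nd
  have e1 : lp (sf S) (cv S c') (xi (cv S c)) =
      (c'.map fun x => (xi (cv S c) x)⁻¹ * xi (cv S c) (S.rev x)).prod := by
    unfold lp
    congr 1
    refine List.map_congr_left fun x hx => ?_
    exact lr.xi_off hM (Finset.mem_univ _) (k1 x hx) (k2 x hx)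
  have e2 : (c'.map fun x => (xi (cv S c) x)⁻¹ * xi (cv S c) (S.rev x)).prod =
      (c'.map fun x => (xi (cv S c) x)⁻¹).prod * (c'.map fun x => xi (cv S c) (S.rev x)).prod := by
    rw [← List.prod_toFinset _ hnd, ← List.prod_toFinset _ hnd, ← List.prod_toFinset _ hnd,
      Finset.prod_mul_distrib]
  have e3 : (c'.map fun x => (xi (cv S c) x)⁻¹).prod = (xi (cv S c) b)⁻¹ :=
    prod_nodup hnd hb fun x hx hxb => by rw [k3 x hx hxb, inv_one]
  have e4 : (c'.map fun x => xi (cv S c) (S.rev x)).prod = xi (cv S c) (S.rev p) :=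
    prod_nodup hnd hp fun x hx hxp => k4 x hx hxp
  rw [e1, e2, e3, e4]
  rcases h4 with ⟨h5, h6⟩ | ⟨h5, h6⟩
  · have h7 : (cv S c).L (S.rev p) := h5.2
    have h8 : ¬ (cv S c).L b := right_not h h6
    rw [xi_pos h7, xi_neg h8, inv_one, one_mul]
    exact aa_ne
  · have h7 : (cv S c).L b := h6.2
    have h8 : ¬ (cv S c).L (S.rev p) := right_not h h5
    rw [xi_pos h7, xi_neg h8, mul_one, aa_inv]
    exact aa_ne

/-- **The bound.** -/
theorem surf_bound (g : ℕ) : ∃ N : ℕ, ∀ (D : Type) [Finite D] (S : Surface D), S.HasGenus g →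
    ∀ (ι : Type) (c : ι → List D), (∀ i, S.IsCurve (c i)) →
    (∀ i j, i ≠ j → S.AreDisjoint (c i) (c j) ∨ S.CrossOnce (c i) (c j)) →
    ∀ w : List ι, S.IsFactorization c w → w.length ≤ N := by
  classical
  obtain ⟨N, hN⟩ := fam_bound g
  refine ⟨N, fun D _ S hg ι c hc hp w hw => ?_⟩
  have : Fintype D := Fintype.ofFinite D
  refine hN D ι (sf S) (fun i => cv S (c i)) (sf_good hg hc hp) (fun i => cv_ess (hc i))
    (fun i j hij hm => ?_) w (fac_rel hc hw)
  rcases hp i j hij with h1 | h1
  · exfalso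
    obtain ⟨x, hx, y, hy, hxy⟩ := hm
    exact h1 x hx y hy (same_rot.1 hxy)
  · exact cross_lp (hc i) (hc j) h1

end Pool.Agent.V8H82.PF
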