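import Pool.Agent.V8H82.PF.Flat

/-!
# Curves on rooted maps and the action of their twists on flat connections
-/

set_option autoImplicit false
set_option linter.unusedVariables false
set_option linter.unusedSectionVars false

namespace Pool.Agent.V8H82.PF

open Finset List

variable {D : Type}

/-! ### Rotations of lists -/

lemma rot_uniq {x : D} {l l' : List D} (h : (x :: l).Nodup) (h1 : (x :: l) ~r (x :: l')) :
    l = l' := by
  obtain ⟨n, hn, h2⟩ := List.isRotated_iff_mod.1 h1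
  rw [List.rotate_eq_drop_append_take hn] at h2
  have h3 := List.take_append_drop n (x :: l)
  cases h4 : List.drop n (x :: l) with
  | nil =>
    rw [h4, List.nil_append] at h2
    rw [h4, List.append_nil, h2] at h3
    exact (List.cons.inj h3).2.symm
  | cons a s =>
    rw [h4, List.cons_append] at h2
    have h5 := (List.cons.inj h2).1
    subst h5
    cases h6 : List.take n (a :: l) with
    | nil =>
      rw [h6, List.append_nil] at h2
      rw [h6, h4, List.nil_append, h2] at h3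
      exact (List.cons.inj h3).2.symm
    | cons b t =>
      exfalso
      rw [h6, h4, List.cons_append] at h3
      have h7 := List.cons.inj h3
      rw [← h3] at h
      rw [List.nodup_cons] at h
      apply h.1
      rw [h7.1]
      simp

lemma rot_mem {c : List D} {x : D} (h : x ∈ c) : ∃ l, c ~r (x :: l) := by
  obtain ⟨s, t, rfl⟩ := List.mem_iff_append.1 h
  exact ⟨t ++ s, List.isRotated_append⟩

lemma rot_next (x : D) (l : List D) : (x :: l) ~r (l ++ [x]) := by
  have := List.isRotated_append (l := [x]) (l' := l)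
  exact this

/-! ### Curves -/

/-- the data of a curve: its darts, and the corners to its left -/
structure Cv (D : Type) where
  c : List D
  L : D → Prop

/-- `K` is a simple closed curve -/
structure LR (M : Sf D) (K : Cv D) : Prop where
  ne : K.c ≠ []
  nd : K.c.Nodup
  mem : ∀ x ∈ K.c, x ∈ M.A
  chain : Cycle.Chain (fun a b => Same M.A M.cw (M.rev a) b) (K.c : Cycle D)
  dist : ∀ x ∈ K.c, ∀ x' ∈ K.c, Same M.A M.cw x x' → x = x'
  base : ∀ x ∈ K.c, ¬ Same M.A M.cw M.o x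
  l1 : ∀ y ∈ K.c, K.L (M.cw (M.rev y))
  l2 : ∀ y ∈ K.c, ¬ K.L (M.rev y)
  l3 : ∀ x ∈ K.c, K.L x
  l4 : ∀ x ∈ K.c, ¬ K.L (M.cw x)
  l5 : ∀ d ∈ M.A, d ∉ K.c → M.rev d ∉ K.c → (K.L (M.cw d) ↔ K.L d)
  l6 : ∀ d ∈ M.A, K.L d → ∃ x ∈ K.c, Same M.A M.cw x d

/-- `w` is the curve read from the vertex of `d` -/
def Rt (M : Sf D) (K : Cv D) (d : D) (w : List D) : Prop :=
  K.c ~r w ∧ ∃ x l, w = x :: l ∧ Same M.A M.cw x d

variable {M : Sf D} {K : Cv D} {G H : Type} [Group G] [Group H]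

lemma LR.isChain (h : LR M K) {x : D} {l : List D} (hw : K.c ~r (x :: l)) :
    List.IsChain (fun a b => Same M.A M.cw (M.rev a) b) (x :: (l ++ [x])) := by
  have h1 := h.chain
  rw [Cycle.coe_eq_coe.2 hw] at h1
  exact (Cycle.chain_coe_cons _ _ _).1 h1

lemma LR.uniq (h : LR M K) {d : D} {w w' : List D} (hw : Rt M K d w) (hw' : Rt M K d w') :
    w = w' := by
  obtain ⟨h1, x, l, h2, h3⟩ := hw
  obtain ⟨h1', x', l', h2', h3'⟩ := hw'
  subst h2 h2'
  have hx : x ∈ K.c := h1.mem_iff.2 (by simp)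
  have hx' : x' ∈ K.c := h1'.mem_iff.2 (by simp)
  have h4 := h.dist x hx x' hx' (h3.trans h3'.symm)
  subst h4
  rw [rot_uniq (h1.nodup_iff.1 h.nd) (h1.symm.trans h1')]

lemma LR.ex (h : LR M K) {x : D} (hx : x ∈ K.c) : ∃ l, Rt M K x (x :: l) := by
  obtain ⟨l, hl⟩ := rot_mem hx
  exact ⟨l, hl, x, l, rfl, Same.refl x⟩

lemma Rt.same {d d' : D} {w : List D} (h : Rt M K d w) (h' : Same M.A M.cw d d') :
    Rt M K d' w := by
  obtain ⟨h1, x, l, h2, h3⟩ := h
  exact ⟨h1, x, l, h2, h3.trans h'⟩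

/-- the curve read from the end of its first dart -/
lemma LR.nextRt (h : LR M K) {x : D} {l : List D} (hw : Rt M K x (x :: l)) :
    Rt M K (M.rev x) (l ++ [x]) := by
  have h1 := h.isChain hw.1
  refine ⟨hw.1.trans (rot_next x l), ?_⟩
  cases h2 : l ++ [x] with
  | nil => simp at h2
  | cons y l' =>
    rw [h2, List.isChain_cons_cons] at h1
    exact ⟨y, l', rfl, h1.1.symm⟩

/-- the next dart on the curve -/
lemma LR.next (h : LR M K) {x : D} (hx : x ∈ K.c) : ∃ y ∈ K.c, Same M.A M.cw (M.rev x) y := by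
  obtain ⟨l, hl⟩ := h.ex hx
  obtain ⟨h1, y, l', h2, h3⟩ := h.nextRt hl
  refine ⟨y, h1.mem_iff.2 ?_, h3.symm⟩
  rw [h2]
  simp

/-- the previous dart on the curve -/
lemma LR.prev (h : LR M K) {x : D} (hx : x ∈ K.c) : ∃ y ∈ K.c, Same M.A M.cw (M.rev y) x := by
  obtain ⟨l, hl⟩ := h.ex hx
  rcases List.eq_nil_or_concat l with h1 | ⟨l', y, h1⟩
  · have h2 := h.isChain hl.1
    rw [h1, List.nil_append, List.isChain_cons_cons] at h2
    exact ⟨x, hx, h2.1⟩
  · rw [List.concat_eq_append] at h1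
    have h2 := h.isChain hl.1
    rw [h1] at h2
    have h3 : x :: ((l' ++ [y]) ++ [x]) = (x :: l') ++ [y, x] := by simp
    rw [h3, List.isChain_append] at h2
    have h4 := h2.2.1
    rw [List.isChain_cons_cons] at h4
    refine ⟨y, ?_, h4.1⟩
    rw [hl.1.mem_iff, h1]
    simp

open Classical in
/-- the transport along the curve, from the vertex of `d` -/
noncomputable def hol (M : Sf D) (K : Cv D) (s : D → G) (d : D) : G :=
  if h : ∃ w, Rt M K d w then (h.choose.map (M.hh s)).prod else 1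

lemma LR.hol_eq (h : LR M K) (s : D → G) {d : D} {w : List D} (hw : Rt M K d w) :
    hol M K s d = (w.map (M.hh s)).prod := by
  unfold hol
  rw [dif_pos ⟨w, hw⟩]
  have := h.uniq (Exists.choose_spec (⟨w, hw⟩ : ∃ w, Rt M K d w)) hw
  rw [this]

open Classical in
/-- the twist (to the power `z`) -/
noncomputable def tw (M : Sf D) (K : Cv D) (z : ℤ) (s : D → G) (d : D) : G :=
  if K.L d then s d * (hol M K s d) ^ (-z) else s d

lemma tw_pos {z : ℤ} {s : D → G} {d : D} (h : K.L d) :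
    tw M K z s d = s d * (hol M K s d) ^ (-z) := by
  unfold tw
  rw [if_pos h]

lemma tw_neg {z : ℤ} {s : D → G} {d : D} (h : ¬ K.L d) : tw M K z s d = s d := by
  unfold tw
  rw [if_neg h]

/-- a dart at a vertex of the curve has a rotation -/
lemma LR.exRt (h : LR M K) {d x : D} (hx : x ∈ K.c) (hs : Same M.A M.cw x d) :
    ∃ w, Rt M K d w := by
  obtain ⟨l, hl⟩ := h.ex hx
  exact ⟨_, hl.same hs⟩

lemma LR.hol_same (h : LR M K) (s : D → G) {d d' x : D} (hx : x ∈ K.c)
    (hs : Same M.A M.cw x d) (hs' : Same M.A M.cw d d') : hol M K s d' = hol M K s d := by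
  obtain ⟨w, hw⟩ := h.exRt hx hs
  rw [h.hol_eq s hw, h.hol_eq s (hw.same hs')]

/-- the transport along the curve, from the next vertex -/
lemma LR.hol_next (h : LR M K) (s : D → G) {x : D} (hx : x ∈ K.c) :
    hol M K s (M.rev x) = (M.hh s x)⁻¹ * hol M K s x * M.hh s x := by
  obtain ⟨l, hl⟩ := h.ex hx
  rw [h.hol_eq s hl, h.hol_eq s (h.nextRt hl)]
  simp

lemma conj_zpow' (a b : G) (n : ℤ) : (a⁻¹ * b * a) ^ n = a⁻¹ * b ^ n * a := by
  have := conj_zpow (a := a⁻¹) (b := b) (i := n)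
  rwa [inv_inv] at this

/-- the transport along the darts of the curve does not change -/
lemma LR.hh_on (hM : M.Ok) (h : LR M K) (z : ℤ) (s : D → G) {x : D} (hx : x ∈ K.c) :
    M.hh (tw M K z s) x = M.hh s x := by
  have h1 := h.l1 x hx
  have h3 := h.l3 x hx
  obtain ⟨y, hy, hy2⟩ := h.next hx
  have hxA := h.mem x hx
  have e1 : hol M K s (M.cw (M.rev x)) = hol M K s (M.rev x) :=
    h.hol_same s hy hy2.symm (Same.step (hM.mrev _ hxA))
  unfold Sf.hh
  rw [tw_pos h1, tw_pos h3, e1, h.hol_next s hx, conj_zpow']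
  unfold Sf.hh
  group

/-- the transport along the reversed darts of the curve does not change -/
lemma LR.hh_onr (hM : M.Ok) (h : LR M K) (z : ℤ) (s : D → G) {x : D} (hx : x ∈ K.c) :
    M.hh (tw M K z s) (M.rev x) = M.hh s (M.rev x) := by
  have h1 := h.l4 x hx
  have h3 := h.l2 x hx
  unfold Sf.hh
  rw [hM.rr x (h.mem x hx), tw_neg h1, tw_neg h3]

open Classical in
/-- the loop at the left corners -/
noncomputable def mm (M : Sf D) (K : Cv D) (z : ℤ) (s : D → G) (d : D) : G :=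
  if K.L d then (hol M K s d) ^ z else 1

lemma tw_mm (z : ℤ) (s : D → G) (d : D) : tw M K z s d = s d * (mm M K z s d)⁻¹ := by
  by_cases h : K.L d
  · rw [tw_pos h]
    unfold mm
    rw [if_pos h, zpow_neg]
  · rw [tw_neg h]
    unfold mm
    rw [if_neg h]
    group

/-- the transport along the other darts -/
lemma LR.hh_off (hM : M.Ok) (h : LR M K) (z : ℤ) (s : D → G) {d : D} (hd : d ∈ M.A)
    (h1 : d ∉ K.c) (h2 : M.rev d ∉ K.c) :
    M.hh (tw M K z s) d = mm M K z s d * M.hh s d * (mm M K z s (M.rev d))⁻¹ := by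
  have hr := hM.mrev d hd
  have h5 := h.l5 (M.rev d) hr h2 (by rw [hM.rr d hd]; exact h1)
  have e : mm M K z s (M.cw (M.rev d)) = mm M K z s (M.rev d) := by
    unfold mm
    by_cases h6 : K.L (M.rev d)
    · rw [if_pos h6, if_pos (h5.2 h6)]
      obtain ⟨x, hx, hx2⟩ := h.l6 _ hr h6
      rw [h.hol_same s hx hx2 (Same.step hr)]
    · rw [if_neg h6, if_neg (fun h7 => h6 (h5.1 h7))]
  unfold Sf.hh
  rw [tw_mm, tw_mm, e]
  group

lemma LR.fl (hM : M.Ok) (h : LR M K) (z : ℤ) {s : D → G} (hF : M.Fl s) : M.Fl (tw M K z s) := by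
  intro d hd hdo
  by_cases h1 : d ∈ K.c
  · rw [h.hh_on hM z s h1, h.hh_onr hM z s h1]
    exact hF d hd hdo
  · by_cases h2 : M.rev d ∈ K.c
    · rw [h.hh_on hM z s h2]
      have h3 := h.hh_onr hM z s h2
      rw [hM.rr d hd] at h3
      rw [h3]
      exact hF d hd hdo
    · rw [h.hh_off hM z s hd h1 h2, h.hh_off hM z s (hM.mrev d hd) h2 (by rwa [hM.rr d hd]),
        hM.rr d hd, hF d hd hdo]
      group

lemma LR.zz (hM : M.Ok) (h : LR M K) (z : ℤ) (s : D → G) : M.zz (tw M K z s) = M.zz s := by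
  have h1 : ¬ K.L M.o := by
    intro h1
    obtain ⟨x, hx, hx2⟩ := h.l6 _ hM.ho h1
    exact h.base x hx hx2.symm
  have h2 : ¬ K.L (M.cw M.o) := by
    intro h1
    obtain ⟨x, hx, hx2⟩ := h.l6 _ (hM.hm _ hM.ho) h1
    exact h.base x hx ((Same.step hM.ho).trans hx2.symm)
  unfold Sf.zz
  rw [tw_neg h1, tw_neg h2]

/-- telescoping along a path -/
lemma tel (hM : M.Ok) {s1 s2 φ γ : D → G} (h1 : ∀ d ∈ M.A, φ (M.fc d) = φ d)
    (h2 : ∀ d ∈ M.A, γ (M.cw d) = γ d) (h4 : ∀ d ∈ M.A, s2 d = φ d * s1 d * (γ d)⁻¹)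
    (l : List D) (a b : D) (ha : ∀ x ∈ a :: l, x ∈ M.A)
    (hc : List.IsChain (fun a b => Same M.A M.cw (M.rev a) b) (a :: (l ++ [b]))) :
    ((a :: l).map (M.hh s2)).prod = γ a * ((a :: l).map (M.hh s1)).prod * (γ b)⁻¹ := by
  induction l generalizing a with
  | nil =>
    rw [List.nil_append, List.isChain_cons_cons] at hc
    rw [List.map_singleton, List.map_singleton, List.prod_singleton, List.prod_singleton,
      Sf.hh_gauge hM h1 h2 h4 (ha a (by simp)), hc.1.val h2]
  | cons c l ih =>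
    rw [List.cons_append, List.isChain_cons_cons] at hc
    have h5 := ih c (fun x hx => ha x (List.mem_cons_of_mem _ hx)) hc.2
    rw [List.map_cons, List.prod_cons, h5, List.map_cons, List.prod_cons,
      Sf.hh_gauge hM h1 h2 h4 (ha a (by simp)), hc.1.val h2]
    simp only [List.map_cons, List.prod_cons]
    group

lemma LR.hol_gauge (hM : M.Ok) (h : LR M K) {s1 s2 φ γ : D → G}
    (h1 : ∀ d ∈ M.A, φ (M.fc d) = φ d)
    (h2 : ∀ d ∈ M.A, γ (M.cw d) = γ d) (h4 : ∀ d ∈ M.A, s2 d = φ d * s1 d * (γ d)⁻¹)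
    {d x : D} (hx : x ∈ K.c) (hs : Same M.A M.cw x d) :
    hol M K s2 d = γ d * hol M K s1 d * (γ d)⁻¹ := by
  obtain ⟨l, hl⟩ := h.ex hx
  rw [h.hol_eq s2 (hl.same hs), h.hol_eq s1 (hl.same hs)]
  have h5 := h.isChain hl.1
  have h6 := tel hM h1 h2 h4 l x x (fun y hy => h.mem y (hl.1.mem_iff.2 hy)) h5
  rw [h6, hs.val h2]

/-- equivariance of the twist -/
lemma LR.eqv (hM : M.Ok) (h : LR M K) (z : ℤ) {x : G} {s1 s2 : D → G} (he : M.Eqv x s1 s2) :
    M.Eqv x (tw M K z s1) (tw M K z s2) := by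
  obtain ⟨φ, γ, h1, h2, h3, h4⟩ := he
  refine ⟨φ, γ, h1, h2, h3, fun d hd => ?_⟩
  by_cases h5 : K.L d
  · obtain ⟨y, hy, hy2⟩ := h.l6 d hd h5
    rw [tw_pos h5, tw_pos h5, h.hol_gauge hM h1 h2 h4 hy hy2, h4 d hd, conj_zpow]
    group
  · rw [tw_neg h5, tw_neg h5]
    exact h4 d hd

lemma hol_tw (hM : M.Ok) (h : LR M K) (z : ℤ) (s : D → G) (d : D) :
    hol M K (tw M K z s) d = hol M K s d := by
  by_cases h1 : ∃ w, Rt M K d w
  · obtain ⟨w, hw⟩ := h1
    rw [h.hol_eq _ hw, h.hol_eq _ hw]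
    congr 1
    refine List.map_congr_left fun x hx => ?_
    exact h.hh_on hM z s (hw.1.mem_iff.2 hx)
  · unfold hol
    rw [dif_neg h1, dif_neg h1]

/-- the powers of the twist -/
lemma LR.tw_tw (hM : M.Ok) (h : LR M K) (z z' : ℤ) (s : D → G) (d : D) :
    tw M K z (tw M K z' s) d = tw M K (z + z') s d := by
  by_cases h1 : K.L d
  · rw [tw_pos h1, tw_pos h1, tw_pos h1, hol_tw hM h, neg_add_rev, zpow_add, mul_assoc]
  · rw [tw_neg h1, tw_neg h1, tw_neg h1]

lemma tw_zero (s : D → G) (d : D) : tw M K 0 s d = s d := by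
  by_cases h1 : K.L d
  · rw [tw_pos h1]
    simp
  · rw [tw_neg h1]

lemma hol_map (θ : G →* H) (s : D → G) (d : D) :
    hol M K (fun d => θ (s d)) d = θ (hol M K s d) := by
  by_cases h1 : ∃ w, Rt M K d w
  · unfold hol
    rw [dif_pos h1, dif_pos h1, map_list_prod, List.map_map]
    congr 1
    refine List.map_congr_left fun x hx => ?_
    exact Sf.hh_map θ s x
  · unfold hol
    rw [dif_neg h1, dif_neg h1, map_one]

lemma tw_map (θ : G →* H) (z : ℤ) (s : D → G) :
    tw M K z (fun d => θ (s d)) = fun d => θ (tw M K z s d) := by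
  funext d
  by_cases h1 : K.L d
  · rw [tw_pos h1, tw_pos h1, hol_map, map_mul, map_zpow]
  · rw [tw_neg h1, tw_neg h1]

/-- the transport along the curve -/
def lp (M : Sf D) (K : Cv D) (s : D → G) : G := (K.c.map (M.hh s)).prod

lemma lp_map (θ : G →* H) (s : D → G) : lp M K (fun d => θ (s d)) = θ (lp M K s) := by
  unfold lp
  rw [map_list_prod, List.map_map]
  congr 1
  refine List.map_congr_left fun x hx => ?_
  exact Sf.hh_map θ s x

lemma LR.lp_gauge (hM : M.Ok) (h : LR M K) {x : G} {s1 s2 : D → G} (he : M.Eqv x s1 s2) :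
    ∃ y : G, lp M K s2 = y * lp M K s1 * y⁻¹ := by
  obtain ⟨φ, γ, h1, h2, h3, h4⟩ := he
  cases h5 : K.c with
  | nil => exact absurd h5 h.ne
  | cons a l =>
    refine ⟨γ a, ?_⟩
    unfold lp
    have h6 : K.c ~r (a :: l) := by rw [h5]
    have h7 := h.isChain h6
    have h8 := tel hM h1 h2 h4 l a a (fun y hy => h.mem y (h6.mem_iff.2 hy)) h7
    rw [h5]
    exact h8

lemma LR.lp_one (hM : M.Ok) (h : LR M K) {x : G} {s1 s2 : D → G} (he : M.Eqv x s1 s2) :
    lp M K s2 = 1 ↔ lp M K s1 = 1 := by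
  obtain ⟨y, hy⟩ := h.lp_gauge hM he
  rw [hy]
  constructor
  · intro h1
    have h2 : y * lp M K s1 = y := by
      rw [← mul_inv_eq_one]
      exact h1
    exact mul_eq_left.1 h2
  · intro h1
    rw [h1]
    group

/-- rotation and triviality -/
lemma prod_rot_one {f : D → G} {c w : List D} (h : c ~r w) :
    (c.map f).prod = 1 ↔ (w.map f).prod = 1 := by
  obtain ⟨n, hn, h2⟩ := List.isRotated_iff_mod.1 h
  rw [List.rotate_eq_drop_append_take hn] at h2
  have h3 := List.take_append_drop n c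
  rw [← h2, List.map_append, List.prod_append]
  conv_lhs => rw [← h3, List.map_append, List.prod_append]
  generalize (List.map f (List.drop n c)).prod = a
  generalize (List.map f (List.take n c)).prod = b
  rw [mul_eq_one_iff_eq_inv, mul_eq_one_iff_inv_eq]
  exact eq_comm

end Pool.Agent.V8H82.PF
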