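import Pool.Agent.V8H82.PF.Relab

/-!
# A uniform bound for all the families of `m` curves
-/

set_option autoImplicit false
set_option linter.unusedVariables false
set_option linter.unusedSectionVars false

namespace Pool.Agent.V8H82.PF

open Finset List

instance (k : ℕ) : Finite (Sf (Fin k)) := by
  refine Finite.of_injective (β := Finset (Fin k) × (Fin k → Fin k) × (Fin k → Fin k) × Fin k)
    (fun M => (M.A, M.cw, M.rev, M.o)) fun M M' h => ?_
  obtain ⟨A, cw, rev, o⟩ := M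
  obtain ⟨A', cw', rev', o'⟩ := M'
  simp only [Prod.mk.injEq] at h
  obtain ⟨rfl, rfl, rfl, rfl⟩ := h
  rfl

instance (k : ℕ) : Finite {K : Cv (Fin k) // K.c.Nodup} := by
  refine Finite.of_injective (β := {l : List (Fin k) // l.Nodup} × (Fin k → Prop))
    (fun K => (⟨K.1.c, K.2⟩, K.1.L)) fun K K' h => ?_
  obtain ⟨⟨c, L⟩, hK⟩ := K
  obtain ⟨⟨c', L'⟩, hK'⟩ := K'
  simp only [Prod.mk.injEq, Subtype.mk.injEq] at h
  obtain ⟨rfl, rfl⟩ := h
  rfl

/-- the maximum over a finite type -/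
lemma fin_max {T : Type*} [Finite T] {P : T → ℕ → Prop} (hP : ∀ t, ∃ N, P t N)
    (hm : ∀ t N N', N ≤ N' → P t N → P t N') : ∃ N, ∀ t, P t N := by
  choose f hf using hP
  obtain ⟨N, hN⟩ := (Set.finite_range f).bddAbove
  exact ⟨N, fun t => hm t _ _ (hN ⟨t, rfl⟩) (hf t)⟩

lemma unif_k (g m k : ℕ) : ∃ N : ℕ, ∀ (M : Sf (Fin k)) (B : Fin m → Cv (Fin k)), Good g M B →
    (∀ i, Ess M (B i)) → ∀ w : List (Fin m), Rel M B w → w.length ≤ N := by
  obtain ⟨N, hN⟩ := fin_max (T := Sf (Fin k) × (Fin m → {K : Cv (Fin k) // K.c.Nodup}))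
    (P := fun t N => Good g t.1 (fun i => (t.2 i).1) → (∀ i, Ess t.1 (t.2 i).1) →
      ∀ w : List (Fin m), Rel t.1 (fun i => (t.2 i).1) w → w.length ≤ N) (fun t => by
      by_cases h1 : Good g t.1 (fun i => (t.2 i).1) ∧ ∀ i, Ess t.1 (t.2 i).1
      · obtain ⟨N, hN⟩ := one_bound h1.1 h1.2
        exact ⟨N, fun _ _ => hN⟩
      · exact ⟨0, fun h2 h3 => absurd ⟨h2, h3⟩ h1⟩)
    (fun t N N' hNN h1 h2 h3 w hw => (h1 h2 h3 w hw).trans hNN)
  exact ⟨N, fun M B h1 h2 w hw => hN (M, fun i => ⟨B i, (h1.lr i).nd⟩) h1 h2 w hw⟩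

/-- **A uniform bound for families of `m` curves.** -/
theorem unif (g m : ℕ) : ∃ N : ℕ, ∀ (D : Type) [DecidableEq D] (M : Sf D) (B : Fin m → Cv D),
    Good g M B → (∀ i, Ess M (B i)) → ∀ w : List (Fin m), Rel M B w → w.length ≤ N := by
  obtain ⟨N, hN⟩ := fin_max (T := Fin (6 * (m * m) + 4 * g + 2))
    (P := fun k N => ∀ (M : Sf (Fin k.1)) (B : Fin m → Cv (Fin k.1)), Good g M B →
      (∀ i, Ess M (B i)) → ∀ w : List (Fin m), Rel M B w → w.length ≤ N)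
    (fun k => unif_k g m k.1)
    (fun t N N' hNN h1 M B h2 h3 w hw => (h1 M B h2 h3 w hw).trans hNN)
  refine ⟨N, fun D _ M B h1 h2 w hw => ?_⟩
  obtain ⟨M', B', h3, h4, ⟨L⟩⟩ := h1.reduce
  have h5 := h3.size h4
  rw [Fintype.card_fin] at h5
  obtain ⟨M'', f, g', hR⟩ := exists_rb h3.ok
  exact hN ⟨M'.A.card, by omega⟩ M'' _ (hR.good h3) (fun i => hR.ess h3.ok (h3.lr i) (L.ess (h2 i)))
    w (hR.rel h3.ok h3.lr (L.rel hw))

end Pool.Agent.V8H82.PF
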